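import Pool.Agent.TwoClub.Good

/-!
The certificate constants when `#B ≤ #A` (the big class contains the vertex `v` not adjacent to
`A`): three regimes.
-/

namespace TwoClub

/-- regime `2 b + 4 ≤ a` -/
theorem Good.regI {a b : ℝ} (hb : 0 ≤ b) (h : 2 * b + 4 ≤ a) :
    ∃ XV XU XA XB : ℝ, Good a b (a + 2) (1 / 2) ((2 * b + 4) / a)
      (9 / 64 / (2 * (a + b) + 4) ^ 2) XV XU XA XB := by
  obtain ⟨e, he, rfl⟩ : ∃ e : ℝ, 0 ≤ e ∧ a = 2 * b + 4 + e := ⟨a - 2 * b - 4, by linarith, by ring⟩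
  have ha0 : 0 < 2 * b + 4 + e := by linarith
  have hN0 : 0 < 2 * (2 * b + 4 + e + b) + 4 := by linarith
  have hN1 : 0 < 6 * b + 12 + 2 * e := by linarith
  refine ⟨_, _, _, _, Good.mk' (xV := (185 / 51 * b * e + 61 / 17 * b ^ 2 + 247 / 306 * e ^ 2 +
    1979 / 102 * b + 2735 / 306 * e + 1247 / 51) / (6 * b + 12 + 2 * e)) (lam := 1)
    (xA := (2 * b + 4 + e) / (2 * (6 * b + 12 + 2 * e))) ha0.le hb rfl (by norm_num)
    (by positivity) (by norm_num) (by positivity) le_rfl ?_ ?_ ?_ ?_ ?_ ?_⟩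
  · field_simp; ring
  · field_simp; ring
  · rw [← sub_nonneg]
    have : 2 * (1 / 2 : ℝ) * (1 + 1 / 2) * ((185 / 51 * b * e + 61 / 17 * b ^ 2 +
        247 / 306 * e ^ 2 + 1979 / 102 * b + 2735 / 306 * e + 1247 / 51) /
        (6 * b + 12 + 2 * e)) - 1 = (185 / 34 * b * e + 183 / 34 * b ^ 2 + 247 / 204 * e ^ 2 +
        1571 / 68 * b + 2327 / 204 * e + 839 / 34) / (6 * b + 12 + 2 * e) := by
      field_simp; ring
    rw [this]
    positivity
  · intro _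
    apply le_of_eq
    field_simp; ring
  · intro _
    rw [← sub_nonneg]
    have : 2 * (1 + 1 / 2 : ℝ) * ((185 / 51 * b * e + 61 / 17 * b ^ 2 +
        247 / 306 * e ^ 2 + 1979 / 102 * b + 2735 / 306 * e + 1247 / 51) /
        (6 * b + 12 + 2 * e)) + b - (1 + (2 * (2 * b + 4 + e + b) + 4) / 3) =
        (83 / 17 * b * e + 81 / 17 * b ^ 2 + 37 / 34 * e ^ 2 + 551 / 34 * b + 899 / 102 * e +
        227 / 17) / (6 * b + 12 + 2 * e) := by
      field_simp; ring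
    rw [this]
    positivity
  · rw [← sub_pos]
    have : ∀ L R : ℝ, R - L = (67 / 102 * b * e ^ 2 + 3 * b ^ 2 * e + 117 / 17 * b ^ 3 +
        20 / 153 * e ^ 3 + 2041 / 102 * b * e + 1493 / 34 * b ^ 2 + 1121 / 306 * e ^ 2 +
        169 / 2 * b + 151 / 6 * e + 823 / 17) / (6 * b + 12 + 2 * e) → 0 < R - L := by
      intro L R h; rw [h]; positivity
    apply this
    field_simp; ring

/-- common part of the regimes with `mu = 1` -/
theorem Good.reg1 {a b th xV : ℝ} (ha : 0 ≤ a) (hb : 0 ≤ b) (hth : 0 ≤ th) (hxV : 0 ≤ xV)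
    (hlam : a ≤ 2 * b + 4)
    (hC : xV * ((1 + th) ^ 2 + 4 / 25) + (2 * b + 7 - a) / 3 + 3 * a / 2 + 3 * b / 2 +
      4 / 25 * ((2 * b + 7 - a) / 12 + a / 6 + b / 6) = 2 * (a + b) + 4)
    (hg : 1 ≤ 2 * th * (1 + th) * xV)
    (vB : 0 < b → 1 + (2 * (a + b) + 4) / 3 ≤ 2 * (1 + th) * xV + b)
    (star : (xV + (2 * b + 7 - a) / 12 + a / 6 + b / 6) *
        ((2 * (a + b) + 4) / 8 + 8 / 25 * (a + 2 + a + b)) <
      (2 * (a + b) + 4) * (2 * th * xV + (2 * b + 7 - a) / 6 + a + b) -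
        ((2 * b + 7 - a) / 3 + a - 1) * (2 * a + 1) - (2 * (1 + th) * xV + b - 1) * (2 * b + 1) -
        ((2 * b + 7 - a) / 3 - 1) * (a + 2 * b + 2) -
        (2 * th * (1 + th) * xV - 1) * (2 * a + b + 2)) :
    ∃ XV XU XA XB : ℝ, Good a b (a + 2) th 1 (4 / 25 / (2 * (a + b) + 4) ^ 2) XV XU XA XB := by
  refine ⟨_, _, _, _, Good.mk' (xV := xV) (lam := (2 * b + 7 - a) / 3) (xA := 1 / 6) ha hb rfl
    hth (by norm_num) (by norm_num) hxV (by linarith) (by norm_num) ?_ hg ?_ vB ?_⟩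
  · rw [← hC]; ring
  · intro _
    apply le_of_eq
    ring
  · refine lt_of_le_of_lt (le_of_eq ?_) (lt_of_lt_of_eq star ?_)
    · ring
    · ring

/-- regime `2 b - 5 ≤ a ≤ 2 b + 4`, `b ≤ a`, `1 ≤ a` -/
theorem Good.regII {a b : ℝ} (hb : 0 ≤ b) (hb1 : 0 < b → 1 ≤ b) (hab : b ≤ a) (ha : 1 ≤ a)
    (h1 : a ≤ 2 * b + 4) :
    ∃ XV XU XA XB : ℝ, Good a b (a + 2) (1 / 2) 1 (4 / 25 / (2 * (a + b) + 4) ^ 2)
      XV XU XA XB := by
  refine Good.reg1 (xV := 82 / 241 * a - 22 / 241 * b + 472 / 723) (by linarith) hb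
    (by norm_num) (by linarith) h1 ?_ ?_ ?_ ?_
  · ring
  · linarith
  · intro hb0
    have := hb1 hb0
    linarith
  · have e1 : 0 ≤ a * (2 * b + 4 - a) := mul_nonneg (by linarith) (by linarith)
    have e2 : 0 ≤ b * (a - b) := mul_nonneg hb (by linarith)
    have e3 : 0 ≤ a * b := mul_nonneg (by linarith) hb
    rw [← sub_pos]
    have : (2 * (a + b) + 4) * (2 * (1 / 2) * (82 / 241 * a - 22 / 241 * b + 472 / 723) +
        (2 * b + 7 - a) / 6 + a + b) -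
        ((2 * b + 7 - a) / 3 + a - 1) * (2 * a + 1) -
        (2 * (1 + 1 / 2) * (82 / 241 * a - 22 / 241 * b + 472 / 723) + b - 1) * (2 * b + 1) -
        ((2 * b + 7 - a) / 3 - 1) * (a + 2 * b + 2) -
        (2 * (1 / 2) * (1 + 1 / 2) * (82 / 241 * a - 22 / 241 * b + 472 / 723) - 1) *
          (2 * a + b + 2) -
        (82 / 241 * a - 22 / 241 * b + 472 / 723 + (2 * b + 7 - a) / 12 + a / 6 + b / 6) *
        ((2 * (a + b) + 4) / 8 + 8 / 25 * (a + 2 + a + b)) =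
        8827 / 11568 * (a * b) - 195 / 3856 * a ^ 2 - 875 / 2892 * b ^ 2 + 2893 / 3856 * a +
        7073 / 11568 * b + 1835 / 1928 := by ring
    rw [this]
    nlinarith

/-- regime `b ≤ a ≤ 2 b - 6` -/
theorem Good.regIII {a b : ℝ} (hab : b ≤ a) (hb6 : 6 ≤ b) (h1 : a ≤ 2 * b) :
    ∃ XV XU XA XB : ℝ, Good a b (a + 2) 1 1 (4 / 25 / (2 * (a + b) + 4) ^ 2)
      XV XU XA XB := by
  refine Good.reg1 (xV := 41 / 208 * a - 11 / 208 * b + 59 / 156) (by linarith) (by linarith)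
    (by norm_num) (by linarith) (by linarith) ?_ ?_ ?_ ?_
  · ring
  · linarith
  · intro hb0
    linarith
  · have e1 : 0 ≤ a * (2 * b - a) := mul_nonneg (by linarith) (by linarith)
    have e2 : 0 ≤ b * (a - b) := mul_nonneg (by linarith) (by linarith)
    have e3 : 0 ≤ a * b := mul_nonneg (by linarith) (by linarith)
    rw [← sub_pos]
    have : (2 * (a + b) + 4) * (2 * 1 * (41 / 208 * a - 11 / 208 * b + 59 / 156) +
        (2 * b + 7 - a) / 6 + a + b) -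
        ((2 * b + 7 - a) / 3 + a - 1) * (2 * a + 1) -
        (2 * (1 + 1) * (41 / 208 * a - 11 / 208 * b + 59 / 156) + b - 1) * (2 * b + 1) -
        ((2 * b + 7 - a) / 3 - 1) * (a + 2 * b + 2) -
        (2 * 1 * (1 + 1) * (41 / 208 * a - 11 / 208 * b + 59 / 156) - 1) *
          (2 * a + b + 2) -
        (41 / 208 * a - 11 / 208 * b + 59 / 156 + (2 * b + 7 - a) / 12 + a / 6 + b / 6) *
        ((2 * (a + b) + 4) / 8 + 8 / 25 * (a + 2 + a + b)) =
        1529 / 1248 * (a * b) - 309 / 832 * a ^ 2 - 1007 / 2496 * b ^ 2 + 79 / 416 * a +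
        1645 / 1248 * b + 55 / 52 := by ring
    rw [this]
    nlinarith

/-- `a = b = 0` -/
theorem Good.reg0 : ∃ XV XU XA XB : ℝ, Good 0 0 (0 + 2) 1 1 (4 / 25 / (2 * (0 + 0) + 4) ^ 2)
      XV XU XA XB := by
  refine Good.reg1 (xV := 59 / 156) le_rfl le_rfl (by norm_num) (by norm_num) (by norm_num)
    ?_ ?_ ?_ ?_
  · norm_num
  · norm_num
  · intro h
    exact absurd h (lt_irrefl _)
  · norm_num

/-- **constants for `#B ≤ #A`** -/
theorem Good.exists_of_le {a b : ℕ} (hab : b ≤ a) : ∃ th mu Ga XV XU XA XB : ℝ,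
    Good a b (a + 2) th mu Ga XV XU XA XB ∧ (th = 1 ∨ th = 1 / 2 ∧ 2 * b ≤ a + 5) ∧
      (mu = 1 ∨ mu * a = 2 * b + 4 ∧ 2 * b + 4 ≤ a) ∧
      1 ≤ 4 * Ga * (3 * a + 2 * b + 7) ^ 2 := by
  have hb : (0 : ℝ) ≤ b := Nat.cast_nonneg b
  have habR : (b : ℝ) ≤ a := by exact_mod_cast hab
  have hN : (0 : ℝ) < 2 * ((a : ℝ) + b) + 4 := by linarith
  have hG : 1 ≤ 4 * (4 / 25 / (2 * ((a : ℝ) + b) + 4) ^ 2) * (3 * a + 2 * b + 7) ^ 2 := by
    rw [← sub_nonneg]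
    have : 4 * (4 / 25 / (2 * ((a : ℝ) + b) + 4) ^ 2) * (3 * a + 2 * b + 7) ^ 2 - 1 =
        ((16 / 25 * (3 * a + 2 * b + 7) ^ 2) - (2 * (a + b) + 4) ^ 2) /
          (2 * ((a : ℝ) + b) + 4) ^ 2 := by
      field_simp
      ring
    rw [this]
    apply div_nonneg _ (by positivity)
    have : (2 * ((a : ℝ) + b) + 4) ≤ 4 / 5 * (3 * a + 2 * b + 7) := by linarith
    nlinarith
  rcases Nat.lt_or_ge a (2 * b + 4) with h | h
  · have h1 : (a : ℝ) ≤ 2 * b + 4 := by exact_mod_cast h.le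
    rcases Nat.lt_or_ge (a + 5) (2 * b) with h2 | h2
    · have h6 : 6 ≤ b := by omega
      obtain ⟨XV, XU, XA, XB, hg⟩ := Good.regIII (a := a) (b := b) habR (by exact_mod_cast h6)
        (by exact_mod_cast (by omega : a ≤ 2 * b))
      exact ⟨_, _, _, _, _, _, _, hg, Or.inl rfl, Or.inl rfl, hG⟩
    · rcases Nat.eq_zero_or_pos a with h3 | h3
      · have h4 : b = 0 := by omega
        subst h3; subst h4
        obtain ⟨XV, XU, XA, XB, hg⟩ := Good.reg0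
        refine ⟨1, 1, 4 / 25 / (2 * (((0 : ℕ) : ℝ) + ((0 : ℕ) : ℝ)) + 4) ^ 2, XV, XU, XA, XB, ?_,
          Or.inl rfl, Or.inl rfl, hG⟩
        simpa using hg
      · obtain ⟨XV, XU, XA, XB, hg⟩ := Good.regII (a := a) (b := b) hb
          (fun h => by exact_mod_cast h) habR (by exact_mod_cast h3) h1
        exact ⟨_, _, _, _, _, _, _, hg, Or.inr ⟨rfl, h2⟩, Or.inl rfl, hG⟩
  · have h1 : (2 : ℝ) * b + 4 ≤ a := by exact_mod_cast h
    obtain ⟨XV, XU, XA, XB, hg⟩ := Good.regI (a := a) (b := b) hb h1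
    have ha : (0 : ℝ) < a := by linarith
    refine ⟨_, _, _, _, _, _, _, hg, Or.inr ⟨rfl, by omega⟩, Or.inr ⟨?_, h⟩, ?_⟩
    · field_simp
    · rw [← sub_nonneg]
      have : 4 * (9 / 64 / (2 * ((a : ℝ) + b) + 4) ^ 2) * (3 * a + 2 * b + 7) ^ 2 - 1 =
          ((9 / 16 * (3 * a + 2 * b + 7) ^ 2) - (2 * (a + b) + 4) ^ 2) /
            (2 * ((a : ℝ) + b) + 4) ^ 2 := by
        field_simp
        ring
      rw [this]
      apply div_nonneg _ (by positivity)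
      have : (2 * ((a : ℝ) + b) + 4) ≤ 3 / 4 * (3 * a + 2 * b + 7) := by linarith
      nlinarith

end TwoClub
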