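import Pool.Agent.TwoClub.Good

/-!
The certificate constants in the mirrored range: `b < a`, the big class meets `W` in `b + 2`
vertices. Here `th = 1 / 2` and `Ga = 1 / (4 N ^ 2)` throughout, `N = 2 (a + b) + 4`.
-/

namespace TwoClub

/-- mirrored, `b + 1 ≤ a ≤ 2 b + 4` -/
theorem Good.mirI {a b : ℝ} (hb : b = 0 ∨ 1 ≤ b) (hab : b + 1 ≤ a) (ha : a ≤ 2 * b + 4) :
    Good a b (b + 2) (1 / 2) 1 (1 / (4 * (2 * (a + b) + 4) ^ 2))
      ((2 * (a + b) + 4) * (39 * a - 12 * b + 73) / 120)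
      ((2 * (a + b) + 4) * (2 * b + 7 - a) / 12) ((2 * (a + b) + 4) / 6)
      ((2 * (a + b) + 4) / 6) := by
  have hb0 : 0 ≤ b := by rcases hb with h | h <;> linarith
  obtain ⟨s, rfl⟩ : ∃ s, a = b + 1 + s := ⟨a - b - 1, by ring⟩
  have hs : 0 ≤ s := by linarith
  have hN : 0 < 2 * (b + 1 + s + b) + 4 := by linarith
  refine
    { nV := by
        have : 0 ≤ 39 * (b + 1 + s) - 12 * b + 73 := by linarith
        positivity
      nU := by
        have : 0 < 2 * b + 7 - (b + 1 + s) := by linarith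
        positivity
      nA := by positivity
      nB := by positivity
      nG := by positivity
      nth := by norm_num
      nmu := by norm_num
      hA := by ring
      hB := by ring
      hC := by field_simp; ring
      hf := by nlinarith
      hg := by nlinarith
      uA := fun _ => by nlinarith
      vB := fun hb1 => by
        have hb2 : 1 ≤ b := by
          rcases hb with h | h
          · linarith
          · exact h
        nlinarith
      star := ?_ }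
  set N := 2 * (b + 1 + s + b) + 4 with hNd
  have e1 : 4 * (N * (2 * b + 7 - (b + 1 + s)) / 12) / N = (2 * b + 7 - (b + 1 + s)) / 3 := by
    field_simp
    ring
  have e2 : 2 * (1 + 1 / 2) * (N * (39 * (b + 1 + s) - 12 * b + 73) / 120) / N =
      (39 * (b + 1 + s) - 12 * b + 73) / 40 := by
    field_simp
    ring
  have e3 : 2 * (1 / 2) * (1 + 1 / 2) * (N * (39 * (b + 1 + s) - 12 * b + 73) / 120) / N =
      (39 * (b + 1 + s) - 12 * b + 73) / 80 := by
    field_simp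
    ring
  have e4 : (N * (39 * (b + 1 + s) - 12 * b + 73) / 120 + N * (2 * b + 7 - (b + 1 + s)) / 12 +
      (b + 1 + s) * (N / 6) + b * (N / 6)) *
        (1 / 8 + 2 * (1 / (4 * N ^ 2)) * N * (b + 2 + (b + 1 + s) + b)) =
      ((39 * (b + 1 + s) - 12 * b + 73) / 120 + (2 * b + 7 - (b + 1 + s)) / 12 +
      (b + 1 + s) / 6 + b / 6) * (N / 8 + (b + 2 + (b + 1 + s) + b) / 2) := by
    field_simp
    ring
  rw [e1, e2, e3, e4, hNd]
  nlinarith [mul_nonneg hb0 hs, mul_nonneg hb0 hb0, mul_nonneg hs hs]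

/-- mirrored, `2 b + 4 ≤ a` -/
theorem Good.mirII {a b : ℝ} (hb0 : 0 ≤ b) (ha : 2 * b + 4 ≤ a) :
    Good a b (b + 2) (1 / 2) ((2 * b + 4) / a) (1 / (4 * (2 * (a + b) + 4) ^ 2))
      (((2 * (a + b) + 4) ^ 2 / 2 - (2 * (a + b) + 4) - 3 * b * (2 * (a + b) + 4) / 2 -
        ((2 * (a + b) + 4) / 4 + a ^ 2 / 2 + b * (2 * (a + b) + 4) / 6) / 4) * (2 / 5))
      ((2 * (a + b) + 4) / 4) (a / 2) ((2 * (a + b) + 4) / 6) := by
  obtain ⟨e, rfl⟩ : ∃ e, a = 2 * b + 4 + e := ⟨a - (2 * b + 4), by ring⟩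
  have he : 0 ≤ e := by linarith
  have ha0 : 0 < 2 * b + 4 + e := by linarith
  have hN : 0 < 2 * (2 * b + 4 + e + b) + 4 := by linarith
  have hXV : ((2 * (2 * b + 4 + e + b) + 4) ^ 2 / 2 - (2 * (2 * b + 4 + e + b) + 4) -
      3 * b * (2 * (2 * b + 4 + e + b) + 4) / 2 -
      ((2 * (2 * b + 4 + e + b) + 4) / 4 + (2 * b + 4 + e) ^ 2 / 2 +
        b * (2 * (2 * b + 4 + e + b) + 4) / 6) / 4) * (2 / 5) =
      (404 * (b * e) + 396 * b ^ 2 + 90 * e ^ 2 + 2166 * b + 1002 * e + 2748) / 120 := by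
    ring
  rw [hXV]
  have hbe : 0 ≤ b * e := mul_nonneg hb0 he
  have hmu : (2 * b + 4) / (2 * b + 4 + e) * (2 * b + 4 + e) = 2 * b + 4 := by
    field_simp
  refine
    { nV := by positivity
      nU := by positivity
      nA := by positivity
      nB := by positivity
      nG := by positivity
      nth := by norm_num
      nmu := by positivity
      hA := by field_simp; ring
      hB := by ring
      hC := by field_simp; ring
      hf := by nlinarith
      hg := by nlinarith [mul_nonneg hb0 hb0, mul_nonneg he he]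
      uA := fun _ => by
        have h1 : 2 * ((2 * b + 4) / (2 * b + 4 + e)) * ((2 * b + 4 + e) / 2) = 2 * b + 4 := by
          field_simp
        rw [h1, hmu]
        nlinarith
      vB := fun hb1 => by nlinarith [mul_nonneg hb0 hb0, mul_nonneg he he]
      star := ?_ }
  set N := 2 * (2 * b + 4 + e + b) + 4 with hNd
  set a := 2 * b + 4 + e with had
  set Z := (404 * (b * e) + 396 * b ^ 2 + 90 * e ^ 2 + 2166 * b + 1002 * e + 2748) / 120 with hZ
  have e1 : 4 * (N / 4) / N = 1 := by field_simp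
  have e0 : 2 * a * (1 + 2 * ((2 * b + 4) / a)) * (a / 2) = a ^ 2 + 2 * a * (2 * b + 4) := by
    field_simp
  have e4 : (Z + N / 4 + a * (a / 2) + b * (N / 6)) *
        (1 / 8 + 2 * (1 / (4 * N ^ 2)) * N * (b + 2 + a + b)) =
      (Z + N / 4 + a * (a / 2) + b * (N / 6)) * (N / 8 + (b + 2 + a + b) / 2) / N := by
    field_simp
    ring
  rw [e0, e1, e4, hmu, div_lt_iff₀ hN]
  have e5 : (2 * (1 / 2) * Z + 2 * (N / 4) + (a ^ 2 + 2 * a * (2 * b + 4)) + 6 * b * (N / 6) -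
      (1 + (2 * b + 4) - 1) * (2 * a + 1) - (2 * (1 + 1 / 2) * Z / N + b - 1) * (2 * b + 1) -
      (1 - 1) * (a + 2 * b + 2) - (2 * (1 / 2) * (1 + 1 / 2) * Z / N - 1) * (2 * a + b + 2)) * N =
      N * (Z + N / 2 + (a ^ 2 + 2 * a * (2 * b + 4)) + b * N -
      (2 * b + 4) * (2 * a + 1)) - (3 * Z + N * (b - 1)) * (2 * b + 1) -
      (3 / 2 * Z - N) * (2 * a + b + 2) := by
    field_simp
    ring
  rw [e5, ← sub_pos]
  have e6 : N * (Z + N / 2 + (a ^ 2 + 2 * a * (2 * b + 4)) + b * N -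
      (2 * b + 4) * (2 * a + 1)) - (3 * Z + N * (b - 1)) * (2 * b + 1) -
      (3 / 2 * Z - N) * (2 * a + b + 2) -
      (Z + N / 4 + a * (a / 2) + b * (N / 6)) * (N / 8 + (b + 2 + a + b) / 2) =
      311 / 240 * (b * e) * e + 61 / 20 * b ^ 2 * e + 237 / 40 * b ^ 3 + 5 / 16 * e ^ 3 +
      959 / 40 * (b * e) + 3297 / 80 * b ^ 2 + 471 / 80 * e ^ 2 + 351 / 4 * b + 135 / 4 * e +
      1161 / 20 := by
    rw [hNd, had, hZ]
    ring
  rw [e6]
  positivity

/-- **constants for `#B < #A`, mirrored**: `th = 1 / 2`, `Ga = 1 / (4 N ^ 2)` -/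
theorem Good.exists_mirror {a b : ℕ} (h : b < a) :
    ∃ mu XV XU XA XB : ℝ, Good a b (b + 2) (1 / 2) mu (1 / (4 * (2 * ((a : ℝ) + b) + 4) ^ 2))
      XV XU XA XB ∧ (mu = 1 ∨ mu * a = 2 * b + 4 ∧ 2 * b + 4 ≤ a) := by
  rcases le_total a (2 * b + 4) with h1 | h1
  · refine ⟨1, _, _, _, _, Good.mirI (a := (a : ℝ)) (b := (b : ℝ)) ?_ ?_ ?_, Or.inl rfl⟩
    · rcases Nat.eq_zero_or_pos b with h0 | h0
      · left; exact_mod_cast h0
      · right; exact_mod_cast h0
    · exact_mod_cast h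
    · exact_mod_cast h1
  · have h2 : (2 * b + 4 : ℝ) ≤ a := by exact_mod_cast h1
    have hb : (0 : ℝ) ≤ b := Nat.cast_nonneg b
    refine ⟨_, _, _, _, _, Good.mirII hb h2, Or.inr ⟨?_, h1⟩⟩
    have : (a : ℝ) ≠ 0 := by linarith
    field_simp

/-- the same in the form of `Good.exists_of_le` -/
theorem Good.exists_of_lt {a b : ℕ} (h : b < a) : ∃ th mu Ga XV XU XA XB : ℝ,
    Good a b (b + 2) th mu Ga XV XU XA XB ∧ th = 1 / 2 ∧
      (mu = 1 ∨ mu * a = 2 * b + 4 ∧ 2 * b + 4 ≤ a) ∧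
      1 ≤ 4 * Ga * (2 * a + 3 * b + 7) ^ 2 := by
  obtain ⟨mu, XV, XU, XA, XB, hg, hmu⟩ := Good.exists_mirror h
  refine ⟨_, mu, _, XV, XU, XA, XB, hg, rfl, hmu, ?_⟩
  have ha : (0 : ℝ) ≤ a := Nat.cast_nonneg a
  have hb : (0 : ℝ) ≤ b := Nat.cast_nonneg b
  have hN : (0 : ℝ) < 2 * ((a : ℝ) + b) + 4 := by linarith
  have e : 4 * (1 / (4 * (2 * ((a : ℝ) + b) + 4) ^ 2)) * (2 * a + 3 * b + 7) ^ 2 =
      ((2 * a + 3 * b + 7) / (2 * ((a : ℝ) + b) + 4)) ^ 2 := by
    field_simp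
  rw [e]
  have h1 : (1 : ℝ) ≤ (2 * a + 3 * b + 7) / (2 * ((a : ℝ) + b) + 4) := by
    rw [le_div_iff₀ hN]
    linarith
  nlinarith

end TwoClub
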