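import Mathlib

/-!
Numerical level conditions of the rounding theorem `Solid.wtest` for the tests of the certificate.
`a = #A`, `b = #B`, `i = #I`, `k = #K` (`K` the big independent set).
-/

namespace TwoClub

/-- level conditions: `s`, `sI`, `sK` sums of the test over `W`, `W ∩ I`, `W ∩ K`; `N = #W`,
`io = #(I \ W)`, `ka = #(K \ W)`, `om = N + io` -/
structure Lev (s sI sK N io ka om : ℝ) : Prop where
  I1 : s / N * io + 1 ≤ io
  I0 : (∃ k : ℤ, sI = k) ∨ (sI ≤ 1 ∧ 1 ≤ sI + s / N * io)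
  K1 : (s / N + 1 / om) * ka + 1 ≤ ka
  K0 : (∃ k : ℤ, sK = k) ∨ (sK ≤ 1 ∧ 1 ≤ sK + s / om * ka)

/-- sizes of the configuration -/
structure Siz (a b i k : ℕ) (N io ka om : ℝ) : Prop where
  hk : i + (a + b) + 3 ≤ k
  hi : a + b + 5 ≤ i
  hN : N = 2 * ((a : ℝ) + b) + 4
  hio : io = i - 2 - b
  hka : ka = k - 2 - a
  hom : om = N + io

namespace Siz

variable {a b i k : ℕ} {N io ka om : ℝ}

theorem real (h : Siz a b i k N io ka om) : (0 : ℝ) ≤ a ∧ (0 : ℝ) ≤ b ∧ a + 3 ≤ io ∧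
    io + 2 * b + 3 ≤ ka ∧ 4 ≤ N ∧ N = 2 * a + 2 * b + 4 ∧ om = 2 * a + 2 * b + 4 + io := by
  have h1 : (i : ℝ) + (a + b) + 3 ≤ k := by exact_mod_cast h.hk
  have h2 : (a : ℝ) + b + 5 ≤ i := by exact_mod_cast h.hi
  have ha : (0 : ℝ) ≤ a := Nat.cast_nonneg a
  have hb : (0 : ℝ) ≤ b := Nat.cast_nonneg b
  have e1 := h.hN
  have e2 := h.hio
  have e3 := h.hka
  have e4 := h.hom
  refine ⟨ha, hb, by linarith, by linarith, by linarith, by linarith, by linarith⟩

/-- upper levels -/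
theorem upper (h : Siz a b i k N io ka om) {s : ℝ} (hs : 2 * s ≤ N) :
    s / N * io + 1 ≤ io ∧ (s / N + 1 / om) * ka + 1 ≤ ka := by
  obtain ⟨ha, hb, h1, h2, h3, h4, h5⟩ := h.real
  have hN : 0 < N := by linarith
  have e1 : s / N ≤ 1 / 2 := by
    rw [div_le_iff₀ hN]; linarith
  have hio : 3 ≤ io := by linarith
  have hka : 6 ≤ ka := by linarith
  have e2 : 1 / om ≤ 1 / 4 := by
    apply one_div_le_one_div_of_le (by norm_num)
    linarith
  constructor
  · nlinarith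
  · nlinarith

theorem mk_lev (h : Siz a b i k N io ka om) {s sI sK : ℝ} (hs : 2 * s ≤ N)
    (h1 : (∃ k : ℤ, sI = k) ∨ (sI ≤ 1 ∧ 1 ≤ sI + s / N * io))
    (h2 : (∃ k : ℤ, sK = k) ∨ (sK ≤ 1 ∧ 1 ≤ sK + s / om * ka)) :
    Lev s sI sK N io ka om :=
  ⟨(h.upper hs).1, h1, (h.upper hs).2, h2⟩

theorem isInt : ∃ k : ℤ, (1 : ℝ) = k := ⟨1, by norm_num⟩

/-- test `V`, `#B ≤ #A` -/
theorem levV (h : Siz a b i k N io ka om) {th : ℝ}
    (hth : th = 1 ∨ th = 1 / 2 ∧ 2 * b ≤ a + 5) : Lev (1 + th) th 1 N io ka om := by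
  obtain ⟨ha, hb, h1, h2, h3, h4, h5⟩ := h.real
  rcases hth with rfl | ⟨rfl, h6⟩
  · exact h.mk_lev (by linarith) (Or.inl isInt) (Or.inl isInt)
  · have h7 : (2 : ℝ) * b ≤ a + 5 := by exact_mod_cast h6
    refine h.mk_lev (by linarith) (Or.inr ⟨by norm_num, ?_⟩) (Or.inl isInt)
    have hN : 0 < N := by linarith
    have e1 : (1 + 1 / 2 : ℝ) / N * io = (3 * io) / (2 * N) := by field_simp; ring
    have e2 : 1 / 2 ≤ (3 * io) / (2 * N) := by
      rw [div_le_div_iff₀ (by norm_num) (by linarith)]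
      linarith
    linarith

/-- test `U` -/
theorem levU (h : Siz a b i k N io ka om) : Lev 2 1 1 N io ka om := by
  obtain ⟨ha, hb, h1, h2, h3, h4, h5⟩ := h.real
  exact h.mk_lev (by linarith) (Or.inl isInt) (Or.inl isInt)

/-- tests `A_w`, `#B ≤ #A` -/
theorem levA (h : Siz a b i k N io ka om) (ha0 : 0 < a) {mu : ℝ}
    (hmu : mu = 1 ∨ mu * a = 2 * b + 4 ∧ 2 * b + 4 ≤ a) : Lev (2 + mu) mu 1 N io ka om := by
  obtain ⟨ha, hb, h1, h2, h3, h4, h5⟩ := h.real
  have ha1 : (1 : ℝ) ≤ a := by exact_mod_cast ha0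
  rcases hmu with rfl | ⟨h6, h7⟩
  · exact h.mk_lev (by linarith) (Or.inl isInt) (Or.inl isInt)
  · have h8 : (2 : ℝ) * b + 4 ≤ a := by exact_mod_cast h7
    have hm1 : mu ≤ 1 := by
      by_contra hc
      push Not at hc
      nlinarith
    have hm0 : 0 ≤ mu := by
      by_contra hc
      push Not at hc
      nlinarith
    refine h.mk_lev (by linarith) (Or.inr ⟨hm1, ?_⟩) (Or.inl isInt)
    have hN : 0 < N := by linarith
    have e1 : 1 ≤ (2 + mu) / N * io := by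
      rw [div_mul_eq_mul_div, le_div_iff₀ hN]
      have e3 : (2 + mu) * a = N := by rw [h4]; linarith
      have e4 : (2 + mu) * a ≤ (2 + mu) * io := mul_le_mul_of_nonneg_left (by linarith) (by linarith)
      linarith
    linarith

/-- tests `B_w` -/
theorem levB (h : Siz a b i k N io ka om) (hab : 0 < a + b) : Lev 3 1 1 N io ka om := by
  obtain ⟨ha, hb, h1, h2, h3, h4, h5⟩ := h.real
  have ha1 : (1 : ℝ) ≤ (a : ℝ) + b := by exact_mod_cast hab
  exact h.mk_lev (by linarith) (Or.inl isInt) (Or.inl isInt)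

/-- test `V`, mirrored -/
theorem levV' (h : Siz a b i k N io ka om) {th : ℝ} (hth : th = 1 / 2) :
    Lev (1 + th) 1 th N io ka om := by
  obtain ⟨ha, hb, h1, h2, h3, h4, h5⟩ := h.real
  subst hth
  refine h.mk_lev (by linarith) (Or.inl isInt) (Or.inr ⟨by norm_num, ?_⟩)
  have hom : 0 < om := by linarith
  have e1 : (1 + 1 / 2 : ℝ) / om * ka = (3 * ka) / (2 * om) := by field_simp; ring
  have e2 : 1 / 2 ≤ (3 * ka) / (2 * om) := by
    rw [div_le_div_iff₀ (by norm_num) (by linarith)]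
    linarith
  linarith

/-- tests `A_w`, mirrored -/
theorem levA' (h : Siz a b i k N io ka om) (hb0 : 0 < b) {mu : ℝ}
    (hmu : mu = 1 ∨ mu * b = 2 * a + 4 ∧ 2 * a + 4 ≤ b) : Lev (2 + mu) 1 mu N io ka om := by
  obtain ⟨ha, hb, h1, h2, h3, h4, h5⟩ := h.real
  have hb1 : (1 : ℝ) ≤ b := by exact_mod_cast hb0
  rcases hmu with rfl | ⟨h6, h7⟩
  · exact h.mk_lev (by linarith) (Or.inl isInt) (Or.inl isInt)
  · have h8 : (2 : ℝ) * a + 4 ≤ b := by exact_mod_cast h7
    have hm1 : mu ≤ 1 := by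
      by_contra hc
      push Not at hc
      nlinarith
    have hm0 : 0 ≤ mu := by
      by_contra hc
      push Not at hc
      nlinarith
    refine h.mk_lev (by linarith) (Or.inl isInt) (Or.inr ⟨hm1, ?_⟩)
    have hom : 0 < om := by linarith
    have e1 : 1 ≤ (2 + mu) / om * ka := by
      rw [div_mul_eq_mul_div, le_div_iff₀ hom]
      have e4 : 2 * ka ≤ (2 + mu) * ka := mul_le_mul_of_nonneg_right (by linarith) (by linarith)
      linarith
    linarith

/-- the rounding constant, both orientations -/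
theorem gam (h : Siz a b i k N io ka om) {Ga : ℝ}
    (hG : 1 ≤ 4 * Ga * (3 * a + 2 * b + 7) ^ 2) : 1 / (4 * om ^ 2) ≤ Ga := by
  obtain ⟨ha, hb, h1, h2, h3, h4, h5⟩ := h.real
  have hom : 0 < om := by linarith
  have hG0 : 0 ≤ Ga := by
    by_contra hc
    push Not at hc
    have : 0 < (3 * (a : ℝ) + 2 * b + 7) ^ 2 := by positivity
    nlinarith
  rw [div_le_iff₀ (by positivity)]
  have e1 : (3 * (a : ℝ) + 2 * b + 7) ^ 2 ≤ om ^ 2 := by
    apply pow_le_pow_left₀ (by positivity)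
    linarith
  have e2 := mul_le_mul_of_nonneg_left e1 hG0
  linarith

end Siz

end TwoClub
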