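import Pool.Agent.TwoClub.HalfSets

/-!
Lemma L: pipage rounding inside two independent sets.  If `G[U]` is solid, `R₁, R₂ ⊆ U` are
disjoint independent sets and `0 ≤ f ≤ 1` is integral outside `R₁ ∪ R₂` with integral sums over
`R₁` and over `R₂`, then the quadratic form at `f - p` (`p` the mean of `f`) is negative.
-/

namespace TwoClub

open Finset

variable {V : Type*} {G : SimpleGraph V}

/-- rounding inside one independent set -/
theorem pipage_one [DecidableEq V] {U R : Finset V} (hR : R ⊆ U) (hi : Ind G R) (p : ℝ) :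
    ∀ n : ℕ, ∀ f : V → ℝ, #(R.filter fun z => f z ≠ 0 ∧ f z ≠ 1) ≤ n →
      (∀ z ∈ R, 0 ≤ f z ∧ f z ≤ 1) → (∃ k : ℤ, ∑ z ∈ R, f z = k) →
      ∃ g : V → ℝ, (∀ z ∈ R, g z = 0 ∨ g z = 1) ∧ (∑ z ∈ R, g z = ∑ z ∈ R, f z) ∧
        (∀ z, z ∉ R → g z = f z) ∧
        BF G U (fun x => f x - p) (fun x => f x - p) ≤
          BF G U (fun x => g x - p) (fun x => g x - p) := by
  intro n
  induction n with
  | zero =>
    intro f hc h01 hsum
    refine ⟨f, fun z hz => ?_, rfl, fun _ _ => rfl, le_refl _⟩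
    by_contra hcon
    push Not at hcon
    have : z ∈ R.filter fun z => f z ≠ 0 ∧ f z ≠ 1 := Finset.mem_filter.mpr ⟨hz, hcon⟩
    have := Finset.card_pos.mpr ⟨z, this⟩
    omega
  | succ n ih =>
    intro f hc h01 hsum
    by_cases hex : ∃ a ∈ R, f a ≠ 0 ∧ f a ≠ 1
    swap
    · push Not at hex
      refine ⟨f, fun z hz => ?_, rfl, fun _ _ => rfl, le_refl _⟩
      by_cases h0 : f z = 0
      · exact Or.inl h0
      · exact Or.inr (hex z hz h0)
    obtain ⟨a, ha, ha0, ha1⟩ := hex
    -- a second fractional vertex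
    have hex2 : ∃ b ∈ R, b ≠ a ∧ f b ≠ 0 ∧ f b ≠ 1 := by
      by_contra hcon
      push Not at hcon
      have hint : ∃ k : ℤ, ∑ z ∈ R.erase a, f z = k := by
        have : ∀ z ∈ R.erase a, ∃ k : ℤ, f z = k := by
          intro z hz
          by_cases h0 : f z = 0
          · exact ⟨0, by rw [h0]; simp⟩
          · exact ⟨1, by rw [hcon z (Finset.mem_of_mem_erase hz) (Finset.ne_of_mem_erase hz) h0]; simp⟩
        choose! k hk using this
        exact ⟨∑ z ∈ R.erase a, k z, by rw [Finset.sum_congr rfl hk]; push_cast; rfl⟩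
      obtain ⟨k, hk⟩ := hsum
      obtain ⟨l, hl⟩ := hint
      have e := Finset.add_sum_erase R f ha
      rw [hk, hl] at e
      have e2 : f a = ((k - l : ℤ) : ℝ) := by push_cast; linarith
      have h1 := (h01 a ha).1
      have h2 := (h01 a ha).2
      rw [e2] at h1 h2 ha0 ha1
      have h3 : 0 ≤ k - l := by exact_mod_cast h1
      have h4 : k - l ≤ 1 := by exact_mod_cast h2
      have h5 : k - l = 0 ∨ k - l = 1 := by omega
      rcases h5 with h5 | h5
      · rw [h5] at ha0; simp at ha0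
      · rw [h5] at ha1; simp at ha1
    obtain ⟨b, hb, hne, hb0, hb1⟩ := hex2
    have hn : ¬ G.Adj a b := hi a ha b hb
    have ha01 := h01 a ha
    have hb01 := h01 b hb
    have hapos : 0 < f a := lt_of_le_of_ne ha01.1 (Ne.symm ha0)
    have hbpos : 0 < f b := lt_of_le_of_ne hb01.1 (Ne.symm hb0)
    have halt : f a < 1 := lt_of_le_of_ne ha01.2 ha1
    have hblt : f b < 1 := lt_of_le_of_ne hb01.2 hb1
    -- the choice of `t`
    obtain ⟨t, ht, htL⟩ : ∃ t : ℝ, (t = min (1 - f a) (f b) ∨ t = - min (f a) (1 - f b)) ∧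
        0 ≤ t * BF G U (fun x => f x - p) (dl a b) := by
      by_cases hL : 0 ≤ BF G U (fun x => f x - p) (dl a b)
      · exact ⟨min (1 - f a) (f b), Or.inl rfl,
          mul_nonneg (le_min (by linarith) (by linarith)) hL⟩
      · push Not at hL
        refine ⟨- min (f a) (1 - f b), Or.inr rfl, ?_⟩
        have : 0 ≤ min (f a) (1 - f b) := le_min (by linarith) (by linarith)
        nlinarith
    set f' : V → ℝ := fun x => f x + t * dl a b x with hf'
    have e_a : f' a = f a + t := by simp [hf', dl, hne.symm]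
    have e_b : f' b = f b - t := by simp [hf', dl, hne]; ring
    have e_o : ∀ z, z ≠ a → z ≠ b → f' z = f z := by
      intro z h1 h2; simp [hf', dl, h1, h2]
    have hbd : 0 ≤ f' a ∧ f' a ≤ 1 ∧ 0 ≤ f' b ∧ f' b ≤ 1 := by
      rw [e_a, e_b]
      rcases ht with rfl | rfl
      · have h1 := min_le_left (1 - f a) (f b)
        have h2 := min_le_right (1 - f a) (f b)
        have h3 : 0 ≤ min (1 - f a) (f b) := le_min (by linarith) (by linarith)
        exact ⟨by linarith, by linarith, by linarith, by linarith⟩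
      · have h1 := min_le_left (f a) (1 - f b)
        have h2 := min_le_right (f a) (1 - f b)
        have h3 : 0 ≤ min (f a) (1 - f b) := le_min (by linarith) (by linarith)
        exact ⟨by linarith, by linarith, by linarith, by linarith⟩
    have hfix : (f' a = 0 ∨ f' a = 1) ∨ (f' b = 0 ∨ f' b = 1) := by
      rw [e_a, e_b]
      rcases ht with rfl | rfl
      · rcases min_choice (1 - f a) (f b) with h | h <;> rw [h]
        · left; right; ring
        · right; left; ring
      · rcases min_choice (f a) (1 - f b) with h | h <;> rw [h]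
        · left; left; ring
        · right; right; ring
    have hcard : #(R.filter fun z => f' z ≠ 0 ∧ f' z ≠ 1) ≤ n := by
      have hsub0 : ∀ z ∈ R, f' z ≠ 0 ∧ f' z ≠ 1 → f z ≠ 0 ∧ f z ≠ 1 := by
        intro z hz h
        by_cases hza : z = a
        · rw [hza]; exact ⟨ha0, ha1⟩
        by_cases hzb : z = b
        · rw [hzb]; exact ⟨hb0, hb1⟩
        rwa [e_o z hza hzb] at h
      rcases hfix with hfa | hfb
      · have hsub : (R.filter fun z => f' z ≠ 0 ∧ f' z ≠ 1) ⊆
            (R.filter fun z => f z ≠ 0 ∧ f z ≠ 1).erase a := by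
          intro z hz
          obtain ⟨hzP, hz01⟩ := Finset.mem_filter.mp hz
          have hza : z ≠ a := by
            rintro rfl
            rcases hfa with h | h
            · exact hz01.1 h
            · exact hz01.2 h
          exact Finset.mem_erase.mpr ⟨hza, Finset.mem_filter.mpr ⟨hzP, hsub0 z hzP hz01⟩⟩
        have hamem : a ∈ R.filter fun z => f z ≠ 0 ∧ f z ≠ 1 :=
          Finset.mem_filter.mpr ⟨ha, ha0, ha1⟩
        have h1 := Finset.card_le_card hsub
        rw [Finset.card_erase_of_mem hamem] at h1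
        omega
      · have hsub : (R.filter fun z => f' z ≠ 0 ∧ f' z ≠ 1) ⊆
            (R.filter fun z => f z ≠ 0 ∧ f z ≠ 1).erase b := by
          intro z hz
          obtain ⟨hzP, hz01⟩ := Finset.mem_filter.mp hz
          have hzb : z ≠ b := by
            rintro rfl
            rcases hfb with h | h
            · exact hz01.1 h
            · exact hz01.2 h
          exact Finset.mem_erase.mpr ⟨hzb, Finset.mem_filter.mpr ⟨hzP, hsub0 z hzP hz01⟩⟩
        have hbmem : b ∈ R.filter fun z => f z ≠ 0 ∧ f z ≠ 1 :=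
          Finset.mem_filter.mpr ⟨hb, hb0, hb1⟩
        have h1 := Finset.card_le_card hsub
        rw [Finset.card_erase_of_mem hbmem] at h1
        omega
    have hb01' : ∀ z ∈ R, 0 ≤ f' z ∧ f' z ≤ 1 := by
      intro z hz
      by_cases hza : z = a
      · rw [hza]; exact ⟨hbd.1, hbd.2.1⟩
      by_cases hzb : z = b
      · rw [hzb]; exact hbd.2.2
      rw [e_o z hza hzb]; exact h01 z hz
    have hsumeq : ∑ z ∈ R, f' z = ∑ z ∈ R, f z := by
      simp only [hf', Finset.sum_add_distrib, ← Finset.mul_sum, dl, Finset.sum_sub_distrib]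
      rw [Finset.sum_ite_eq' R a, Finset.sum_ite_eq' R b, if_pos ha, if_pos hb]
      ring
    obtain ⟨g, hg1, hg2, hg3, hg4⟩ := ih f' hcard hb01' (by rw [hsumeq]; exact hsum)
    refine ⟨g, hg1, by rw [hg2, hsumeq], fun z hz => ?_, le_trans ?_ hg4⟩
    · rw [hg3 z hz]
      exact e_o z (fun h => hz (h ▸ ha)) (fun h => hz (h ▸ hb))
    · have e1 : BF G U (fun x => f' x - p) (fun x => f' x - p) =
          BF G U (fun x => (f x - p) - (-t) * dl a b x)
            (fun x => (f x - p) - (-t) * dl a b x) := by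
        apply BF_congr <;> intro x _ <;> simp only [hf'] <;> ring
      rw [e1, BF_sub_smul U (fun x => f x - p) (dl a b) (-t),
        BF_dl_dl (hR ha) (hR hb) hn]
      nlinarith

/-- the test for an integral vector -/
theorem Solid.int_test [DecidableEq V] {U : Finset V} (hs : Solid G 0 U) {g : V → ℝ}
    (hgU : ∀ z ∈ U, g z = 0 ∨ g z = 1) (h1 : 0 < ∑ z ∈ U, g z) (h2 : ∑ z ∈ U, g z < #U)
    {p : ℝ} (hp : p = (∑ z ∈ U, g z) / #U) :
    BF G U (fun x => g x - p) (fun x => g x - p) < 0 := by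
  set S := U.filter fun z => g z = 1 with hS
  have hSU : S ⊆ U := Finset.filter_subset _ _
  have hind : ∀ z ∈ U, g z = if z ∈ S then 1 else 0 := by
    intro z hz
    by_cases h : g z = 1
    · have hzS : z ∈ S := Finset.mem_filter.mpr ⟨hz, h⟩
      rw [if_pos hzS, h]
    · have hzS : z ∉ S := fun h' => h (Finset.mem_filter.mp h').2
      rw [if_neg hzS]
      exact (hgU z hz).resolve_right h
  have hcard : (#S : ℝ) = ∑ z ∈ U, g z := by
    rw [Finset.sum_congr rfl hind, ← Finset.sum_filter]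
    have : U.filter (fun z => z ∈ S) = S := by
      ext z
      rw [Finset.mem_filter]
      exact ⟨fun h => h.2, fun h => ⟨hSU h, h⟩⟩
    rw [this]; simp
  have hSne : S.Nonempty := by
    rw [← Finset.card_pos]
    have : (0 : ℝ) < #S := by rw [hcard]; exact h1
    exact_mod_cast this
  have hSU' : S ≠ U := by
    intro h
    rw [h] at hcard
    linarith
  have hq := hs S hSU hSne hSU'
  rw [QQ_eq_BF hSU, hcard, ← hp] at hq
  have e : BF G U (fun x => g x - p) (fun x => g x - p) =
      BF G U (fun x => (if x ∈ S then 1 else 0) - p) (fun x => (if x ∈ S then 1 else 0) - p) := by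
    apply BF_congr <;> intro x hx <;> simp only [hind x hx]
  rw [e]
  simpa using hq

/-- **Lemma L** -/
theorem Solid.pipage [DecidableEq V] {U R₁ R₂ : Finset V} (hs : Solid G 0 U) (h1 : R₁ ⊆ U)
    (h2 : R₂ ⊆ U) (hd : Disjoint R₁ R₂) (hi1 : Ind G R₁) (hi2 : Ind G R₂) {f : V → ℝ}
    (h01 : ∀ z ∈ U, 0 ≤ f z ∧ f z ≤ 1)
    (hint : ∀ z ∈ U, z ∉ R₁ → z ∉ R₂ → f z = 0 ∨ f z = 1)
    (hz1 : ∃ k : ℤ, ∑ z ∈ R₁, f z = k) (hz2 : ∃ k : ℤ, ∑ z ∈ R₂, f z = k)
    (hpos : 0 < ∑ z ∈ U, f z) (hlt : ∑ z ∈ U, f z < #U) {p : ℝ}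
    (hp : p = (∑ z ∈ U, f z) / #U) :
    BF G U (fun x => f x - p) (fun x => f x - p) < 0 := by
  obtain ⟨g, hg1, hg2, hg3, hg4⟩ := pipage_one h1 hi1 p _ f (le_refl _)
    (fun z hz => h01 z (h1 hz)) hz1
  have hsub : ∀ z ∈ R₂, g z = f z := fun z hz => hg3 z (Finset.disjoint_right.mp hd hz)
  obtain ⟨g', hg1', hg2', hg3', hg4'⟩ := pipage_one h2 hi2 p _ g (le_refl _)
    (fun z hz => by rw [hsub z hz]; exact h01 z (h2 hz))
    (by rw [Finset.sum_congr rfl hsub]; exact hz2)
  have hsumU : ∑ z ∈ U, g z = ∑ z ∈ U, f z := by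
    rw [← Finset.sum_sdiff h1, ← Finset.sum_sdiff h1, hg2]
    congr 1
    exact Finset.sum_congr rfl fun z hz => hg3 z (Finset.mem_sdiff.mp hz).2
  have hsumU' : ∑ z ∈ U, g' z = ∑ z ∈ U, f z := by
    rw [← hsumU, ← Finset.sum_sdiff h2, ← Finset.sum_sdiff h2, hg2']
    congr 1
    exact Finset.sum_congr rfl fun z hz => hg3' z (Finset.mem_sdiff.mp hz).2
  have hU : ∀ z ∈ U, g' z = 0 ∨ g' z = 1 := by
    intro z hz
    by_cases hz2 : z ∈ R₂
    · exact hg1' z hz2
    rw [hg3' z hz2]
    by_cases hz1 : z ∈ R₁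
    · exact hg1 z hz1
    rw [hg3 z hz1]
    exact hint z hz hz1 hz2
  exact lt_of_le_of_lt (hg4.trans hg4') (hs.int_test hU (by rw [hsumU']; exact hpos)
    (by rw [hsumU']; exact hlt) (by rw [hsumU']; exact hp))

end TwoClub
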