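import Pool.Agent.TwoClub.Neutral
import Pool.Agent.TwoClub.Pipage

/-!
The `W`-test theorem.  `U = W ∪ (K \ W) ∪ (I \ W)`, `K`, `I` independent.  A fractional test `f` on
`W` (integral off `K ∪ I`) is extended neutrally (value = mean) to `K \ W` and `I \ W`; first the
`I`-sum is rounded with `K \ W` kept neutral, then the `K`-sum is rounded.  Result:
`BF_W(f - p) + Γ (ee(W,W) - 2 #W #(W \ I)) < 1/8` for every `Γ ≥ 1/(4 ω²)`, `ω = #W + #(I \ W)`.
-/

namespace TwoClub

open Finset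

variable {V : Type*} {G : SimpleGraph V}

/-- sequential two point averages -/
theorem seq_point (U : Finset V) (y φ ψ : V → ℝ) {r s₀ s₁ : ℝ} (hr0 : 0 ≤ r) (hr1 : r < 1)
    (h00 : 0 ≤ s₀) (h01 : s₀ < 1) (h10 : 0 ≤ s₁) (h11 : s₁ < 1)
    (h : ∀ e₁ e₂ : ℝ, ((e₁ = -r ∧ (e₂ = -s₀ ∨ (e₂ = 1 - s₀ ∧ 0 < s₀))) ∨
        ((e₁ = 1 - r ∧ 0 < r) ∧ (e₂ = -s₁ ∨ (e₂ = 1 - s₁ ∧ 0 < s₁)))) →
      BF G U (fun x => y x + e₁ * φ x + e₂ * ψ x) (fun x => y x + e₁ * φ x + e₂ * ψ x) < 0) :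
    BF G U y y + r * (1 - r) * BF G U φ φ +
      ((1 - r) * (s₀ * (1 - s₀)) + r * (s₁ * (1 - s₁))) * BF G U ψ ψ < 0 := by
  have ex : ∀ e₁ e₂ : ℝ,
      BF G U (fun x => y x + e₁ * φ x + e₂ * ψ x) (fun x => y x + e₁ * φ x + e₂ * ψ x) =
      BF G U y y + e₁ ^ 2 * BF G U φ φ + e₂ ^ 2 * BF G U ψ ψ + 2 * e₁ * BF G U y φ +
        2 * e₂ * BF G U y ψ + 2 * e₁ * e₂ * BF G U φ ψ := by
    intro e₁ e₂
    rw [BF_add_smul U (fun x => y x + e₁ * φ x) ψ e₂, BF_add_smul U y φ e₁,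
      BF_add_left U y (fun x => e₁ * φ x) ψ, BF_smul_left U e₁ φ ψ]
    ring
  have t00 := h (-r) (-s₀) (Or.inl ⟨rfl, Or.inl rfl⟩)
  rw [ex] at t00
  have w00 : 0 < (1 - r) * (1 - s₀) := mul_pos (by linarith) (by linarith)
  have t00 := mul_neg_of_pos_of_neg w00 t00
  have t01 : (1 - r) * s₀ * (BF G U y y + (-r) ^ 2 * BF G U φ φ + (1 - s₀) ^ 2 * BF G U ψ ψ +
      2 * (-r) * BF G U y φ + 2 * (1 - s₀) * BF G U y ψ + 2 * (-r) * (1 - s₀) * BF G U φ ψ) ≤ 0 := by
    rcases h00.eq_or_lt with h0 | h0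
    · rw [← h0]; simp
    · have h1 := h (-r) (1 - s₀) (Or.inl ⟨rfl, Or.inr ⟨rfl, h0⟩⟩)
      rw [ex] at h1
      exact (mul_neg_of_pos_of_neg (mul_pos (by linarith) h0) h1).le
  have t10 : r * (1 - s₁) * (BF G U y y + (1 - r) ^ 2 * BF G U φ φ + (-s₁) ^ 2 * BF G U ψ ψ +
      2 * (1 - r) * BF G U y φ + 2 * (-s₁) * BF G U y ψ + 2 * (1 - r) * (-s₁) * BF G U φ ψ) ≤ 0 := by
    rcases hr0.eq_or_lt with h0 | h0
    · rw [← h0]; simp
    · have h1 := h (1 - r) (-s₁) (Or.inr ⟨⟨rfl, h0⟩, Or.inl rfl⟩)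
      rw [ex] at h1
      exact (mul_neg_of_pos_of_neg (mul_pos h0 (by linarith)) h1).le
  have t11 : r * s₁ * (BF G U y y + (1 - r) ^ 2 * BF G U φ φ + (1 - s₁) ^ 2 * BF G U ψ ψ +
      2 * (1 - r) * BF G U y φ + 2 * (1 - s₁) * BF G U y ψ +
      2 * (1 - r) * (1 - s₁) * BF G U φ ψ) ≤ 0 := by
    rcases hr0.eq_or_lt with h0 | h0
    · rw [← h0]; simp
    rcases h10.eq_or_lt with h0' | h0'
    · rw [← h0']; simp
    · have h1 := h (1 - r) (1 - s₁) (Or.inr ⟨⟨rfl, h0⟩, Or.inr ⟨rfl, h0'⟩⟩)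
      rw [ex] at h1
      exact (mul_neg_of_pos_of_neg (mul_pos h0 h0') h1).le
  nlinarith [t00, t10, t01, t11]

theorem fract_le_of {s x : ℝ} (hx : 0 ≤ x) (h : (∃ k : ℤ, s = k) ∨ (s ≤ 1 ∧ 1 ≤ s + x)) :
    Int.fract (s + x) ≤ x := by
  rcases h with ⟨k, rfl⟩ | ⟨h1, h2⟩
  · rw [Int.fract_intCast_add]
    have := Int.floor_nonneg.mpr hx
    have h3 : (0 : ℝ) ≤ ⌊x⌋ := by exact_mod_cast this
    have h4 := Int.floor_add_fract x
    linarith
  · have h3 : (1 : ℤ) ≤ ⌊s + x⌋ := Int.le_floor.mpr (by exact_mod_cast h2)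
    have h4 : (1 : ℝ) ≤ ⌊s + x⌋ := by exact_mod_cast h3
    have h5 := Int.floor_add_fract (s + x)
    linarith

/-- `BF` of the combination `α 1_A - β 1_B` with `A ⊆ B ⊆ U` and `A` independent -/
theorem BF_comb [DecidableEq V] {U A B : Finset V} (hA : A ⊆ U) (hB : B ⊆ U) (hi : Ind G A)
    (α β : ℝ) :
    BF G U (fun x => α * (if x ∈ A then 1 else 0) - β * (if x ∈ B then 1 else 0))
      (fun x => α * (if x ∈ A then 1 else 0) - β * (if x ∈ B then 1 else 0)) =
      β ^ 2 * ee G B B - 2 * α * β * ee G A B := by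
  have hee : ∀ S T : Finset V, S ⊆ U → T ⊆ U →
      BF G U (fun x => if x ∈ S then (1 : ℝ) else 0) (fun x => if x ∈ T then 1 else 0)
        = ee G S T := by
    intro S T hS hT
    have h1 := wee_eq_BF_ind (G := G) (fun _ => (1 : ℝ)) hS hT
    simp only [one_mul] at h1
    rw [h1]
    unfold wee wgd ee; simp
  have e1 := BF_sub_smul (G := G) U (fun x => α * (if x ∈ A then (1 : ℝ) else 0))
    (fun x => if x ∈ B then (1 : ℝ) else 0) β
  rw [e1, BF_smul_left, BF_comm U (fun x => if x ∈ A then (1 : ℝ) else 0)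
    (fun x => α * (if x ∈ A then (1 : ℝ) else 0)), BF_smul_left, BF_smul_left,
    hee A A hA hA, hee A B hA hB, hee B B hB hB]
  have hAA : ee G A A = 0 := ee_eq_zero G fun x hx y hy => hi x hx y hy
  rw [hAA]; ring

theorem gd_le_sdiff [DecidableEq V] {U R : Finset V} (hi : Ind G R) {z : V} (hz : z ∈ R) :
    gd G U z ≤ #(U \ R) := by
  unfold gd
  rw [← Finset.sum_sdiff (Finset.inter_subset_left : U ∩ R ⊆ U), Finset.sdiff_inter_self_left]
  have h1 : ∑ y ∈ U ∩ R, ad G z y = 0 := Finset.sum_eq_zero fun y hy =>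
    ad_of_not G (hi z hz y (Finset.mem_inter.mp hy).2)
  rw [h1, add_zero]
  calc ∑ y ∈ U \ R, ad G z y ≤ ∑ y ∈ U \ R, (1 : ℝ) :=
        Finset.sum_le_sum fun y _ => ad_le_one G z y
    _ = #(U \ R) := by simp

theorem ee_le_card_mul [DecidableEq V] {A U R : Finset V} (hi : Ind G R) (hA : A ⊆ R) :
    ee G A U ≤ #A * #(U \ R) := by
  calc ee G A U = ∑ z ∈ A, gd G U z := rfl
    _ ≤ ∑ z ∈ A, (#(U \ R) : ℝ) := Finset.sum_le_sum fun z hz => gd_le_sdiff hi (hA hz)
    _ = #A * #(U \ R) := by rw [Finset.sum_const, nsmul_eq_mul]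

/-- lower bound for the form of the second rounding direction -/
theorem B1_bound [DecidableEq V] {U K B : Finset V} (hK : Ind G K) (hBK : B ⊆ K)
    (hdd : (#(U \ K) : ℝ) < dd G U) (hn : 2 * #(U \ K) ≤ #U) (hU : 0 < (#U : ℝ))
    (hB : 0 < (#B : ℝ)) :
    -(1 / 2) ≤ (1 / (#U : ℝ)) ^ 2 * ee G U U - 2 * (1 / (#B : ℝ)) * (1 / (#U : ℝ)) * ee G B U := by
  have b1 : ee G U U = #U * dd G U := ee_self_eq G (Finset.card_pos.mp (by exact_mod_cast hU))
  have b2 : ee G B U ≤ #B * #(U \ K) := ee_le_card_mul hK hBK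
  have b3 : (2 : ℝ) * #(U \ K) ≤ #U := by exact_mod_cast hn
  rw [b1]
  generalize (#U : ℝ) = n at *
  generalize (#B : ℝ) = κ at *
  generalize (#(U \ K) : ℝ) = m at *
  generalize ee G B U = e at *
  generalize dd G U = d at *
  have h1 : (1 / n) ^ 2 * (n * d) = d / n := by field_simp
  have h3 : 2 * (1 / κ) * (1 / n) * e = 2 * e / κ / n := by field_simp
  have h5 : 2 * e / κ ≤ 2 * m := by rw [div_le_iff₀ hB]; linarith
  rw [h1, h3, ← sub_div, le_div_iff₀ hU]
  linarith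

/-- lower bound for the form of the first rounding direction -/
theorem B2_bound [DecidableEq V] {I W A : Finset V} (hI : Ind G I) (hAI : A ⊆ I)
    (hWA : Disjoint W A) {ι ω : ℝ} (hι : ι = #A) (hω : ω = #W + ι) (hι0 : 0 < ι) (hω0 : 0 < ω) :
    (ee G W W - 2 * #W * #(W \ I)) / ω ^ 2 ≤ (1 / ω) ^ 2 * ee G (W ∪ A) (W ∪ A) -
      2 * (1 / ι) * (1 / ω) * ee G A (W ∪ A) := by
  have hiA : Ind G A := fun x hx y hy => hI x (hAI hx) y (hAI hy)
  have b4 : ee G A (W ∪ A) = ee G A W := by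
    rw [ee_union_right G hWA, ee_eq_zero G (S := A) (T := A) fun x hx y hy => hiA x hx y hy,
      add_zero]
  have b5 : ee G (W ∪ A) (W ∪ A) = ee G W W + 2 * ee G A W := by
    rw [ee_union_left G hWA, ee_union_right G hWA, b4, ee_comm G W A]; ring
  have b6 : ee G A W ≤ ι * #(W \ I) := by rw [hι]; exact ee_le_card_mul hI hAI
  have hN0 : (0 : ℝ) ≤ #W := by positivity
  rw [b4, b5]
  clear b4 b5 hι hWA hAI hiA
  generalize (#W : ℝ) = N at *
  generalize (#(W \ I) : ℝ) = d at *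
  generalize ee G A W = e at *
  generalize ee G W W = e' at *
  have h1 : (1 / ω) ^ 2 * (e' + 2 * e) - 2 * (1 / ι) * (1 / ω) * e =
      (e' - 2 * e * (ω - ι) / ι) / ω ^ 2 := by
    field_simp
    ring
  rw [h1]
  apply div_le_div_of_nonneg_right _ (by positivity)
  have h2 : ω - ι = N := by rw [hω]; ring
  have h3 : 2 * e * (ω - ι) / ι ≤ 2 * N * d := by
    rw [h2, div_le_iff₀ hι0]
    nlinarith
  linarith

theorem quarter_le (t : ℝ) : t * (1 - t) ≤ 1 / 4 := by nlinarith [sq_nonneg (t - 1 / 2)]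

theorem D_nonpos [DecidableEq V] {I W : Finset V} (hWI : #(W ∩ I) ≤ #(W \ I)) :
    ee G W W - 2 * #W * #(W \ I) ≤ 0 := by
  have h1 : ee G W W ≤ #W * #W := by
    calc ee G W W = ∑ z ∈ W, gd G W z := rfl
      _ ≤ ∑ z ∈ W, (#W : ℝ) := Finset.sum_le_sum fun z _ => gd_le_card G W z
      _ = #W * #W := by rw [Finset.sum_const, nsmul_eq_mul]
  have h2 : (#W : ℝ) ≤ 2 * #(W \ I) := by
    have h3 : #(W ∩ I) + #(W \ I) = #W := Finset.card_inter_add_card_sdiff W I
    have : #W ≤ 2 * #(W \ I) := by omega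
    exact_mod_cast this
  have h3 : (0 : ℝ) ≤ #W := by positivity
  nlinarith

/-- **The `W`-test theorem.** -/
theorem Solid.wtest [DecidableEq V] {U K I W : Finset V} (hs : Solid G 0 U) (hKU : K ⊆ U)
    (hIU : I ⊆ U) (hd : Disjoint K I) (hK : Ind G K) (hI : Ind G I) (hWU : W ⊆ U)
    (hoff : ∀ z ∈ U, z ∉ K → z ∉ I → z ∈ W)
    (hdd : (#(U \ K) : ℝ) < dd G U) (hn : 2 * #(U \ K) ≤ #U)
    (hWI : #(W ∩ I) ≤ #(W \ I))
    {f : V → ℝ} (hf : ∀ z ∈ W, 0 ≤ f z ∧ f z ≤ 1)
    (hfO : ∀ z ∈ W, z ∉ K → z ∉ I → f z = 0 ∨ f z = 1)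
    {p κ ι ω Γ : ℝ} (hp : p = (∑ z ∈ W, f z) / #W) (hκ : κ = #(K \ W)) (hι : ι = #(I \ W))
    (hω : ω = #W + ι) (hκ0 : 0 < κ) (hι0 : 0 < ι)
    (hf0 : 0 < ∑ z ∈ W, f z) (hf1 : ∑ z ∈ W, f z < #W)
    (hI1 : p * ι + 1 ≤ ι)
    (hI0 : (∃ k : ℤ, ∑ z ∈ W ∩ I, f z = k) ∨
      (∑ z ∈ W ∩ I, f z ≤ 1 ∧ 1 ≤ ∑ z ∈ W ∩ I, f z + p * ι))
    (hK1 : (p + 1 / ω) * κ + 1 ≤ κ)
    (hK0 : (∃ k : ℤ, ∑ z ∈ W ∩ K, f z = k) ∨
      (∑ z ∈ W ∩ K, f z ≤ 1 ∧ 1 ≤ ∑ z ∈ W ∩ K, f z + (∑ z ∈ W, f z) / ω * κ))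
    (hΓ : 1 / (4 * ω ^ 2) ≤ Γ) :
    BF G W (fun z => f z - p) (fun z => f z - p) +
      Γ * (ee G W W - 2 * #W * #(W \ I)) < 1 / 8 := by
  set n : ℝ := (#U : ℝ) with hn'
  set A := I \ W with hA
  set B := K \ W with hB
  have hAI : A ⊆ I := Finset.sdiff_subset
  have hBK : B ⊆ K := Finset.sdiff_subset
  have hWpos : (0 : ℝ) < #W := lt_trans hf0 hf1
  have hω0 : 0 < ω := by rw [hω]; linarith
  have hWA : Disjoint W A := Finset.disjoint_sdiff
  have hWB : Disjoint W B := Finset.disjoint_sdiff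
  have hAB : Disjoint A B := (hd.symm.mono hAI hBK)
  have hUeq : W ∪ A ∪ B = U := by
    ext z
    simp only [Finset.mem_union]
    constructor
    · rintro ((h | h) | h)
      · exact hWU h
      · exact hIU (hAI h)
      · exact hKU (hBK h)
    · intro hz
      by_cases hzW : z ∈ W
      · exact Or.inl (Or.inl hzW)
      · by_cases hzI : z ∈ I
        · exact Or.inl (Or.inr (Finset.mem_sdiff.mpr ⟨hzI, hzW⟩))
        · by_cases hzK : z ∈ K
          · exact Or.inr (Finset.mem_sdiff.mpr ⟨hzK, hzW⟩)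
          · exact absurd (hoff z hz hzK hzI) hzW
  have hWAB : Disjoint (W ∪ A) B := Finset.disjoint_union_left.mpr ⟨hWB, hAB⟩
  have hnω : n = ω + κ := by
    rw [hn', ← hUeq, Finset.card_union_of_disjoint hWAB, Finset.card_union_of_disjoint hWA, hω,
      hι, hκ]
    push_cast; ring
  have hn0 : 0 < n := by rw [hnω]; linarith
  have hsumU : ∀ g : V → ℝ, ∑ z ∈ U, g z = ∑ z ∈ W, g z + ∑ z ∈ A, g z + ∑ z ∈ B, g z := by
    intro g
    rw [← hUeq, Finset.sum_union hWAB, Finset.sum_union hWA]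
  have hsumf : ∑ z ∈ W, f z = p * #W := by rw [hp]; field_simp
  have hp0 : 0 < p := by rw [hp]; exact div_pos hf0 hWpos
  have hp1 : p < 1 := by rw [hp, div_lt_one hWpos]; exact hf1
  -- membership facts
  have hmA : ∀ z ∈ A, z ∉ W ∧ z ∈ I := fun z hz =>
    ⟨(Finset.mem_sdiff.mp hz).2, (Finset.mem_sdiff.mp hz).1⟩
  have hmB : ∀ z ∈ B, z ∉ W ∧ z ∉ I ∧ z ∈ K := fun z hz =>
    ⟨(Finset.mem_sdiff.mp hz).2, Finset.disjoint_left.mp hd (hBK hz), hBK hz⟩
  -- the test functions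
  set r := Int.fract (∑ z ∈ W ∩ I, f z + p * ι) with hr
  set sK := ∑ z ∈ W ∩ K, f z with hsK
  set sI := ∑ z ∈ W ∩ I, f z with hsI
  set s : ℝ → ℝ := fun e => Int.fract (sK + (p + e / ω) * κ) with hsdef
  have hr0 : 0 ≤ r := Int.fract_nonneg _
  have hr1 : r < 1 := Int.fract_lt_one _
  have hrle : r ≤ p * ι := fract_le_of (by positivity) hI0
  have hp1e : ∀ e : ℝ, -r ≤ e → (∑ z ∈ W, f z) / ω ≤ p + e / ω := by
    intro e he
    rw [hsumf, div_le_iff₀ hω0, add_mul, div_mul_cancel₀ _ hω0.ne', hω]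
    nlinarith
  have hp1e' : ∀ e : ℝ, -r ≤ e → 0 ≤ p + e / ω := fun e he =>
    (div_nonneg hf0.le hω0.le).trans (hp1e e he)
  have hsle : ∀ e : ℝ, -r ≤ e → s e ≤ (p + e / ω) * κ := by
    intro e he
    apply fract_le_of (mul_nonneg (hp1e' e he) hκ0.le)
    rcases hK0 with h | ⟨h1, h2⟩
    · exact Or.inl h
    · refine Or.inr ⟨h1, h2.trans ?_⟩
      have := mul_le_mul_of_nonneg_right (hp1e e he) hκ0.le
      linarith
  have key := seq_point (G := G) U (fun z => if z ∈ W then f z - p else 0)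
    (fun x => (1 / ι) * (if x ∈ A then 1 else 0) - (1 / ω) * (if x ∈ W ∪ A then 1 else 0))
    (fun x => (1 / κ) * (if x ∈ B then 1 else 0) - (1 / n) * (if x ∈ U then 1 else 0))
    hr0 hr1 (Int.fract_nonneg _) (Int.fract_lt_one _) (Int.fract_nonneg _) (Int.fract_lt_one _)
    (s₀ := s (-r)) (s₁ := s (1 - r)) (by
      intro e₁ e₂ he
      -- common facts
      have he1 : (e₁ = -r ∨ (e₁ = 1 - r ∧ 0 < r)) := by
        rcases he with ⟨h, _⟩ | ⟨h, _⟩
        · exact Or.inl h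
        · exact Or.inr h
      have he2 : (e₂ = -(s e₁) ∨ e₂ = 1 - s e₁) := by
        rcases he with ⟨h, h'⟩ | ⟨h, h'⟩
        · rw [h]
          rcases h' with h' | h'
          · exact Or.inl h'
          · exact Or.inr h'.1
        · rw [h.1]
          rcases h' with h' | h'
          · exact Or.inl h'
          · exact Or.inr h'.1
      have he1r : -r ≤ e₁ ∧ e₁ ≤ 1 := by
        rcases he1 with h | ⟨h, _⟩ <;> constructor <;> rw [h] <;> linarith
      have hqI0 : 0 ≤ p + e₁ / ι := by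
        have : 0 ≤ p * ι + e₁ := by linarith [he1r.1]
        have h2 : p + e₁ / ι = (p * ι + e₁) / ι := by field_simp
        rw [h2]; positivity
      have hqI1 : p + e₁ / ι ≤ 1 := by
        have : p * ι + e₁ ≤ ι := by linarith [he1r.2]
        have h2 : p + e₁ / ι = (p * ι + e₁) / ι := by field_simp
        rw [h2, div_le_one hι0]; exact this
      have hsv : s e₁ = Int.fract (sK + (p + e₁ / ω) * κ) := rfl
      have hse0 : 0 ≤ s e₁ := Int.fract_nonneg _
      have hse1 : s e₁ < 1 := Int.fract_lt_one _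
      have hsle' := hsle e₁ he1r.1
      have hqK0 : 0 ≤ p + e₁ / ω + e₂ / κ := by
        have h1 : 0 ≤ (p + e₁ / ω) * κ + e₂ := by
          rcases he2 with h | h <;> rw [h] <;> linarith
        have h2 : p + e₁ / ω + e₂ / κ = ((p + e₁ / ω) * κ + e₂) / κ := by
          field_simp
        rw [h2]; positivity
      have hqK1 : p + e₁ / ω + e₂ / κ ≤ 1 := by
        have h0 : e₁ / ω ≤ 1 / ω := div_le_div_of_nonneg_right he1r.2 hω0.le
        have h0' : (p + e₁ / ω) * κ ≤ (p + 1 / ω) * κ :=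
          mul_le_mul_of_nonneg_right (by linarith) hκ0.le
        have h1 : (p + e₁ / ω) * κ + e₂ ≤ κ := by
          rcases he2 with h | h <;> rw [h] <;> linarith
        have h2 : p + e₁ / ω + e₂ / κ = ((p + e₁ / ω) * κ + e₂) / κ := by
          field_simp
        rw [h2, div_le_one hκ0]; exact h1
      set g : V → ℝ := fun z => if z ∈ W then f z else if z ∈ I then p + e₁ / ι
        else p + e₁ / ω + e₂ / κ with hg
      have hgW : ∀ z ∈ W, g z = f z := fun z hz => by simp only [hg, if_pos hz]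
      have hgA : ∀ z ∈ A, g z = p + e₁ / ι := fun z hz => by
        simp only [hg, if_neg (hmA z hz).1, if_pos (hmA z hz).2]
      have hgB : ∀ z ∈ B, g z = p + e₁ / ω + e₂ / κ := fun z hz => by
        simp only [hg, if_neg (hmB z hz).1, if_neg (hmB z hz).2.1]
      have hgsumA : ∑ z ∈ A, g z = p * ι + e₁ := by
        rw [Finset.sum_congr rfl hgA, Finset.sum_const, nsmul_eq_mul, ← hι]; field_simp
      have hgsumB : ∑ z ∈ B, g z = (p + e₁ / ω) * κ + e₂ := by
        rw [Finset.sum_congr rfl hgB, Finset.sum_const, nsmul_eq_mul, ← hκ]; field_simp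
      have hgsumU : ∑ z ∈ U, g z = n * (p + e₁ / ω + e₂ / n) := by
        rw [hsumU, hgsumA, hgsumB, Finset.sum_congr rfl hgW, hsumf, hnω]
        have : (#W : ℝ) = ω - ι := by rw [hω]; ring
        rw [this]
        field_simp
        ring
      have hIsplit : ∑ z ∈ I, g z = sI + (p * ι + e₁) := by
        rw [← hgsumA, hsI]
        rw [← Finset.sum_inter_add_sum_sdiff I W g, Finset.inter_comm I W]
        congr 1
        exact Finset.sum_congr rfl fun z hz => hgW z (Finset.mem_inter.mp hz).1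
      have hKsplit : ∑ z ∈ K, g z = sK + ((p + e₁ / ω) * κ + e₂) := by
        rw [← hgsumB, hsK]
        rw [← Finset.sum_inter_add_sum_sdiff K W g, Finset.inter_comm K W]
        congr 1
        exact Finset.sum_congr rfl fun z hz => hgW z (Finset.mem_inter.mp hz).1
      have hg01 : ∀ z ∈ U, 0 ≤ g z ∧ g z ≤ 1 := by
        intro z hz
        rw [← hUeq, Finset.mem_union, Finset.mem_union] at hz
        rcases hz with (hz | hz) | hz
        · rw [hgW z hz]; exact hf z hz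
        · rw [hgA z hz]; exact ⟨hqI0, hqI1⟩
        · rw [hgB z hz]; exact ⟨hqK0, hqK1⟩
      have hpip := hs.pipage hKU hIU hd hK hI (f := g) (p := p + e₁ / ω + e₂ / n) hg01
        (fun z hz hzK hzI => by
          have hzW := hoff z hz hzK hzI
          rw [hgW z hzW]; exact hfO z hzW hzK hzI)
        (by
          rw [hKsplit]
          rcases he2 with h | h
          · refine ⟨⌊sK + (p + e₁ / ω) * κ⌋, ?_⟩
            have := Int.floor_add_fract (sK + (p + e₁ / ω) * κ)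
            rw [h, hsv]; linarith
          · refine ⟨⌊sK + (p + e₁ / ω) * κ⌋ + 1, ?_⟩
            have := Int.floor_add_fract (sK + (p + e₁ / ω) * κ)
            rw [h, hsv]; push_cast; linarith)
        (by
          rw [hIsplit]
          rcases he1 with h | ⟨h, _⟩
          · refine ⟨⌊sI + p * ι⌋, ?_⟩
            have := Int.floor_add_fract (sI + p * ι)
            rw [h, hr]; linarith
          · refine ⟨⌊sI + p * ι⌋ + 1, ?_⟩
            have := Int.floor_add_fract (sI + p * ι)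
            rw [h, hr]; push_cast; linarith)
        (by
          rw [hsumU, hgsumA, hgsumB, Finset.sum_congr rfl hgW]
          have h1 : 0 ≤ ∑ z ∈ A, g z := Finset.sum_nonneg fun z hz => by
            rw [hgA z hz]; exact hqI0
          have h2 : 0 ≤ ∑ z ∈ B, g z := Finset.sum_nonneg fun z hz => by
            rw [hgB z hz]; exact hqK0
          rw [hgsumA] at h1
          rw [hgsumB] at h2
          linarith)
        (by
          rw [hsumU, Finset.sum_congr rfl hgW]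
          have h1 : ∑ z ∈ A, g z ≤ ι := by
            rw [hι]
            calc ∑ z ∈ A, g z ≤ ∑ z ∈ A, (1 : ℝ) := Finset.sum_le_sum fun z hz => by
                  rw [hgA z hz]; exact hqI1
              _ = #A := by simp
          have h2 : ∑ z ∈ B, g z ≤ κ := by
            rw [hκ]
            calc ∑ z ∈ B, g z ≤ ∑ z ∈ B, (1 : ℝ) := Finset.sum_le_sum fun z hz => by
                  rw [hgB z hz]; exact hqK1
              _ = #B := by simp
          have h3 : (#U : ℝ) = #W + ι + κ := by rw [← hn', hnω, hω]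
          rw [h3]
          linarith)
        (by rw [hgsumU, mul_div_cancel_left₀ _ hn0.ne'])
      have hyg : ∀ x ∈ U, (if x ∈ W then f x - p else 0) +
          e₁ * ((1 / ι) * (if x ∈ A then 1 else 0) - (1 / ω) * (if x ∈ W ∪ A then 1 else 0)) +
          e₂ * ((1 / κ) * (if x ∈ B then 1 else 0) - (1 / n) * (if x ∈ U then 1 else 0)) =
          g x - (p + e₁ / ω + e₂ / n) := by
        intro x hx
        have hx' := hx
        rw [← hUeq, Finset.mem_union, Finset.mem_union] at hx'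
        rcases hx' with (h | h) | h
        · have hA' : x ∉ A := Finset.disjoint_left.mp hWA h
          have hB' : x ∉ B := Finset.disjoint_left.mp hWB h
          rw [hgW x h, if_pos h, if_neg hA', if_neg hB', if_pos (Finset.mem_union_left _ h),
            if_pos hx]
          ring
        · have hB' : x ∉ B := Finset.disjoint_left.mp hAB h
          rw [hgA x h, if_neg (hmA x h).1, if_pos h, if_neg hB',
            if_pos (Finset.mem_union_right _ h), if_pos hx]
          ring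
        · have hA' : x ∉ A := Finset.disjoint_right.mp hAB h
          have hWA' : x ∉ W ∪ A := Finset.disjoint_right.mp hWAB h
          rw [hgB x h, if_neg (hmB x h).1, if_neg hA', if_pos h, if_neg hWA', if_pos hx]
          ring
      rw [BF_congr hyg hyg]
      exact hpip)
  -- the three forms
  have e0 : BF G U (fun z => if z ∈ W then f z - p else 0) (fun z => if z ∈ W then f z - p else 0)
      = BF G W (fun z => f z - p) (fun z => f z - p) := by
    unfold BF
    rw [← Finset.sum_subset hWU]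
    · refine Finset.sum_congr rfl fun x hx => ?_
      rw [← Finset.sum_subset hWU]
      · refine Finset.sum_congr rfl fun y hy => ?_
        simp only [if_pos hx, if_pos hy]
      · intro y _ hy
        simp only [if_neg hy, mul_zero]
    · intro x _ hx
      apply Finset.sum_eq_zero
      intro y _
      simp only [if_neg hx, mul_zero, zero_mul]
  have hiA : Ind G A := fun x hx y hy => hI x (hAI hx) y (hAI hy)
  have hiB : Ind G B := fun x hx y hy => hK x (hBK hx) y (hBK hy)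
  have e1 := BF_comb (G := G) (U := U) (A := A) (B := W ∪ A) (hAI.trans hIU)
    (Finset.union_subset hWU (hAI.trans hIU)) hiA (1 / ι) (1 / ω)
  have e2 := BF_comb (G := G) (U := U) (A := B) (B := U) (hBK.trans hKU) (Finset.Subset.refl U)
    hiB (1 / κ) (1 / n)
  rw [e0, e1, e2] at key
  have B1 := B1_bound (G := G) (U := U) (K := K) (B := B) hK hBK hdd hn hn0 (by rw [← hκ]; exact hκ0)
  rw [← hn', ← hκ] at B1
  have B2 := B2_bound (G := G) (I := I) (W := W) (A := A) hI hAI hWA hι hω hι0 hω0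
  set D := ee G W W - 2 * #W * #(W \ I) with hD
  have hD0 : D ≤ 0 := D_nonpos hWI
  have v2 : r * (1 - r) ≤ 1 / 4 := quarter_le r
  have v20 : 0 ≤ r * (1 - r) := mul_nonneg hr0 (by linarith)
  have v1 : (1 - r) * (s (-r) * (1 - s (-r))) + r * (s (1 - r) * (1 - s (1 - r))) ≤ 1 / 4 := by
    have h1 := mul_le_mul_of_nonneg_left (quarter_le (s (-r))) (show 0 ≤ 1 - r by linarith)
    have h2 := mul_le_mul_of_nonneg_left (quarter_le (s (1 - r))) hr0
    linarith
  have v10 : 0 ≤ (1 - r) * (s (-r) * (1 - s (-r))) + r * (s (1 - r) * (1 - s (1 - r))) := by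
    have q0 : ∀ e : ℝ, 0 ≤ s e * (1 - s e) := fun e =>
      mul_nonneg (Int.fract_nonneg _) (by have := Int.fract_lt_one (sK + (p + e / ω) * κ); simp only [hsdef]; linarith)
    have h1 := mul_nonneg (show 0 ≤ 1 - r by linarith) (q0 (-r))
    have h2 := mul_nonneg hr0 (q0 (1 - r))
    linarith
  have c2 : Γ * D ≤ r * (1 - r) * ((1 / ω) ^ 2 * ee G (W ∪ A) (W ∪ A) -
      2 * (1 / ι) * (1 / ω) * ee G A (W ∪ A)) := by
    have h1 := mul_le_mul_of_nonneg_left B2 v20
    refine le_trans ?_ h1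
    have h2 : Γ * D ≤ (1 / (4 * ω ^ 2)) * D := mul_le_mul_of_nonpos_right hΓ hD0
    have h3 : (1 / (4 * ω ^ 2)) * D = (1 / 4) * (D / ω ^ 2) := by field_simp
    have h4 : D / ω ^ 2 ≤ 0 := div_nonpos_of_nonpos_of_nonneg hD0 (by positivity)
    have h5 := mul_le_mul_of_nonpos_right v2 h4
    linarith
  have c1 : -(1 / 8) ≤ ((1 - r) * (s (-r) * (1 - s (-r))) + r * (s (1 - r) * (1 - s (1 - r)))) *
      ((1 / n) ^ 2 * ee G U U - 2 * (1 / κ) * (1 / n) * ee G B U) := by
    have h1 := mul_le_mul_of_nonneg_left B1 v10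
    linarith
  linarith

end TwoClub
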