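import Pool.Agent.TwoClub.OrbitSums
import Pool.Agent.TwoClub.WTest
import Pool.Agent.TwoClub.Levels
import Pool.Agent.TwoClub.GoodK
import Pool.Agent.TwoClub.GoodM

/-!
The final contradiction: a solid graph has no pair at distance at least three.
-/

namespace TwoClub

open Finset

variable {V : Type*} {G : SimpleGraph V}

section

variable [DecidableEq V] {U K I A B : Finset V} {u v : V} {f g : V → V}

/-- one test -/
theorem Data.test (D : Data G U K I A B u v f g) (hs : Solid G 0 U)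
    (hsz : #I + (#A + #B) + 3 ≤ #K) (hdd : (#I : ℝ) + (#A + #B) < dd G U)
    {N io ka om Ga s sI sK : ℝ} (S : Siz #A #B #I #K N io ka om)
    (hG : 1 / (4 * om ^ 2) ≤ Ga) (L : Lev s sI sK N io ka om) {φ : V → ℝ}
    (rng : ∀ z, 0 ≤ φ z ∧ φ z ≤ 1) (int : ∀ z ∈ A ∪ B, φ z = 0 ∨ φ z = 1)
    (out : ∀ z, z ∉ Wset A B u v f g → φ z = 0) (sW : ∑ z ∈ Wset A B u v f g, φ z = s)
    (hsI : ∑ z ∈ I, φ z = sI) (hsK : ∑ z ∈ K, φ z = sK) (s0 : 0 < s) (s1 : s < N) :
    BF G (Wset A B u v f g)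
        (fun x => φ x - (∑ z ∈ Wset A B u v f g, φ z) / #(Wset A B u v f g))
        (fun x => φ x - (∑ z ∈ Wset A B u v f g, φ z) / #(Wset A B u v f g)) +
      Ga * ee G (Wset A B u v f g) (Wset A B u v f g) <
        1 / 8 + 2 * Ga * (2 * (#A + #B) + 4) * (2 * #A + #B + 2) := by
  obtain ⟨ha, hb, h1, h2, h3, h4, h5⟩ := S.real
  obtain ⟨W, hW⟩ : ∃ W : Finset V, W = Wset A B u v f g := ⟨_, rfl⟩
  have cW := D.card_W
  have cKW := D.card_KW
  have cIW := D.card_IW
  have hWU := D.W_sub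
  have hOW : A ∪ B ⊆ Wset A B u v f g := Data.O_sub_W
  rw [← hW] at cW cKW cIW hWU hOW out sW ⊢
  have cN : (#W : ℝ) = N := by rw [cW, S.hN]
  have hUK : #(U \ K) = #I + (#A + #B) := by
    rw [Finset.card_sdiff_of_subset D.KU, D.card_U]; omega
  have sWI : ∑ z ∈ W ∩ I, φ z = sI := by
    rw [← hsI]
    refine Finset.sum_subset Finset.inter_subset_right fun z hz hz' => out z fun h => hz' ?_
    exact Finset.mem_inter.2 ⟨h, hz⟩
  have sWK : ∑ z ∈ W ∩ K, φ z = sK := by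
    rw [← hsK]
    refine Finset.sum_subset Finset.inter_subset_right fun z hz hz' => out z fun h => hz' ?_
    exact Finset.mem_inter.2 ⟨h, hz⟩
  have cWI : (#(W ∩ I) : ℝ) = #B + 2 := by rw [Finset.inter_comm]; exact cIW
  have cWK : (#(W ∩ K) : ℝ) = #A + 2 := by rw [Finset.inter_comm]; exact cKW
  have cWdI : (#(W \ I) : ℝ) = 2 * #A + #B + 2 := by
    have h6 := Finset.card_sdiff_add_card_inter W I
    have h7 : (#(W \ I) : ℝ) + #(W ∩ I) = #W := by exact_mod_cast h6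
    rw [cWI, cW] at h7
    linarith
  have cKd : (ka : ℝ) = #(K \ W) := by
    have h6 := Finset.card_sdiff_add_card_inter K W
    have h7 : (#(K \ W) : ℝ) + #(K ∩ W) = #K := by exact_mod_cast h6
    rw [cKW] at h7
    rw [S.hka]; linarith
  have cId : (io : ℝ) = #(I \ W) := by
    have h6 := Finset.card_sdiff_add_card_inter I W
    have h7 : (#(I \ W) : ℝ) + #(I ∩ W) = #I := by exact_mod_cast h6
    rw [cIW] at h7
    rw [S.hio]; linarith
  have key := hs.wtest D.KU D.IU D.dKI D.indK D.indI hWU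
    (fun z hz hzK hzI => by
      rw [← D.cover, Finset.mem_union, Finset.mem_union] at hz
      rcases hz with (h | h) | h
      · exact absurd h hzK
      · exact absurd h hzI
      · exact hOW h)
    (by rw [hUK]; push_cast; exact hdd)
    (by rw [hUK, D.card_U]; omega)
    (by
      have : (#(W ∩ I) : ℝ) ≤ #(W \ I) := by rw [cWI, cWdI]; linarith
      exact_mod_cast this)
    (f := φ) (fun z _ => rng z)
    (fun z hz hzK hzI => int z (by
      have hz' := hWU hz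
      rw [← D.cover, Finset.mem_union, Finset.mem_union] at hz'
      rcases hz' with (h | h) | h
      · exact absurd h hzK
      · exact absurd h hzI
      · exact h))
    (p := (∑ z ∈ W, φ z) / #W) (κ := ka) (ι := io) (ω := om) (Γ := Ga) rfl cKd cId
    (by rw [cN]; exact S.hom) (by linarith) (by linarith) (by rw [sW]; exact s0)
    (by rw [sW, cN]; exact s1) (by rw [sW, cN]; exact L.I1) (by rw [sWI, sW, cN]; exact L.I0)
    (by rw [sW, cN]; exact L.K1) (by rw [sWK, sW]; exact L.K0) hG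
  rw [cWdI, cW] at key
  rw [cW]
  linarith

/-- orientation `#B ≤ #A` -/
theorem Data.false_K (D : Data G U K I A B u v f g) (hs : Solid G 0 U)
    (hsz : #I + (#A + #B) + 3 ≤ #K) (hsz2 : #A + #B + 5 ≤ #I)
    (hdd : (#I : ℝ) + (#A + #B) < dd G U) (hAB : #B ≤ #A) : False := by
  obtain ⟨th, mu, Ga, XV, XU, XA, XB, H, hth, hmu, hGa⟩ := Good.exists_of_le hAB
  obtain ⟨N, hN⟩ : ∃ N : ℝ, N = 2 * ((#A : ℝ) + #B) + 4 := ⟨_, rfl⟩
  obtain ⟨io, hio⟩ : ∃ io : ℝ, io = #I - 2 - #B := ⟨_, rfl⟩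
  obtain ⟨ka, hka⟩ : ∃ ka : ℝ, ka = #K - 2 - #A := ⟨_, rfl⟩
  obtain ⟨om, hom⟩ : ∃ om : ℝ, om = N + io := ⟨_, rfl⟩
  have S : Siz #A #B #I #K N io ka om := ⟨hsz, hsz2, hN, hio, hka, hom⟩
  obtain ⟨ha, hb, h1, h2, h3, h4, h5⟩ := S.real
  have hG := S.gam hGa
  have hth01 : 0 ≤ th ∧ th ≤ 1 := by
    rcases hth with rfl | ⟨rfl, _⟩ <;> constructor <;> norm_num
  have hmu01 : 0 < #A → 0 ≤ mu ∧ mu ≤ 1 := by
    intro h
    refine ⟨H.nmu, ?_⟩
    rcases hmu with rfl | ⟨h6, h7⟩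
    · exact le_refl 1
    · have h8 : (2 : ℝ) * #B + 4 ≤ #A := by exact_mod_cast h7
      have h9 : (0 : ℝ) < #A := by exact_mod_cast h
      by_contra hc
      push Not at hc
      nlinarith
  refine D.false_of_good H (R := 1 / 8 + 2 * Ga * (2 * (#A + #B) + 4) * (2 * #A + #B + 2))
    (by ring) ?_ ?_ ?_ ?_
  · exact D.test hs hsz hdd S hG (S.levV hth) (D.rng_V hth01) (fun z hz => D.int_V th hz)
      (fun z hz => Data.out_V (A := A) (B := B) (u := u) (f := f) th hz) (sum_tV th)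
      (D.sums_V th).2 (D.sums_V th).1
      (by linarith [hth01.1]) (by linarith [hth01.2])
  · exact D.test hs hsz hdd S hG S.levU D.rng_U (fun z hz => D.int_U hz)
      (fun z hz => Data.out_U (A := A) (B := B) (v := v) (g := g) hz) sum_tU
      D.sums_U.2 D.sums_U.1 (by norm_num) (by linarith)
  · intro w hw
    have hA0 : 0 < #A := Finset.card_pos.2 ⟨w, hw⟩
    have hA1 : (1 : ℝ) ≤ #A := by exact_mod_cast hA0
    obtain ⟨m0, m1⟩ := hmu01 hA0
    exact D.test hs hsz hdd S hG (S.levA hA0 hmu) (D.rng_A ⟨m0, m1⟩ hw)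
      (fun z hz => D.int_A mu hw hz)
      (fun z hz => Data.out_A (B := B) (v := v) (g := g) mu hw hz) (sum_tA hw mu)
      (D.sums_A mu hw).2 (D.sums_A mu hw).1 (by linarith) (by linarith)
  · intro w hw
    have hB0 : 0 < #B := Finset.card_pos.2 ⟨w, hw⟩
    have hB1 : (1 : ℝ) ≤ #B := by exact_mod_cast hB0
    exact D.test hs hsz hdd S hG (S.levB (by omega)) (D.rng_B hw)
      (fun z hz => D.int_B hw hz)
      (fun z hz => Data.out_B (A := A) (u := u) (f := f) hw hz) (sum_tB hw)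
      (D.sums_B hw).2 (D.sums_B hw).1 (by norm_num) (by linarith)

/-- orientation `#A < #B` -/
theorem Data.false_M (D : Data G U K I A B u v f g) (hs : Solid G 0 U)
    (hsz : #I + (#A + #B) + 3 ≤ #K) (hsz2 : #A + #B + 5 ≤ #I)
    (hdd : (#I : ℝ) + (#A + #B) < dd G U) (hAB : #A < #B) : False := by
  obtain ⟨th, mu, Ga, XV, XU, XA, XB, H, hth, hmu, hGa⟩ := Good.exists_of_lt hAB
  obtain ⟨N, hN⟩ : ∃ N : ℝ, N = 2 * ((#A : ℝ) + #B) + 4 := ⟨_, rfl⟩
  obtain ⟨io, hio⟩ : ∃ io : ℝ, io = #I - 2 - #B := ⟨_, rfl⟩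
  obtain ⟨ka, hka⟩ : ∃ ka : ℝ, ka = #K - 2 - #A := ⟨_, rfl⟩
  obtain ⟨om, hom⟩ : ∃ om : ℝ, om = N + io := ⟨_, rfl⟩
  have S : Siz #A #B #I #K N io ka om := ⟨hsz, hsz2, hN, hio, hka, hom⟩
  obtain ⟨ha, hb, h1, h2, h3, h4, h5⟩ := S.real
  have hG := S.gam (Ga := Ga) (by rw [add_comm (3 * (#A : ℝ)) (2 * #B)]; exact hGa)
  have hth01 : 0 ≤ th ∧ th ≤ 1 := by
    rw [hth]; constructor <;> norm_num
  have hB0 : 0 < #B := by omega
  have hB1 : (1 : ℝ) ≤ #B := by exact_mod_cast hB0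
  have hmu01 : 0 ≤ mu ∧ mu ≤ 1 := by
    refine ⟨H.nmu, ?_⟩
    rcases hmu with rfl | ⟨h6, h7⟩
    · exact le_refl 1
    · have h8 : (2 : ℝ) * #A + 4 ≤ #B := by exact_mod_cast h7
      by_contra hc
      push Not at hc
      nlinarith
  have E := D.swap
  have hsw : Wset B A v u g f = Wset A B u v f g := Wset_swap
  have hR : (1 : ℝ) / 8 + 2 * Ga * (2 * (#A + #B) + 4) * (2 * #A + #B + 2) =
      1 / 8 + 2 * Ga * (2 * (#B + #A) + 4) * (#A + 2 + #B + #A) := by ring
  have comm : ∀ z, z ∈ A ∪ B → z ∈ B ∪ A := fun z hz => by rw [Finset.union_comm]; exact hz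
  refine E.false_of_good H (R := 1 / 8 + 2 * Ga * (2 * (#A + #B) + 4) * (2 * #A + #B + 2))
    hR ?_ ?_ ?_ ?_
  · rw [hsw]
    exact D.test hs hsz hdd S hG (S.levV' hth) (E.rng_V hth01)
      (fun z hz => E.int_V th (comm z hz))
      (fun z hz => Data.out_V (A := B) (B := A) (u := v) (f := g) th (by rw [hsw]; exact hz))
      (by rw [← hsw]; exact sum_tV th) (E.sums_V th).1 (E.sums_V th).2
      (by linarith [hth01.1]) (by linarith [hth01.2])
  · rw [hsw]
    exact D.test hs hsz hdd S hG S.levU E.rng_U (fun z hz => E.int_U (comm z hz))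
      (fun z hz => Data.out_U (A := B) (B := A) (v := u) (g := f) (by rw [hsw]; exact hz))
      (by rw [← hsw]; exact sum_tU) E.sums_U.1 E.sums_U.2 (by norm_num) (by linarith)
  · intro w hw
    rw [hsw]
    exact D.test hs hsz hdd S hG (S.levA' hB0 hmu) (E.rng_A hmu01 hw)
      (fun z hz => E.int_A mu hw (comm z hz))
      (fun z hz => Data.out_A (B := A) (v := u) (g := f) mu hw (by rw [hsw]; exact hz))
      (by rw [← hsw]; exact sum_tA hw mu) (E.sums_A mu hw).1 (E.sums_A mu hw).2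
      (by linarith [hmu01.1]) (by linarith [hmu01.2])
  · intro w hw
    rw [hsw]
    exact D.test hs hsz hdd S hG (S.levB (by omega)) (E.rng_B hw)
      (fun z hz => E.int_B hw (comm z hz))
      (fun z hz => Data.out_B (A := B) (u := v) (f := g) hw (by rw [hsw]; exact hz))
      (by rw [← hsw]; exact sum_tB hw) (E.sums_B hw).1 (E.sums_B hw).2
      (by norm_num) (by linarith)

end

/-- **a solid graph has diameter at most two** -/
theorem Solid.not_far [DecidableEq V] {U : Finset V} {u v : V} (hs : Solid G 0 U) :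
    ¬ Far G U u v := by
  intro h
  obtain ⟨K, I, A, B, x, y, f, g, D, hsz, hsz2, hdd⟩ := hs.data h
  rcases le_or_gt #B #A with hAB | hAB
  · exact D.false_K hs hsz hsz2 hdd hAB
  · exact D.false_M hs hsz hsz2 hdd hAB

end TwoClub
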