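import Pool.Agent.TwoClub.Bridge

/-!
Optimal partitions with the maximum number of parts.
-/

namespace TwoClub

open Finset

universe u

variable {V : Type u}

/-- If no solid graph has two vertices at distance at least `3`, then every part of an optimal
partition with the maximum number of parts is a 2-club. -/
theorem twoClub_of_max [Fintype V] [DecidableEq V] (G : SimpleGraph V)
    (h : ∀ (U : Finset V) (u v : V), Solid G 0 U → ¬ Far G U u v)
    {P : Finpartition (univ : Finset V)} (hopt : IsOptimal G P)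
    (hmax : ∀ P' : Finpartition (univ : Finset V), IsOptimal G P' → #P'.parts ≤ #P.parts) :
    ∀ S ∈ P.parts, IsTwoClub G S := by
  classical
  intro S hS
  have hSne : S.Nonempty := P.nonempty_of_mem_parts hS
  have hsolid : Solid G 0 S := by
    intro T hT hne hT'
    rw [zero_mul, zero_mul]
    by_contra hcon
    push Not at hcon
    obtain ⟨P', hc, hsum⟩ := exists_split P hS hT hne hT'
    have hST : (S \ T).Nonempty := by
      rw [Finset.sdiff_nonempty]
      intro h
      exact hT' (Finset.Subset.antisymm hT h)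
    have h1 : (0 : ℝ) < #T := by exact_mod_cast Finset.card_pos.mpr hne
    have h2 : (0 : ℝ) < #(S \ T) := by exact_mod_cast Finset.card_pos.mpr hST
    have h3 : (0 : ℝ) < #S := by exact_mod_cast Finset.card_pos.mpr hSne
    rw [QQ_eq G hT hne hT'] at hcon
    have h4 : (0 : ℝ) < (#T : ℝ) * #(S \ T) / #S := by positivity
    have h5 : 0 ≤ ee G T T / #T + ee G (S \ T) (S \ T) / #(S \ T) - ee G S S / #S := by
      by_contra h6
      push Not at h6
      exact absurd hcon (not_le.mpr (mul_neg_of_pos_of_neg h4 h6))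
    rw [← two_mul_edgesIn, ← two_mul_edgesIn, ← two_mul_edgesIn] at h5
    have h7 : density G P ≤ density G P' := by
      unfold density
      rw [hsum fun X => (edgesIn G X : ℝ) / (#X : ℝ)]
      have e1 : 2 * (edgesIn G T : ℝ) / #T = 2 * ((edgesIn G T : ℝ) / #T) := by ring
      have e2 : 2 * (edgesIn G (S \ T) : ℝ) / #(S \ T)
        = 2 * ((edgesIn G (S \ T) : ℝ) / #(S \ T)) := by ring
      have e3 : 2 * (edgesIn G S : ℝ) / #S = 2 * ((edgesIn G S : ℝ) / #S) := by ring
      rw [e1, e2, e3] at h5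
      linarith
    have h8 : IsOptimal G P' := fun P'' => (hopt P'').trans h7
    have h9 := hmax P' h8
    omega
  have hdist : ∀ x y : (S : Set V), ∃ p : (G.induce (S : Set V)).Walk x y, p.length ≤ 2 := by
    intro x y
    by_cases hxy : x = y
    · subst hxy; exact ⟨SimpleGraph.Walk.nil, by simp⟩
    by_cases hadj : G.Adj x y
    · have : (G.induce (S : Set V)).Adj x y := hadj
      exact ⟨this.toWalk, by simp⟩
    have h1 := h S x y hsolid
    unfold Far at h1
    push Not at h1
    have hx : (x : V) ∈ S := x.2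
    have hy : (y : V) ∈ S := y.2
    obtain ⟨w, hw, hxw, hwy⟩ := h1 hx hy (fun h => hxy (Subtype.ext h)) hadj
    have a1 : (G.induce (S : Set V)).Adj x ⟨w, hw⟩ := hxw
    have a2 : (G.induce (S : Set V)).Adj ⟨w, hw⟩ y := hwy
    exact ⟨SimpleGraph.Walk.cons a1 (SimpleGraph.Walk.cons a2 SimpleGraph.Walk.nil), by simp⟩
  refine ⟨?_, fun x y => ?_⟩
  · rw [SimpleGraph.connected_iff]
    obtain ⟨x, hx⟩ := hSne
    exact ⟨fun x y => ⟨(hdist x y).choose⟩, ⟨⟨x, hx⟩⟩⟩
  · obtain ⟨p, hp⟩ := hdist x y
    exact (SimpleGraph.dist_le p).trans hp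

/-- an optimal partition with the maximum number of parts exists -/
theorem exists_max [Fintype V] [DecidableEq V] (G : SimpleGraph V) :
    ∃ P : Finpartition (univ : Finset V), IsOptimal G P ∧
      ∀ P' : Finpartition (univ : Finset V), IsOptimal G P' → #P'.parts ≤ #P.parts := by
  classical
  obtain ⟨P₀, -, hP₀⟩ := Finset.exists_max_image (univ : Finset (Finpartition (univ : Finset V)))
    (density G) ⟨⊤, Finset.mem_univ _⟩
  obtain ⟨P, hP, hmax⟩ := Finset.exists_max_image
    ((univ : Finset (Finpartition (univ : Finset V))).filter fun P => IsOptimal G P)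
    (fun P => #P.parts) ⟨P₀, Finset.mem_filter.mpr ⟨Finset.mem_univ _, fun P' =>
      hP₀ P' (Finset.mem_univ _)⟩⟩
  exact ⟨P, (Finset.mem_filter.mp hP).2, fun P' h =>
    hmax P' (Finset.mem_filter.mpr ⟨Finset.mem_univ _, h⟩)⟩

/-- a graph with two vertices at distance at least `3` can be split into two nonempty parts
without loss of density -/
theorem exists_good_split [Fintype V] [DecidableEq V] (G : SimpleGraph V)
    (h : ∀ (U : Finset V) (u v : V), Solid G 0 U → ¬ Far G U u v) {u v : V} (huv : u ≠ v)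
    (hadj : ¬ G.Adj u v) (hw : ∀ w, ¬ (G.Adj u w ∧ G.Adj w v)) :
    ∃ S : Finset V, S.Nonempty ∧ Sᶜ.Nonempty ∧
      (edgesIn G univ : ℝ) / (Fintype.card V : ℝ) ≤
        (edgesIn G S : ℝ) / (#S : ℝ) + (edgesIn G Sᶜ : ℝ) / (#Sᶜ : ℝ) := by
  have hns : ¬ Solid G 0 (univ : Finset V) := fun hs =>
    h univ u v hs ⟨mem_univ _, mem_univ _, huv, hadj, fun w _ => hw w⟩
  unfold Solid at hns
  push Not at hns
  obtain ⟨T, hT, hne, hT', hcon⟩ := hns
  rw [zero_mul, zero_mul] at hcon
  have hST : (univ \ T).Nonempty := by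
    rw [Finset.sdiff_nonempty]
    intro h
    exact hT' (Finset.Subset.antisymm hT h)
  have h1 : (0 : ℝ) < #T := by exact_mod_cast Finset.card_pos.mpr hne
  have h2 : (0 : ℝ) < #(univ \ T) := by exact_mod_cast Finset.card_pos.mpr hST
  have h3 : (0 : ℝ) < #(univ : Finset V) := by
    exact_mod_cast Finset.card_pos.mpr ⟨u, mem_univ u⟩
  rw [QQ_eq G hT hne hT'] at hcon
  have h4 : (0 : ℝ) < (#T : ℝ) * #(univ \ T) / #(univ : Finset V) := by positivity
  have h5 : 0 ≤ ee G T T / #T + ee G (univ \ T) (univ \ T) / #(univ \ T) -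
      ee G univ univ / #(univ : Finset V) := by
    by_contra h6
    push Not at h6
    exact absurd hcon (not_le.mpr (mul_neg_of_pos_of_neg h4 h6))
  rw [← two_mul_edgesIn, ← two_mul_edgesIn, ← two_mul_edgesIn] at h5
  have e1 : 2 * (edgesIn G T : ℝ) / #T = 2 * ((edgesIn G T : ℝ) / #T) := by ring
  have e2 : 2 * (edgesIn G (univ \ T) : ℝ) / #(univ \ T)
    = 2 * ((edgesIn G (univ \ T) : ℝ) / #(univ \ T)) := by ring
  have e3 : 2 * (edgesIn G univ : ℝ) / #(univ : Finset V) =
    2 * ((edgesIn G univ : ℝ) / #(univ : Finset V)) := by ring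
  rw [e1, e2, e3] at h5
  refine ⟨T, hne, ?_, ?_⟩
  · rw [Finset.compl_eq_univ_sdiff]; exact hST
  · rw [Finset.compl_eq_univ_sdiff]
    rw [Finset.card_univ] at h5
    linarith

end TwoClub
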