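import Pool.Agent.TwoClub.Struct

/-!
Averaging over an independent reservoir `R` and the reductions P1, P2.

For `R ⊆ U` independent, `W = U \ R`, `T ⊆ W` and `X ⊆ R`, the number `QQ G U (T ∪ X)` is an
affine function of the indicator of `X` once `|X| = j` is fixed, so some `X` is at least as good
as the average.  With `θ = (|T| + j) / |U| - |T| / |W|` the average is
`QQ G W T + 2 θ α - θ² β`.
-/

namespace TwoClub

open Finset

variable {V : Type*} {G : SimpleGraph V}

/-- deviation vector of `S` in `U` -/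
noncomputable def dev [DecidableEq V] (U S : Finset V) (x : V) : ℝ :=
  (if x ∈ S then 1 else 0) - (#S : ℝ) / #U

/-- `QQ` as a quadratic form in the deviation vector -/
theorem QQ_eq_sum [DecidableEq V] (G : SimpleGraph V) {U S : Finset V} (hS : S ⊆ U) :
    QQ G U S = ∑ x ∈ U, ∑ y ∈ U, ad G x y * dev U S x * dev U S y := by
  set p : ℝ := (#S : ℝ) / #U with hp
  have hin : ∀ f : V → ℝ, ∑ x ∈ U, (if x ∈ S then (1 : ℝ) else 0) * f x = ∑ x ∈ S, f x := by
    intro f
    have : ∀ x ∈ U, (if x ∈ S then (1 : ℝ) else 0) * f x = if x ∈ S then f x else 0 := by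
      intro x _; split_ifs <;> simp
    rw [Finset.sum_congr rfl this, ← Finset.sum_filter]
    refine Finset.sum_congr ?_ fun _ _ => rfl
    ext x; simp only [Finset.mem_filter]
    exact ⟨fun h => h.2, fun h => ⟨hS h, h⟩⟩
  have e1 : ∀ x : V, ∑ y ∈ U, ad G x y * dev U S x * dev U S y
      = dev U S x * (gd G S x - p * gd G U x) := by
    intro x
    have : ∀ y ∈ U, ad G x y * dev U S x * dev U S y
        = dev U S x * ((if y ∈ S then (1 : ℝ) else 0) * ad G x y - p * ad G x y) := by
      intro y _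
      unfold dev
      ring
    rw [Finset.sum_congr rfl this, ← Finset.mul_sum, Finset.sum_sub_distrib, hin,
      ← Finset.mul_sum]
    rfl
  rw [Finset.sum_congr rfl fun x _ => e1 x]
  have e2 : ∀ x ∈ U, dev U S x * (gd G S x - p * gd G U x)
      = (if x ∈ S then (1 : ℝ) else 0) * (gd G S x - p * gd G U x)
        - (p * gd G S x - p * p * gd G U x) := by
    intro x _; unfold dev; ring
  rw [Finset.sum_congr rfl e2, Finset.sum_sub_distrib, hin, Finset.sum_sub_distrib,
    Finset.sum_sub_distrib, ← Finset.mul_sum, ← Finset.mul_sum, ← Finset.mul_sum]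
  unfold QQ
  rw [← ee_eq_sum_gd, ← ee_eq_sum_gd, ← ee_eq_sum_gd, ← ee_eq_sum_gd, ee_comm G U S, ← hp]
  ring

/-- a subset of size `j` whose sum is at least the average -/
theorem exists_ge_avg [DecidableEq V] (R : Finset V) (f : V → ℝ) {j : ℕ} (hj : j ≤ #R) :
    ∃ X ⊆ R, #X = j ∧ (j : ℝ) * ∑ x ∈ R, f x ≤ (#R : ℝ) * ∑ x ∈ X, f x := by
  induction R using Finset.strongInduction with
  | H R ih =>
    rcases hj.eq_or_lt with h | h
    · exact ⟨R, Finset.Subset.refl _, h.symm, by rw [h]⟩
    · -- remove the smallest element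
      have hne : R.Nonempty := by rw [← Finset.card_pos]; omega
      obtain ⟨z, hz, hmin⟩ := Finset.exists_min_image R f hne
      have hcard : #(R.erase z) = #R - 1 := Finset.card_erase_of_mem hz
      obtain ⟨X, hX, hXj, hle⟩ := ih (R.erase z) (Finset.erase_ssubset hz) (by omega)
      refine ⟨X, hX.trans (Finset.erase_subset _ _), hXj, ?_⟩
      rw [hcard] at hle
      have hpos : 1 ≤ #R := by omega
      rw [Nat.cast_sub hpos, Nat.cast_one] at hle
      have hsum : ∑ x ∈ R, f x = f z + ∑ x ∈ R.erase z, f x :=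
        (Finset.add_sum_erase R f hz).symm
      have h1 : (j : ℝ) * f z ≤ ∑ x ∈ X, f x := by
        calc (j : ℝ) * f z = ∑ _x ∈ X, f z := by rw [Finset.sum_const, hXj, nsmul_eq_mul]
          _ ≤ ∑ x ∈ X, f x := Finset.sum_le_sum fun x hx =>
              hmin x ((Finset.erase_subset z R) (hX hx))
      rw [hsum]
      nlinarith [h1, hle]

/-- the linear coefficient -/
noncomputable def alp [DecidableEq V] (G : SimpleGraph V) (U R T : Finset V) : ℝ :=
  ((#(U \ R) : ℝ) / #R) * (ee G T R - ((#T : ℝ) / #(U \ R)) * ee G (U \ R) R)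
    - (ee G T (U \ R) - ((#T : ℝ) / #(U \ R)) * ee G (U \ R) (U \ R))

/-- the quadratic coefficient -/
noncomputable def bet [DecidableEq V] (G : SimpleGraph V) (U R : Finset V) : ℝ :=
  2 * ((#(U \ R) : ℝ) / #R) * ee G (U \ R) R - ee G (U \ R) (U \ R)

/-- the change of the density parameter -/
noncomputable def tht [DecidableEq V] (U R T : Finset V) (j : ℕ) : ℝ :=
  ((#T : ℝ) + j) / #U - (#T : ℝ) / #(U \ R)

theorem avg_alg {t w r j : ℝ} (eTT eTW eTR eWW eWR : ℝ) (hw : 0 < w) (hr : 0 < r) :
    eTT - 2 * (t / w) * eTW + (t / w) ^ 2 * eWW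
      + 2 * ((t + j) / (w + r) - t / w) * ((w / r) * (eTR - (t / w) * eWR)
        - (eTW - (t / w) * eWW))
      - ((t + j) / (w + r) - t / w) ^ 2 * (2 * (w / r) * eWR - eWW)
    = j / r * (2 * eTR - 2 * ((t + j) / (w + r)) * eWR)
      + (eTT - 2 * ((t + j) / (w + r)) * (eTW + eTR)
        + ((t + j) / (w + r)) ^ 2 * (eWW + 2 * eWR)) := by
  have hwr : 0 < w + r := by positivity
  have hj : j / r = (t + j) / (w + r) + (w / r) * ((t + j) / (w + r) - t / w) := by
    have h1 : (w / r) * ((t + j) / (w + r) - t / w) = (w * ((t + j) / (w + r)) - t) / r := by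
      field_simp
    rw [h1]
    field_simp
    ring
  rw [hj]
  generalize (t + j) / (w + r) = p
  generalize t / w = p'
  generalize w / r = c
  ring

/-- **Averaging lemma** -/
theorem exists_avg [DecidableEq V] {U R T : Finset V} (hR : R ⊆ U) (hRne : R.Nonempty)
    (hind : ∀ x ∈ R, ∀ y ∈ R, ¬ G.Adj x y) (hT : T ⊆ U \ R) (hW : (U \ R).Nonempty) {j : ℕ}
    (hj : j ≤ #R) :
    ∃ X ⊆ R, #X = j ∧
      QQ G (U \ R) T + 2 * tht U R T j * alp G U R T - tht U R T j ^ 2 * bet G U R
        ≤ QQ G U (T ∪ X) := by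
  set W := U \ R with hWdef
  set s : ℝ := (#T : ℝ) + j with hs
  obtain ⟨X, hX, hXj, hle⟩ := exists_ge_avg R
    (fun x => 2 * gd G T x - 2 * (s / #U) * gd G U x) hj
  refine ⟨X, hX, hXj, ?_⟩
  have hTX : Disjoint T X := by
    rw [Finset.disjoint_left]
    intro x hxT hxX
    exact (Finset.mem_sdiff.mp (hT hxT)).2 (hX hxX)
  have hWR : Disjoint W R := Finset.sdiff_disjoint
  have hU : W ∪ R = U := Finset.sdiff_union_of_subset hR
  have hcU : (#U : ℝ) = #W + #R := by
    rw [← hU, Finset.card_union_of_disjoint hWR]; push_cast; ring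
  have hr : (0 : ℝ) < #R := by exact_mod_cast Finset.card_pos.mpr hRne
  have hw : (0 : ℝ) < #W := by exact_mod_cast Finset.card_pos.mpr hW
  have hXX : ee G X X = 0 := ee_eq_zero G fun x hx y hy => hind x (hX hx) y (hX hy)
  have hRR : ee G R R = 0 := ee_eq_zero G hind
  have hcard : (#(T ∪ X) : ℝ) = s := by
    rw [Finset.card_union_of_disjoint hTX, hXj]; push_cast; ring
  -- expand QQ of the union
  have e1 : QQ G U (T ∪ X) = ee G T T - 2 * (s / #U) * ee G T U + (s / #U) ^ 2 * ee G U U
      + ∑ x ∈ X, (2 * gd G T x - 2 * (s / #U) * gd G U x) := by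
    unfold QQ
    rw [hcard, ee_union_left G hTX, ee_union_right G hTX, ee_union_right G hTX, hXX,
      ee_union_left G hTX, Finset.sum_sub_distrib, ← Finset.mul_sum, ← Finset.mul_sum,
      ← ee_eq_sum_gd, ← ee_eq_sum_gd, ee_comm G T X]
    ring
  have e2 : ∑ x ∈ R, (2 * gd G T x - 2 * (s / #U) * gd G U x)
      = 2 * ee G T R - 2 * (s / #U) * ee G W R := by
    rw [Finset.sum_sub_distrib, ← Finset.mul_sum, ← Finset.mul_sum,
      ← ee_eq_sum_gd, ← ee_eq_sum_gd, ee_comm G R T]
    have : ee G R U = ee G W R := by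
      rw [← hU, ee_union_right G hWR, hRR, ee_comm G R W, add_zero]
    rw [this]
  have e3 : ee G T U = ee G T W + ee G T R := by
    rw [← hU, ee_union_right G hWR]
  have e4 : ee G U U = ee G W W + 2 * ee G W R := by
    rw [← hU, ee_union_left G hWR, ee_union_right G hWR, ee_union_right G hWR, hRR,
      ee_comm G R W]
    ring
  have h1 : ((j : ℝ) / #R) * (2 * ee G T R - 2 * (s / #U) * ee G W R)
      ≤ ∑ x ∈ X, (2 * gd G T x - 2 * (s / #U) * gd G U x) := by
    rw [← e2, div_mul_eq_mul_div, div_le_iff₀ hr]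
    linarith
  rw [e1, e3, e4]
  have h2 := avg_alg (t := (#T : ℝ)) (w := (#W : ℝ)) (r := (#R : ℝ)) (j := (j : ℝ))
    (ee G T T) (ee G T W) (ee G T R) (ee G W W) (ee G W R) hw hr
  unfold QQ tht alp bet
  rw [← hWdef, hcU]
  rw [hcU, hs] at h1
  rw [hs]
  linarith

/-- window form: in a solid graph all averaged values are negative -/
theorem Solid.window [DecidableEq V] {U R T : Finset V} (hs : Solid G 0 U) (hR : R ⊆ U)
    (hRne : R.Nonempty) (hind : ∀ x ∈ R, ∀ y ∈ R, ¬ G.Adj x y) (hT : T ⊆ U \ R)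
    (hTne : T.Nonempty) (hTW : T ≠ U \ R) {j : ℕ} (hj : j ≤ #R) :
    QQ G (U \ R) T + 2 * tht U R T j * alp G U R T - tht U R T j ^ 2 * bet G U R < 0 := by
  obtain ⟨X, hX, hXj, hle⟩ := exists_avg hR hRne hind hT (hTne.mono hT) hj
  refine lt_of_le_of_lt hle ?_
  have h1 := hs (T ∪ X) (Finset.union_subset (hT.trans Finset.sdiff_subset) (hX.trans hR))
    (hTne.mono Finset.subset_union_left) ?_
  · rw [zero_mul, zero_mul] at h1; exact h1
  · intro h
    apply hTW
    apply Finset.Subset.antisymm hT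
    intro x hx
    have hxU : x ∈ T ∪ X := by rw [h]; exact (Finset.mem_sdiff.mp hx).1
    rcases Finset.mem_union.mp hxU with h2 | h2
    · exact h2
    · exact absurd (hX h2) (Finset.mem_sdiff.mp hx).2

/-- **P1**: if the number of remaining vertices divides the number of all vertices, then
solidity passes to the smaller graph. -/
theorem Solid.sub_of_dvd [DecidableEq V] {U R : Finset V} (hs : Solid G 0 U) (hR : R ⊆ U)
    (hind : ∀ x ∈ R, ∀ y ∈ R, ¬ G.Adj x y) (hdvd : #(U \ R) ∣ #U) : Solid G 0 (U \ R) := by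
  rcases R.eq_empty_or_nonempty with h0 | hRne
  · rw [h0, Finset.sdiff_empty]; exact hs
  obtain ⟨q, hq⟩ := hdvd
  intro T hT hTne hTW
  rw [zero_mul, zero_mul]
  have hcard : #(U \ R) + #R = #U := Finset.card_sdiff_add_card_eq_card hR
  have hw : 0 < #(U \ R) := Finset.card_pos.mpr (hTne.mono hT)
  have hr : 0 < #R := Finset.card_pos.mpr hRne
  have hTle : #T ≤ #(U \ R) := Finset.card_le_card hT
  have hq1 : 1 ≤ q := by
    rcases Nat.eq_zero_or_pos q with h | h
    · rw [h, Nat.mul_zero] at hq; omega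
    · exact h
  obtain ⟨q', rfl⟩ : ∃ q', q = q' + 1 := ⟨q - 1, by omega⟩
  have hR' : #R = #(U \ R) * q' := by
    have : #(U \ R) + #R = #(U \ R) * q' + #(U \ R) := by rw [hcard, hq]; ring
    omega
  have hj : #T * q' ≤ #R := by rw [hR']; exact Nat.mul_le_mul_right _ hTle
  have h1 := hs.window hR hRne hind hT hTne hTW hj
  have h2 : tht U R T (#T * q') = 0 := by
    unfold tht
    have hwR : (0 : ℝ) < #(U \ R) := by exact_mod_cast hw
    rw [hq]; push_cast
    have hq2 : (0 : ℝ) < (q' : ℝ) + 1 := by positivity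
    field_simp
    ring
  rw [h2] at h1
  linarith

/-- the general rounding inequality: for two reservoir sizes `i`, `j` with `tht i ≤ 0 ≤ tht j`
the number `QQ` of the smaller graph is less than `- tht i * tht j * bet`. -/
theorem Solid.round [DecidableEq V] {U R T : Finset V} (hs : Solid G 0 U) (hR : R ⊆ U)
    (hRne : R.Nonempty) (hind : ∀ x ∈ R, ∀ y ∈ R, ¬ G.Adj x y) (hT : T ⊆ U \ R)
    (hTne : T.Nonempty) (hTW : T ≠ U \ R) {i j : ℕ} (hi : i ≤ #R) (hj : j ≤ #R)
    (h0 : tht U R T i ≤ 0) (h1 : 0 ≤ tht U R T j) :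
    QQ G (U \ R) T < (- tht U R T i) * tht U R T j * bet G U R ∨
      (tht U R T i = 0 ∧ tht U R T j = 0 ∧ QQ G (U \ R) T < 0) := by
  have a := hs.window hR hRne hind hT hTne hTW hi
  have b := hs.window hR hRne hind hT hTne hTW hj
  set x := tht U R T i
  set y := tht U R T j
  rcases (sub_nonneg.mpr (h0.trans h1)).eq_or_lt with h | h
  · right
    have hx : x = 0 := le_antisymm h0 (by linarith)
    have hy : y = 0 := by linarith
    refine ⟨hx, hy, ?_⟩
    rw [hx] at a; linarith
  · left
    -- y * a + (-x) * b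
    have h2 : (y - x) * QQ G (U \ R) T < (y - x) * ((- x) * y * bet G U R) := by
      rcases h0.eq_or_lt with hx | hx
      · have hy : 0 < y := by linarith
        rw [hx] at a ⊢
        have : QQ G (U \ R) T < 0 := by linarith
        nlinarith
      · rcases h1.eq_or_lt with hy | hy
        · have : QQ G (U \ R) T < 0 := by rw [← hy] at b; linarith
          rw [← hy]; nlinarith
        · nlinarith [mul_lt_mul_of_pos_left a hy, mul_lt_mul_of_pos_left b (neg_pos.mpr hx)]
    exact lt_of_mul_lt_mul_left h2 h.le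

/-- **P2**: for `|U| = 2 |U \ R| ± 1` the smaller graph is `c`-solid with
`c = bet G U R / |U|²`. -/
theorem Solid.sub_of_half [DecidableEq V] {U R : Finset V} (hs : Solid G 0 U) (hR : R ⊆ U)
    (hind : ∀ x ∈ R, ∀ y ∈ R, ¬ G.Adj x y)
    (hn : #U + 1 = 2 * #(U \ R) ∨ #U = 2 * #(U \ R) + 1) :
    Solid G (bet G U R / (#U : ℝ) ^ 2) (U \ R) := by
  intro T hT hTne hTW
  have hcard : #(U \ R) + #R = #U := Finset.card_sdiff_add_card_eq_card hR
  have hTlt : #T < #(U \ R) := Finset.card_lt_card (Finset.ssubset_iff_subset_ne.mpr ⟨hT, hTW⟩)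
  have hTpos : 0 < #T := Finset.card_pos.mpr hTne
  have hRne : R.Nonempty := by rw [← Finset.card_pos]; rcases hn with h | h <;> omega
  have hw : (0 : ℝ) < #(U \ R) := by
    have : 0 < #(U \ R) := by omega
    exact_mod_cast this
  have ht : (0 : ℝ) < #T := by exact_mod_cast hTpos
  have htw : (#T : ℝ) < #(U \ R) := by exact_mod_cast hTlt
  have hnpos : (0 : ℝ) < #U := by
    have : 0 < #U := by omega
    exact_mod_cast this
  have hp1 : 0 < (#T : ℝ) / #(U \ R) := by positivity
  have hp2 : 0 < 1 - (#T : ℝ) / #(U \ R) := by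
    rw [sub_pos, div_lt_one hw]; exact htw
  rcases hn with h | h
  · -- |U| = 2 w - 1
    have hU : (#U : ℝ) = 2 * #(U \ R) - 1 := by
      have : ((#U + 1 : ℕ) : ℝ) = ((2 * #(U \ R) : ℕ) : ℝ) := by rw [h]
      push_cast at this; linarith
    have h1 : tht U R T (#T - 1) = - (1 - (#T : ℝ) / #(U \ R)) / #U := by
      unfold tht
      rw [Nat.cast_sub (by omega : 1 ≤ #T), hU]
      rw [hU] at hnpos
      field_simp
      push_cast
      ring
    have h2 : tht U R T #T = ((#T : ℝ) / #(U \ R)) / #U := by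
      unfold tht
      rw [hU]
      rw [hU] at hnpos
      field_simp
      ring
    have h3 := hs.round hR hRne hind hT hTne hTW (i := #T - 1) (j := #T) (by omega) (by omega)
      (by rw [h1, neg_div]; exact neg_nonpos.mpr (by positivity)) (by rw [h2]; positivity)
    rcases h3 with h3 | h3
    · rw [h1, h2] at h3
      refine h3.trans_le (le_of_eq ?_)
      field_simp
    · exfalso
      have := h3.2.1
      rw [h2] at this
      have : 0 < ((#T : ℝ) / #(U \ R)) / #U := by positivity
      linarith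
  · have hU : (#U : ℝ) = 2 * #(U \ R) + 1 := by
      rw [h]; push_cast; ring
    have h1 : tht U R T (#T) = - ((#T : ℝ) / #(U \ R)) / #U := by
      unfold tht
      rw [hU]
      rw [hU] at hnpos
      field_simp
      ring
    have h2 : tht U R T (#T + 1) = (1 - (#T : ℝ) / #(U \ R)) / #U := by
      unfold tht
      rw [hU]
      rw [hU] at hnpos
      field_simp
      push_cast
      ring
    have h3 := hs.round hR hRne hind hT hTne hTW (i := #T) (j := #T + 1) (by omega) (by omega)
      (by rw [h1, neg_div]; exact neg_nonpos.mpr (by positivity)) (by rw [h2]; positivity)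
    rcases h3 with h3 | h3
    · rw [h1, h2] at h3
      refine h3.trans_le (le_of_eq ?_)
      field_simp
    · exfalso
      have := h3.1
      rw [h1] at this
      have : 0 < ((#T : ℝ) / #(U \ R)) / #U := by positivity
      rw [neg_div] at *
      linarith

end TwoClub
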