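import Pool.Agent.TwoClub.Tests

/-!
Statement of Q1 of MP_9c5a5c and its reduction to: no solid graph has two vertices at distance
at least three.
-/

namespace TwoClub

open Finset

universe u

variable {V : Type u}

/-- number of edges of `G` with both ends in `S` -/
noncomputable def edgesIn (G : SimpleGraph V) (S : Finset V) : ℕ :=
  Set.ncard {e | e ∈ G.edgeSet ∧ ∀ x ∈ e, x ∈ S}

/-- density of a partition of the vertex set: sum over the parts of edges inside the part
divided by its number of vertices -/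
noncomputable def density [Fintype V] [DecidableEq V] (G : SimpleGraph V)
    (P : Finpartition (univ : Finset V)) : ℝ :=
  ∑ S ∈ P.parts, (edgesIn G S : ℝ) / (#S : ℝ)

/-- the partition has maximum density among all partitions -/
def IsOptimal [Fintype V] [DecidableEq V] (G : SimpleGraph V)
    (P : Finpartition (univ : Finset V)) : Prop :=
  ∀ P' : Finpartition (univ : Finset V), density G P' ≤ density G P

/-- the induced subgraph on `S` is connected with diameter at most `2` -/
def IsTwoClub (G : SimpleGraph V) (S : Finset V) : Prop :=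
  (G.induce (S : Set V)).Connected ∧ ∀ x y : (S : Set V), (G.induce (S : Set V)).dist x y ≤ 2

/-- the spanning subgraph of edges inside `S` -/
def inS (G : SimpleGraph V) (S : Finset V) : SimpleGraph V where
  Adj x y := G.Adj x y ∧ x ∈ S ∧ y ∈ S
  symm := ⟨fun _ _ h => ⟨h.1.symm, h.2.2, h.2.1⟩⟩
  loopless := ⟨fun _ h => (h.1.ne rfl).elim⟩

theorem inS_edgeSet (G : SimpleGraph V) (S : Finset V) :
    (inS G S).edgeSet = {e | e ∈ G.edgeSet ∧ ∀ x ∈ e, x ∈ S} := by
  ext e
  induction e using Sym2.ind with
  | _ x y =>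
    rw [SimpleGraph.mem_edgeSet]
    constructor
    · rintro ⟨h1, h2, h3⟩
      refine ⟨h1, fun z hz => ?_⟩
      rw [Sym2.mem_iff] at hz
      rcases hz with rfl | rfl <;> assumption
    · rintro ⟨h1, h2⟩
      exact ⟨h1, h2 x (Sym2.mem_mk_left x y), h2 y (Sym2.mem_mk_right x y)⟩

theorem two_mul_edgesIn [Fintype V] (G : SimpleGraph V) (S : Finset V) :
    2 * (edgesIn G S : ℝ) = ee G S S := by
  classical
  have h1 : edgesIn G S = #(inS G S).edgeFinset := by
    unfold edgesIn
    rw [← inS_edgeSet, ← SimpleGraph.coe_edgeFinset, Set.ncard_coe_finset]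
  have h2 := (inS G S).sum_degrees_eq_twice_card_edges
  have h3 : ∀ x, ((inS G S).degree x : ℝ) = if x ∈ S then gd G S x else 0 := by
    intro x
    rw [← SimpleGraph.card_neighborFinset_eq_degree]
    split_ifs with hx
    · rw [gd_eq_card]
      congr 1
      congr 1
      ext y
      simp only [SimpleGraph.mem_neighborFinset, Finset.mem_filter]
      constructor
      · rintro ⟨h1, h2, h3⟩; exact ⟨h3, h1⟩
      · rintro ⟨h1, h2⟩; exact ⟨h2, hx, h1⟩
    · have : (inS G S).neighborFinset x = ∅ := by
        ext y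
        simp only [SimpleGraph.mem_neighborFinset, Finset.notMem_empty, iff_false]
        rintro ⟨h1, h2, h3⟩; exact hx h2
      rw [this]; simp
  have h4 : (∑ x : V, ((inS G S).degree x : ℝ)) = 2 * (edgesIn G S : ℝ) := by
    rw [h1]; exact_mod_cast h2
  rw [← h4, Finset.sum_congr rfl fun x _ => h3 x]
  rw [← Finset.sum_filter]
  rw [ee_eq_sum_gd]
  refine Finset.sum_congr ?_ fun _ _ => rfl
  ext x; simp

/-- refine one part into two -/
theorem exists_split [Fintype V] [DecidableEq V] (P : Finpartition (univ : Finset V))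
    {S T : Finset V} (hS : S ∈ P.parts) (hT : T ⊆ S) (hne : T.Nonempty) (hT' : T ≠ S) :
    ∃ P' : Finpartition (univ : Finset V), #P'.parts = #P.parts + 1 ∧
      ∀ f : Finset V → ℝ, ∑ X ∈ P'.parts, f X
        = ∑ X ∈ P.parts, f X - f S + f T + f (S \ T) := by
  have hST : (S \ T).Nonempty := by
    rw [Finset.sdiff_nonempty]
    intro h
    exact hT' (Finset.Subset.antisymm hT h)
  have hdis : ∀ X ∈ P.parts, X ≠ S → Disjoint X S := fun X hX hXS => P.disjoint hX hS hXS
  have hT1 : T ∉ P.parts.erase S := by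
    intro h
    have h1 := hdis T (Finset.mem_of_mem_erase h) (Finset.ne_of_mem_erase h)
    obtain ⟨x, hx⟩ := hne
    exact Finset.disjoint_left.mp h1 hx (hT hx)
  have hT2 : S \ T ∉ P.parts.erase S := by
    intro h
    have h1 := hdis _ (Finset.mem_of_mem_erase h) (Finset.ne_of_mem_erase h)
    obtain ⟨x, hx⟩ := hST
    exact Finset.disjoint_left.mp h1 hx (Finset.mem_sdiff.mp hx).1
  have hT3 : T ≠ S \ T := by
    intro h
    obtain ⟨x, hx⟩ := hne
    have h2 : x ∈ S \ T := h ▸ hx
    exact (Finset.mem_sdiff.mp h2).2 hx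
  have hT4 : T ∉ insert (S \ T) (P.parts.erase S) := by
    rw [Finset.mem_insert]; push Not; exact ⟨hT3, hT1⟩
  refine ⟨Finpartition.ofExistsUnique (insert T (insert (S \ T) (P.parts.erase S))) ?_ ?_ ?_,
    ?_, ?_⟩
  · intro p _; exact Finset.subset_univ p
  · intro a ha
    obtain ⟨X, ⟨hX, haX⟩, hu⟩ := P.existsUnique_mem ha
    by_cases haS : a ∈ S
    · have hXS : X = S := (hu S ⟨hS, haS⟩).symm
      by_cases haT : a ∈ T
      · refine ⟨T, ⟨Finset.mem_insert_self _ _, haT⟩, ?_⟩
        rintro Y ⟨hY, haY⟩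
        rw [Finset.mem_insert, Finset.mem_insert] at hY
        rcases hY with rfl | rfl | hY
        · rfl
        · exact absurd haT (Finset.mem_sdiff.mp haY).2
        · exact absurd ((hu Y ⟨Finset.mem_of_mem_erase hY, haY⟩).trans hXS)
            (Finset.ne_of_mem_erase hY)
      · refine ⟨S \ T, ⟨Finset.mem_insert_of_mem (Finset.mem_insert_self _ _),
          Finset.mem_sdiff.mpr ⟨haS, haT⟩⟩, ?_⟩
        rintro Y ⟨hY, haY⟩
        rw [Finset.mem_insert, Finset.mem_insert] at hY
        rcases hY with rfl | rfl | hY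
        · exact absurd haY haT
        · rfl
        · exact absurd ((hu Y ⟨Finset.mem_of_mem_erase hY, haY⟩).trans hXS)
            (Finset.ne_of_mem_erase hY)
    · have hXS : X ≠ S := by rintro rfl; exact haS haX
      refine ⟨X, ⟨Finset.mem_insert_of_mem (Finset.mem_insert_of_mem
        (Finset.mem_erase.mpr ⟨hXS, hX⟩)), haX⟩, ?_⟩
      rintro Y ⟨hY, haY⟩
      rw [Finset.mem_insert, Finset.mem_insert] at hY
      rcases hY with rfl | rfl | hY
      · exact absurd (hT haY) haS
      · exact absurd (Finset.mem_sdiff.mp haY).1 haS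
      · exact hu Y ⟨Finset.mem_of_mem_erase hY, haY⟩
  · intro h
    rw [Finset.mem_insert, Finset.mem_insert] at h
    rcases h with h | h | h
    · exact hne.ne_empty h.symm
    · exact hST.ne_empty h.symm
    · exact P.bot_notMem (Finset.mem_of_mem_erase h)
  · show #(insert T (insert (S \ T) (P.parts.erase S))) = _
    rw [Finset.card_insert_of_notMem hT4, Finset.card_insert_of_notMem hT2,
      Finset.card_erase_of_mem hS]
    have : 0 < #P.parts := Finset.card_pos.mpr ⟨S, hS⟩
    omega
  · intro f
    show ∑ X ∈ insert T (insert (S \ T) (P.parts.erase S)), f X = _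
    rw [Finset.sum_insert hT4, Finset.sum_insert hT2, ← Finset.add_sum_erase P.parts f hS]
    ring

/-- the cut form: the sign of `QQ` compares the densities -/
theorem QQ_eq (G : SimpleGraph V) [DecidableEq V] {U T : Finset V} (hT : T ⊆ U)
    (hne : T.Nonempty) (hT' : T ≠ U) :
    QQ G U T = ((#T : ℝ) * #(U \ T) / #U) *
      (ee G T T / #T + ee G (U \ T) (U \ T) / #(U \ T) - ee G U U / #U) := by
  have hUT : (U \ T).Nonempty := by
    rw [Finset.sdiff_nonempty]
    intro h
    exact hT' (Finset.Subset.antisymm hT h)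
  have h1 : (0 : ℝ) < #T := by exact_mod_cast Finset.card_pos.mpr hne
  have h2 : (0 : ℝ) < #(U \ T) := by exact_mod_cast Finset.card_pos.mpr hUT
  have h3 : (#U : ℝ) = #T + #(U \ T) := by
    have := Finset.card_sdiff_add_card_eq_card hT
    rw [← this]; push_cast; ring
  have hd : Disjoint T (U \ T) := Finset.disjoint_sdiff
  have hU : T ∪ (U \ T) = U := Finset.union_sdiff_of_subset hT
  have e1 : ee G T U = ee G T T + ee G T (U \ T) := by
    conv_lhs => rw [← hU]
    exact ee_union_right G hd T
  have e2 : ee G U U = ee G T T + 2 * ee G T (U \ T) + ee G (U \ T) (U \ T) := by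
    conv_lhs => rw [← hU]
    rw [ee_union_left G hd, ee_union_right G hd, ee_union_right G hd, ee_comm G (U \ T) T]
    ring
  unfold QQ
  rw [e1, e2, h3]
  have h4 : (0 : ℝ) < (#T : ℝ) + #(U \ T) := by positivity
  field_simp
  ring

/-- **Bridge**: if no solid graph has two vertices at distance at least `3`, then every finite
graph has an optimal partition which is a 2-club clustering. -/
theorem exists_optimal_twoClub [Fintype V] [DecidableEq V] (G : SimpleGraph V)
    (h : ∀ (U : Finset V) (u v : V), Solid G 0 U → ¬ Far G U u v) :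
    ∃ P : Finpartition (univ : Finset V), IsOptimal G P ∧ ∀ S ∈ P.parts, IsTwoClub G S := by
  classical
  obtain ⟨P₀, -, hP₀⟩ := Finset.exists_max_image (univ : Finset (Finpartition (univ : Finset V)))
    (density G) ⟨⊤, Finset.mem_univ _⟩
  obtain ⟨P, hP, hmax⟩ := Finset.exists_max_image
    ((univ : Finset (Finpartition (univ : Finset V))).filter fun P => IsOptimal G P)
    (fun P => #P.parts) ⟨P₀, Finset.mem_filter.mpr ⟨Finset.mem_univ _, fun P' =>
      hP₀ P' (Finset.mem_univ _)⟩⟩
  have hopt : IsOptimal G P := (Finset.mem_filter.mp hP).2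
  refine ⟨P, hopt, fun S hS => ?_⟩
  have hSne : S.Nonempty := P.nonempty_of_mem_parts hS
  have hsolid : Solid G 0 S := by
    intro T hT hne hT'
    rw [zero_mul, zero_mul]
    by_contra hcon
    push Not at hcon
    obtain ⟨P', hc, hsum⟩ := exists_split P hS hT hne hT'
    have hST : (S \ T).Nonempty := by
      rw [Finset.sdiff_nonempty]
      intro h
      exact hT' (Finset.Subset.antisymm hT h)
    have h1 : (0 : ℝ) < #T := by exact_mod_cast Finset.card_pos.mpr hne
    have h2 : (0 : ℝ) < #(S \ T) := by exact_mod_cast Finset.card_pos.mpr hST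
    have h3 : (0 : ℝ) < #S := by exact_mod_cast Finset.card_pos.mpr hSne
    rw [QQ_eq G hT hne hT'] at hcon
    have h4 : (0 : ℝ) < (#T : ℝ) * #(S \ T) / #S := by positivity
    have h5 : 0 ≤ ee G T T / #T + ee G (S \ T) (S \ T) / #(S \ T) - ee G S S / #S := by
      by_contra h6
      push Not at h6
      exact absurd hcon (not_le.mpr (mul_neg_of_pos_of_neg h4 h6))
    rw [← two_mul_edgesIn, ← two_mul_edgesIn, ← two_mul_edgesIn] at h5
    have h7 : density G P ≤ density G P' := by
      unfold density
      rw [hsum fun X => (edgesIn G X : ℝ) / (#X : ℝ)]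
      have e1 : 2 * (edgesIn G T : ℝ) / #T = 2 * ((edgesIn G T : ℝ) / #T) := by ring
      have e2 : 2 * (edgesIn G (S \ T) : ℝ) / #(S \ T)
        = 2 * ((edgesIn G (S \ T) : ℝ) / #(S \ T)) := by ring
      have e3 : 2 * (edgesIn G S : ℝ) / #S = 2 * ((edgesIn G S : ℝ) / #S) := by ring
      rw [e1, e2, e3] at h5
      linarith
    have h8 : IsOptimal G P' := fun P'' => (hopt P'').trans h7
    have h9 := hmax P' (Finset.mem_filter.mpr ⟨Finset.mem_univ _, h8⟩)
    omega
  have hfar := h S
  have hdist : ∀ x y : (S : Set V), ∃ p : (G.induce (S : Set V)).Walk x y, p.length ≤ 2 := by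
    intro x y
    by_cases hxy : x = y
    · subst hxy; exact ⟨SimpleGraph.Walk.nil, by simp⟩
    by_cases hadj : G.Adj x y
    · have : (G.induce (S : Set V)).Adj x y := hadj
      exact ⟨this.toWalk, by simp⟩
    have h1 := hfar x y hsolid
    unfold Far at h1
    push Not at h1
    have hx : (x : V) ∈ S := x.2
    have hy : (y : V) ∈ S := y.2
    obtain ⟨w, hw, hxw, hwy⟩ := h1 hx hy (fun h => hxy (Subtype.ext h)) hadj
    have a1 : (G.induce (S : Set V)).Adj x ⟨w, hw⟩ := hxw
    have a2 : (G.induce (S : Set V)).Adj ⟨w, hw⟩ y := hwy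
    exact ⟨SimpleGraph.Walk.cons a1 (SimpleGraph.Walk.cons a2 SimpleGraph.Walk.nil), by simp⟩
  refine ⟨?_, fun x y => ?_⟩
  · rw [SimpleGraph.connected_iff]
    obtain ⟨x, hx⟩ := hSne
    exact ⟨fun x y => ⟨(hdist x y).choose⟩, ⟨⟨x, hx⟩⟩⟩
  · obtain ⟨p, hp⟩ := hdist x y
    exact (SimpleGraph.dist_le p).trans hp

end TwoClub
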