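import Pool.Agent.TwoClub.Level1c

/-!
The data used by the final certificate, symmetric under
`(K, u-side) <-> (I, v-side)`, and its extraction from the level-1 structure theorem.
-/

namespace TwoClub

open Finset

variable {V : Type*} {G : SimpleGraph V}

/-- `U = K ∪ I ∪ A ∪ B`, `K`, `I` independent, `v ∈ K` not adjacent to `A`, `u ∈ I` not adjacent
to `B`, `u`, `v` not adjacent, `f : A ∪ {u} → K` and `g : B ∪ {v} → I` injections along edges. -/
structure Data [DecidableEq V] (G : SimpleGraph V) (U K I A B : Finset V) (u v : V)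
    (f g : V → V) : Prop where
  cover : (K ∪ I) ∪ (A ∪ B) = U
  dKI : Disjoint K I
  dKA : Disjoint K A
  dKB : Disjoint K B
  dIA : Disjoint I A
  dIB : Disjoint I B
  dAB : Disjoint A B
  indK : Ind G K
  indI : Ind G I
  vK : v ∈ K
  uI : u ∈ I
  uv : ¬ G.Adj u v
  vA : ∀ a ∈ A, ¬ G.Adj v a
  uB : ∀ b ∈ B, ¬ G.Adj u b
  fK : ∀ a ∈ insert u A, f a ∈ K ∧ G.Adj a (f a)
  gI : ∀ b ∈ insert v B, g b ∈ I ∧ G.Adj b (g b)
  finj : Set.InjOn f (insert u A : Finset V)
  ginj : Set.InjOn g (insert v B : Finset V)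

namespace Data

variable [DecidableEq V] {U K I A B : Finset V} {u v : V} {f g : V → V}

/-- the mirror image -/
theorem swap (h : Data G U K I A B u v f g) : Data G U I K B A v u g f where
  cover := by rw [Finset.union_comm I K, Finset.union_comm B A]; exact h.cover
  dKI := h.dKI.symm
  dKA := h.dIB
  dKB := h.dIA
  dIA := h.dKB
  dIB := h.dKA
  dAB := h.dAB.symm
  indK := h.indI
  indI := h.indK
  vK := h.uI
  uI := h.vK
  uv := fun e => h.uv e.symm
  vA := h.uB
  uB := h.vA
  fK := h.gI
  gI := h.fK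
  finj := h.ginj
  ginj := h.finj

theorem KU (h : Data G U K I A B u v f g) : K ⊆ U := by
  rw [← h.cover]
  exact Finset.subset_union_left.trans Finset.subset_union_left

theorem IU (h : Data G U K I A B u v f g) : I ⊆ U := by
  rw [← h.cover]
  exact Finset.subset_union_right.trans Finset.subset_union_left

theorem AU (h : Data G U K I A B u v f g) : A ⊆ U := by
  rw [← h.cover]
  exact Finset.subset_union_left.trans Finset.subset_union_right

theorem BU (h : Data G U K I A B u v f g) : B ⊆ U := by
  rw [← h.cover]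
  exact Finset.subset_union_right.trans Finset.subset_union_right

theorem card_U (h : Data G U K I A B u v f g) : #U = #K + #I + (#A + #B) := by
  rw [← h.cover, Finset.card_union_of_disjoint, Finset.card_union_of_disjoint h.dKI,
    Finset.card_union_of_disjoint h.dAB]
  rw [Finset.disjoint_union_left, Finset.disjoint_union_right, Finset.disjoint_union_right]
  exact ⟨⟨h.dKA, h.dKB⟩, h.dIA, h.dIB⟩

theorem fu_ne_v (h : Data G U K I A B u v f g) : f u ≠ v := fun e =>
  h.uv (e ▸ (h.fK u (Finset.mem_insert_self u A)).2)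

theorem gv_ne_u (h : Data G U K I A B u v f g) : g v ≠ u := h.swap.fu_ne_v

theorem f_ne_v (h : Data G U K I A B u v f g) {a : V} (ha : a ∈ A) : f a ≠ v := fun e =>
  h.vA a ha (e ▸ (h.fK a (Finset.mem_insert_of_mem ha)).2.symm)

theorem g_ne_u (h : Data G U K I A B u v f g) {b : V} (hb : b ∈ B) : g b ≠ u :=
  h.swap.f_ne_v hb

theorem u_notMem_A (h : Data G U K I A B u v f g) : u ∉ A := fun e =>
  Finset.disjoint_left.mp h.dIA h.uI e

theorem v_notMem_B (h : Data G U K I A B u v f g) : v ∉ B := h.swap.u_notMem_A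

theorem f_ne_fu (h : Data G U K I A B u v f g) {a : V} (ha : a ∈ A) : f a ≠ f u := fun e => by
  have h1 := h.finj (Finset.mem_coe.mpr (Finset.mem_insert_of_mem ha))
    (Finset.mem_coe.mpr (Finset.mem_insert_self u A)) e
  exact h.u_notMem_A (h1 ▸ ha)

theorem g_ne_gv (h : Data G U K I A B u v f g) {b : V} (hb : b ∈ B) : g b ≠ g v :=
  h.swap.f_ne_fu hb

end Data

open scoped Classical in
theorem data_aux {U : Finset V} {u v : V} (hs : Solid G 0 U) (h : Far G U u v) :
    ∃ (K I A B : Finset V) (x y : V) (f g : V → V), Data G U K I A B x y f g ∧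
      #I + (#A + #B) + 3 ≤ #K ∧ #A + #B + 5 ≤ #I ∧ (#I : ℝ) + (#A + #B) < dd G U := by
  obtain ⟨K, N, I, K₁, x, y, hKN, hd, hKi, hcard, hmd, -, ⟨f, hf, hfi⟩, -, -, hfar, hxI, hIN, hIi,
    hK₁, hyK₁, -, hIc, ⟨g, hg, hgi⟩⟩ := hs.level1 h
  obtain ⟨O, hO⟩ : ∃ O : Finset V, O = N \ I := ⟨_, rfl⟩
  rw [← hO] at hIc hg hgi
  set B : Finset V := O.filter (fun w => G.Adj y w) with hB
  set A : Finset V := O.filter (fun w => ¬ G.Adj y w) with hA
  have hAB : A ∪ B = O := by
    rw [hA, hB, Finset.union_comm]
    exact Finset.filter_union_filter_not_eq _ O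
  have hdAB : Disjoint A B := (Finset.disjoint_filter_filter_not O O _).symm
  have hAO : A ⊆ O := Finset.filter_subset _ _
  have hBO : B ⊆ O := Finset.filter_subset _ _
  have hON : O ⊆ N := hO ▸ Finset.sdiff_subset
  have hcO : #A + #B = #O := by rw [← hAB, Finset.card_union_of_disjoint hdAB]
  have hcN : #I + #O = #N := by
    have := Finset.card_sdiff_add_card_eq_card hIN
    rw [← hO] at this
    omega
  have hdKN : ∀ z, z ∈ K → z ∈ N → False := fun z h1 h2 => Finset.disjoint_left.mp hd h1 h2
  have hK1 : 1 ≤ #K₁ := Finset.card_pos.mpr ⟨y, hyK₁⟩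
  have hmd' : (#I : ℝ) + (#A + #B) < dd G U := by
    have h1 : (#I : ℝ) + (#A + #B) = #N := by exact_mod_cast (by omega : #I + (#A + #B) = #N)
    rw [h1]; exact hmd
  refine ⟨K, I, A, B, x, y, f, g, ?_, by omega, by omega, hmd'⟩
  have hsubN : ∀ z ∈ insert x A, z ∈ N := by
    intro z hz
    rcases Finset.mem_insert.mp hz with rfl | hz
    · exact hIN hxI
    · exact hON (hAO hz)
  have hsub2 : ∀ z ∈ insert y B, z ∈ O ∪ K₁ := by
    intro z hz
    rcases Finset.mem_insert.mp hz with rfl | hz
    · exact Finset.mem_union_right _ hyK₁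
    · exact Finset.mem_union_left _ (hBO hz)
  exact
    { cover := by
        rw [hAB, Finset.union_assoc, hO, Finset.union_sdiff_of_subset hIN]
        exact hKN
      dKI := hd.mono_right hIN
      dKA := hd.mono_right (hAO.trans hON)
      dKB := hd.mono_right (hBO.trans hON)
      dIA := by
        rw [Finset.disjoint_left]
        intro z h1 h2
        exact (Finset.mem_sdiff.mp (hO ▸ hAO h2)).2 h1
      dIB := by
        rw [Finset.disjoint_left]
        intro z h1 h2
        exact (Finset.mem_sdiff.mp (hO ▸ hBO h2)).2 h1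
      dAB := hdAB
      indK := hKi
      indI := hIi
      vK := hK₁ hyK₁
      uI := hxI
      uv := hfar.2.2.2.1
      vA := fun a ha => (Finset.mem_filter.mp ha).2
      uB := fun b hb e => by
        have h1 : b ∈ U := by
          rw [← hKN]
          exact Finset.mem_union_right _ (hON (hBO hb))
        exact hfar.2.2.2.2 b h1 ⟨e, ((Finset.mem_filter.mp hb).2).symm⟩
      fK := fun a ha => hf a (hsubN a ha)
      gI := fun b hb => hg b (hsub2 b hb)
      finj := fun a ha b hb e => hfi (Finset.mem_coe.mpr (hsubN a ha))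
        (Finset.mem_coe.mpr (hsubN b hb)) e
      ginj := fun a ha b hb e => hgi (Finset.mem_coe.mpr (hsub2 a ha))
        (Finset.mem_coe.mpr (hsub2 b hb)) e }

/-- level-1 structure, in the form used by the certificate -/
theorem Solid.data [inst : DecidableEq V] {U : Finset V} {u v : V} (hs : Solid G 0 U)
    (h : Far G U u v) :
    ∃ (K I A B : Finset V) (x y : V) (f g : V → V), Data G U K I A B x y f g ∧
      #I + (#A + #B) + 3 ≤ #K ∧ #A + #B + 5 ≤ #I ∧ (#I : ℝ) + (#A + #B) < dd G U := by
  have e0 : inst = fun a b => Classical.propDecidable (a = b) := Subsingleton.elim _ _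
  rw [e0]
  exact data_aux hs h

end TwoClub
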