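import Mathlib

/-!
Common definitions for MP_9c5a5c (maximum density partitions into 2-clubs).

For a graph `G`, a finite vertex set `U` (the current graph is `G[U]`) and `S ⊆ U` with
`p = |S| / |U|` we put
`QQ G U S = 2 e(S) - 2 p vol_U(S) + p^2 2 e(U)`.
The split `S | U \ S` is at least as good as the single part `U` iff `0 ≤ QQ G U S`.
-/

namespace TwoClub

open Finset

variable {V : Type*} (G : SimpleGraph V)

open scoped Classical in
/-- adjacency indicator -/
noncomputable def ad (x y : V) : ℝ := if G.Adj x y then 1 else 0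

/-- number of adjacent ordered pairs in `S × T`; `ee G S S = 2 e(S)` -/
noncomputable def ee (S T : Finset V) : ℝ := ∑ x ∈ S, ∑ y ∈ T, ad G x y

/-- degree of `z` in `G[U]` -/
noncomputable def gd (U : Finset V) (z : V) : ℝ := ∑ y ∈ U, ad G z y

/-- `Q_U(S)` -/
noncomputable def QQ (U S : Finset V) : ℝ :=
  ee G S S - 2 * ((#S : ℝ) / #U) * ee G S U + ((#S : ℝ) / #U) ^ 2 * ee G U U

/-- `G[U]` is `c`-solid: `Q_U(S) < c p (1 - p)` for all proper nonempty `S` -/
def Solid (c : ℝ) (U : Finset V) : Prop :=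
  ∀ S ⊆ U, S.Nonempty → S ≠ U →
    QQ G U S < c * ((#S : ℝ) / #U) * (1 - (#S : ℝ) / #U)

/-- `u, v` are at distance at least `3` in `G[U]` -/
def Far (U : Finset V) (u v : V) : Prop :=
  u ∈ U ∧ v ∈ U ∧ u ≠ v ∧ ¬ G.Adj u v ∧ ∀ w ∈ U, ¬ (G.Adj u w ∧ G.Adj w v)

end TwoClub
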