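import Pool.Agent.TwoClub.Weighted

/-!
Duality: random sets. For a solid `G[U]` and any finite family `S t` of sets of the same size
`s`, `0 < s < |U|`, the sum over ordered pairs of `ad i j * E (y_i y_j)` is negative,
`y = 1_S - s / |U|`. Two families are worked out: the sets with a given number of elements in
each class of a partition (`Solid.profile`), and the same together with both ends of a random
edge `z, σ z` of a class with a permutation `σ` along edges (`Solid.pair`).
-/

namespace TwoClub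

open Finset

variable {V : Type*} {G : SimpleGraph V}

/-- indicator -/
def ind [DecidableEq V] (S : Finset V) (i : V) : ℝ := if i ∈ S then 1 else 0

theorem sum_ind [DecidableEq V] {U S : Finset V} (h : S ⊆ U) : ∑ i ∈ U, ind S i = #S := by
  unfold ind
  rw [← Finset.sum_filter, Finset.filter_mem_eq_inter, Finset.inter_eq_right.mpr h]
  simp

/-- duality for an arbitrary finite family of sets of the same size -/
theorem Solid.family [DecidableEq V] {τ : Type*} {U : Finset V} (hs : Solid G 0 U)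
    {T : Finset τ} (hT : T.Nonempty) (S : τ → Finset V) (hSU : ∀ t ∈ T, S t ⊆ U) {s : ℕ}
    (hS : ∀ t ∈ T, #(S t) = s) (h0 : 0 < s) (h1 : s < #U) (P1 : V → ℝ) (P2 : V → V → ℝ)
    (hP1 : ∀ i ∈ U, ∑ t ∈ T, ind (S t) i = #T * P1 i)
    (hP2 : ∀ i ∈ U, ∀ j ∈ U, G.Adj i j → ∑ t ∈ T, ind (S t) i * ind (S t) j = #T * P2 i j) :
    ∑ i ∈ U, ∑ j ∈ U, ad G i j *
      (P2 i j - (s : ℝ) / #U * (P1 i + P1 j) + ((s : ℝ) / #U) ^ 2) < 0 := by
  set p : ℝ := (s : ℝ) / #U with hp
  have hT0 : (0 : ℝ) < #T := by exact_mod_cast hT.card_pos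
  have key : ∑ t ∈ T, QQ G U (S t) = #T * ∑ i ∈ U, ∑ j ∈ U, ad G i j *
      (P2 i j - p * (P1 i + P1 j) + p ^ 2) := by
    have e1 : ∀ t ∈ T, QQ G U (S t) =
        ∑ i ∈ U, ∑ j ∈ U, ad G i j * ((ind (S t) i - p) * (ind (S t) j - p)) := by
      intro t ht
      rw [QQ_eq_BF (hSU t ht), hS t ht]
      unfold BF ind
      refine Finset.sum_congr rfl fun i _ => Finset.sum_congr rfl fun j _ => ?_
      ring
    rw [Finset.sum_congr rfl e1, Finset.sum_comm, Finset.mul_sum]
    refine Finset.sum_congr rfl fun i hi => ?_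
    rw [Finset.sum_comm, Finset.mul_sum]
    refine Finset.sum_congr rfl fun j hj => ?_
    by_cases hij : G.Adj i j
    · rw [← Finset.mul_sum]
      have e2 : ∑ t ∈ T, (ind (S t) i - p) * (ind (S t) j - p) =
          ∑ t ∈ T, ind (S t) i * ind (S t) j - p * (∑ t ∈ T, ind (S t) i) -
            p * (∑ t ∈ T, ind (S t) j) + #T * p ^ 2 := by
        rw [Finset.mul_sum, Finset.mul_sum, ← Finset.sum_sub_distrib, ← Finset.sum_sub_distrib,
          ← nsmul_eq_mul, ← Finset.sum_const, ← Finset.sum_add_distrib]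
        refine Finset.sum_congr rfl fun t _ => ?_
        ring
      rw [e2, hP2 i hi j hj hij, hP1 i hi, hP1 j hj]
      ring
    · simp [ad_of_not G hij]
  have hneg : ∑ t ∈ T, QQ G U (S t) < 0 := by
    apply Finset.sum_neg _ hT
    intro t ht
    have h := hs (S t) (hSU t ht) (Finset.card_pos.mp (by rw [hS t ht]; exact h0))
      (fun h => by rw [← hS t ht, h] at h1; exact lt_irrefl _ h1)
    simpa using h
  rw [key] at hneg
  by_contra hcon
  push Not at hcon
  exact absurd hneg (not_lt.mpr (mul_nonneg hT0.le hcon))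

section prof

variable [DecidableEq V] {ι : Type*} [DecidableEq ι]

/-- the class `c` of `U` -/
def cl (U : Finset V) (cls : V → ι) (c : ι) : Finset V := U.filter fun z => cls z = c

omit [DecidableEq V] in
theorem mem_cl {U : Finset V} {cls : V → ι} {c : ι} {z : V} :
    z ∈ cl U cls c ↔ z ∈ U ∧ cls z = c := by
  unfold cl; rw [Finset.mem_filter]

open scoped Classical in
/-- the subsets of `U` with `x c` elements in each class `c` -/
noncomputable def prof (U : Finset V) (cls : V → ι) (x : ι → ℕ) : Finset (Finset V) :=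
  U.powerset.filter fun S => ∀ c, #(cl S cls c) = x c

omit [DecidableEq V] in
theorem mem_prof {U : Finset V} {cls : V → ι} {x : ι → ℕ} {S : Finset V} :
    S ∈ prof U cls x ↔ S ⊆ U ∧ ∀ c, #(cl S cls c) = x c := by
  classical
  unfold prof; simp only [Finset.mem_filter, Finset.mem_powerset]

theorem prof_nonempty {U : Finset V} {cls : V → ι} {x : ι → ℕ}
    (hx : ∀ c, x c ≤ #(cl U cls c)) : (prof U cls x).Nonempty := by
  choose T hT hc using fun c => Finset.exists_subset_card_eq (hx c)
  refine ⟨U.filter fun z => z ∈ T (cls z), mem_prof.mpr ⟨Finset.filter_subset _ _, fun c => ?_⟩⟩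
  rw [← hc c]
  congr 1
  ext z
  rw [mem_cl, Finset.mem_filter]
  constructor
  · rintro ⟨⟨_, hz⟩, rfl⟩
    exact hz
  · intro hz
    have := mem_cl.mp (hT c hz)
    exact ⟨⟨this.1, by rw [this.2]; exact hz⟩, this.2⟩

/-- swapping two elements of the same class permutes `prof` -/
theorem sum_prof_swap {U : Finset V} {cls : V → ι} {x : ι → ℕ} {a b : V} (ha : a ∈ U)
    (hb : b ∈ U) (hab : cls a = cls b) (f : Finset V → ℝ) :
    ∑ S ∈ prof U cls x, f (S.map (Equiv.swap a b).toEmbedding) = ∑ S ∈ prof U cls x, f S := by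
  have hcls : ∀ z, cls (Equiv.swap a b z) = cls z := by
    intro z
    by_cases h1 : z = a
    · rw [h1, Equiv.swap_apply_left, hab]
    by_cases h2 : z = b
    · rw [h2, Equiv.swap_apply_right, hab]
    rw [Equiv.swap_apply_of_ne_of_ne h1 h2]
  have hmemU : ∀ z, z ∈ U → Equiv.swap a b z ∈ U := by
    intro z hz
    by_cases h1 : z = a
    · rw [h1, Equiv.swap_apply_left]; exact hb
    by_cases h2 : z = b
    · rw [h2, Equiv.swap_apply_right]; exact ha
    rw [Equiv.swap_apply_of_ne_of_ne h1 h2]; exact hz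
  have hmaps : ∀ S ∈ prof U cls x, S.map (Equiv.swap a b).toEmbedding ∈ prof U cls x := by
    intro S hS
    rw [mem_prof] at hS ⊢
    refine ⟨?_, fun c => ?_⟩
    · intro z hz
      rw [Finset.mem_map] at hz
      obtain ⟨y, hy, rfl⟩ := hz
      exact hmemU y (hS.1 hy)
    · rw [← hS.2 c]
      have : cl (S.map (Equiv.swap a b).toEmbedding) cls c =
          (cl S cls c).map (Equiv.swap a b).toEmbedding := by
        ext z
        rw [mem_cl, Finset.mem_map_equiv, Finset.mem_map_equiv, mem_cl]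
        simp only [Equiv.symm_swap]
        rw [hcls]
      rw [this, Finset.card_map]
  have hinv : ∀ S : Finset V,
      (S.map (Equiv.swap a b).toEmbedding).map (Equiv.swap a b).toEmbedding = S := by
    intro S
    ext z
    rw [Finset.mem_map_equiv, Finset.mem_map_equiv]
    simp
  exact Finset.sum_nbij' (fun S => S.map (Equiv.swap a b).toEmbedding)
    (fun S => S.map (Equiv.swap a b).toEmbedding) hmaps hmaps (fun S _ => hinv S)
    (fun S _ => hinv S) (fun S _ => rfl)

theorem ind_map_swap (S : Finset V) (a b z : V) :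
    ind (S.map (Equiv.swap a b).toEmbedding) z = ind S (Equiv.swap a b z) := by
  unfold ind
  simp only [Finset.mem_map_equiv, Equiv.symm_swap]

/-- first moments -/
theorem prof_one {U : Finset V} {cls : V → ι} {x : ι → ℕ} {i : V} (hi : i ∈ U) :
    ∑ S ∈ prof U cls x, ind S i = #(prof U cls x) * ((x (cls i) : ℝ) / #(cl U cls (cls i))) := by
  have hpos : (0 : ℝ) < #(cl U cls (cls i)) := by
    have : 0 < #(cl U cls (cls i)) := Finset.card_pos.mpr ⟨i, mem_cl.mpr ⟨hi, rfl⟩⟩
    exact_mod_cast this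
  have h1 : ∀ a ∈ cl U cls (cls i), ∑ S ∈ prof U cls x, ind S a = ∑ S ∈ prof U cls x, ind S i := by
    intro a ha
    rw [mem_cl] at ha
    rw [← sum_prof_swap ha.1 hi ha.2]
    refine Finset.sum_congr rfl fun S _ => ?_
    rw [ind_map_swap, Equiv.swap_apply_left]
  have h2 : ∑ a ∈ cl U cls (cls i), ∑ S ∈ prof U cls x, ind S a =
      #(prof U cls x) * (x (cls i) : ℝ) := by
    rw [Finset.sum_comm]
    have : ∀ S ∈ prof U cls x, ∑ a ∈ cl U cls (cls i), ind S a = (x (cls i) : ℝ) := by
      intro S hS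
      rw [mem_prof] at hS
      rw [← hS.2 (cls i)]
      have e : ∀ a ∈ cl U cls (cls i), ind S a = ind (cl S cls (cls i)) a := by
        intro a ha
        unfold ind
        rw [mem_cl] at ha
        simp only [mem_cl, ha.2, and_true]
      rw [Finset.sum_congr rfl e]
      apply sum_ind
      intro z hz
      rw [mem_cl] at hz ⊢
      exact ⟨hS.1 hz.1, hz.2⟩
    rw [Finset.sum_congr rfl this]
    simp
  rw [Finset.sum_congr rfl h1, Finset.sum_const, nsmul_eq_mul] at h2
  rw [← mul_div_assoc, eq_div_iff hpos.ne', ← h2]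
  ring

/-- second moments, different classes -/
theorem prof_two_ne {U : Finset V} {cls : V → ι} {x : ι → ℕ} {i j : V} (hi : i ∈ U) (hj : j ∈ U)
    (hij : cls i ≠ cls j) :
    ∑ S ∈ prof U cls x, ind S i * ind S j = #(prof U cls x) *
      (((x (cls i) : ℝ) / #(cl U cls (cls i))) * ((x (cls j) : ℝ) / #(cl U cls (cls j)))) := by
  have hpos : (0 : ℝ) < #(cl U cls (cls i)) := by
    have : 0 < #(cl U cls (cls i)) := Finset.card_pos.mpr ⟨i, mem_cl.mpr ⟨hi, rfl⟩⟩
    exact_mod_cast this
  have h1 : ∀ a ∈ cl U cls (cls i), ∑ S ∈ prof U cls x, ind S a * ind S j =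
      ∑ S ∈ prof U cls x, ind S i * ind S j := by
    intro a ha
    rw [mem_cl] at ha
    rw [← sum_prof_swap ha.1 hi ha.2]
    refine Finset.sum_congr rfl fun S _ => ?_
    rw [ind_map_swap, Equiv.swap_apply_left, ind_map_swap, Equiv.swap_apply_of_ne_of_ne]
    · rintro rfl
      exact hij ha.2.symm
    · rintro rfl
      exact hij rfl
  have h2 : ∑ a ∈ cl U cls (cls i), ∑ S ∈ prof U cls x, ind S a * ind S j =
      (x (cls i) : ℝ) * ∑ S ∈ prof U cls x, ind S j := by
    rw [Finset.sum_comm, Finset.mul_sum]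
    refine Finset.sum_congr rfl fun S hS => ?_
    rw [← Finset.sum_mul]
    congr 1
    rw [mem_prof] at hS
    rw [← hS.2 (cls i)]
    have e : ∀ a ∈ cl U cls (cls i), ind S a = ind (cl S cls (cls i)) a := by
      intro a ha
      unfold ind
      rw [mem_cl] at ha
      simp only [mem_cl, ha.2, and_true]
    rw [Finset.sum_congr rfl e]
    apply sum_ind
    intro z hz
    rw [mem_cl] at hz ⊢
    exact ⟨hS.1 hz.1, hz.2⟩
  rw [Finset.sum_congr rfl h1, Finset.sum_const, nsmul_eq_mul, prof_one hj] at h2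
  have h3 : ∑ S ∈ prof U cls x, ind S i * ind S j =
      (x (cls i) : ℝ) * (#(prof U cls x) * ((x (cls j) : ℝ) / #(cl U cls (cls j)))) /
        #(cl U cls (cls i)) := by
    rw [eq_div_iff hpos.ne', ← h2]; ring
  rw [h3]; ring

/-- second moments, same class -/
theorem prof_two_eq {U : Finset V} {cls : V → ι} {x : ι → ℕ} {i j : V} (hi : i ∈ U) (hj : j ∈ U)
    (hij : i ≠ j) (hc : cls i = cls j) :
    ∑ S ∈ prof U cls x, ind S i * ind S j = #(prof U cls x) *
      ((x (cls i) : ℝ) * ((x (cls i) : ℝ) - 1) /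
        (#(cl U cls (cls i)) * ((#(cl U cls (cls i)) : ℝ) - 1))) := by
  have hij2 : i ∈ (cl U cls (cls i)).erase j :=
    Finset.mem_erase.mpr ⟨hij, mem_cl.mpr ⟨hi, rfl⟩⟩
  have hjc : j ∈ cl U cls (cls i) := mem_cl.mpr ⟨hj, hc.symm⟩
  have hcard : #((cl U cls (cls i)).erase j) = #(cl U cls (cls i)) - 1 :=
    Finset.card_erase_of_mem hjc
  have hpos' : 0 < #((cl U cls (cls i)).erase j) := Finset.card_pos.mpr ⟨i, hij2⟩
  have hge : 1 ≤ #(cl U cls (cls i)) := by omega
  have hcard' : (#((cl U cls (cls i)).erase j) : ℝ) = (#(cl U cls (cls i)) : ℝ) - 1 := by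
    rw [hcard]; push_cast [Nat.cast_sub hge]; ring
  have hpos1 : (0 : ℝ) < (#(cl U cls (cls i)) : ℝ) - 1 := by
    rw [← hcard']; exact_mod_cast hpos'
  have hpos : (0 : ℝ) < #(cl U cls (cls i)) := by linarith
  have h1 : ∀ a ∈ (cl U cls (cls i)).erase j, ∑ S ∈ prof U cls x, ind S a * ind S j =
      ∑ S ∈ prof U cls x, ind S i * ind S j := by
    intro a ha
    rw [Finset.mem_erase, mem_cl] at ha
    rw [← sum_prof_swap ha.2.1 hi ha.2.2]
    refine Finset.sum_congr rfl fun S _ => ?_
    rw [ind_map_swap, Equiv.swap_apply_left, ind_map_swap,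
      Equiv.swap_apply_of_ne_of_ne (Ne.symm ha.1) (Ne.symm hij)]
  have h2 : ∑ a ∈ (cl U cls (cls i)).erase j, ∑ S ∈ prof U cls x, ind S a * ind S j =
      ((x (cls i) : ℝ) - 1) * ∑ S ∈ prof U cls x, ind S j := by
    rw [Finset.sum_comm, Finset.mul_sum]
    refine Finset.sum_congr rfl fun S hS => ?_
    rw [← Finset.sum_mul]
    by_cases hjS : j ∈ S
    · congr 1
      have e1 : ∑ a ∈ (cl U cls (cls i)).erase j, ind S a + ind S j =
          ∑ a ∈ cl U cls (cls i), ind S a := Finset.sum_erase_add _ _ hjc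
      have e2 : ∑ a ∈ cl U cls (cls i), ind S a = (x (cls i) : ℝ) := by
        rw [mem_prof] at hS
        rw [← hS.2 (cls i)]
        have e : ∀ a ∈ cl U cls (cls i), ind S a = ind (cl S cls (cls i)) a := by
          intro a ha
          unfold ind
          rw [mem_cl] at ha
          simp only [mem_cl, ha.2, and_true]
        rw [Finset.sum_congr rfl e]
        apply sum_ind
        intro z hz
        rw [mem_cl] at hz ⊢
        exact ⟨hS.1 hz.1, hz.2⟩
      have e3 : ind S j = 1 := by unfold ind; rw [if_pos hjS]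
      linarith
    · have e3 : ind S j = 0 := by unfold ind; rw [if_neg hjS]
      rw [e3]; ring
  rw [Finset.sum_congr rfl h1, Finset.sum_const, nsmul_eq_mul, prof_one hj, ← hc, hcard'] at h2
  have h3 : ∑ S ∈ prof U cls x, ind S i * ind S j =
      ((x (cls i) : ℝ) - 1) * (#(prof U cls x) * ((x (cls i) : ℝ) / #(cl U cls (cls i)))) /
        ((#(cl U cls (cls i)) : ℝ) - 1) := by
    rw [eq_div_iff hpos1.ne', ← h2]; ring
  rw [h3]
  field_simp

/-- the coefficient `E y_i y_j` for the uniformly random set of profile `x`, for `i` in class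
`c` and `j` in class `c'`, `i ≠ j` -/
noncomputable def cf (n x : ι → ℝ) (p : ℝ) (c c' : ι) : ℝ :=
  if c = c' then x c * (x c - 1) / (n c * (n c - 1)) - 2 * p * (x c / n c) + p ^ 2
  else (x c / n c - p) * (x c' / n c' - p)

omit [DecidableEq V] in
theorem card_prof [Fintype ι] {U : Finset V} {cls : V → ι} {x : ι → ℕ} {S : Finset V}
    (hS : S ∈ prof U cls x) : #S = ∑ c, x c := by
  rw [mem_prof] at hS
  rw [Finset.card_eq_sum_card_fiberwise (f := cls) (t := Finset.univ) (fun _ _ => by simp)]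
  exact Finset.sum_congr rfl fun c _ => hS.2 c

omit [DecidableEq V] in
theorem sum_cls [Fintype ι] (U : Finset V) (cls : V → ι) (f : V → V → ℝ) :
    ∑ i ∈ U, ∑ j ∈ U, f i j = ∑ c, ∑ c', ∑ i ∈ cl U cls c, ∑ j ∈ cl U cls c', f i j := by
  have h1 : ∀ g : V → ℝ, ∑ i ∈ U, g i = ∑ c, ∑ i ∈ cl U cls c, g i := by
    intro g
    exact (Finset.sum_fiberwise U cls g).symm
  rw [h1]
  refine Finset.sum_congr rfl fun c _ => ?_
  rw [Finset.sum_comm]
  rw [h1]
  refine Finset.sum_congr rfl fun c' _ => ?_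
  rw [Finset.sum_comm]

/-- DUALITY, profiles: the averaged test -/
theorem Solid.profile [Fintype ι] {U : Finset V} (hs : Solid G 0 U) (cls : V → ι) (x : ι → ℕ)
    (hx : ∀ c, x c ≤ #(cl U cls c)) (h0 : 0 < ∑ c, x c) (h1 : ∑ c, x c < #U) :
    ∑ c, ∑ c', cf (fun c => (#(cl U cls c) : ℝ)) (fun c => (x c : ℝ))
      ((∑ c, (x c : ℝ)) / #U) c c' * ee G (cl U cls c) (cl U cls c') < 0 := by
  have key := hs.family (prof_nonempty hx) (fun S => S) (fun S hS => (mem_prof.mp hS).1)
    (fun S hS => card_prof hS) h0 h1 (fun i => (x (cls i) : ℝ) / #(cl U cls (cls i)))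
    (fun i j => if cls i = cls j then (x (cls i) : ℝ) * ((x (cls i) : ℝ) - 1) /
        (#(cl U cls (cls i)) * ((#(cl U cls (cls i)) : ℝ) - 1))
      else ((x (cls i) : ℝ) / #(cl U cls (cls i))) * ((x (cls j) : ℝ) / #(cl U cls (cls j))))
    (fun i hi => prof_one hi)
    (fun i hi j hj hij => by
      split_ifs with hc
      · exact prof_two_eq hi hj hij.ne hc
      · exact prof_two_ne hi hj hc)
  refine lt_of_eq_of_lt ?_ key
  rw [sum_cls U cls]
  refine Finset.sum_congr rfl fun c _ => Finset.sum_congr rfl fun c' _ => ?_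
  unfold ee
  rw [Finset.mul_sum]
  refine Finset.sum_congr rfl fun i hi => ?_
  rw [Finset.mul_sum]
  refine Finset.sum_congr rfl fun j hj => ?_
  have ei := (mem_cl.mp hi).2
  have ej := (mem_cl.mp hj).2
  rw [ei, ej]
  unfold cf
  push_cast
  split_ifs with hc
  · rw [hc]; ring
  · ring

/-- the coefficient `E y_i y_j` for the uniformly random set of profile `x`, where the two
elements of the class `m` are the two ends of a random edge `z, σ z` (outside these edges) -/
noncomputable def cfp (n x : ι → ℝ) (p : ℝ) (m c c' : ι) : ℝ :=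
  if c = c' then (if c = m then 0 else x c * (x c - 1) / (n c * (n c - 1))) -
    2 * p * (x c / n c) + p ^ 2
  else (x c / n c - p) * (x c' / n c' - p)

omit [DecidableEq ι] in
theorem perm_surj {M : Finset V} {σ : V → V} (h1 : ∀ z ∈ M, σ z ∈ M)
    (h2 : Set.InjOn σ (M : Set V)) {i : V} (hi : i ∈ M) : ∃ w ∈ M, σ w = i := by
  have h3 : M.image σ = M := by
    apply Finset.eq_of_subset_of_card_le
    · intro z hz
      obtain ⟨w, hw, rfl⟩ := Finset.mem_image.mp hz
      exact h1 w hw
    · rw [Finset.card_image_of_injOn h2]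
  rw [← h3] at hi
  exact Finset.mem_image.mp hi

/-- the indicator of `{w, σ w}` -/
def ep (σ : V → V) (w i : V) : ℝ := (if w = i then 1 else 0) + (if σ w = i then 1 else 0)

theorem sum_ep {M : Finset V} {σ : V → V} (h1 : ∀ z ∈ M, σ z ∈ M)
    (h2 : Set.InjOn σ (M : Set V)) {i : V} (hi : i ∈ M) : ∑ w ∈ M, ep σ w i = 2 := by
  unfold ep
  rw [Finset.sum_add_distrib]
  have e1 : ∑ w ∈ M, (if w = i then (1 : ℝ) else 0) = 1 := by
    rw [Finset.sum_ite_eq' M i, if_pos hi]
  obtain ⟨w0, hw0, hw0i⟩ := perm_surj h1 h2 hi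
  have e2 : ∑ w ∈ M, (if σ w = i then (1 : ℝ) else 0) = 1 := by
    have : ∀ w ∈ M, (if σ w = i then (1 : ℝ) else 0) = if w = w0 then 1 else 0 := by
      intro w hw
      by_cases h : w = w0
      · rw [if_pos h, h, if_pos hw0i]
      · rw [if_neg h, if_neg]
        intro hwi
        exact h (h2 hw hw0 (hwi.trans hw0i.symm))
    rw [Finset.sum_congr rfl this, Finset.sum_ite_eq' M w0, if_pos hw0]
  rw [e1, e2]; norm_num

theorem sum_ep_mul {M : Finset V} {σ : V → V} {i j : V} (hi : i ∈ M) (hj : j ∈ M)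
    (hij : i ≠ j) : ∑ w ∈ M, ep σ w i * ep σ w j =
      (if σ i = j then 1 else 0) + (if σ j = i then 1 else 0) := by
  have h : ∀ w ∈ M, ep σ w i * ep σ w j =
      (if w = i then (if σ i = j then (1 : ℝ) else 0) else 0) +
        (if w = j then (if σ j = i then (1 : ℝ) else 0) else 0) := by
    intro w _
    unfold ep
    have a1 : w = i → w ≠ j := fun h h' => hij (h.symm.trans h')
    have a2 : σ w = i → σ w ≠ j := fun h h' => hij (h.symm.trans h')
    by_cases h1 : w = i
    · have h2 := a1 h1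
      have e1 : (if σ i = j then (1 : ℝ) else 0) = if σ w = j then 1 else 0 := by rw [h1]
      rw [if_pos h1, if_neg h2, if_pos h1, if_neg h2, e1]
      by_cases h3 : σ w = i
      · rw [if_pos h3, if_neg (a2 h3)]; ring
      · rw [if_neg h3]; ring
    · by_cases h2 : w = j
      · have e1 : (if σ j = i then (1 : ℝ) else 0) = if σ w = i then 1 else 0 := by rw [h2]
        rw [if_neg h1, if_pos h2, if_neg h1, if_pos h2, e1]
        by_cases h3 : σ w = i
        · rw [if_pos h3, if_neg (a2 h3)]; ring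
        · rw [if_neg h3]; ring
      · rw [if_neg h1, if_neg h2, if_neg h1, if_neg h2]
        by_cases h3 : σ w = i
        · rw [if_pos h3, if_neg (a2 h3)]; ring
        · rw [if_neg h3]; ring
  rw [Finset.sum_congr rfl h, Finset.sum_add_distrib, Finset.sum_ite_eq' M i, if_pos hi,
    Finset.sum_ite_eq' M j, if_pos hj]

theorem sum_ad_ep {M : Finset V} {σ : V → V} (hσ : ∀ z ∈ M, σ z ∈ M ∧ G.Adj z (σ z)) :
    ∑ i ∈ M, ∑ j ∈ M, ad G i j * ((if σ i = j then 1 else 0) + (if σ j = i then 1 else 0)) =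
      2 * #M := by
  have e1 : ∑ i ∈ M, ∑ j ∈ M, ad G i j * (if σ i = j then 1 else 0) = #M := by
    have : ∀ i ∈ M, ∑ j ∈ M, ad G i j * (if σ i = j then 1 else 0) = 1 := by
      intro i hi
      have : ∀ j ∈ M, ad G i j * (if σ i = j then (1 : ℝ) else 0) =
          if σ i = j then 1 else 0 := by
        intro j _
        by_cases h : σ i = j
        · rw [if_pos h, ← h, ad_of_adj G (hσ i hi).2]; norm_num
        · rw [if_neg h]; norm_num
      rw [Finset.sum_congr rfl this, Finset.sum_ite_eq M (σ i), if_pos (hσ i hi).1]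
    rw [Finset.sum_congr rfl this]; simp
  have e2 : ∑ i ∈ M, ∑ j ∈ M, ad G i j * (if σ j = i then 1 else 0) = #M := by
    rw [Finset.sum_comm]
    have : ∀ j ∈ M, ∑ i ∈ M, ad G i j * (if σ j = i then 1 else 0) =
        ∑ i ∈ M, ad G j i * (if σ j = i then 1 else 0) := by
      intro j _
      refine Finset.sum_congr rfl fun i _ => ?_
      rw [ad_comm]
    rw [Finset.sum_congr rfl this, e1]
  simp_rw [mul_add, Finset.sum_add_distrib]
  rw [e1, e2]; ring

/-- DUALITY, profiles with a random edge of the class `m` -/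
theorem Solid.pair [Fintype ι] {U : Finset V} (hs : Solid G 0 U) (cls : V → ι) (m : ι)
    (σ : V → V) (hσ : ∀ z ∈ cl U cls m, σ z ∈ cl U cls m ∧ G.Adj z (σ z))
    (hinj : Set.InjOn σ (cl U cls m : Set V)) (x : ι → ℕ) (hxm : x m = 2)
    (hx : ∀ c, x c ≤ #(cl U cls c)) (h1 : ∑ c, x c < #U) :
    ∑ c, ∑ c', cfp (fun c => (#(cl U cls c) : ℝ)) (fun c => (x c : ℝ))
      ((∑ c, (x c : ℝ)) / #U) m c c' * ee G (cl U cls c) (cl U cls c') + 2 < 0 := by
  set M := cl U cls m with hM
  set U' := U \ M with hU'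
  set x' := Function.update x m 0 with hx'
  have hMc : 2 ≤ #M := by have := hx m; rw [hxm] at this; exact this
  have hMne : M.Nonempty := Finset.card_pos.mp (by omega)
  have hM0 : (0 : ℝ) < #M := by exact_mod_cast (by omega : 0 < #M)
  have hcl : ∀ c, c ≠ m → cl U' cls c = cl U cls c := by
    intro c hc
    ext z
    rw [mem_cl, mem_cl, hU', Finset.mem_sdiff, hM, mem_cl]
    constructor
    · rintro ⟨⟨h, _⟩, h2⟩; exact ⟨h, h2⟩
    · rintro ⟨h, h2⟩
      exact ⟨⟨h, fun h3 => hc (h2.symm.trans h3.2)⟩, h2⟩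
  have hclm : cl U' cls m = ∅ := by
    rw [Finset.eq_empty_iff_forall_notMem]
    intro z hz
    rw [mem_cl, hU', Finset.mem_sdiff, hM, mem_cl] at hz
    exact hz.1.2 ⟨hz.1.1, hz.2⟩
  have hxx : ∀ c, x' c ≤ #(cl U' cls c) := by
    intro c
    by_cases hc : c = m
    · rw [hc, hx', Function.update_self]; exact Nat.zero_le _
    · rw [hx', Function.update_of_ne hc, hcl c hc]; exact hx c
  set P := prof U' cls x' with hP
  have hPne : P.Nonempty := prof_nonempty hxx
  have hP0 : (0 : ℝ) < #P := by exact_mod_cast hPne.card_pos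
  have hsub : ∀ S ∈ P, S ⊆ U' := fun S hS => (mem_prof.mp hS).1
  have hMU : M ⊆ U := Finset.filter_subset _ _
  have hnotin : ∀ S ∈ P, ∀ i ∈ M, i ∉ S := by
    intro S hS i hi hiS
    have := hsub S hS hiS
    rw [hU', Finset.mem_sdiff] at this
    exact this.2 hi
  have hsum : ∑ c, x c = 2 + ∑ c, x' c := by
    rw [← Finset.add_sum_erase _ _ (Finset.mem_univ m), ← Finset.add_sum_erase _ x'
      (Finset.mem_univ m), hxm, hx', Function.update_self, Nat.zero_add]
    congr 1
    refine Finset.sum_congr rfl fun c hc => ?_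
    rw [Function.update_of_ne (Finset.ne_of_mem_erase hc)]
  -- indicators
  have hind1 : ∀ t ∈ M ×ˢ P, ∀ i ∈ M, ind (insert t.1 (insert (σ t.1) t.2)) i = ep σ t.1 i := by
    intro t ht i hi
    rw [Finset.mem_product] at ht
    have hni := hnotin t.2 ht.2 i hi
    have hne : σ t.1 ≠ t.1 := (hσ t.1 ht.1).2.ne.symm
    unfold ind ep
    by_cases h1 : t.1 = i
    · have h2 : σ t.1 ≠ i := fun h => hne (h.trans h1.symm)
      rw [if_pos h1, if_neg h2, if_pos (Finset.mem_insert.mpr (Or.inl h1.symm))]; norm_num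
    · by_cases h2 : σ t.1 = i
      · rw [if_neg h1, if_pos h2, if_pos]
        · norm_num
        · rw [Finset.mem_insert, Finset.mem_insert]; exact Or.inr (Or.inl h2.symm)
      · rw [if_neg h1, if_neg h2, if_neg]
        · norm_num
        · rw [Finset.mem_insert, Finset.mem_insert]
          rintro (h | h | h)
          · exact h1 h.symm
          · exact h2 h.symm
          · exact hni h
  have hind2 : ∀ t ∈ M ×ˢ P, ∀ i ∈ U, i ∉ M →
      ind (insert t.1 (insert (σ t.1) t.2)) i = ind t.2 i := by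
    intro t ht i hi hiM
    rw [Finset.mem_product] at ht
    unfold ind
    have h1 : i ≠ t.1 := fun h => hiM (h ▸ ht.1)
    have h2 : i ≠ σ t.1 := fun h => hiM (h ▸ (hσ t.1 ht.1).1)
    simp only [Finset.mem_insert, h1, h2, false_or]
  have hTne : (M ×ˢ P).Nonempty := hMne.product hPne
  have hcardT : (#(M ×ˢ P) : ℝ) = #M * #P := by rw [Finset.card_product]; push_cast; ring
  have hone : ∀ i ∈ U, ∑ t ∈ M ×ˢ P, ind (insert t.1 (insert (σ t.1) t.2)) i =
      #(M ×ˢ P) * ((x (cls i) : ℝ) / #(cl U cls (cls i))) := by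
    intro i hi
    by_cases hiM : i ∈ M
    · have hcm : cls i = m := (mem_cl.mp hiM).2
      rw [Finset.sum_congr rfl fun t ht => hind1 t ht i hiM, Finset.sum_product_right,
        Finset.sum_congr rfl fun S _ => sum_ep (fun z hz => (hσ z hz).1) hinj hiM,
        Finset.sum_const, nsmul_eq_mul, hcardT, hcm, hxm, ← hM]
      push_cast
      field_simp
    · have hcm : cls i ≠ m := fun h => hiM (mem_cl.mpr ⟨hi, h⟩)
      have hiU' : i ∈ U' := Finset.mem_sdiff.mpr ⟨hi, hiM⟩
      have e0 : ∑ t ∈ M ×ˢ P, ind t.2 i = #M * ∑ S ∈ P, ind S i := by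
        rw [Finset.sum_product]; simp
      rw [Finset.sum_congr rfl fun t ht => hind2 t ht i hi hiM, e0, hcardT, hP, prof_one hiU',
        ← hP, hx', Function.update_of_ne hcm, hcl _ hcm]
      ring
  have hstep : ∀ i ∈ U, ∀ j ∈ U, i ∉ M → j ∈ M →
      ∑ t ∈ M ×ˢ P, ind (insert t.1 (insert (σ t.1) t.2)) i *
        ind (insert t.1 (insert (σ t.1) t.2)) j = #(M ×ˢ P) *
        (((x (cls i) : ℝ) / #(cl U cls (cls i))) * ((x (cls j) : ℝ) / #(cl U cls (cls j)))) := by
    intro i hi j hj hiM hjM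
    have hcm : cls i ≠ m := fun h => hiM (mem_cl.mpr ⟨hi, h⟩)
    have hcj : cls j = m := (mem_cl.mp hjM).2
    have hiU' : i ∈ U' := Finset.mem_sdiff.mpr ⟨hi, hiM⟩
    have e1 : ∀ t ∈ M ×ˢ P, ind (insert t.1 (insert (σ t.1) t.2)) i *
        ind (insert t.1 (insert (σ t.1) t.2)) j = ep σ t.1 j * ind t.2 i := by
      intro t ht
      rw [hind1 t ht j hjM, hind2 t ht i hi hiM]; ring
    have e0 : ∑ t ∈ M ×ˢ P, ep σ t.1 j * ind t.2 i =
        (∑ w ∈ M, ep σ w j) * ∑ S ∈ P, ind S i := by
      rw [Finset.sum_product, Finset.sum_mul]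
      refine Finset.sum_congr rfl fun w _ => ?_
      rw [Finset.mul_sum]
    rw [Finset.sum_congr rfl e1, e0, sum_ep (fun z hz => (hσ z hz).1) hinj hjM, hP, prof_one hiU', ← hP,
      hcardT, hx', Function.update_of_ne hcm, hcl _ hcm, hcj, hxm, ← hM]
    push_cast
    field_simp
  have htwo : ∀ i ∈ U, ∀ j ∈ U, G.Adj i j →
      ∑ t ∈ M ×ˢ P, ind (insert t.1 (insert (σ t.1) t.2)) i *
        ind (insert t.1 (insert (σ t.1) t.2)) j = #(M ×ˢ P) *
      (if cls i = cls j then (if cls i = m then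
          ((if σ i = j then (1 : ℝ) else 0) + (if σ j = i then 1 else 0)) / #M
        else (x (cls i) : ℝ) * ((x (cls i) : ℝ) - 1) /
        (#(cl U cls (cls i)) * ((#(cl U cls (cls i)) : ℝ) - 1)))
      else ((x (cls i) : ℝ) / #(cl U cls (cls i))) * ((x (cls j) : ℝ) / #(cl U cls (cls j)))) := by
    intro i hi j hj hij
    by_cases hiM : i ∈ M
    · have hci : cls i = m := (mem_cl.mp hiM).2
      by_cases hjM : j ∈ M
      · have hcj : cls j = m := (mem_cl.mp hjM).2
        rw [if_pos (hci.trans hcj.symm), if_pos hci]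
        have e1 : ∀ t ∈ M ×ˢ P, ind (insert t.1 (insert (σ t.1) t.2)) i *
            ind (insert t.1 (insert (σ t.1) t.2)) j = ep σ t.1 i * ep σ t.1 j := by
          intro t ht
          rw [hind1 t ht i hiM, hind1 t ht j hjM]
        have e0 : ∑ t ∈ M ×ˢ P, ep σ t.1 i * ep σ t.1 j =
            #P * ∑ w ∈ M, ep σ w i * ep σ w j := by
          rw [Finset.sum_product_right]; simp
        rw [Finset.sum_congr rfl e1, e0, sum_ep_mul hiM hjM hij.ne, hcardT]
        field_simp
      · have hcj : cls j ≠ m := fun h => hjM (mem_cl.mpr ⟨hj, h⟩)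
        rw [if_neg (fun h => hcj (h.symm.trans hci))]
        have := hstep j hj i hi hjM hiM
        rw [mul_comm ((x (cls i) : ℝ) / _), ← this]
        refine Finset.sum_congr rfl fun t _ => ?_
        ring
    · have hci : cls i ≠ m := fun h => hiM (mem_cl.mpr ⟨hi, h⟩)
      by_cases hjM : j ∈ M
      · have hcj : cls j = m := (mem_cl.mp hjM).2
        rw [if_neg (fun h => hci (h.trans hcj))]
        exact hstep i hi j hj hiM hjM
      · have hcj : cls j ≠ m := fun h => hjM (mem_cl.mpr ⟨hj, h⟩)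
        have hiU' : i ∈ U' := Finset.mem_sdiff.mpr ⟨hi, hiM⟩
        have hjU' : j ∈ U' := Finset.mem_sdiff.mpr ⟨hj, hjM⟩
        have e1 : ∀ t ∈ M ×ˢ P, ind (insert t.1 (insert (σ t.1) t.2)) i *
            ind (insert t.1 (insert (σ t.1) t.2)) j = ind t.2 i * ind t.2 j := by
          intro t ht
          rw [hind2 t ht i hi hiM, hind2 t ht j hj hjM]
        have e0 : ∑ t ∈ M ×ˢ P, ind t.2 i * ind t.2 j = #M * ∑ S ∈ P, ind S i * ind S j := by
          rw [Finset.sum_product]; simp
        rw [Finset.sum_congr rfl e1, e0, hcardT, hP]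
        by_cases hc : cls i = cls j
        · rw [prof_two_eq hiU' hjU' hij.ne hc, ← hP, hx', Function.update_of_ne hci, hcl _ hci,
            if_pos hc, if_neg hci]
          ring
        · rw [prof_two_ne hiU' hjU' hc, ← hP, hx', Function.update_of_ne hci,
            Function.update_of_ne hcj, hcl _ hci, hcl _ hcj, if_neg hc]
          ring
  have key := hs.family hTne (fun t => insert t.1 (insert (σ t.1) t.2))
    (fun t ht => by
      rw [Finset.mem_product] at ht
      intro z hz
      rw [Finset.mem_insert, Finset.mem_insert] at hz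
      rcases hz with rfl | rfl | hz
      · exact hMU ht.1
      · exact hMU (hσ _ ht.1).1
      · exact Finset.sdiff_subset (hsub _ ht.2 hz))
    (s := ∑ c, x c)
    (fun t ht => by
      rw [Finset.mem_product] at ht
      have a1 := hnotin t.2 ht.2 _ (hσ _ ht.1).1
      have a2 := hnotin t.2 ht.2 _ ht.1
      have a3 : t.1 ≠ σ t.1 := (hσ _ ht.1).2.ne
      rw [Finset.card_insert_of_notMem, Finset.card_insert_of_notMem a1, card_prof ht.2, hsum]
      · ring
      · rw [Finset.mem_insert]
        rintro (h | h)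
        · exact a3 h
        · exact a2 h)
    (by rw [hsum]; omega) h1 _ _ hone htwo
  refine lt_of_eq_of_lt ?_ key
  have hextra : ∑ i ∈ M, ∑ j ∈ M, ad G i j *
      (((if σ i = j then (1 : ℝ) else 0) + (if σ j = i then 1 else 0)) / #M) = 2 := by
    have e := sum_ad_ep (G := G) hσ
    have e' : ∑ i ∈ M, ∑ j ∈ M, ad G i j *
        (((if σ i = j then (1 : ℝ) else 0) + (if σ j = i then 1 else 0)) / (#M : ℝ)) =
        (∑ i ∈ M, ∑ j ∈ M, ad G i j *
        ((if σ i = j then 1 else 0) + (if σ j = i then 1 else 0))) / #M := by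
      rw [Finset.sum_div]
      refine Finset.sum_congr rfl fun i _ => ?_
      rw [Finset.sum_div]
      refine Finset.sum_congr rfl fun j _ => ?_
      ring
    rw [e', e]; field_simp
  rw [sum_cls U cls]
  have hext2 : (2 : ℝ) = ∑ c, ∑ c', (if c = m ∧ c' = m then (2 : ℝ) else 0) := by
    have : ∀ c, ∑ c', (if c = m ∧ c' = m then (2 : ℝ) else 0) = if c = m then 2 else 0 := by
      intro c
      by_cases hc : c = m
      · simp [hc]
      · simp [hc]
    simp_rw [this]
    simp
  conv_lhs => rw [hext2]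
  rw [← Finset.sum_add_distrib]
  refine Finset.sum_congr rfl fun c _ => ?_
  rw [← Finset.sum_add_distrib]
  refine Finset.sum_congr rfl fun c' _ => ?_
  by_cases hcm : c = m ∧ c' = m
  · obtain ⟨rfl, rfl⟩ := hcm
    rw [if_pos ⟨rfl, rfl⟩, ← hextra]
    unfold ee
    rw [Finset.mul_sum, ← Finset.sum_add_distrib]
    refine Finset.sum_congr rfl fun i hi => ?_
    rw [Finset.mul_sum, ← Finset.sum_add_distrib]
    refine Finset.sum_congr rfl fun j hj => ?_
    have ei := (mem_cl.mp hi).2
    have ej := (mem_cl.mp hj).2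
    rw [ei, ej]
    unfold cfp
    push_cast
    simp only [if_true]
    ring
  · rw [if_neg hcm, add_zero]
    unfold ee
    rw [Finset.mul_sum]
    refine Finset.sum_congr rfl fun i hi => ?_
    rw [Finset.mul_sum]
    refine Finset.sum_congr rfl fun j hj => ?_
    have ei := (mem_cl.mp hi).2
    have ej := (mem_cl.mp hj).2
    rw [ei, ej]
    unfold cfp
    push_cast
    by_cases hc : c = c'
    · have hcm' : c ≠ m := fun h => hcm ⟨h, hc ▸ h⟩
      rw [if_pos hc, if_pos hc, if_neg hcm', if_neg hcm', hc]; ring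
    · rw [if_neg hc, if_neg hc]; ring

end prof

end TwoClub
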