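import Pool.Agent.TwoClub.Reduce

/-!
A solid graph of even order with a far pair has a smaller solid graph with the same far pair.
More generally for every divisor `n'` of `n` with `n - n' ≤ k - 1`.
-/

namespace TwoClub

open Finset

variable {V : Type*} {G : SimpleGraph V}

/-- descent to a divisor of the order, given an independent set `K` -/
theorem Solid.descend [DecidableEq V] {c : ℝ} {U K : Finset V} {u v : V} (hs : Solid G c U)
    (h : Far G U u v) (hKU : K ⊆ U) (hK : Ind G K) {n' : ℕ} (hdvd : n' ∣ #U)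
    (hcard : #U ≤ n' + #((K.erase u).erase v)) :
    ∃ W ⊆ U, #W = n' ∧ U \ K ⊆ W ∧ Solid G c W ∧ Far G W u v := by
  have hle : #U - n' ≤ #((K.erase u).erase v) := by omega
  obtain ⟨R, hR, hRc⟩ := Finset.exists_subset_card_eq hle
  have hRK : R ⊆ K := hR.trans ((Finset.erase_subset _ _).trans (Finset.erase_subset _ _))
  have hRU : R ⊆ U := hRK.trans hKU
  have hUpos : 0 < #U := Finset.card_pos.mpr ⟨u, h.1⟩
  have hn' : n' ≤ #U := Nat.le_of_dvd hUpos hdvd
  have hWc : #(U \ R) = n' := by
    rw [Finset.card_sdiff_of_subset hRU, hRc]; omega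
  have hu : u ∉ R := fun hu => by
    have := hR hu
    simp at this
  have hv : v ∉ R := fun hv => by
    have := hR hv
    simp at this
  refine ⟨U \ R, Finset.sdiff_subset, hWc, ?_, ?_, ?_⟩
  · exact Finset.sdiff_subset_sdiff (Finset.Subset.refl U) hRK
  · obtain ⟨t, ht⟩ := hdvd
    have ht1 : 1 ≤ t := by
      rcases Nat.eq_zero_or_pos t with h0 | h0
      · rw [h0, mul_zero] at ht; omega
      · exact h0
    refine hs.remove (R := R) (t := t - 1) Finset.sdiff_disjoint
      (Finset.sdiff_union_of_subset hRU) (fun x hx y hy => hK x (hRK hx) y (hRK hy)) ?_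
    rw [hWc, hRc, ht, Nat.sub_mul, one_mul, Nat.mul_comm]
  · exact h.mono Finset.sdiff_subset (Finset.mem_sdiff.mpr ⟨h.1, hu⟩)
      (Finset.mem_sdiff.mpr ⟨h.2.1, hv⟩)

/-- N EVEN: the order of a minimal counterexample is odd -/
theorem Solid.even_descend {U : Finset V} {u v : V} (hs : Solid G 0 U)
    (h : Far G U u v) (hev : Even (#U)) :
    ∃ W ⊆ U, #W < #U ∧ Solid G 0 W ∧ Far G W u v := by
  classical
  obtain ⟨K, N, hKN, hd, hKi, hcard, _, _, _, _, hpos⟩ := hs.struct h
  have hKU : K ⊆ U := by rw [← hKN]; exact Finset.subset_union_left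
  have hUc : #U = #K + #N := by rw [← hKN, Finset.card_union_of_disjoint hd]
  obtain ⟨n', hn'⟩ := hev
  have hUpos : 0 < #U := Finset.card_pos.mpr ⟨u, h.1⟩
  have herase : #K - 1 ≤ #((K.erase u).erase v) := by
    rw [Finset.disjoint_left] at hd
    rcases hpos with ⟨hv, hu⟩ | ⟨hu, hv⟩
    · have hu' : u ∉ K := fun hh => hd hh hu
      rw [Finset.erase_eq_of_notMem hu', Finset.card_erase_of_mem hv]
    · have hv' : v ∉ K.erase u := fun hh => hd (Finset.mem_of_mem_erase hh) hv
      rw [Finset.erase_eq_of_notMem hv', Finset.card_erase_of_mem hu]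
  obtain ⟨W, hWU, hWc, _, hWs, hWf⟩ := hs.descend h hKU hKi (n' := n')
    ⟨2, by rw [hn']; ring⟩ (by omega)
  exact ⟨W, hWU, by omega, hWs, hWf⟩

end TwoClub
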