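import Pool.Agent.TwoClub.HalfSets

/-!
Lemma L: the solidity test for fractional functions which are integral outside two disjoint
independent sets `K`, `I` and have integral sums on `K` and on `I`.
-/

namespace TwoClub

open Finset

variable {V : Type*} {G : SimpleGraph V}

/-- if all values but one are `0` or `1` and the sum is an integer, then all values are integers -/
theorem exists_second_frac [DecidableEq V] {K : Finset V} {f : V → ℝ} {a : V} (ha : a ∈ K)
    (h0 : 0 < f a) (h1 : f a < 1) (hs : ∃ m : ℤ, ∑ z ∈ K, f z = m) :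
    ∃ b ∈ K, b ≠ a ∧ f b ≠ 0 ∧ f b ≠ 1 := by
  by_contra hcon
  push Not at hcon
  obtain ⟨m, hm⟩ := hs
  have h2 : ∃ l : ℤ, ∑ z ∈ K.erase a, f z = l := by
    refine ⟨∑ z ∈ K.erase a, (if f z = 1 then 1 else 0), ?_⟩
    push_cast
    refine Finset.sum_congr rfl fun z hz => ?_
    obtain ⟨hza, hzK⟩ := Finset.mem_erase.1 hz
    by_cases hz0 : f z = 0
    · rw [if_neg (by rw [hz0]; norm_num), hz0]
    · rw [if_pos (hcon z hzK hza hz0), hcon z hzK hza hz0]
  obtain ⟨l, hl⟩ := h2
  rw [← Finset.add_sum_erase K f ha, hl] at hm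
  have h3 : (0 : ℝ) < ((m - l : ℤ) : ℝ) := by push_cast; linarith
  have h4 : ((m - l : ℤ) : ℝ) < 1 := by push_cast; linarith
  have h5 : (0 : ℤ) < m - l := by exact_mod_cast h3
  have h6 : m - l < (1 : ℤ) := by exact_mod_cast h4
  omega

/-- rounding on an independent set with integral sum does not decrease the form -/
theorem pipage_ind [DecidableEq V] {U K : Finset V} (hKU : K ⊆ U) (hK : Ind G K) (p : ℝ) :
    ∀ n : ℕ, ∀ f : V → ℝ, #(K.filter fun z => f z ≠ 0 ∧ f z ≠ 1) ≤ n →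
      (∀ z ∈ K, 0 ≤ f z ∧ f z ≤ 1) → (∃ m : ℤ, ∑ z ∈ K, f z = m) →
      ∃ g : V → ℝ, (∀ z ∈ K, g z = 0 ∨ g z = 1) ∧ ∑ z ∈ K, g z = ∑ z ∈ K, f z ∧
        (∀ z, z ∉ K → g z = f z) ∧
        BF G U (fun x => f x - p) (fun x => f x - p) ≤
          BF G U (fun x => g x - p) (fun x => g x - p) := by
  intro n
  induction n with
  | zero =>
    intro f hc h01 hsum
    refine ⟨f, fun z hz => ?_, rfl, fun _ _ => rfl, le_refl _⟩
    by_contra hcon
    push Not at hcon
    have : z ∈ K.filter fun z => f z ≠ 0 ∧ f z ≠ 1 := Finset.mem_filter.mpr ⟨hz, hcon⟩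
    have := Finset.card_pos.mpr ⟨z, this⟩
    omega
  | succ n ih =>
    intro f hc h01 hsum
    by_cases hex : ∃ a ∈ K, f a ≠ 0 ∧ f a ≠ 1
    swap
    · push Not at hex
      refine ⟨f, fun z hz => ?_, rfl, fun _ _ => rfl, le_refl _⟩
      by_cases h0 : f z = 0
      · exact Or.inl h0
      · exact Or.inr (hex z hz h0)
    obtain ⟨a, ha, ha0, ha1⟩ := hex
    have ha0' : 0 < f a := lt_of_le_of_ne (h01 a ha).1 (Ne.symm ha0)
    have ha1' : f a < 1 := lt_of_le_of_ne (h01 a ha).2 ha1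
    obtain ⟨b, hb, hne, hb0, hb1⟩ := exists_second_frac ha ha0' ha1' hsum
    have hb0' : 0 < f b := lt_of_le_of_ne (h01 b hb).1 (Ne.symm hb0)
    have hb1' : f b < 1 := lt_of_le_of_ne (h01 b hb).2 hb1
    have hn : ¬ G.Adj a b := hK a ha b hb
    -- the choice of `t`
    obtain ⟨t, ht01, ht, htL⟩ : ∃ t : ℝ,
        (0 ≤ f a + t ∧ f a + t ≤ 1 ∧ 0 ≤ f b - t ∧ f b - t ≤ 1) ∧
        ((f a + t = 0 ∨ f a + t = 1) ∨ (f b - t = 0 ∨ f b - t = 1)) ∧
        0 ≤ t * BF G U (fun x => f x - p) (dl a b) := by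
      by_cases hL : 0 ≤ BF G U (fun x => f x - p) (dl a b)
      · rcases le_total (1 - f a) (f b) with h | h
        · exact ⟨1 - f a, ⟨by linarith, by linarith, by linarith, by linarith⟩,
            Or.inl (Or.inr (by ring)), mul_nonneg (by linarith) hL⟩
        · exact ⟨f b, ⟨by linarith, by linarith, by linarith, by linarith⟩,
            Or.inr (Or.inl (by ring)), mul_nonneg (by linarith) hL⟩
      · push Not at hL
        rcases le_total (f a) (1 - f b) with h | h
        · exact ⟨- f a, ⟨by linarith, by linarith, by linarith, by linarith⟩,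
            Or.inl (Or.inl (by ring)), by nlinarith⟩
        · exact ⟨-(1 - f b), ⟨by linarith, by linarith, by linarith, by linarith⟩,
            Or.inr (Or.inr (by ring)), by nlinarith⟩
    obtain ⟨f', hf'⟩ : ∃ f' : V → ℝ, f' = fun x => f x + t * dl a b x := ⟨_, rfl⟩
    have e_a : f' a = f a + t := by simp [hf', dl, hne.symm]
    have e_b : f' b = f b - t := by simp [hf', dl, hne]; ring
    have e_o : ∀ z, z ≠ a → z ≠ b → f' z = f z := by
      intro z h1 h2; simp [hf', dl, h1, h2]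
    have hcard : #(K.filter fun z => f' z ≠ 0 ∧ f' z ≠ 1) ≤ n := by
      have hlt : #(K.filter fun z => f' z ≠ 0 ∧ f' z ≠ 1) <
          #(K.filter fun z => f z ≠ 0 ∧ f z ≠ 1) := by
        apply Finset.card_lt_card
        rw [Finset.ssubset_iff_of_subset]
        · rcases ht with h | h
          · refine ⟨a, Finset.mem_filter.mpr ⟨ha, ha0, ha1⟩, fun hmem => ?_⟩
            obtain ⟨_, h2, h3⟩ := Finset.mem_filter.mp hmem
            rw [e_a] at h2 h3
            rcases h with h | h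
            · exact h2 h
            · exact h3 h
          · refine ⟨b, Finset.mem_filter.mpr ⟨hb, hb0, hb1⟩, fun hmem => ?_⟩
            obtain ⟨_, h2, h3⟩ := Finset.mem_filter.mp hmem
            rw [e_b] at h2 h3
            rcases h with h | h
            · exact h2 h
            · exact h3 h
        · intro z hz
          obtain ⟨hzK, hz0, hz1⟩ := Finset.mem_filter.mp hz
          by_cases hza : z = a
          · rw [hza]; exact Finset.mem_filter.mpr ⟨ha, ha0, ha1⟩
          by_cases hzb : z = b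
          · rw [hzb]; exact Finset.mem_filter.mpr ⟨hb, hb0, hb1⟩
          rw [e_o z hza hzb] at hz0 hz1
          exact Finset.mem_filter.mpr ⟨hzK, hz0, hz1⟩
      omega
    have hb01' : ∀ z ∈ K, 0 ≤ f' z ∧ f' z ≤ 1 := by
      intro z hz
      by_cases hza : z = a
      · rw [hza, e_a]; exact ⟨ht01.1, ht01.2.1⟩
      by_cases hzb : z = b
      · rw [hzb, e_b]; exact ⟨ht01.2.2.1, ht01.2.2.2⟩
      rw [e_o z hza hzb]; exact h01 z hz
    have hsum' : ∑ z ∈ K, f' z = ∑ z ∈ K, f z := by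
      rw [hf', Finset.sum_add_distrib, ← Finset.mul_sum]
      have : ∑ z ∈ K, dl a b z = 0 := by
        unfold dl
        rw [Finset.sum_sub_distrib, Finset.sum_ite_eq' K a, Finset.sum_ite_eq' K b, if_pos ha,
          if_pos hb]
        ring
      rw [this]; ring
    obtain ⟨g, hg1, hg2, hg3, hg4⟩ := ih f' hcard hb01' (by rw [hsum']; exact hsum)
    refine ⟨g, hg1, by rw [hg2, hsum'], fun z hz => ?_, le_trans ?_ hg4⟩
    · rw [hg3 z hz]
      exact e_o z (fun h => hz (h ▸ ha)) (fun h => hz (h ▸ hb))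
    · have e1 : BF G U (fun x => f' x - p) (fun x => f' x - p) =
          BF G U (fun x => (f x - p) - (-t) * dl a b x)
            (fun x => (f x - p) - (-t) * dl a b x) := by
        apply BF_congr <;> intro x _ <;> simp only [hf'] <;> ring
      rw [e1, BF_sub_smul U (fun x => f x - p) (dl a b) (-t),
        BF_dl_dl (hKU ha) (hKU hb) hn]
      nlinarith

/-- solidity for a `0/1` function -/
theorem Solid.bf_lt [DecidableEq V] {U : Finset V} (hs : Solid G 0 U) {g : V → ℝ}
    (hg : ∀ z ∈ U, g z = 0 ∨ g z = 1) (h1 : 0 < ∑ z ∈ U, g z) (h2 : ∑ z ∈ U, g z < #U) {p : ℝ}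
    (hp : p = (∑ z ∈ U, g z) / #U) :
    BF G U (fun x => g x - p) (fun x => g x - p) < 0 := by
  obtain ⟨S, hS⟩ : ∃ S : Finset V, S = U.filter fun z => g z = 1 := ⟨_, rfl⟩
  have hSU : S ⊆ U := by rw [hS]; exact Finset.filter_subset _ _
  have hind : ∀ z ∈ U, g z = if z ∈ S then 1 else 0 := by
    intro z hz
    by_cases h : g z = 1
    · have hzS : z ∈ S := by rw [hS]; exact Finset.mem_filter.mpr ⟨hz, h⟩
      rw [if_pos hzS, h]
    · have hzS : z ∉ S := fun h' => h (by rw [hS] at h'; exact (Finset.mem_filter.mp h').2)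
      rw [if_neg hzS]
      exact (hg z hz).resolve_right h
  have hcard : (#S : ℝ) = ∑ z ∈ U, g z := by
    rw [Finset.sum_congr rfl hind, ← Finset.sum_filter]
    have : U.filter (fun z => z ∈ S) = S := by
      ext z
      rw [Finset.mem_filter]
      exact ⟨fun h => h.2, fun h => ⟨hSU h, h⟩⟩
    rw [this]; simp
  have hSne : S.Nonempty := by
    rw [← Finset.card_pos]
    have : (0 : ℝ) < #S := by rw [hcard]; exact h1
    exact_mod_cast this
  have hSU' : S ≠ U := by
    intro h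
    rw [h] at hcard
    linarith
  have hq := hs S hSU hSne hSU'
  rw [QQ_eq_BF hSU, hcard, ← hp] at hq
  have e : BF G U (fun x => g x - p) (fun x => g x - p) =
      BF G U (fun x => (if x ∈ S then 1 else 0) - p) (fun x => (if x ∈ S then 1 else 0) - p) := by
    apply BF_congr <;> intro x hx <;> simp only [hind x hx]
  rw [e]
  simpa using hq

/-- Lemma L -/
theorem Solid.frac [DecidableEq V] {U K I : Finset V} (hs : Solid G 0 U) (hKU : K ⊆ U)
    (hIU : I ⊆ U) (hd : Disjoint K I) (hK : Ind G K) (hI : Ind G I) {f : V → ℝ}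
    (h01 : ∀ z ∈ U, 0 ≤ f z ∧ f z ≤ 1)
    (hoff : ∀ z ∈ U, z ∉ K → z ∉ I → f z = 0 ∨ f z = 1)
    (hsK : ∃ m : ℤ, ∑ z ∈ K, f z = m) (hsI : ∃ m : ℤ, ∑ z ∈ I, f z = m)
    (h1 : 0 < ∑ z ∈ U, f z) (h2 : ∑ z ∈ U, f z < #U) {p : ℝ} (hp : p = (∑ z ∈ U, f z) / #U) :
    BF G U (fun x => f x - p) (fun x => f x - p) < 0 := by
  obtain ⟨g, hg1, hg2, hg3, hg4⟩ := pipage_ind hKU hK p _ f (le_refl _)
    (fun z hz => h01 z (hKU hz)) hsK
  have hdis : ∀ z, z ∈ K → z ∉ I := fun z h1 h2 => Finset.disjoint_left.1 hd h1 h2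
  have hgI : ∀ z ∈ I, g z = f z := fun z hz => hg3 z (fun h => hdis z h hz)
  obtain ⟨g', hg1', hg2', hg3', hg4'⟩ := pipage_ind hIU hI p _ g (le_refl _)
    (fun z hz => by rw [hgI z hz]; exact h01 z (hIU hz))
    (by rw [Finset.sum_congr rfl hgI]; exact hsI)
  refine lt_of_le_of_lt (hg4.trans hg4') ?_
  have hsum1 : ∑ z ∈ U, g z = ∑ z ∈ U, f z := by
    rw [← Finset.sum_sdiff hKU, ← Finset.sum_sdiff hKU, hg2]
    congr 1
    exact Finset.sum_congr rfl fun z hz => hg3 z (Finset.mem_sdiff.mp hz).2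
  have hsum2 : ∑ z ∈ U, g' z = ∑ z ∈ U, g z := by
    rw [← Finset.sum_sdiff hIU, ← Finset.sum_sdiff hIU, hg2']
    congr 1
    exact Finset.sum_congr rfl fun z hz => hg3' z (Finset.mem_sdiff.mp hz).2
  refine hs.bf_lt ?_ (by rw [hsum2, hsum1]; exact h1) (by rw [hsum2, hsum1]; exact h2)
    (by rw [hsum2, hsum1]; exact hp)
  intro z hz
  by_cases hzI : z ∈ I
  · exact hg1' z hzI
  · rw [hg3' z hzI]
    by_cases hzK : z ∈ K
    · exact hg1 z hzK
    · rw [hg3 z hzK]
      exact hoff z hz hzK hzI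

end TwoClub
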