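import Mathlib

/-!
Constants of the final certificate (helper37): weights and levels of the four kinds of tests on
`W = {u, v, f u, g v} ∪ A ∪ f A ∪ B ∪ g B`, `#W = 2 (a + b) + 4`, and the final numerical
inequality, which depends on `a = #A` and `b = #B` only.
-/

namespace TwoClub

/-- `th`, `mu` levels, `XV XU XA XB` weights of one test of each kind, `Ga` the rounding constant,
`w` the number of elements of `W` in the big class -/
structure Good (a b w th mu Ga XV XU XA XB : ℝ) : Prop where
  nV : 0 ≤ XV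
  nU : 0 < XU
  nA : 0 ≤ XA
  nB : 0 ≤ XB
  nG : 0 ≤ Ga
  nth : 0 ≤ th
  nmu : 0 ≤ mu
  hA : XA * (2 + mu) = a + b + 2
  hB : XB * 3 = a + b + 2
  hC : XV * (1 + th) ^ 2 + XU * 4 + a * (XA * (2 + mu) ^ 2) + b * (XB * 9) +
    Ga * (2 * (a + b) + 4) ^ 2 * (XV + XU + a * XA + b * XB) = (2 * (a + b) + 4) ^ 2
  hf : 2 * (a + b) + 4 ≤ 4 * XU
  hg : 2 * (a + b) + 4 ≤ 2 * th * (1 + th) * XV
  uA : 0 < a → (2 * (a + b) + 4) + 2 * mu * XA * (2 * (a + b) + 4) ≤
    4 * XU + mu * a * (2 * (a + b) + 4)
  vB : 0 < b → (2 * (a + b) + 4) + 2 * XB * (2 * (a + b) + 4) ≤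
    2 * (1 + th) * XV + b * (2 * (a + b) + 4)
  star : (XV + XU + a * XA + b * XB) * (1 / 8 + 2 * Ga * (2 * (a + b) + 4) * (w + a + b)) <
    2 * th * XV + 2 * XU + 2 * a * (1 + 2 * mu) * XA + 6 * b * XB -
      (4 * XU / (2 * (a + b) + 4) + mu * a - 1) * (2 * a + 1) -
      (2 * (1 + th) * XV / (2 * (a + b) + 4) + b - 1) * (2 * b + 1) -
      (4 * XU / (2 * (a + b) + 4) - 1) * (a + 2 * b + 2) -
      (2 * th * (1 + th) * XV / (2 * (a + b) + 4) - 1) * (2 * a + b + 2)

/-- the same in normalised form -/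
theorem Good.mk' {a b w th mu E xV lam N xA : ℝ} (ha : 0 ≤ a) (hb : 0 ≤ b)
    (hN : N = 2 * (a + b) + 4) (hth : 0 ≤ th) (hmu : 0 ≤ mu) (hE : 0 ≤ E) (hxV : 0 ≤ xV)
    (hlam : 1 ≤ lam) (hxA : xA * (2 * (2 + mu)) = 1)
    (hC : xV * ((1 + th) ^ 2 + E) + lam + a * (2 + mu) / 2 + 3 * b / 2 +
      E * (lam / 4 + a * xA + b / 6) = N)
    (hg : 1 ≤ 2 * th * (1 + th) * xV)
    (uA : 0 < a → 1 + 2 * mu * xA * N ≤ lam + mu * a)
    (vB : 0 < b → 1 + N / 3 ≤ 2 * (1 + th) * xV + b)
    (star : (xV + lam / 4 + a * xA + b / 6) * (N / 8 + 2 * E * (w + a + b)) <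
      N * (2 * th * xV + lam / 2 + 2 * a * (1 + 2 * mu) * xA + b) -
        (lam + mu * a - 1) * (2 * a + 1) - (2 * (1 + th) * xV + b - 1) * (2 * b + 1) -
        (lam - 1) * (a + 2 * b + 2) - (2 * th * (1 + th) * xV - 1) * (2 * a + b + 2)) :
    Good a b w th mu (E / N ^ 2) (N * xV) (N * lam / 4) (N * xA) (N / 6) := by
  have hN0 : 0 < N := by rw [hN]; linarith
  have hxA0 : 0 < xA := by
    by_contra h
    push Not at h
    have : xA * (2 * (2 + mu)) ≤ 0 := mul_nonpos_of_nonpos_of_nonneg h (by linarith)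
    linarith
  have hlam0 : 0 < lam := by linarith
  have e1 : 4 * (N * lam / 4) / N = lam := by field_simp
  have e2 : 2 * (1 + th) * (N * xV) / N = 2 * (1 + th) * xV := by field_simp
  have e3 : 2 * th * (1 + th) * (N * xV) / N = 2 * th * (1 + th) * xV := by field_simp
  have e4 : E / N ^ 2 * N ^ 2 = E := by field_simp
  have e5 : 2 * (E / N ^ 2) * N = 2 * E / N := by field_simp
  exact
    { nV := mul_nonneg hN0.le hxV
      nU := by positivity
      nA := by positivity
      nB := by positivity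
      nG := by positivity
      nth := hth
      nmu := hmu
      hA := by
        have : N * xA * (2 + mu) = N / 2 * (xA * (2 * (2 + mu))) := by ring
        rw [this, hxA, hN]; ring
      hB := by rw [hN]; ring
      hC := by
        rw [← hN, e4]
        have h1 : N * xV * (1 + th) ^ 2 + N * lam / 4 * 4 + a * (N * xA * (2 + mu) ^ 2) +
            b * (N / 6 * 9) + E * (N * xV + N * lam / 4 + a * (N * xA) + b * (N / 6)) =
            N * (xV * ((1 + th) ^ 2 + E) + lam + a * (2 + mu) / 2 * (xA * (2 * (2 + mu))) +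
              3 * b / 2 + E * (lam / 4 + a * xA + b / 6)) := by ring
        rw [h1, hxA, mul_one, hC]; ring
      hf := by
        rw [← hN]
        have : 4 * (N * lam / 4) = N * lam := by ring
        rw [this]
        nlinarith
      hg := by
        rw [← hN]
        have : 2 * th * (1 + th) * (N * xV) = N * (2 * th * (1 + th) * xV) := by ring
        rw [this]
        nlinarith
      uA := by
        intro h
        rw [← hN]
        have h1 := mul_le_mul_of_nonneg_left (uA h) hN0.le
        have : 4 * (N * lam / 4) = N * lam := by ring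
        rw [this]
        nlinarith
      vB := by
        intro h
        rw [← hN]
        have h1 := mul_le_mul_of_nonneg_left (vB h) hN0.le
        nlinarith
      star := by
        rw [← hN, e1, e2, e3]
        have h1 : (N * xV + N * lam / 4 + a * (N * xA) + b * (N / 6)) *
            (1 / 8 + 2 * (E / N ^ 2) * N * (w + a + b)) =
            (xV + lam / 4 + a * xA + b / 6) * (N / 8 + 2 * E * (w + a + b)) := by
          rw [e5]; field_simp
        rw [h1]
        have h2 : 2 * th * (N * xV) + 2 * (N * lam / 4) + 2 * a * (1 + 2 * mu) * (N * xA) +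
            6 * b * (N / 6) = N * (2 * th * xV + lam / 2 + 2 * a * (1 + 2 * mu) * xA + b) := by
          ring
        rw [h2]
        exact star }

end TwoClub
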