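import Pool.Agent.TwoClub.Even

/-!
Vertex weights `ω` and the FRACTIONAL-WEIGHT LIFT: if `G[U]` is solid, `R₀ ⊆ U` independent,
`ω = 1` on `U \ R₀`, `0 ≤ ω ≤ 1` on `R₀`, `r ω` integral and `r ω(U) = |U|`, then the weighted
graph `(G, ω)` is exactly solid.
-/

namespace TwoClub

open Finset

variable {V : Type*} (G : SimpleGraph V)

/-- bilinear form of the adjacency matrix on `U` -/
noncomputable def BF (U : Finset V) (f g : V → ℝ) : ℝ := ∑ x ∈ U, ∑ y ∈ U, ad G x y * f x * g y

/-- total weight -/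
noncomputable def ws (ω : V → ℝ) (S : Finset V) : ℝ := ∑ x ∈ S, ω x

/-- weighted degree -/
noncomputable def wgd (ω : V → ℝ) (U : Finset V) (z : V) : ℝ := ∑ y ∈ U, ad G z y * ω y

/-- weighted `ee` -/
noncomputable def wee (ω : V → ℝ) (S T : Finset V) : ℝ := ∑ x ∈ S, ω x * wgd G ω T x

/-- weighted `Q` -/
noncomputable def QW (ω : V → ℝ) (U S : Finset V) : ℝ :=
  wee G ω S S - 2 * (ws ω S / ws ω U) * wee G ω S U + (ws ω S / ws ω U) ^ 2 * wee G ω U U

/-- weighted solid graphs: positive weights at most one, `Q_ω(S) < 0` for all proper `S` -/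
def SolidW (ω : V → ℝ) (U : Finset V) : Prop :=
  (∀ z ∈ U, 0 < ω z ∧ ω z ≤ 1) ∧ ∀ S ⊆ U, S.Nonempty → S ≠ U → QW G ω U S < 0

variable {G}

theorem wee_comm (ω : V → ℝ) (S T : Finset V) : wee G ω S T = wee G ω T S := by
  unfold wee wgd
  simp_rw [Finset.mul_sum]
  rw [Finset.sum_comm]
  refine Finset.sum_congr rfl fun x _ => Finset.sum_congr rfl fun y _ => ?_
  rw [ad_comm G y x]; ring

theorem wee_eq_BF_ind [DecidableEq V] (ω : V → ℝ) {U S T : Finset V} (hS : S ⊆ U) (hT : T ⊆ U) :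
    BF G U (fun x => ω x * (if x ∈ S then 1 else 0)) (fun x => ω x * (if x ∈ T then 1 else 0))
      = wee G ω S T := by
  unfold BF wee wgd
  have h1 : ∀ x ∈ U, (∑ y ∈ U, ad G x y * (ω x * (if x ∈ S then 1 else 0)) *
      (ω y * (if y ∈ T then 1 else 0))) = if x ∈ S then ω x * ∑ y ∈ T, ad G x y * ω y else 0 := by
    intro x _
    split_ifs with hx
    · rw [Finset.mul_sum, ← Finset.sum_subset hT]
      · refine Finset.sum_congr rfl fun y hy => ?_
        rw [if_pos hy]; ring
      · intro y _ hy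
        rw [if_neg hy]; ring
    · simp
  rw [Finset.sum_congr rfl h1, ← Finset.sum_filter]
  congr 1
  ext x
  rw [Finset.mem_filter]
  exact ⟨fun h => h.2, fun h => ⟨hS h, h⟩⟩

theorem BF_comm (U : Finset V) (f g : V → ℝ) : BF G U f g = BF G U g f := by
  unfold BF
  rw [Finset.sum_comm]
  refine Finset.sum_congr rfl fun x _ => Finset.sum_congr rfl fun y _ => ?_
  rw [ad_comm G y x]; ring

theorem BF_sub_smul (U : Finset V) (f g : V → ℝ) (p : ℝ) :
    BF G U (fun x => f x - p * g x) (fun x => f x - p * g x) =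
      BF G U f f - 2 * p * BF G U f g + p ^ 2 * BF G U g g := by
  have h : BF G U f g = BF G U g f := BF_comm U f g
  have e : BF G U (fun x => f x - p * g x) (fun x => f x - p * g x) =
      BF G U f f - p * BF G U f g - p * BF G U g f + p ^ 2 * BF G U g g := by
    unfold BF
    simp only [Finset.mul_sum, ← Finset.sum_sub_distrib, ← Finset.sum_add_distrib]
    refine Finset.sum_congr rfl fun x _ => Finset.sum_congr rfl fun y _ => ?_
    ring
  rw [e, h]; ring

theorem BF_congr {U : Finset V} {f g f' g' : V → ℝ} (hf : ∀ x ∈ U, f x = f' x)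
    (hg : ∀ x ∈ U, g x = g' x) : BF G U f g = BF G U f' g' := by
  unfold BF
  refine Finset.sum_congr rfl fun x hx => Finset.sum_congr rfl fun y hy => ?_
  rw [hf x hx, hg y hy]

theorem QW_eq_BF [DecidableEq V] (ω : V → ℝ) {U S : Finset V} (hS : S ⊆ U) :
    QW G ω U S = BF G U (fun x => ω x * ((if x ∈ S then 1 else 0) - ws ω S / ws ω U))
      (fun x => ω x * ((if x ∈ S then 1 else 0) - ws ω S / ws ω U)) := by
  set p := ws ω S / ws ω U with hp
  have h1 := BF_sub_smul (G := G) U (fun x => ω x * (if x ∈ S then 1 else 0))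
    (fun x => ω x * (if x ∈ U then 1 else 0)) p
  rw [wee_eq_BF_ind ω hS hS, wee_eq_BF_ind ω hS (Finset.Subset.refl U),
    wee_eq_BF_ind ω (Finset.Subset.refl U) (Finset.Subset.refl U)] at h1
  unfold QW
  rw [← hp, ← h1]
  apply BF_congr
  · intro x hx
    rw [if_pos hx]; ring
  · intro x hx
    rw [if_pos hx]; ring

theorem QQ_eq_QW (U S : Finset V) : QQ G U S = QW G (fun _ => 1) U S := by
  unfold QQ QW
  have h1 : ∀ S : Finset V, ws (fun _ => (1 : ℝ)) S = #S := by intro S; simp [ws]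
  have h2 : ∀ S T : Finset V, wee G (fun _ => (1 : ℝ)) S T = ee G S T := by
    intro S T; unfold wee wgd ee; simp
  simp only [h1, h2]

theorem QQ_eq_BF [DecidableEq V] {U S : Finset V} (hS : S ⊆ U) :
    QQ G U S = BF G U (fun x => (if x ∈ S then 1 else 0) - (#S : ℝ) / #U)
      (fun x => (if x ∈ S then 1 else 0) - (#S : ℝ) / #U) := by
  rw [QQ_eq_QW, QW_eq_BF _ hS]
  have h1 : ∀ S : Finset V, ws (fun _ => (1 : ℝ)) S = #S := by intro S; simp [ws]
  simp only [h1, one_mul]

/-- splitting off an independent set -/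
theorem BF_split [DecidableEq V] {U W R : Finset V} (hWR : Disjoint W R) (hU : W ∪ R = U)
    (hR : Ind G R) (f : V → ℝ) :
    BF G U f f = BF G W f f + 2 * ∑ x ∈ R, f x * ∑ z ∈ W, ad G x z * f z := by
  have e1 : ∀ x, ∑ y ∈ U, ad G x y * f x * f y =
      ∑ y ∈ W, ad G x y * f x * f y + ∑ y ∈ R, ad G x y * f x * f y := by
    intro x; rw [← hU, Finset.sum_union hWR]
  have e2 : ∑ x ∈ R, ∑ y ∈ R, ad G x y * f x * f y = 0 :=
    Finset.sum_eq_zero fun x hx => Finset.sum_eq_zero fun y hy => by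
      rw [ad_of_not G (hR x hx y hy)]; ring
  have e3 : ∑ x ∈ W, ∑ y ∈ R, ad G x y * f x * f y = ∑ x ∈ R, f x * ∑ z ∈ W, ad G x z * f z := by
    rw [Finset.sum_comm]
    refine Finset.sum_congr rfl fun x _ => ?_
    rw [Finset.mul_sum]
    refine Finset.sum_congr rfl fun y _ => ?_
    rw [ad_comm G y x]; ring
  have e4 : ∑ x ∈ R, ∑ y ∈ W, ad G x y * f x * f y = ∑ x ∈ R, f x * ∑ z ∈ W, ad G x z * f z := by
    refine Finset.sum_congr rfl fun x _ => ?_
    rw [Finset.mul_sum]
    refine Finset.sum_congr rfl fun y _ => ?_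
    ring
  unfold BF
  simp_rw [e1]
  rw [← hU, Finset.sum_union hWR, Finset.sum_add_distrib, Finset.sum_add_distrib, e2, e3, e4]
  ring

/-- a set with prescribed integral total is at least as good as a fractional one -/
theorem exists_subset_ge_frac (R : Finset V) (w π : V → ℝ) {h : ℕ}
    (hπ : ∀ i ∈ R, 0 ≤ π i ∧ π i ≤ 1) (hsum : ∑ i ∈ R, π i = h) :
    ∃ X ⊆ R, #X = h ∧ ∑ i ∈ R, π i * w i ≤ ∑ i ∈ X, w i := by
  classical
  have hle : h ≤ #R := by
    have : (h : ℝ) ≤ #R := by
      rw [← hsum]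
      calc ∑ i ∈ R, π i ≤ ∑ i ∈ R, (1 : ℝ) := Finset.sum_le_sum fun i hi => (hπ i hi).2
        _ = #R := by simp
    exact_mod_cast this
  have hne : (R.powersetCard h).Nonempty := Finset.powersetCard_nonempty.mpr hle
  obtain ⟨X, hX, hmax⟩ := Finset.exists_max_image (R.powersetCard h) (fun X => ∑ i ∈ X, w i) hne
  rw [Finset.mem_powersetCard] at hX
  obtain ⟨hXR, hXc⟩ := hX
  refine ⟨X, hXR, hXc, ?_⟩
  rcases Finset.eq_empty_or_nonempty X with h0 | hXne
  · have h00 : (h : ℝ) = 0 := by rw [← hXc, h0]; simp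
    rw [h00] at hsum
    have hz : ∀ i ∈ R, π i = 0 :=
      (Finset.sum_eq_zero_iff_of_nonneg fun i hi => (hπ i hi).1).mp hsum
    rw [h0]
    simp only [Finset.sum_empty]
    apply le_of_eq
    exact Finset.sum_eq_zero fun i hi => by rw [hz i hi, zero_mul]
  · obtain ⟨a, ha, hamin⟩ := Finset.exists_min_image X w hXne
    -- exchange
    have hex : ∀ j ∈ R \ X, w j ≤ w a := by
      intro j hj
      rw [Finset.mem_sdiff] at hj
      by_contra hcon
      push Not at hcon
      have hja : j ∉ X.erase a := fun hh => hj.2 (Finset.mem_of_mem_erase hh)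
      have hc : #(insert j (X.erase a)) = h := by
        rw [Finset.card_insert_of_notMem hja, Finset.card_erase_of_mem ha, ← hXc]
        have := Finset.card_pos.mpr hXne
        omega
      have hm := hmax (insert j (X.erase a)) (Finset.mem_powersetCard.mpr ⟨by
        intro y hy
        rcases Finset.mem_insert.mp hy with rfl | hy
        · exact hj.1
        · exact hXR (Finset.mem_of_mem_erase hy), hc⟩)
      rw [Finset.sum_insert hja] at hm
      have := Finset.add_sum_erase X w ha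
      linarith
    set τ := w a with hτ
    have h1 : ∑ i ∈ R, π i * w i = ∑ i ∈ R, π i * (w i - τ) + τ * h := by
      rw [← hsum, Finset.mul_sum, ← Finset.sum_add_distrib]
      exact Finset.sum_congr rfl fun i _ => by ring
    have h2 : ∑ i ∈ X, w i = ∑ i ∈ X, (w i - τ) + τ * h := by
      rw [Finset.sum_sub_distrib, Finset.sum_const, hXc, nsmul_eq_mul]; ring
    have h3 : ∑ i ∈ R, π i * (w i - τ) ≤ ∑ i ∈ X, (w i - τ) := by
      rw [← Finset.sum_sdiff hXR]
      have a1 : ∑ i ∈ R \ X, π i * (w i - τ) ≤ 0 := by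
        apply Finset.sum_nonpos
        intro i hi
        have b1 := (hπ i (Finset.sdiff_subset hi)).1
        have b2 := hex i hi
        exact mul_nonpos_of_nonneg_of_nonpos b1 (by linarith)
      have a2 : ∑ i ∈ X, π i * (w i - τ) ≤ ∑ i ∈ X, (w i - τ) := by
        apply Finset.sum_le_sum
        intro i hi
        have b1 := (hπ i (hXR hi)).2
        have b2 := hamin i hi
        nlinarith
      linarith
    linarith

/-- FRACTIONAL-WEIGHT LIFT -/
theorem Solid.lift [DecidableEq V] {U U' R : Finset V} (hs : Solid G 0 U) (hR : Ind G R)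
    (hRU : R ⊆ U) (hU' : U' ⊆ U) {ω : V → ℝ} {c : V → ℕ} {r : ℕ}
    (hω1 : ∀ z ∈ U \ R, ω z = 1) (hω0 : ∀ z ∈ U \ U', ω z = 0)
    (hωU : ∀ z ∈ U', 0 < ω z ∧ ω z ≤ 1) (hr : 0 < r)
    (hc : ∀ z ∈ U, (r : ℝ) * ω z = c z) (hsum : (r : ℝ) * ws ω U' = #U) :
    SolidW G ω U' := by
  classical
  refine ⟨hωU, ?_⟩
  intro S' hS' hne hprop
  have hr' : (0 : ℝ) < r := by exact_mod_cast hr
  have hS'U : S' ⊆ U := hS'.trans hU'
  have hUne : U.Nonempty := hne.mono hS'U
  have hn : (0 : ℝ) < #U := by exact_mod_cast Finset.card_pos.mpr hUne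
  have hWpos : 0 < ws ω U' := by
    by_contra hcon
    push Not at hcon
    have : (r : ℝ) * ws ω U' ≤ 0 := mul_nonpos_of_nonneg_of_nonpos hr'.le hcon
    linarith
  have hwsS : 0 < ws ω S' := Finset.sum_pos (fun i hi => (hωU i (hS' hi)).1) hne
  have hwsS' : ws ω S' < ws ω U' := by
    apply Finset.sum_lt_sum_of_subset hS' (i := (Finset.exists_of_ssubset
      (Finset.ssubset_iff_subset_ne.mpr ⟨hS', hprop⟩)).choose)
    · exact (Finset.exists_of_ssubset
        (Finset.ssubset_iff_subset_ne.mpr ⟨hS', hprop⟩)).choose_spec.1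
    · exact (Finset.exists_of_ssubset
        (Finset.ssubset_iff_subset_ne.mpr ⟨hS', hprop⟩)).choose_spec.2
    · exact (hωU _ (Finset.exists_of_ssubset
        (Finset.ssubset_iff_subset_ne.mpr ⟨hS', hprop⟩)).choose_spec.1).1
    · intro j hj _
      exact (hωU j hj).1.le
  set p : ℝ := ws ω S' / ws ω U' with hp
  have hp0 : 0 < p := div_pos hwsS hWpos
  have hp1 : p < 1 := (div_lt_one hWpos).mpr hwsS'
  set T := S' \ R with hT
  set I := S' ∩ R with hI
  have hTI : ws ω S' = #T + ws ω I := by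
    have e1 : ws ω S' = ws ω T + ws ω I := by
      unfold ws
      rw [hT, hI, add_comm, Finset.sum_inter_add_sum_sdiff]
    have e2 : ws ω T = #T := by
      unfold ws
      rw [Finset.sum_congr rfl (g := fun _ => (1 : ℝ))]
      · simp
      · intro x hx
        rw [hT, Finset.mem_sdiff] at hx
        exact hω1 x (Finset.mem_sdiff.mpr ⟨hS'U hx.1, hx.2⟩)
    rw [e1, e2]
  have hWU : ws ω U' = #(U \ R) + ws ω R := by
    have e0 : ws ω U' = ws ω U := by
      unfold ws
      apply Finset.sum_subset hU'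
      intro x hx hx'
      exact hω0 x (Finset.mem_sdiff.mpr ⟨hx, hx'⟩)
    have e1 : ws ω U = ws ω (U \ R) + ws ω R := by
      unfold ws
      rw [Finset.sum_sdiff hRU]
    have e2 : ws ω (U \ R) = #(U \ R) := by
      unfold ws
      rw [Finset.sum_congr rfl (g := fun _ => (1 : ℝ))]
      · simp
      · intro x hx
        exact hω1 x hx
    rw [e0, e1, e2]
  have hcardUR : (#(U \ R) : ℝ) = #U - #R := by
    rw [Finset.card_sdiff_of_subset hRU, Nat.cast_sub (Finset.card_le_card hRU)]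
  have hω01 : ∀ z ∈ U, 0 ≤ ω z ∧ ω z ≤ 1 := by
    intro z hz
    by_cases hz' : z ∈ U'
    · exact ⟨(hωU z hz').1.le, (hωU z hz').2⟩
    · rw [hω0 z (Finset.mem_sdiff.mpr ⟨hz, hz'⟩)]; norm_num
  -- the marginals
  set π : V → ℝ := fun i => ω i * (if i ∈ S' then 1 else 0) + (1 - ω i) * p with hπ
  have hπ01 : ∀ i ∈ R, 0 ≤ π i ∧ π i ≤ 1 := by
    intro i hi
    obtain ⟨a1, a2⟩ := hω01 i (hRU hi)
    simp only [hπ]
    split_ifs
    · constructor
      · nlinarith
      · nlinarith
    · constructor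
      · nlinarith
      · nlinarith
  have hcS : (r : ℝ) * ws ω S' = ((∑ i ∈ S', c i : ℕ) : ℝ) := by
    unfold ws
    rw [Finset.mul_sum]
    push_cast
    exact Finset.sum_congr rfl fun i hi => hc i (hS'U hi)
  have hcT : #T ≤ ∑ i ∈ S', c i := by
    have h1 : ∀ i ∈ T, 1 ≤ c i := by
      intro i hi
      rw [hT, Finset.mem_sdiff] at hi
      have e1 := hc i (hS'U hi.1)
      rw [hω1 i (Finset.mem_sdiff.mpr ⟨hS'U hi.1, hi.2⟩), mul_one] at e1
      have : r = c i := by exact_mod_cast e1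
      omega
    calc #T = ∑ i ∈ T, 1 := by simp
      _ ≤ ∑ i ∈ T, c i := Finset.sum_le_sum h1
      _ ≤ ∑ i ∈ S', c i := Finset.sum_le_sum_of_subset Finset.sdiff_subset
  set h : ℕ := (∑ i ∈ S', c i) - #T with hh
  have hhR : (h : ℝ) = (r : ℝ) * ws ω S' - #T := by
    rw [hh, Nat.cast_sub hcT, hcS]
  have hπsum : ∑ i ∈ R, π i = h := by
    have e1 : ∑ i ∈ R, π i = ws ω I + p * (#R - ws ω R) := by
      simp only [hπ]
      rw [Finset.sum_add_distrib]
      have b1 : ∑ i ∈ R, ω i * (if i ∈ S' then (1 : ℝ) else 0) = ws ω I := by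
        unfold ws
        rw [hI, Finset.inter_comm, ← Finset.filter_mem_eq_inter, Finset.sum_filter]
        exact Finset.sum_congr rfl fun i _ => by split_ifs <;> ring
      have b2 : ∑ i ∈ R, (1 - ω i) * p = p * (#R - ws ω R) := by
        rw [← Finset.sum_mul, Finset.sum_sub_distrib]
        unfold ws
        simp [mul_comm]
      rw [b1, b2]
    rw [e1, hhR]
    have hW0 : ws ω U' ≠ 0 := hWpos.ne'
    have e2 : p * ws ω U' = ws ω S' := by rw [hp]; field_simp
    have e3 : p * #U = r * ws ω S' := by rw [← hsum, ← e2]; ring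
    have e4 : (#R : ℝ) - ws ω R = #U - ws ω U' := by rw [hWU, hcardUR]; ring
    rw [e4]
    have e5 : p * ((#U : ℝ) - ws ω U') = r * ws ω S' - ws ω S' := by
      rw [mul_sub, e3, e2]
    rw [e5]
    linarith
  set W := U \ R with hW
  have hWR : Disjoint W R := Finset.sdiff_disjoint
  have hWRU : W ∪ R = U := Finset.sdiff_union_of_subset hRU
  obtain ⟨X, hXR, hXc, hX⟩ := exists_subset_ge_frac R
    (fun x => ∑ z ∈ W, ad G x z * ((if z ∈ S' then 1 else 0) - p)) π hπ01 hπsum
  have hdj : Disjoint T X := by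
    rw [Finset.disjoint_left]
    intro x hx hx'
    rw [hT, Finset.mem_sdiff] at hx
    exact hx.2 (hXR hx')
  have hTU : T ⊆ U := Finset.sdiff_subset.trans hS'U
  have hSU : T ∪ X ⊆ U := Finset.union_subset hTU (hXR.trans hRU)
  have hScard : (#(T ∪ X) : ℝ) = r * ws ω S' := by
    rw [Finset.card_union_of_disjoint hdj, hXc]
    push_cast
    rw [hhR]; ring
  have hpS : (#(T ∪ X) : ℝ) / #U = p := by
    rw [hScard, ← hsum, hp]
    field_simp
  have hSne : (T ∪ X).Nonempty := by
    rw [← Finset.card_pos]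
    have : (0 : ℝ) < #(T ∪ X) := by rw [hScard]; positivity
    exact_mod_cast this
  have hSneU : T ∪ X ≠ U := by
    intro e
    rw [e, div_self hn.ne'] at hpS
    linarith
  have hQ := hs (T ∪ X) hSU hSne hSneU
  rw [QQ_eq_BF hSU, hpS] at hQ
  simp only [zero_mul] at hQ
  -- the weighted form
  have hQW : QW G ω U' S' = BF G U (fun x => ω x * ((if x ∈ S' then 1 else 0) - p))
      (fun x => ω x * ((if x ∈ S' then 1 else 0) - p)) := by
    rw [QW_eq_BF ω hS', ← hp]
    unfold BF
    have hz : ∀ x ∈ U, x ∉ U' → ω x = 0 := fun x hx hx' => hω0 x (Finset.mem_sdiff.mpr ⟨hx, hx'⟩)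
    rw [← Finset.sum_subset hU']
    · refine Finset.sum_congr rfl fun x _ => ?_
      apply Finset.sum_subset hU'
      intro y hy hy'
      beta_reduce
      rw [hz y hy hy']; ring
    · intro x hx hx'
      apply Finset.sum_eq_zero
      intro y _
      beta_reduce
      rw [hz x hx hx']; ring
  rw [hQW, BF_split hWR hWRU hR]
  rw [BF_split hWR hWRU hR] at hQ
  have hmem : ∀ z ∈ W, (z ∈ T ∪ X ↔ z ∈ S') := by
    intro z hz
    rw [hW, Finset.mem_sdiff] at hz
    rw [Finset.mem_union, hT, Finset.mem_sdiff]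
    constructor
    · rintro (hh' | hh')
      · exact hh'.1
      · exact absurd (hXR hh') hz.2
    · intro hh'
      exact Or.inl ⟨hh', hz.2⟩
  have hyW : ∀ z ∈ W, ((if z ∈ T ∪ X then (1 : ℝ) else 0) - p)
      = ω z * ((if z ∈ S' then 1 else 0) - p) := by
    intro z hz
    rw [hω1 z hz, one_mul]
    simp only [hmem z hz]
  have hyW' : ∀ z ∈ W, ((if z ∈ T ∪ X then (1 : ℝ) else 0) - p)
      = (if z ∈ S' then 1 else 0) - p := by
    intro z hz
    simp only [hmem z hz]
  have hBW : BF G W (fun x => (if x ∈ T ∪ X then (1 : ℝ) else 0) - p)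
      (fun x => (if x ∈ T ∪ X then (1 : ℝ) else 0) - p) =
      BF G W (fun x => ω x * ((if x ∈ S' then 1 else 0) - p))
      (fun x => ω x * ((if x ∈ S' then 1 else 0) - p)) := BF_congr hyW hyW
  have hin1 : ∀ x, ∑ z ∈ W, ad G x z * ((if z ∈ T ∪ X then (1 : ℝ) else 0) - p) =
      ∑ z ∈ W, ad G x z * ((if z ∈ S' then 1 else 0) - p) := by
    intro x
    exact Finset.sum_congr rfl fun z hz => by rw [hyW' z hz]
  have hin2 : ∀ x, ∑ z ∈ W, ad G x z * (ω z * ((if z ∈ S' then (1 : ℝ) else 0) - p)) =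
      ∑ z ∈ W, ad G x z * ((if z ∈ S' then 1 else 0) - p) := by
    intro x
    exact Finset.sum_congr rfl fun z hz => by rw [hω1 z hz, one_mul]
  rw [hBW] at hQ
  simp only [hin1] at hQ
  simp only [hin2]
  set w : V → ℝ := fun x => ∑ z ∈ W, ad G x z * ((if z ∈ S' then 1 else 0) - p) with hw
  have hfin1 : ∑ x ∈ R, ((if x ∈ T ∪ X then (1 : ℝ) else 0) - p) * w x =
      ∑ x ∈ X, w x - p * ∑ x ∈ R, w x := by
    have b0 : ∀ x ∈ R, (x ∈ T ∪ X ↔ x ∈ X) := by
      intro x hx
      rw [Finset.mem_union, hT, Finset.mem_sdiff]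
      constructor
      · rintro (hh' | hh')
        · exact absurd hx hh'.2
        · exact hh'
      · exact Or.inr
    have b1 : ∑ x ∈ R, (if x ∈ X then (1 : ℝ) else 0) * w x = ∑ x ∈ X, w x := by
      rw [← Finset.sum_subset hXR]
      · exact Finset.sum_congr rfl fun x hx => by rw [if_pos hx, one_mul]
      · intro x _ hx
        rw [if_neg hx, zero_mul]
    rw [← b1, Finset.mul_sum, ← Finset.sum_sub_distrib]
    refine Finset.sum_congr rfl fun x hx => ?_
    simp only [b0 x hx]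
    ring
  have hfin2 : ∑ x ∈ R, (ω x * ((if x ∈ S' then (1 : ℝ) else 0) - p)) * w x =
      ∑ x ∈ R, π x * w x - p * ∑ x ∈ R, w x := by
    rw [Finset.mul_sum, ← Finset.sum_sub_distrib]
    refine Finset.sum_congr rfl fun x _ => ?_
    simp only [hπ]
    ring
  rw [hfin1] at hQ
  rw [hfin2]
  linarith

end TwoClub
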