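import Pool.Agent.TwoClub.Struct
import Pool.Agent.TwoClub.Weighted

/-!
Half sets: if `G` is solid with a pair at distance at least `3` and `U = K ∪ N` is the structure of
`Solid.struct`, then the complement of `G` has no matching which covers `N` (perfect, or missing
one vertex of `K`).
-/

namespace TwoClub

open Finset

variable {V : Type*} {G : SimpleGraph V}

/-- `μ` is a perfect matching of the complement of `G` on `P` -/
structure HM (G : SimpleGraph V) (P : Finset V) (μ : V → V) : Prop where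
  mem : ∀ z ∈ P, μ z ∈ P
  inv : ∀ z ∈ P, μ (μ z) = z
  ne : ∀ z ∈ P, μ z ≠ z
  nadj : ∀ z ∈ P, ¬ G.Adj z (μ z)

theorem BF_single_left [DecidableEq V] {U : Finset V} {a : V} (ha : a ∈ U) (g : V → ℝ) :
    BF G U (fun x => if x = a then 1 else 0) g = ∑ y ∈ U, ad G a y * g y := by
  unfold BF
  rw [Finset.sum_eq_single_of_mem a ha]
  · refine Finset.sum_congr rfl fun y _ => ?_
    simp
  · intro b _ hb
    apply Finset.sum_eq_zero
    intro y _
    simp [hb]

theorem BF_sub_left (U : Finset V) (f f' g : V → ℝ) :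
    BF G U (fun x => f x - f' x) g = BF G U f g - BF G U f' g := by
  unfold BF
  simp only [← Finset.sum_sub_distrib]
  refine Finset.sum_congr rfl fun x _ => Finset.sum_congr rfl fun y _ => ?_
  ring

theorem BF_smul_left (U : Finset V) (s : ℝ) (f g : V → ℝ) :
    BF G U (fun x => s * f x) g = s * BF G U f g := by
  unfold BF
  simp only [Finset.mul_sum]
  refine Finset.sum_congr rfl fun x _ => Finset.sum_congr rfl fun y _ => ?_
  ring

/-- difference of two unit vectors -/
noncomputable def dl [DecidableEq V] (a b : V) (x : V) : ℝ :=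
  (if x = a then 1 else 0) - (if x = b then 1 else 0)

theorem BF_dl_left [DecidableEq V] {U : Finset V} {a b : V} (ha : a ∈ U) (hb : b ∈ U)
    (g : V → ℝ) :
    BF G U (dl a b) g = ∑ y ∈ U, ad G a y * g y - ∑ y ∈ U, ad G b y * g y := by
  have h := BF_sub_left (G := G) U (fun x => if x = a then 1 else 0)
    (fun x => if x = b then 1 else 0) g
  rw [BF_single_left ha, BF_single_left hb] at h
  exact h

theorem sum_ad_dl [DecidableEq V] {U : Finset V} {a b : V} (ha : a ∈ U) (hb : b ∈ U) (x : V) :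
    ∑ y ∈ U, ad G x y * dl a b y = ad G x a - ad G x b := by
  unfold dl
  simp only [mul_sub, Finset.sum_sub_distrib, mul_ite, mul_one, mul_zero]
  rw [Finset.sum_ite_eq' U a, Finset.sum_ite_eq' U b, if_pos ha, if_pos hb]

theorem BF_dl_dl [DecidableEq V] {U : Finset V} {a b : V} (ha : a ∈ U) (hb : b ∈ U)
    (hn : ¬ G.Adj a b) : BF G U (dl a b) (dl a b) = 0 := by
  rw [BF_dl_left ha hb, sum_ad_dl ha hb, sum_ad_dl ha hb, ad_self, ad_self,
    ad_comm G b a, ad_of_not G hn]
  ring

theorem HM.sum_comp {P : Finset V} {μ : V → V} (hm : HM G P μ) (g : V → ℝ) :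
    ∑ z ∈ P, g (μ z) = ∑ z ∈ P, g z :=
  Finset.sum_nbij' μ μ hm.mem hm.mem hm.inv hm.inv (fun _ _ => rfl)

theorem HM.sum_half {P : Finset V} {μ : V → V} (hm : HM G P μ) {g : V → ℝ}
    (hg : ∀ z ∈ P, g z + g (μ z) = 1) : ∑ z ∈ P, g z = #P / 2 := by
  have h1 := hm.sum_comp g
  have h2 : ∑ z ∈ P, (g z + g (μ z)) = #P := by
    rw [Finset.sum_congr rfl hg]; simp
  rw [Finset.sum_add_distrib, h1] at h2
  linarith

/-- rounding along the matching does not decrease the form -/
theorem HM.pipage [DecidableEq V] {U P : Finset V} {μ : V → V} (hP : P ⊆ U) (hm : HM G P μ)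
    (p : ℝ) : ∀ n : ℕ, ∀ f : V → ℝ, #(P.filter fun z => f z ≠ 0 ∧ f z ≠ 1) ≤ n →
      (∀ z ∈ P, 0 ≤ f z ∧ f z ≤ 1) → (∀ z ∈ P, f z + f (μ z) = 1) →
      ∃ g : V → ℝ, (∀ z ∈ P, g z = 0 ∨ g z = 1) ∧ (∀ z ∈ P, g z + g (μ z) = 1) ∧
        (∀ z, z ∉ P → g z = f z) ∧
        BF G U (fun x => f x - p) (fun x => f x - p) ≤
          BF G U (fun x => g x - p) (fun x => g x - p) := by
  intro n
  induction n with
  | zero =>
    intro f hc h01 hsum
    refine ⟨f, fun z hz => ?_, hsum, fun _ _ => rfl, le_refl _⟩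
    by_contra hcon
    push Not at hcon
    have : z ∈ P.filter fun z => f z ≠ 0 ∧ f z ≠ 1 := Finset.mem_filter.mpr ⟨hz, hcon⟩
    have := Finset.card_pos.mpr ⟨z, this⟩
    omega
  | succ n ih =>
    intro f hc h01 hsum
    by_cases hex : ∃ a ∈ P, f a ≠ 0 ∧ f a ≠ 1
    swap
    · push Not at hex
      refine ⟨f, fun z hz => ?_, hsum, fun _ _ => rfl, le_refl _⟩
      by_cases h0 : f z = 0
      · exact Or.inl h0
      · exact Or.inr (hex z hz h0)
    obtain ⟨a, ha, ha0, ha1⟩ := hex
    set b := μ a with hb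
    have hbP : b ∈ P := hm.mem a ha
    have hba : μ b = a := hm.inv a ha
    have hne : b ≠ a := hm.ne a ha
    have hn : ¬ G.Adj a b := hm.nadj a ha
    have hfab : f a + f b = 1 := hsum a ha
    -- the choice of `t`
    obtain ⟨t, ht, htL⟩ : ∃ t : ℝ, (t = 1 - f a ∨ t = - f a) ∧
        0 ≤ t * BF G U (fun x => f x - p) (dl a b) := by
      by_cases hL : 0 ≤ BF G U (fun x => f x - p) (dl a b)
      · exact ⟨1 - f a, Or.inl rfl, mul_nonneg (by linarith [(h01 a ha).2]) hL⟩
      · push Not at hL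
        refine ⟨- f a, Or.inr rfl, ?_⟩
        have := (h01 a ha).1
        nlinarith
    set f' : V → ℝ := fun x => f x + t * dl a b x with hf'
    have e_a : f' a = f a + t := by simp [hf', dl, hne.symm]
    have e_b : f' b = f b - t := by simp [hf', dl, hne]; ring
    have e_o : ∀ z, z ≠ a → z ≠ b → f' z = f z := by
      intro z h1 h2; simp [hf', dl, h1, h2]
    have fa01 : f' a = 0 ∨ f' a = 1 := by
      rw [e_a]
      rcases ht with rfl | rfl
      · right; ring
      · left; ring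
    have fb01 : f' b = 0 ∨ f' b = 1 := by
      rw [e_b]
      rcases ht with rfl | rfl
      · left; linarith
      · right; linarith
    have hcard : #(P.filter fun z => f' z ≠ 0 ∧ f' z ≠ 1) ≤ n := by
      have hsub : (P.filter fun z => f' z ≠ 0 ∧ f' z ≠ 1) ⊆
          (P.filter fun z => f z ≠ 0 ∧ f z ≠ 1).erase a := by
        intro z hz
        obtain ⟨hzP, hz0, hz1⟩ := Finset.mem_filter.mp hz
        have hza : z ≠ a := by
          rintro rfl
          rcases fa01 with h | h
          · exact hz0 h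
          · exact hz1 h
        have hzb : z ≠ b := by
          rintro rfl
          rcases fb01 with h | h
          · exact hz0 h
          · exact hz1 h
        rw [e_o z hza hzb] at hz0 hz1
        exact Finset.mem_erase.mpr ⟨hza, Finset.mem_filter.mpr ⟨hzP, hz0, hz1⟩⟩
      have hamem : a ∈ P.filter fun z => f z ≠ 0 ∧ f z ≠ 1 :=
        Finset.mem_filter.mpr ⟨ha, ha0, ha1⟩
      have h1 := Finset.card_le_card hsub
      rw [Finset.card_erase_of_mem hamem] at h1
      omega
    have hb01' : ∀ z ∈ P, 0 ≤ f' z ∧ f' z ≤ 1 := by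
      intro z hz
      by_cases hza : z = a
      · rw [hza]; rcases fa01 with h | h <;> rw [h] <;> norm_num
      by_cases hzb : z = b
      · rw [hzb]; rcases fb01 with h | h <;> rw [h] <;> norm_num
      rw [e_o z hza hzb]; exact h01 z hz
    have hsum' : ∀ z ∈ P, f' z + f' (μ z) = 1 := by
      intro z hz
      by_cases hza : z = a
      · rw [hza, ← hb, e_a, e_b]; linarith
      by_cases hzb : z = b
      · rw [hzb, hba, e_a, e_b]; linarith
      have h1 : μ z ≠ a := by
        intro h; apply hzb; rw [hb, ← h, hm.inv z hz]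
      have h2 : μ z ≠ b := by
        intro h
        have := hm.inv z hz
        rw [h, hba] at this
        exact hza this.symm
      rw [e_o z hza hzb, e_o _ h1 h2]; exact hsum z hz
    obtain ⟨g, hg1, hg2, hg3, hg4⟩ := ih f' hcard hb01' hsum'
    refine ⟨g, hg1, hg2, fun z hz => ?_, le_trans ?_ hg4⟩
    · rw [hg3 z hz]
      exact e_o z (fun h => hz (h ▸ ha)) (fun h => hz (h ▸ hbP))
    · have e1 : BF G U (fun x => f' x - p) (fun x => f' x - p) =
          BF G U (fun x => (f x - p) - (-t) * dl a b x)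
            (fun x => (f x - p) - (-t) * dl a b x) := by
        apply BF_congr <;> intro x _ <;> simp only [hf'] <;> ring
      rw [e1, BF_sub_smul U (fun x => f x - p) (dl a b) (-t),
        BF_dl_dl (hP ha) (hP hbP) hn]
      nlinarith

/-- the half-set test -/
theorem Solid.half [DecidableEq V] {U P : Finset V} {μ : V → V} (hs : Solid G 0 U) (hP : P ⊆ U)
    (hm : HM G P μ) {f : V → ℝ} (h01 : ∀ z ∈ P, 0 ≤ f z ∧ f z ≤ 1)
    (hsum : ∀ z ∈ P, f z + f (μ z) = 1) (hoff : ∀ z ∈ U, z ∉ P → f z = 0 ∨ f z = 1)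
    (h1 : 0 < ∑ z ∈ U, f z) (h2 : ∑ z ∈ U, f z < #U) {p : ℝ} (hp : p = (∑ z ∈ U, f z) / #U) :
    BF G U (fun x => f x - p) (fun x => f x - p) < 0 := by
  obtain ⟨g, hg1, hg2, hg3, hg4⟩ := hm.pipage hP p _ f (le_refl _) h01 hsum
  refine lt_of_le_of_lt hg4 ?_
  have hgU : ∀ z ∈ U, g z = 0 ∨ g z = 1 := by
    intro z hz
    by_cases hzP : z ∈ P
    · exact hg1 z hzP
    · rw [hg3 z hzP]; exact hoff z hz hzP
  have hgs : ∑ z ∈ U, g z = ∑ z ∈ U, f z := by
    rw [← Finset.sum_sdiff hP, ← Finset.sum_sdiff hP, hm.sum_half hg2, hm.sum_half hsum]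
    congr 1
    exact Finset.sum_congr rfl fun z hz => hg3 z (Finset.mem_sdiff.mp hz).2
  set S := U.filter fun z => g z = 1 with hS
  have hSU : S ⊆ U := Finset.filter_subset _ _
  have hind : ∀ z ∈ U, g z = if z ∈ S then 1 else 0 := by
    intro z hz
    by_cases h : g z = 1
    · have hzS : z ∈ S := Finset.mem_filter.mpr ⟨hz, h⟩
      rw [if_pos hzS, h]
    · have hzS : z ∉ S := fun h' => h (Finset.mem_filter.mp h').2
      rw [if_neg hzS]
      exact (hgU z hz).resolve_right h
  have hcard : (#S : ℝ) = ∑ z ∈ U, f z := by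
    rw [← hgs, Finset.sum_congr rfl hind, ← Finset.sum_filter]
    have : U.filter (fun z => z ∈ S) = S := by
      ext z
      rw [Finset.mem_filter]
      exact ⟨fun h => h.2, fun h => ⟨hSU h, h⟩⟩
    rw [this]; simp
  have hSne : S.Nonempty := by
    rw [← Finset.card_pos]
    have : (0 : ℝ) < #S := by rw [hcard]; exact h1
    exact_mod_cast this
  have hSU' : S ≠ U := by
    intro h
    rw [h] at hcard
    linarith
  have hq := hs S hSU hSne hSU'
  rw [QQ_eq_BF hSU, hcard, ← hp] at hq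
  have e : BF G U (fun x => g x - p) (fun x => g x - p) =
      BF G U (fun x => (if x ∈ S then 1 else 0) - p) (fun x => (if x ∈ S then 1 else 0) - p) := by
    apply BF_congr <;> intro x hx <;> simp only [hind x hx]
  rw [e]
  simpa using hq

theorem Solid.no_pm [DecidableEq V] {U : Finset V} {μ : V → V} (hs : Solid G 0 U)
    (hU : U.Nonempty) (hm : HM G U μ) : False := by
  have hpos : (0 : ℝ) < #U := by exact_mod_cast Finset.card_pos.mpr hU
  have hsum : ∑ z ∈ U, (fun _ : V => (1 / 2 : ℝ)) z = #U / 2 := by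
    simp; ring
  have h := hs.half (Finset.Subset.refl U) hm (f := fun _ => 1 / 2) (p := 1 / 2)
    (fun _ _ => by norm_num) (fun _ _ => by norm_num) (fun z hz hz' => absurd hz hz')
    (by rw [hsum]; linarith) (by rw [hsum]; linarith) (by rw [hsum]; field_simp)
  simp [BF] at h

/-- the one-pair test for a matching which misses `x` only -/
theorem Solid.half_pair [DecidableEq V] {U : Finset V} {μ : V → V} {x a : V}
    (hs : Solid G 0 U) (hx : x ∈ U) (hm : HM G (U.erase x) μ) (ha : a ∈ U.erase x) :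
    gd G U a - gd G U (μ a) - #U * (ad G x a - ad G x (μ a)) < gd G U x - dd G U / 2 := by
  set b := μ a with hb
  have haU := Finset.mem_of_mem_erase ha
  have hbE : b ∈ U.erase x := hm.mem a ha
  have hbU := Finset.mem_of_mem_erase hbE
  have hax : a ≠ x := Finset.ne_of_mem_erase ha
  have hbx : b ≠ x := Finset.ne_of_mem_erase hbE
  have hba : μ b = a := hm.inv a ha
  have hne : b ≠ a := hm.ne a ha
  have hpos : (0 : ℝ) < #U := by exact_mod_cast Finset.card_pos.mpr ⟨x, hx⟩
  have hcE : (#(U.erase x) : ℝ) = #U - 1 := by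
    have h1 := Finset.card_erase_of_mem hx
    have h2 := Finset.card_pos.mpr ⟨x, hx⟩
    rw [h1, Nat.cast_sub h2]; norm_num
  have hbig : (2 : ℝ) < #U := by
    have h1 : ({x, a, b} : Finset V) ⊆ U := by
      intro z hz
      simp only [Finset.mem_insert, Finset.mem_singleton] at hz
      rcases hz with rfl | rfl | rfl
      · exact hx
      · exact haU
      · exact hbU
    have h2 := Finset.card_le_card h1
    have h3 : #({x, a, b} : Finset V) = 3 := by
      rw [Finset.card_insert_of_notMem, Finset.card_pair hne.symm]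
      simp only [Finset.mem_insert, Finset.mem_singleton, not_or]
      exact ⟨hax.symm, hbx.symm⟩
    rw [h3] at h2
    have : (3 : ℝ) ≤ #U := by exact_mod_cast h2
    linarith
  set f : V → ℝ := fun z => (if z = x then 0 else 1 / 2) + 1 / 2 * dl a b z with hf
  have fx : f x = 0 := by simp [hf, dl, hax.symm, hbx.symm]
  have fa : f a = 1 := by simp [hf, dl, hax, hne.symm]; norm_num
  have fb : f b = 0 := by simp [hf, dl, hbx, hne]
  have fo : ∀ z, z ≠ x → z ≠ a → z ≠ b → f z = 1 / 2 := by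
    intro z h1 h2 h3; simp [hf, dl, h1, h2, h3]
  have hsumf : ∀ z ∈ U.erase x, f z + f (μ z) = 1 := by
    intro z hz
    by_cases hza : z = a
    · rw [hza, ← hb, fa, fb]; norm_num
    by_cases hzb : z = b
    · rw [hzb, hba, fa, fb]; norm_num
    have h1 : μ z ≠ a := by
      intro h; apply hzb; rw [hb, ← h, hm.inv z hz]
    have h2 : μ z ≠ b := by
      intro h
      have := hm.inv z hz
      rw [h, hba] at this
      exact hza this.symm
    rw [fo z (Finset.ne_of_mem_erase hz) hza hzb,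
      fo _ (Finset.ne_of_mem_erase (hm.mem z hz)) h1 h2]
    norm_num
  have htot : ∑ z ∈ U, f z = (#U - 1) / 2 := by
    rw [← Finset.add_sum_erase U f hx, fx, hm.sum_half hsumf, hcE]; ring
  set p : ℝ := 1 / 2 - 1 / (2 * #U) with hp
  have key := hs.half (Finset.erase_subset x U) hm (f := f) (p := p)
    (by
      intro z hz
      have hzx := Finset.ne_of_mem_erase hz
      by_cases hza : z = a
      · rw [hza, fa]; norm_num
      by_cases hzb : z = b
      · rw [hzb, fb]; norm_num
      rw [fo z hzx hza hzb]; norm_num) hsumf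
    (by
      intro z hz hz'
      have : z = x := by
        by_contra hne'
        exact hz' (Finset.mem_erase.mpr ⟨hne', hz⟩)
      rw [this, fx]; exact Or.inl rfl)
    (by rw [htot]; linarith) (by rw [htot]; linarith) (by rw [htot, hp]; field_simp)
  -- expand
  set τ : ℝ := 1 / (2 * #U) with hτ
  have e1 : BF G U (fun z => f z - p) (fun z => f z - p) =
      BF G U (fun z => (1 / 2 * dl a b z - 1 / 2 * (if z = x then 1 else 0)) - (-τ) * 1)
        (fun z => (1 / 2 * dl a b z - 1 / 2 * (if z = x then 1 else 0)) - (-τ) * 1) := by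
    apply BF_congr <;> intro z _ <;> simp only [hf, hp] <;> split_ifs <;> ring
  have e2 : BF G U (fun z => 1 / 2 * dl a b z - 1 / 2 * (if z = x then 1 else 0))
      (fun z => 1 / 2 * dl a b z - 1 / 2 * (if z = x then 1 else 0)) =
      - (1 / 2) * (ad G x a - ad G x b) := by
    rw [BF_sub_smul U (fun z => 1 / 2 * dl a b z) (fun z => if z = x then 1 else 0) (1 / 2)]
    rw [BF_smul_left U (1 / 2) (dl a b), BF_smul_left U (1 / 2) (dl a b),
      BF_comm U (dl a b) (fun z => 1 / 2 * dl a b z), BF_smul_left U (1 / 2) (dl a b),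
      BF_dl_dl haU hbU (hm.nadj a ha), BF_comm U (dl a b) (fun z => if z = x then 1 else 0),
      BF_single_left hx, sum_ad_dl haU hbU, BF_single_left hx]
    have : ∑ y ∈ U, ad G x y * (if y = x then 1 else 0) = 0 := by
      apply Finset.sum_eq_zero
      intro y _
      by_cases h : y = x
      · rw [h, ad_self]; ring
      · rw [if_neg h]; ring
    rw [this]; ring
  have e3 : BF G U (fun z => 1 / 2 * dl a b z - 1 / 2 * (if z = x then 1 else 0)) (fun _ => 1) =
      1 / 2 * (gd G U a - gd G U b) - 1 / 2 * gd G U x := by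
    rw [BF_sub_left U (fun z => 1 / 2 * dl a b z) (fun z => 1 / 2 * (if z = x then 1 else 0)),
      BF_smul_left U (1 / 2) (dl a b), BF_smul_left U (1 / 2) (fun z => if z = x then 1 else 0),
      BF_dl_left haU hbU, BF_single_left hx]
    simp only [mul_one, gd]
  have e4 : BF G U (fun _ => 1) (fun _ => 1) = #U * dd G U := by
    rw [← ee_self_eq (G := G) ⟨x, hx⟩]
    unfold BF ee
    simp
  have e5 := BF_sub_smul (G := G) U
    (fun z => 1 / 2 * dl a b z - 1 / 2 * (if z = x then 1 else 0)) (fun _ => 1) (-τ)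
  rw [e1, e5, e2, e3, e4] at key
  have hτn : τ * #U = 1 / 2 := by rw [hτ]; field_simp
  have hτpos : 0 < τ := by rw [hτ]; positivity
  -- multiply by `2 * #U`
  have : 2 * (#U : ℝ) * (-(1 / 2) * (ad G x a - ad G x b) -
      2 * (-τ) * (1 / 2 * (gd G U a - gd G U b) - 1 / 2 * gd G U x) +
      (-τ) ^ 2 * (#U * dd G U)) < 0 := by
    have h0 : (0 : ℝ) < 2 * #U := by linarith
    exact mul_neg_of_pos_of_neg h0 key
  have e6 : 2 * (#U : ℝ) * (-(1 / 2) * (ad G x a - ad G x b) -
      2 * (-τ) * (1 / 2 * (gd G U a - gd G U b) - 1 / 2 * gd G U x) +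
      (-τ) ^ 2 * (#U * dd G U)) =
      - #U * (ad G x a - ad G x b) + 2 * (τ * #U) * (gd G U a - gd G U b - gd G U x) +
        2 * (τ * #U) ^ 2 * dd G U := by ring
  rw [e6, hτn] at this
  linarith

/-! ### Switching the matching -/

/-- the matching after adding the pair `(x, c)` -/
def st [DecidableEq V] (μ : V → V) (x c : V) (z : V) : V :=
  if z = x then c else if z = c then x else μ z

theorem st_left [DecidableEq V] (μ : V → V) (x c : V) : st μ x c x = c := by simp [st]

theorem st_other [DecidableEq V] (μ : V → V) {x c z : V} (h1 : z ≠ x) (h2 : z ≠ c) :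
    st μ x c z = μ z := by simp [st, h1, h2]

theorem HM.step [DecidableEq V] {U : Finset V} {μ : V → V} {x c : V}
    (hm : HM G (U.erase x) μ) (hx : x ∈ U) (hc : c ∈ U) (hcx : c ≠ x) (hn : ¬ G.Adj x c) :
    HM G (U.erase (μ c)) (st μ x c) := by
  have hcE : c ∈ U.erase x := Finset.mem_erase.mpr ⟨hcx, hc⟩
  have hμc := hm.mem c hcE
  have hμcx : μ c ≠ x := Finset.ne_of_mem_erase hμc
  have hμcc : μ c ≠ c := hm.ne c hcE
  have e_c : st μ x c c = x := by simp [st, hcx]
  have aux : ∀ z ∈ U.erase (μ c), z ≠ x → z ≠ c → z ∈ U.erase x ∧ μ z ≠ x ∧ μ z ≠ c ∧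
      μ z ≠ μ c := by
    intro z hz h1 h2
    have hzE : z ∈ U.erase x := Finset.mem_erase.mpr ⟨h1, Finset.mem_of_mem_erase hz⟩
    refine ⟨hzE, Finset.ne_of_mem_erase (hm.mem z hzE), ?_, ?_⟩
    · intro h
      have := hm.inv z hzE
      rw [h] at this
      exact Finset.ne_of_mem_erase hz this.symm
    · intro h
      have e1 := hm.inv z hzE
      rw [h, hm.inv c hcE] at e1
      exact h2 e1.symm
  constructor
  · intro z hz
    by_cases h1 : z = x
    · rw [h1, st_left]; exact Finset.mem_erase.mpr ⟨hμcc.symm, hc⟩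
    by_cases h2 : z = c
    · rw [h2, e_c]; exact Finset.mem_erase.mpr ⟨hμcx.symm, hx⟩
    obtain ⟨a1, a2, a3, a4⟩ := aux z hz h1 h2
    rw [st_other μ h1 h2]
    exact Finset.mem_erase.mpr ⟨a4, Finset.mem_of_mem_erase (hm.mem z a1)⟩
  · intro z hz
    by_cases h1 : z = x
    · rw [h1, st_left, e_c]
    by_cases h2 : z = c
    · rw [h2, e_c, st_left]
    obtain ⟨a1, a2, a3, a4⟩ := aux z hz h1 h2
    rw [st_other μ h1 h2, st_other μ a2 a3]
    exact hm.inv z a1
  · intro z hz
    by_cases h1 : z = x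
    · rw [h1, st_left]; exact hcx
    by_cases h2 : z = c
    · rw [h2, e_c]; exact hcx.symm
    obtain ⟨a1, a2, a3, a4⟩ := aux z hz h1 h2
    rw [st_other μ h1 h2]
    exact hm.ne z a1
  · intro z hz
    by_cases h1 : z = x
    · rw [h1, st_left]; exact hn
    by_cases h2 : z = c
    · rw [h2, e_c]; exact fun h => hn h.symm
    obtain ⟨a1, a2, a3, a4⟩ := aux z hz h1 h2
    rw [st_other μ h1 h2]
    exact hm.nadj z a1

/-- the data of `Solid.struct` which are used below -/
structure KN (G : SimpleGraph V) [DecidableEq V] (U K N : Finset V) (u v : V) : Prop where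
  solid : Solid G 0 U
  far : Far G U u v
  union : K ∪ N = U
  disj : Disjoint K N
  ind : Ind G K
  lt : (#N : ℝ) < dd G U
  match_ : ∃ f : V → V, ∀ z ∈ N, f z ∈ K ∧ G.Adj z (f z)
  deg : ∀ z ∈ N, (#U : ℝ) / 2 < gd G U z
  card : #N ≤ #K
  vK : v ∈ K
  uN : u ∈ N

namespace KN

variable [DecidableEq V] {U K N : Finset V} {u v : V} (h : KN G U K N u v)
include h

theorem KU {z : V} (hz : z ∈ K) : z ∈ U := h.union ▸ Finset.mem_union_left _ hz

theorem NU {z : V} (hz : z ∈ N) : z ∈ U := h.union ▸ Finset.mem_union_right _ hz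

theorem KN_ne {z w : V} (hz : z ∈ K) (hw : w ∈ N) : z ≠ w := by
  rintro rfl
  exact Finset.disjoint_left.mp h.disj hz hw

theorem mem_cases {z : V} (hz : z ∈ U) : z ∈ K ∨ z ∈ N := by
  rw [← h.union] at hz; exact Finset.mem_union.mp hz

/-- degrees of reservoir vertices -/
theorem degK {x : V} (hx : x ∈ K) : gd G U x ≤ #N := by
  rw [← h.union, gd_union G h.disj]
  have h1 : gd G K x = 0 := by
    unfold gd
    exact Finset.sum_eq_zero fun y hy => ad_of_not G (h.ind x hx y hy)
  have h2 := gd_le_card G N x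
  linarith

theorem cardU : (#U : ℝ) = #K + #N := by
  rw [← h.union, Finset.card_union_of_disjoint h.disj]; push_cast; ring

omit h in
theorem deg_le {z : V} (hz : z ∈ U) : gd G U z ≤ #U - 1 := by
  unfold gd
  rw [← Finset.add_sum_erase U _ hz, ad_self, zero_add]
  calc ∑ y ∈ U.erase z, ad G z y ≤ ∑ y ∈ U.erase z, (1 : ℝ) :=
        Finset.sum_le_sum fun y _ => ad_le_one G z y
    _ = #U - 1 := by
        have h1 := Finset.card_erase_of_mem hz
        have h2 := Finset.card_pos.mpr ⟨z, hz⟩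
        simp only [Finset.sum_const, nsmul_eq_mul, mul_one]
        rw [h1, Nat.cast_sub h2]; norm_num

theorem card_lt : (#N : ℝ) ≤ #U / 2 := by
  have h1 := h.cardU
  have h2 : (#N : ℝ) ≤ #K := by exact_mod_cast h.card
  linarith

theorem deg_gt {z : V} (hz : z ∈ U) : dd G U / 2 < gd G U z := by
  have h1 := h.solid.single_deg hz h.far.two_le
  linarith

/-- step (1) -/
theorem A1 {μ : V → V} {x z : V} (hm : HM G (U.erase x) μ) (hx : x ∈ K) (hz : z ∈ K)
    (hzx : z ≠ x) (hμ : μ z ∈ N) : ¬ G.Adj x (μ z) := by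
  intro hadj
  have hzE : z ∈ U.erase x := Finset.mem_erase.mpr ⟨hzx, h.KU hz⟩
  have h1 := h.solid.half_pair (h.KU hx) hm hzE
  rw [ad_of_not G (h.ind x hx z hz), ad_of_adj G hadj] at h1
  have h2 := h.degK hx
  have h3 := deg_le (G := G) (h.NU hμ)
  have h5 := h.lt
  have h6 := h.deg_gt (h.KU hz)
  linarith

/-- step (2): no matched pair between `K` and `N` -/
theorem A2 {μ : V → V} {x a : V} (hm : HM G (U.erase x) μ) (hx : x ∈ K) (ha : a ∈ K)
    (hax : a ≠ x) : μ a ∈ K := by
  have haE : a ∈ U.erase x := Finset.mem_erase.mpr ⟨hax, h.KU ha⟩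
  rcases h.mem_cases (Finset.mem_of_mem_erase (hm.mem a haE)) with hb | hb
  · exact hb
  exfalso
  have key : ∀ z ∈ K, ¬ G.Adj z (μ a) := by
    intro z hz
    by_cases hzx : z = x
    · rw [hzx]; exact h.A1 hm hx ha hax hb
    by_cases hza : z = a
    · rw [hza]; exact hm.nadj a haE
    have hzE : z ∈ U.erase x := Finset.mem_erase.mpr ⟨hzx, h.KU hz⟩
    have hcE := hm.mem z hzE
    have hcU := Finset.mem_of_mem_erase hcE
    have hcx := Finset.ne_of_mem_erase hcE
    have hn : ¬ G.Adj x (μ z) := by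
      rcases h.mem_cases hcU with hc | hc
      · exact h.ind x hx _ hc
      · exact h.A1 hm hx hz hzx hc
    have hca : a ≠ μ z := by
      intro h'
      have e1 := hm.inv z hzE
      rw [← h'] at e1
      exact h.KN_ne hz hb e1.symm
    have hm' := hm.step (h.KU hx) hcU hcx hn
    rw [hm.inv z hzE] at hm'
    have e2 : st μ x (μ z) a = μ a := st_other μ hax hca
    have := h.A1 hm' hz ha (fun h' => hza h'.symm) (by rw [e2]; exact hb)
    rwa [e2] at this
  obtain ⟨f, hf⟩ := h.match_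
  obtain ⟨h1, h2⟩ := hf _ hb
  exact key _ h1 h2.symm

/-- step (3a) -/
theorem A3 {μ : V → V} {x b : V} (hm : HM G (U.erase x) μ) (hx : x ∈ K) (hb : b ∈ N) :
    μ b ∈ N := by
  have hbE : b ∈ U.erase x := Finset.mem_erase.mpr ⟨(h.KN_ne hx hb).symm, h.NU hb⟩
  have hμ := hm.mem b hbE
  rcases h.mem_cases (Finset.mem_of_mem_erase hμ) with hc | hc
  · exfalso
    have := h.A2 hm hx hc (Finset.ne_of_mem_erase hμ)
    rw [hm.inv b hbE] at this
    exact h.KN_ne this hb rfl
  · exact hc

/-- step (3b): twins with respect to the missing vertex -/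
theorem A4 {μ : V → V} {x b : V} (hm : HM G (U.erase x) μ) (hx : x ∈ K) (hb : b ∈ N)
    (hadj : G.Adj x b) : G.Adj x (μ b) := by
  by_contra hn
  have hbE : b ∈ U.erase x := Finset.mem_erase.mpr ⟨(h.KN_ne hx hb).symm, h.NU hb⟩
  have hμ := hm.mem b hbE
  have hμN := h.A3 hm hx hb
  have h1 := h.solid.half_pair (h.KU hx) hm hμ
  rw [hm.inv b hbE, ad_of_not G hn, ad_of_adj G hadj] at h1
  have h2 := h.degK hx
  have h3 := deg_le (G := G) (h.NU hb)
  have h4 := h.deg _ hμN
  have h5 := h.lt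
  have h6 := h.card_lt
  have h7 := dd_nonneg G U
  linarith

/-- step (3c): moving the missing vertex inside `K` -/
theorem A5 {μ : V → V} {x z : V} (hm : HM G (U.erase x) μ) (hx : x ∈ K) (hz : z ∈ K) :
    ∃ μ', HM G (U.erase z) μ' ∧ ∀ b ∈ N, μ' b = μ b := by
  by_cases hzx : z = x
  · exact ⟨μ, by rw [hzx]; exact hm, fun _ _ => rfl⟩
  have hzE : z ∈ U.erase x := Finset.mem_erase.mpr ⟨hzx, h.KU hz⟩
  have hc := h.A2 hm hx hz hzx
  have hcx := Finset.ne_of_mem_erase (hm.mem z hzE)
  have hm' := hm.step (h.KU hx) (h.KU hc) hcx (h.ind x hx _ hc)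
  rw [hm.inv z hzE] at hm'
  refine ⟨_, hm', fun b hb => ?_⟩
  exact st_other μ (h.KN_ne hx hb).symm (h.KN_ne hc hb).symm

/-- step (3d): matched pairs of `N` are twins with respect to `K` -/
theorem A6 {μ : V → V} {x z b : V} (hm : HM G (U.erase x) μ) (hx : x ∈ K) (hz : z ∈ K)
    (hb : b ∈ N) (hadj : G.Adj z b) : G.Adj z (μ b) := by
  obtain ⟨μ', hm', he⟩ := h.A5 hm hx hz
  rw [← he b hb]
  exact h.A4 hm' hz hb hadj

/-- step (4) -/
theorem A7 {μ : V → V} {x z z' b : V} (hm : HM G (U.erase x) μ) (hx : x ∈ K) (hz : z ∈ K)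
    (hz' : z' ∈ K) (hne : z ≠ z') (hb : b ∈ N) (h1 : ¬ G.Adj z b) (h2 : ¬ G.Adj z' (μ b)) :
    False := by
  obtain ⟨μ₁, hm₁, he⟩ := h.A5 hm hx hz
  rw [← he b hb] at h2
  have hbs := h.A3 hm₁ hz hb
  have hbz : b ≠ z := (h.KN_ne hz hb).symm
  have hbE : b ∈ U.erase z := Finset.mem_erase.mpr ⟨hbz, h.NU hb⟩
  have hm₂ := hm₁.step (h.KU hz) (h.NU hb) hbz h1
  have hz'b : z' ≠ μ₁ b := h.KN_ne hz' hbs
  have hm₃ := hm₂.step (h.NU hbs) (h.KU hz') hz'b (fun h' => h2 h'.symm)
  have e1 : st μ₁ z b z' = μ₁ z' := st_other μ₁ hne.symm (h.KN_ne hz' hb)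
  rw [e1] at hm₃
  have hz'E : z' ∈ U.erase z := Finset.mem_erase.mpr ⟨hne.symm, h.KU hz'⟩
  have hy := h.A2 hm₁ hz hz' hne.symm
  have hyz : z ≠ μ₁ z' := (Finset.ne_of_mem_erase (hm₁.mem z' hz'E)).symm
  have e2 : st (st μ₁ z b) (μ₁ b) z' z = b := by
    rw [st_other _ (h.KN_ne hz hbs) hne, st_left]
  have := h.A2 hm₃ hy hz hyz
  rw [e2] at this
  exact h.KN_ne this hb rfl

/-- **Theorem B, odd case**: no perfect matching of the complement misses a vertex of `K` only -/
theorem no_npm {μ : V → V} {x : V} (hx : x ∈ K) (hm₀ : HM G (U.erase x) μ) : False := by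
  obtain ⟨μ₁, hm, -⟩ := h.A5 hm₀ hx h.vK
  -- `μ₁` misses `v`
  have huv : ¬ G.Adj v u := fun h' => h.far.2.2.2.1 h'.symm
  set w := μ₁ u with hw
  have hwN : w ∈ N := h.A3 hm h.vK h.uN
  have huE : u ∈ U.erase v := Finset.mem_erase.mpr ⟨(h.KN_ne h.vK h.uN).symm, h.NU h.uN⟩
  have hwE : w ∈ U.erase v := hm.mem u huE
  have hwu : w ≠ u := hm.ne u huE
  have hμw : μ₁ w = u := hm.inv u huE
  have hvw : ¬ G.Adj v w := by
    intro h'
    have := h.A6 hm h.vK h.vK hwN h'
    rw [hμw] at this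
    exact huv this
  -- both are complete to `K` minus `v`
  have hKu : ∀ z ∈ K, z ≠ v → G.Adj z u := by
    intro z hz hzv
    by_contra hn
    refine h.A7 hm h.vK hz h.vK hzv h.uN hn ?_
    exact hvw
  have hKw : ∀ z ∈ K, z ≠ v → G.Adj z w := fun z hz hzv => h.A6 hm h.vK hz h.uN (hKu z hz hzv)
  -- `w` is complete to the neighbours of `v`
  have hB : ∀ b ∈ N, G.Adj v b → G.Adj w b := by
    intro b' hb' hvb'
    by_contra hn
    set b := μ₁ b' with hbdef
    have hbN : b ∈ N := h.A3 hm h.vK hb'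
    have hvb : G.Adj v b := h.A6 hm h.vK h.vK hb' hvb'
    have hb'E : b' ∈ U.erase v := Finset.mem_erase.mpr ⟨(h.KN_ne h.vK hb').symm, h.NU hb'⟩
    have hbE : b ∈ U.erase v := hm.mem b' hb'E
    have hμb : μ₁ b = b' := hm.inv b' hb'E
    have hb'u : b' ≠ u := by rintro rfl; exact huv hvb'
    have hb'w : b' ≠ w := by rintro rfl; exact hvw hvb'
    have hbu : b ≠ u := by
      intro h'; rw [h'] at hvb; exact huv hvb
    have hbw : b ≠ w := by
      intro h'; rw [h'] at hvb; exact hvw hvb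
    have hub : ¬ G.Adj b u := fun h' => h.far.2.2.2.2 b (h.NU hbN) ⟨h'.symm, hvb.symm⟩
    have hvu : v ≠ u := h.KN_ne h.vK h.uN
    -- step 1: pair `(v, u)`, missing `w`
    have hm₁ := hm.step (h.KU h.vK) (h.NU h.uN) hvu.symm huv
    rw [← hw] at hm₁
    -- step 2: pair `(w, b')`, missing `b`
    have hm₂ := hm₁.step (h.NU hwN) (h.NU hb') hb'w hn
    have e1 : st μ₁ v u b' = b := by
      rw [st_other _ (h.KN_ne h.vK hb').symm hb'u]
    rw [e1] at hm₂
    -- step 3: pair `(b, u)`, missing `v`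
    have hm₃ := hm₂.step (h.NU hbN) (h.NU h.uN) hbu.symm hub
    have e2 : st (st μ₁ v u) w b' u = v := by
      rw [st_other _ hwu.symm hb'u.symm]
      simp [st, hvu.symm]
    rw [e2] at hm₃
    have e3 : st (st (st μ₁ v u) w b') b u b = u := st_left _ _ _
    have := h.A4 hm₃ h.vK hbN hvb
    rw [e3] at this
    exact huv this
  -- counting
  have h1 := h.solid.half_pair (h.KU h.vK) hm hwE
  rw [hμw, ad_of_not G hvw, ad_of_not G huv] at h1
  have hgd : ∀ z, gd G U z = gd G K z + gd G N z := by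
    intro z; rw [← h.union, gd_union G h.disj]
  have hgK : gd G K w = gd G K u := by
    unfold gd
    refine Finset.sum_congr rfl fun z hz => ?_
    by_cases hzv : z = v
    · rw [hzv, ad_comm G w v, ad_comm G u v, ad_of_not G hvw, ad_of_not G huv]
    · rw [ad_comm G w z, ad_comm G u z, ad_of_adj G (hKw z hz hzv), ad_of_adj G (hKu z hz hzv)]
  have hgKv : gd G K v = 0 := by
    unfold gd
    exact Finset.sum_eq_zero fun y hy => ad_of_not G (h.ind v h.vK y hy)
  have hgNw : gd G N v ≤ gd G N w := by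
    unfold gd
    refine Finset.sum_le_sum fun b hb => ?_
    by_cases hvb : G.Adj v b
    · rw [ad_of_adj G hvb, ad_of_adj G (hB b hb hvb)]
    · rw [ad_of_not G hvb]; exact ad_nonneg G w b
  have hfar := h.far.deg_add_le (W := N) (fun z hz => h.NU hz)
  have hdv := h.deg_gt (h.KU h.vK)
  have hlt := h.lt
  rw [hgd w, hgd u, hgK, hgd v, hgKv] at h1
  rw [hgd v, hgKv] at hdv
  linarith

end KN

end TwoClub
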