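import Pool.Agent.TwoClub.Tests

/-!
Half-integral fractional matchings through Hall's theorem (fractional Gallai-Edmonds):
every finite vertex set `P` is a disjoint union `K ∪ N ∪ M` with `K` independent,
`N = N_P(K)` matched injectively into `K`, and a permutation of `M` along edges.
-/

namespace TwoClub

open Finset

variable {V : Type*} (G : SimpleGraph V)

open scoped Classical in
/-- the vertices of `P` with a neighbour in `K` -/
noncomputable def nb (P K : Finset V) : Finset V := P.filter fun z => ∃ x ∈ K, G.Adj x z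

theorem mem_nb {P K : Finset V} {z : V} : z ∈ nb G P K ↔ z ∈ P ∧ ∃ x ∈ K, G.Adj x z := by
  classical
  unfold nb; rw [Finset.mem_filter]

/-- independence of a finite set -/
def Ind (K : Finset V) : Prop := ∀ x ∈ K, ∀ y ∈ K, ¬ G.Adj x y

variable {G}

theorem hall_on (A B : Finset V) (h : ∀ T ⊆ A, #T ≤ #(nb G B T)) :
    ∃ f : V → V, (∀ z ∈ A, f z ∈ B ∧ G.Adj z (f z)) ∧ Set.InjOn f (A : Set V) := by
  classical
  let t : {z // z ∈ A} → Finset V := fun z => B.filter fun y => G.Adj z.1 y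
  have key : ∀ s : Finset {z // z ∈ A}, #s ≤ #(s.biUnion t) := by
    intro s
    have h1 : s.biUnion t = nb G B (s.image Subtype.val) := by
      ext y
      simp only [Finset.mem_biUnion, mem_nb, Finset.mem_image, t, Finset.mem_filter]
      constructor
      · rintro ⟨a, ha, hy, hay⟩
        exact ⟨hy, a.1, ⟨a, ha, rfl⟩, hay⟩
      · rintro ⟨hy, x, ⟨a, ha, rfl⟩, hay⟩
        exact ⟨a, ha, hy, hay⟩
    rw [h1]
    have h2 : #(s.image Subtype.val) = #s :=
      Finset.card_image_of_injective s Subtype.val_injective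
    rw [← h2]
    apply h
    intro x hx
    obtain ⟨a, _, rfl⟩ := Finset.mem_image.mp hx
    exact a.2
  obtain ⟨f, hf, hft⟩ := (Finset.all_card_le_biUnion_card_iff_exists_injective t).mp key
  refine ⟨fun z => if hz : z ∈ A then f ⟨z, hz⟩ else z, ?_, ?_⟩
  · intro z hz
    have := hft ⟨z, hz⟩
    simp only [t, Finset.mem_filter] at this
    simp only [dif_pos hz]
    exact this
  · intro x hx y hy hxy
    have hx' : x ∈ A := hx
    have hy' : y ∈ A := hy
    simp only [dif_pos hx', dif_pos hy'] at hxy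
    have := hf hxy
    exact congrArg Subtype.val this

/-- the decomposition, with the maximality of `K` -/
theorem exists_KNM (G : SimpleGraph V) [DecidableEq V] (P : Finset V) :
    ∃ K ⊆ P, Ind G K ∧
      (∃ f : V → V, (∀ z ∈ nb G P K, f z ∈ K ∧ G.Adj z (f z)) ∧
        Set.InjOn f (nb G P K : Set V)) ∧
      (∃ σ : V → V, (∀ z ∈ P \ (K ∪ nb G P K), σ z ∈ P \ (K ∪ nb G P K) ∧ G.Adj z (σ z)) ∧
        Set.InjOn σ (P \ (K ∪ nb G P K) : Finset V)) ∧
      ∀ K' ⊆ P, Ind G K' → (#K' : ℤ) - #(nb G P K') ≤ #K - #(nb G P K) := by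
  classical
  have hne : (P.powerset.filter fun K => Ind G K).Nonempty := by
    refine ⟨∅, ?_⟩
    simp only [Finset.mem_filter, Finset.mem_powerset, Finset.empty_subset, true_and]
    intro x hx
    exact absurd hx (by simp)
  obtain ⟨K, hK, hmax⟩ := Finset.exists_max_image (P.powerset.filter fun K => Ind G K)
    (fun K => (#K : ℤ) - #(nb G P K)) hne
  simp only [Finset.mem_filter, Finset.mem_powerset] at hK hmax
  obtain ⟨hKP, hKi⟩ := hK
  refine ⟨K, hKP, hKi, ?_, ?_, fun K' h1 h2 => hmax K' ⟨h1, h2⟩⟩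
  · apply hall_on
    intro T hT
    by_contra hcon
    push Not at hcon
    have hi : Ind G (K \ nb G K T) := fun x hx y hy =>
      hKi x (Finset.sdiff_subset hx) y (Finset.sdiff_subset hy)
    have h1 := hmax (K \ nb G K T) ⟨Finset.sdiff_subset.trans hKP, hi⟩
    have h2 : nb G P (K \ nb G K T) ⊆ nb G P K \ T := by
      intro z hz
      rw [mem_nb] at hz
      obtain ⟨hzP, x, hx, hxz⟩ := hz
      rw [Finset.mem_sdiff] at hx
      rw [Finset.mem_sdiff, mem_nb]
      refine ⟨⟨hzP, x, hx.1, hxz⟩, fun hzT => hx.2 ?_⟩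
      rw [mem_nb]
      exact ⟨hx.1, z, hzT, hxz.symm⟩
    have h3 : #(nb G P K \ T) = #(nb G P K) - #T := Finset.card_sdiff_of_subset hT
    have h4 : #T ≤ #(nb G P K) := Finset.card_le_card hT
    have h5 := Finset.card_le_card h2
    have h6 : nb G K T ⊆ K := fun z hz => ((mem_nb G).mp hz).1
    have h7 : #(K \ nb G K T) = #K - #(nb G K T) := Finset.card_sdiff_of_subset h6
    have h8 := Finset.card_le_card h6
    omega
  · apply hall_on
    intro T hT
    set M := P \ (K ∪ nb G P K) with hM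
    have hMP : M ⊆ P := Finset.sdiff_subset
    have hTM : ∀ x ∈ T, x ∈ P ∧ x ∉ K ∧ ¬ ∃ y ∈ K, G.Adj y x := by
      intro x hx
      have := hT hx
      rw [hM, Finset.mem_sdiff, Finset.mem_union, mem_nb] at this
      obtain ⟨h1, h2⟩ := this
      push Not at h2
      refine ⟨h1, h2.1, ?_⟩
      rintro ⟨y, hy, hyx⟩
      exact h2.2 h1 y hy hyx
    have hi : Ind G (K ∪ (T \ nb G M T)) := by
      intro x hx y hy hxy
      rw [Finset.mem_union, Finset.mem_sdiff] at hx hy
      rcases hx with hx | ⟨hx, hx'⟩ <;> rcases hy with hy | ⟨hy, hy'⟩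
      · exact hKi x hx y hy hxy
      · exact (hTM y hy).2.2 ⟨x, hx, hxy⟩
      · exact (hTM x hx).2.2 ⟨y, hy, hxy.symm⟩
      · apply hy'
        rw [mem_nb]
        exact ⟨hT hy, x, hx, hxy⟩
    have h1 := hmax (K ∪ (T \ nb G M T)) ⟨Finset.union_subset hKP
      (fun x hx => (hTM x (Finset.sdiff_subset hx)).1), hi⟩
    have h2 : nb G P (K ∪ (T \ nb G M T)) ⊆ nb G P K ∪ (nb G M T \ T) := by
      intro z hz
      rw [mem_nb] at hz
      obtain ⟨hzP, x, hx, hxz⟩ := hz
      rw [Finset.mem_union]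
      rw [Finset.mem_union] at hx
      by_cases hzN : z ∈ nb G P K
      · exact Or.inl hzN
      right
      rcases hx with hx | hx
      · exact absurd ((mem_nb G).mpr ⟨hzP, x, hx, hxz⟩) hzN
      rw [Finset.mem_sdiff] at hx
      have hzK : z ∉ K := fun hzK => (hTM x hx.1).2.2 ⟨z, hzK, hxz.symm⟩
      have hzM : z ∈ M := by
        rw [hM, Finset.mem_sdiff, Finset.mem_union]
        exact ⟨hzP, fun h => h.elim hzK hzN⟩
      rw [Finset.mem_sdiff, mem_nb]
      refine ⟨⟨hzM, x, hx.1, hxz⟩, fun hzT => hx.2 ?_⟩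
      rw [mem_nb]
      exact ⟨hT hx.1, z, hzT, hxz.symm⟩
    have hdj : Disjoint K (T \ nb G M T) := by
      rw [Finset.disjoint_left]
      intro x hx hx'
      exact (hTM x (Finset.sdiff_subset hx')).2.1 hx
    have h3 : #(K ∪ (T \ nb G M T)) = #K + #(T \ nb G M T) := Finset.card_union_of_disjoint hdj
    have h4 := (Finset.card_le_card h2).trans (Finset.card_union_le _ _)
    have h5 : #(T \ nb G M T) + #(T ∩ nb G M T) = #T := Finset.card_sdiff_add_card_inter _ _
    have h6 : #(nb G M T \ T) + #(nb G M T ∩ T) = #(nb G M T) :=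
      Finset.card_sdiff_add_card_inter _ _
    rw [Finset.inter_comm] at h6
    rw [h3] at h1
    push_cast at h1
    omega

/-- a permutation along edges gives `2 ∑ a ≤ B |M|` -/
theorem sum_perm_le {M : Finset V} {σ : V → V} (hσ : ∀ z ∈ M, σ z ∈ M ∧ G.Adj z (σ z))
    (hinj : Set.InjOn σ (M : Set V)) (a : V → ℝ) {B : ℝ}
    (hB : ∀ z ∈ M, ∀ w ∈ M, G.Adj z w → a z + a w ≤ B) :
    2 * ∑ z ∈ M, a z ≤ B * #M := by
  classical
  have h1 : ∑ z ∈ M, a (σ z) = ∑ z ∈ M, a z := by
    have himg : M.image σ = M := by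
      apply Finset.eq_of_subset_of_card_le
      · intro x hx
        obtain ⟨z, hz, rfl⟩ := Finset.mem_image.mp hx
        exact (hσ z hz).1
      · rw [Finset.card_image_of_injOn hinj]
    conv_rhs => rw [← himg]
    rw [Finset.sum_image hinj]
  have h2 : 2 * ∑ z ∈ M, a z = ∑ z ∈ M, (a z + a (σ z)) := by
    rw [Finset.sum_add_distrib, h1]; ring
  rw [h2]
  calc ∑ z ∈ M, (a z + a (σ z)) ≤ ∑ z ∈ M, B :=
        Finset.sum_le_sum fun z hz => hB z hz (σ z) (hσ z hz).1 (hσ z hz).2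
    _ = B * #M := by simp [mul_comm]

/-- the matched part: `∑_{K ∪ N} a ≤ B |K|` -/
theorem sum_match_le {K N : Finset V} {f : V → V} (hf : ∀ z ∈ N, f z ∈ K ∧ G.Adj z (f z))
    (hinj : Set.InjOn f (N : Set V)) (a : V → ℝ) {B : ℝ} (h1 : ∀ z ∈ K, a z ≤ B)
    (hB : ∀ z ∈ N, ∀ w ∈ K, G.Adj z w → a z + a w ≤ B) :
    ∑ z ∈ N, a z + ∑ z ∈ K, a z ≤ B * #K := by
  classical
  have himg : N.image f ⊆ K := by
    intro x hx
    obtain ⟨z, hz, rfl⟩ := Finset.mem_image.mp hx
    exact (hf z hz).1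
  have h2 : ∑ z ∈ K, a z = ∑ z ∈ K \ N.image f, a z + ∑ z ∈ N, a (f z) := by
    rw [← Finset.sum_sdiff himg, Finset.sum_image hinj]
  have h3 : ∑ z ∈ K \ N.image f, a z ≤ B * (#K - #N) := by
    calc ∑ z ∈ K \ N.image f, a z ≤ ∑ z ∈ K \ N.image f, B :=
          Finset.sum_le_sum fun z hz => h1 z (Finset.sdiff_subset hz)
      _ = B * #(K \ N.image f) := by simp [mul_comm]
      _ = B * (#K - #N) := by
          rw [Finset.card_sdiff_of_subset himg, Finset.card_image_of_injOn hinj,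
            Nat.cast_sub]
          rw [← Finset.card_image_of_injOn hinj]
          exact Finset.card_le_card himg
  have h4 : ∑ z ∈ N, a z + ∑ z ∈ N, a (f z) ≤ B * #N := by
    rw [← Finset.sum_add_distrib]
    calc ∑ z ∈ N, (a z + a (f z)) ≤ ∑ z ∈ N, B :=
          Finset.sum_le_sum fun z hz => hB z hz (f z) (hf z hz).1 (hf z hz).2
      _ = B * #N := by simp [mul_comm]
  rw [h2]
  nlinarith [h3, h4]

/-- COVER LEMMA: weights with `a z ≤ B` and `a z + a w ≤ B` on edges satisfy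
`2 ∑_P a ≤ B (|P| + |K| - |N_P(K)|)` for some independent `K ⊆ P`. -/
theorem cover (G : SimpleGraph V) (P : Finset V) (a : V → ℝ) {B : ℝ}
    (h1 : ∀ z ∈ P, a z ≤ B) (h2 : ∀ z ∈ P, ∀ w ∈ P, G.Adj z w → a z + a w ≤ B) :
    ∃ K ⊆ P, Ind G K ∧ #(nb G P K) ≤ #K ∧ Disjoint K (nb G P K) ∧
      2 * ∑ z ∈ P, a z ≤ B * ((#P : ℝ) + #K - #(nb G P K)) := by
  classical
  obtain ⟨K, hKP, hKi, ⟨f, hf, hfi⟩, ⟨σ, hσ, hσi⟩, hmax⟩ := exists_KNM G P
  set N := nb G P K with hN
  set M := P \ (K ∪ N) with hM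
  have hNP : N ⊆ P := fun z hz => ((mem_nb G).mp hz).1
  have hKN : Disjoint K N := by
    rw [Finset.disjoint_left]
    intro x hx hx'
    obtain ⟨_, y, hy, hyx⟩ := (mem_nb G).mp hx'
    exact hKi y hy x hx hyx
  have hKNP : K ∪ N ⊆ P := Finset.union_subset hKP hNP
  have hMP : M ⊆ P := Finset.sdiff_subset
  have hs : ∑ z ∈ P, a z = ∑ z ∈ M, a z + (∑ z ∈ N, a z + ∑ z ∈ K, a z) := by
    rw [← Finset.sum_sdiff hKNP, Finset.sum_union hKN]; ring
  have hc : (#M : ℝ) = #P - (#K + #N) := by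
    have e1 : #M = #P - #(K ∪ N) := Finset.card_sdiff_of_subset hKNP
    have e2 : #(K ∪ N) = #K + #N := Finset.card_union_of_disjoint hKN
    have e3 := Finset.card_le_card hKNP
    rw [e1, Nat.cast_sub e3, e2]; push_cast; ring
  have hle : #N ≤ #K := by
    rw [← Finset.card_image_of_injOn hfi]
    apply Finset.card_le_card
    intro x hx
    obtain ⟨z, hz, rfl⟩ := Finset.mem_image.mp hx
    exact (hf z hz).1
  refine ⟨K, hKP, hKi, hle, hKN, ?_⟩
  have e1 := sum_perm_le hσ hσi a (fun z hz w hw => h2 z (hMP hz) w (hMP hw))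
  have e2 := sum_match_le hf hfi a (fun z hz => h1 z (hKP hz))
    (fun z hz w hw => h2 z (hNP hz) w (hKP hw))
  rw [hs]
  rw [hc] at e1
  nlinarith [e1, e2]

end TwoClub
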