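import Pool.Agent.TwoClub.WTests

/-!
Level-1 structure theorem, weighted form.  `V₁` carries unit weights, one further vertex `zs`
the weight `f ∈ [0, 1)`, all other vertices of `U` the weight `0`.
-/

namespace TwoClub

open Finset

variable {V : Type*} {G : SimpleGraph V}

/-- the weighted situation -/
structure Setup (G : SimpleGraph V) (U V₁ : Finset V) (ω : V → ℝ) (zs u v : V) (f : ℝ) :
    Prop where
  sol : WSol G ω U
  sub : V₁ ⊆ U
  zsU : zs ∈ U
  zsV : zs ∉ V₁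
  one : ∀ z ∈ V₁, ω z = 1
  wz : ω zs = f
  f0 : 0 ≤ f
  f1 : f < 1
  zero : ∀ z ∈ U, z ∉ V₁ → z ≠ zs → ω z = 0
  far : Far G U u v
  uV : u ∈ V₁
  vV : v ∈ V₁
  vz : ¬ G.Adj v zs

namespace Setup

variable {U V₁ : Finset V} {ω : V → ℝ} {zs u v : V} {f : ℝ}

theorem sum_eq [DecidableEq V] (h : Setup G U V₁ ω zs u v f) (a : V → ℝ)
    (ha : ∀ z ∈ U, ω z = 0 → a z = 0) : ∑ z ∈ U, a z = ∑ z ∈ V₁, a z + a zs := by
  have h1 : insert zs V₁ ⊆ U := by
    intro x hx
    rcases Finset.mem_insert.mp hx with rfl | hx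
    · exact h.zsU
    · exact h.sub hx
  rw [← Finset.sum_subset h1]
  · rw [Finset.sum_insert h.zsV, add_comm]
  · intro x hx hx'
    rw [Finset.mem_insert, not_or] at hx'
    exact ha x hx (h.zero x hx hx'.2 hx'.1)

theorem ws_eq [DecidableEq V] (h : Setup G U V₁ ω zs u v f) : ws ω U = #V₁ + f := by
  unfold ws
  rw [h.sum_eq ω (fun z _ hz => hz), h.wz, Finset.sum_congr rfl h.one]
  simp

theorem wgd_eq [DecidableEq V] (h : Setup G U V₁ ω zs u v f) (z : V) :
    wgd G ω U z = gd G V₁ z + f * ad G z zs := by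
  unfold wgd gd
  rw [h.sum_eq (fun y => ad G z y * ω y) (fun y _ hy => by rw [hy, mul_zero]), h.wz]
  rw [Finset.sum_congr rfl (g := fun y => ad G z y) fun y hy => by rw [h.one y hy, mul_one]]
  ring

theorem sum_wb_eq [DecidableEq V] (h : Setup G U V₁ ω zs u v f) :
    ∑ z ∈ U, wb G ω U z = ∑ z ∈ V₁, wb G ω U z + wb G ω U zs :=
  h.sum_eq _ (fun z _ hz => by unfold wb; rw [hz, zero_mul])

theorem symm_far (h : Setup G U V₁ ω zs u v f) : Far G U v u := h.far.symm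

theorem ge_two (h : Setup G U V₁ ω zs u v f) : 2 ≤ #V₁ :=
  (h.far.mono h.sub h.uV h.vV).two_le

theorem W_ge_two [DecidableEq V] (h : Setup G U V₁ ω zs u v f) : 2 ≤ ws ω U := by
  rw [h.ws_eq]
  have : (2 : ℝ) ≤ #V₁ := by exact_mod_cast h.ge_two
  linarith [h.f0]

theorem wb_eq [DecidableEq V] (h : Setup G U V₁ ω zs u v f) {z : V} (hz : z ∈ V₁) :
    wb G ω U z = ws ω U / 2 - (wgd G ω U z - wd G ω U / 2) := by
  unfold wb; rw [h.one z hz]; ring

theorem deg_pos [DecidableEq V] (h : Setup G U V₁ ω zs u v f) {z : V} (hz : z ∈ V₁) :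
    wd G ω U / 2 < wgd G ω U z :=
  h.sol.deg_unit (h.sub hz) (h.one z hz) (by linarith [h.W_ge_two])

theorem wd_nonneg [DecidableEq V] (h : Setup G U V₁ ω zs u v f) : 0 ≤ wd G ω U := by
  have hω : ∀ z ∈ U, 0 ≤ ω z := by
    intro z hz
    by_cases h1 : z ∈ V₁
    · rw [h.one z h1]; norm_num
    · by_cases h2 : z = zs
      · rw [h2, h.wz]; exact h.f0
      · rw [h.zero z hz h1 h2]
  unfold wd
  apply div_nonneg
  · unfold wee wgd
    apply Finset.sum_nonneg
    intro x hx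
    apply mul_nonneg (hω x hx)
    apply Finset.sum_nonneg
    intro y hy
    exact mul_nonneg (ad_nonneg G x y) (hω y hy)
  · linarith [h.W_ge_two]

theorem gv_eq [DecidableEq V] (h : Setup G U V₁ ω zs u v f) :
    wgd G ω U v = #(nbr G V₁ v) := by
  rw [h.wgd_eq, ad_of_not G h.vz, card_nbr]; ring

theorem gu_eq [DecidableEq V] (h : Setup G U V₁ ω zs u v f) :
    wgd G ω U u = #(nbr G V₁ u) + f * ad G u zs := by
  rw [h.wgd_eq, card_nbr]

/-- `v` has a neighbour in `V₁`, hence `3 ≤ |V₁|` -/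
theorem ge_three [DecidableEq V] (h : Setup G U V₁ ω zs u v f) : 3 ≤ #V₁ := by
  have h1 := h.deg_pos h.vV
  rw [h.gv_eq] at h1
  have h2 := h.wd_nonneg
  have h3 : (0 : ℝ) < #(nbr G V₁ v) := by linarith
  have h4 : 0 < #(nbr G V₁ v) := by exact_mod_cast h3
  obtain ⟨w, hw⟩ := Finset.card_pos.mp h4
  rw [mem_nbr] at hw
  have hwu : w ≠ u := fun e => h.far.2.2.2.1 (e ▸ hw.2).symm
  have h5 : ({w, u, v} : Finset V) ⊆ V₁ := by
    intro x hx
    simp only [Finset.mem_insert, Finset.mem_singleton] at hx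
    rcases hx with rfl | rfl | rfl
    · exact hw.1
    · exact h.uV
    · exact h.vV
  have e2 := Finset.card_le_card h5
  rwa [Finset.card_eq_three.mpr ⟨w, u, v, hwu, hw.2.ne.symm, h.far.2.2.1, rfl⟩] at e2

/-- single and edge tests inside the neighbourhood of one of the two vertices -/
theorem side_single [DecidableEq V] (h : Setup G U V₁ ω zs u v f) {x : V} (hx : x ∈ V₁)
    {z : V} (hz : z ∈ V₁) (hxz : G.Adj x z) :
    wb G ω U z < wgd G ω U x - wd G ω U / 2 := by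
  have h3 : (3 : ℝ) ≤ #V₁ := by exact_mod_cast h.ge_three
  have := h.sol.edge_unit (h.sub hx) (h.sub hz) hxz (h.one x hx) (h.one z hz)
    (by rw [h.ws_eq]; linarith [h.f0])
  rw [h.wb_eq hx] at this
  linarith

theorem side_edge [DecidableEq V] (h : Setup G U V₁ ω zs u v f) {x y : V} (hx : x ∈ V₁)
    (hy : y ∈ V₁) (hxy : Far G U x y)
    {z : V} (hz : z ∈ V₁) (hxz : G.Adj x z) {w : V} (hw : w ∈ V₁) (hxw : G.Adj x w)
    (hzw : G.Adj z w) :
    wb G ω U z + wb G ω U w < wgd G ω U x - wd G ω U / 2 := by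
  -- `x, z, w, y` are four vertices of `V₁`
  have h4 : 4 ≤ #V₁ := by
    have hyz : y ≠ z := fun e => hxy.2.2.2.1 (e ▸ hxz)
    have hyw : y ≠ w := fun e => hxy.2.2.2.1 (e ▸ hxw)
    have h5 : ({y, x, z, w} : Finset V) ⊆ V₁ := by
      intro t ht
      simp only [Finset.mem_insert, Finset.mem_singleton] at ht
      rcases ht with rfl | rfl | rfl | rfl <;> assumption
    have e2 := Finset.card_le_card h5
    rw [Finset.card_insert_of_notMem (by
      simp only [Finset.mem_insert, Finset.mem_singleton, not_or]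
      exact ⟨hxy.2.2.1.symm, hyz, hyw⟩),
      Finset.card_eq_three.mpr ⟨x, z, w, hxz.ne, hxw.ne, hzw.ne, rfl⟩] at e2
    exact e2
  have h3 : (4 : ℝ) ≤ #V₁ := by exact_mod_cast h4
  have := h.sol.tri_unit (h.sub hx) (h.sub hz) (h.sub hw) hxz hxw hzw (h.one x hx)
    (h.one z hz) (h.one w hw) (by rw [h.ws_eq]; linarith [h.f0])
  rw [h.wb_eq hx] at this
  linarith

open scoped Classical in
/-- weighted Theorem A.  `P₁ ⊆ N(u)` is injected into `N(u) \ P₁` along edges. -/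
theorem thmA (h : Setup G U V₁ ω zs u v f) {P₁ : Finset V} (hP₁ : P₁ ⊆ nbr G V₁ u)
    {φ : V → V} (hφ : ∀ z ∈ P₁, φ z ∈ nbr G V₁ u \ P₁ ∧ G.Adj z (φ z))
    (hinj : Set.InjOn φ (P₁ : Set V))
    (hχ : 2 * ((#(nbr G V₁ u) : ℝ) - #P₁ + ad G u zs) < ws ω U + 2) :
    ∃ K ⊆ nbr G V₁ v, Ind G K ∧
      ws ω U + 2 < (#(nbr G V₁ v) : ℝ) + #K - #(nb G (nbr G V₁ v) K) := by
  set P := nbr G V₁ u with hP
  set Q := nbr G V₁ v with hQ
  set W := ws ω U with hW
  set d := wd G ω U with hd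
  set Γ := wgd G ω U u - d / 2 with hΓ
  set η := wgd G ω U v - d / 2 with hη
  have hΓ0 : 0 < Γ := by have := h.deg_pos h.uV; linarith
  have hη0 : 0 < η := by have := h.deg_pos h.vV; linarith
  have hW2 := h.W_ge_two
  have hWpos : 0 < W := by linarith
  have hPV : P ⊆ V₁ := fun z hz => (mem_nbr.mp hz).1
  have hQV : Q ⊆ V₁ := fun z hz => (mem_nbr.mp hz).1
  have hfs := h.symm_far
  -- the `Q` side
  obtain ⟨K, hKQ, hKi, _, _, hsumQ⟩ := cover G Q (wb G ω U) (B := η)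
    (fun z hz => (h.side_single h.vV (hQV hz) (mem_nbr.mp hz).2).le)
    (fun z hz w hw hzw => (h.side_edge h.vV h.uV hfs (hQV hz) (mem_nbr.mp hz).2
      (hQV hw) (mem_nbr.mp hw).2 hzw).le)
  refine ⟨K, hKQ, hKi, ?_⟩
  by_contra hcon
  push Not at hcon
  -- the `P` side
  have hsumP := sum_match_le (K := P \ P₁) (N := P₁) (f := φ) hφ hinj (wb G ω U) (B := Γ)
    (fun z hz => (h.side_single h.uV (hPV (Finset.sdiff_subset hz))
      (mem_nbr.mp (Finset.sdiff_subset hz)).2).le)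
    (fun z hz w hw hzw => (h.side_edge h.uV h.vV h.far (hPV (hP₁ hz)) (mem_nbr.mp (hP₁ hz)).2
      (hPV (Finset.sdiff_subset hw)) (mem_nbr.mp (Finset.sdiff_subset hw)).2 hzw).le)
  have hPsum : ∑ z ∈ P, wb G ω U z ≤ Γ * ((#P : ℝ) - #P₁) := by
    have e1 : ∑ z ∈ P, wb G ω U z = ∑ z ∈ P₁, wb G ω U z + ∑ z ∈ P \ P₁, wb G ω U z := by
      rw [← Finset.sum_sdiff hP₁]; ring
    have e2 : (#(P \ P₁) : ℝ) = #P - #P₁ := by
      rw [Finset.card_sdiff_of_subset hP₁, Nat.cast_sub (Finset.card_le_card hP₁)]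
    rw [e1, ← e2]; exact hsumP
  -- the decomposition of `V₁`
  have hPQ : Disjoint P Q := by
    rw [Finset.disjoint_left]
    intro z hz hz'
    exact h.far.2.2.2.2 z (h.sub (hPV hz)) ⟨(mem_nbr.mp hz).2, (mem_nbr.mp hz').2.symm⟩
  have huvPQ : Disjoint ({u, v} : Finset V) (P ∪ Q) := by
    rw [Finset.disjoint_left]
    intro z hz hz'
    simp only [Finset.mem_insert, Finset.mem_singleton] at hz
    rw [Finset.mem_union] at hz'
    rcases hz with rfl | rfl <;> rcases hz' with hz' | hz'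
    · exact (mem_nbr.mp hz').2.ne rfl
    · exact h.far.2.2.2.1 (mem_nbr.mp hz').2.symm
    · exact h.far.2.2.2.1 (mem_nbr.mp hz').2
    · exact (mem_nbr.mp hz').2.ne rfl
  set Z : Finset V := {u, v} ∪ (P ∪ Q) with hZ
  have hZV : Z ⊆ V₁ := by
    intro z hz
    rw [hZ, Finset.mem_union, Finset.mem_union] at hz
    rcases hz with hz | hz | hz
    · simp only [Finset.mem_insert, Finset.mem_singleton] at hz
      rcases hz with rfl | rfl
      · exact h.uV
      · exact h.vV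
    · exact hPV hz
    · exact hQV hz
  have hsumV : ∑ z ∈ V₁, wb G ω U z = ∑ z ∈ V₁ \ Z, wb G ω U z +
      ((wb G ω U u + wb G ω U v) + (∑ z ∈ P, wb G ω U z + ∑ z ∈ Q, wb G ω U z)) := by
    rw [← Finset.sum_sdiff hZV, hZ, Finset.sum_union huvPQ, Finset.sum_pair h.far.2.2.1,
      Finset.sum_union hPQ]
  have hcZ : (#(V₁ \ Z) : ℝ) = #V₁ - (2 + (#P + #Q)) := by
    have e1 : #(V₁ \ Z) = #V₁ - #Z := Finset.card_sdiff_of_subset hZV
    have e2 : #Z = 2 + (#P + #Q) := by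
      rw [hZ, Finset.card_union_of_disjoint huvPQ, Finset.card_pair h.far.2.2.1,
        Finset.card_union_of_disjoint hPQ]
    have e3 := Finset.card_le_card hZV
    rw [e1, Nat.cast_sub e3, e2]; push_cast; ring
  have hR : ∑ z ∈ V₁ \ Z, wb G ω U z ≤ W / 2 * #(V₁ \ Z) := by
    calc ∑ z ∈ V₁ \ Z, wb G ω U z ≤ ∑ z ∈ V₁ \ Z, W / 2 := by
          apply Finset.sum_le_sum
          intro z hz
          exact (h.sol.single_unit (h.sub (Finset.sdiff_subset hz))
            (h.one z (Finset.sdiff_subset hz)) (by linarith)).le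
      _ = W / 2 * #(V₁ \ Z) := by rw [Finset.sum_const, nsmul_eq_mul, mul_comm]
  -- the extra vertex
  have hzs : wb G ω U zs ≤ (W / 2 * f) * (1 - ad G u zs) + Γ * ad G u zs := by
    by_cases huz : G.Adj u zs
    · rw [ad_of_adj G huz]
      have h3 : (3 : ℝ) ≤ #V₁ := by exact_mod_cast h.ge_three
      have := h.sol.edge_frac (h.sub h.uV) h.zsU huz (h.one u h.uV) (by rw [h.wz]; exact h.f0)
        (by rw [h.wz]; exact h.f1.le) (by rw [h.ws_eq]; linarith [h.f0])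
      rw [h.wb_eq h.uV] at this
      linarith
    · rw [ad_of_not G huz]
      have := h.sol.single h.zsU (by rw [h.wz]; exact h.f0)
        (by rw [h.wz]; linarith [h.f1])
      rw [h.wz] at this
      linarith
  have htot := sum_wb_self (G := G) (ω := ω) (U := U) hWpos
  rw [h.sum_wb_eq, hsumV, h.wb_eq h.uV, h.wb_eq h.vV] at htot
  have hWn : W = #V₁ + f := h.ws_eq
  have hgu : wgd G ω U u = (#P : ℝ) + f * ad G u zs := h.gu_eq
  have hgv : wgd G ω U v = (#Q : ℝ) := h.gv_eq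
  rw [hcZ] at hR
  have had : 0 ≤ ad G u zs := ad_nonneg G u zs
  set a := ad G u zs with ha
  have hp : (#P : ℝ) = Γ + d / 2 - f * a := by rw [hΓ, hgu]; ring
  have hq : (#Q : ℝ) = η + d / 2 := by rw [hη, hgv]; ring
  have m1 : Γ * (2 * ((#P : ℝ) - #P₁ + a)) < Γ * (W + 2) := mul_lt_mul_of_pos_left hχ hΓ0
  have m2 : η * ((#Q : ℝ) + #K - #(nb G Q K)) ≤ η * (W + 2) :=
    mul_le_mul_of_nonneg_left hcon hη0.le
  -- collect
  have hn1 : (#V₁ : ℝ) = W - f := by linarith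
  have hRR : W / 2 * ((#V₁ : ℝ) - (2 + (#P + #Q))) =
      W / 2 * (W - 2 - Γ - η - d) - W / 2 * f * (1 - a) := by
    rw [hn1, hp, hq]; ring
  rw [hRR] at hR
  have key : W * (W - d) / 2 ≤ W / 2 * (W - 2 - Γ - η - d) + (W - Γ - η)
      + Γ * ((#P : ℝ) - #P₁ + a) + η * ((#Q : ℝ) + #K - #(nb G Q K)) / 2 := by
    have e1 : W / 2 - Γ + (W / 2 - η) = W - Γ - η := by ring
    linarith [hR, hPsum, hsumQ, hzs, htot]
  nlinarith [key, m1, m2]

end Setup

end TwoClub
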