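import Pool.Agent.TwoClub.Level1

/-!
Level-1 structure theorem, second part: `V₁ = K' ∪ N'`, `|K'| ≥ |N'| + 4`, `u ∈ K'`, `v ∈ N'`.
-/

namespace TwoClub

open Finset

variable {V : Type*} {G : SimpleGraph V}

/-- the arithmetic which kills the half-integral part -/
theorem mkill {W d m μ f E vol : ℝ} (hμ : 0 < μ) (_hm : 0 ≤ m) (_hf0 : 0 ≤ f) (hf1 : f < 1)
    (hWk : 2 * m + 4 + μ + f ≤ W) (hd1 : m + μ / 2 < d) (hd2 : d < 2 * (m + f))
    (hT : W * E - 2 * μ * vol + μ ^ 2 * d < 0) (hE1 : μ * (W / 4 + d / 2) ≤ vol)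
    (hvol : vol ≤ E + μ * (m + f)) : False := by
  have hE3 : μ * (μ / 2 + 1 / 4) ≤ E := by
    have e1 : μ * (W / 4 + d / 2 - (m + f)) ≤ E := by
      have : μ * (W / 4 + d / 2 - (m + f)) = μ * (W / 4 + d / 2) - μ * (m + f) := by ring
      linarith
    have e2 : μ / 2 + 1 / 4 ≤ W / 4 + d / 2 - (m + f) := by linarith
    have e3 := mul_le_mul_of_nonneg_left e2 hμ.le
    linarith
  have hμm : μ < 2 * m + 4 * f := by linarith
  have hn2 : 2 * m + 4 + f - μ ≤ W - 2 * μ := by linarith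
  have hcontra : (W - 2 * μ) * E < μ ^ 2 * (2 * (m + f) - d) := by
    have e1 := mul_le_mul_of_nonneg_left hvol (by linarith : (0 : ℝ) ≤ 2 * μ)
    have e2 : 2 * μ * (E + μ * (m + f)) = 2 * μ * E + 2 * μ ^ 2 * (m + f) := by ring
    have e3 : (W - 2 * μ) * E = W * E - 2 * μ * E := by ring
    have e4 : μ ^ 2 * (2 * (m + f) - d) = 2 * μ ^ 2 * (m + f) - μ ^ 2 * d := by ring
    rw [e3, e4]
    linarith
  have hr : μ ^ 2 * (2 * (m + f) - d) ≤ μ ^ 2 * (m + 2 * f - μ / 2) := by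
    apply mul_le_mul_of_nonneg_left _ (by positivity)
    linarith
  have hE0 : 0 ≤ μ * (μ / 2 + 1 / 4) := by positivity
  have hl : (2 * m + 4 + f - μ) * (μ * (μ / 2 + 1 / 4)) ≤ (W - 2 * μ) * E := by
    apply mul_le_mul hn2 hE3 hE0
    linarith
  have hfin : (2 * m + 4 + f - μ) * (μ * (μ / 2 + 1 / 4)) < μ ^ 2 * (m + 2 * f - μ / 2) := by
    linarith
  have a1 : 0 < 2 * m + 4 + f - μ := by linarith
  have a2 : 0 < μ * μ := mul_pos hμ hμ
  have a3 : 0 < (2 * m + 4 + f - μ) * μ := mul_pos a1 hμ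
  have a4 : 0 < (4 - 3 * f) * (μ * μ) := mul_pos (by linarith) a2
  have e5 : (2 * m + 4 + f - μ) * (μ * (μ / 2 + 1 / 4)) - μ ^ 2 * (m + 2 * f - μ / 2)
      = (4 - 3 * f) * (μ * μ) / 2 + (2 * m + 4 + f - μ) * μ / 4 := by ring
  linarith

namespace Setup

variable {U V₁ : Finset V} {ω : V → ℝ} {zs u v : V} {f : ℝ}

/-- deficiency from a large `K ⊆ N(v)` -/
theorem deficiency [DecidableEq V] (h : Setup G U V₁ ω zs u v f) {K : Finset V}
    (hK : K ⊆ nbr G V₁ v)
    (hc : ws ω U + 2 < (#(nbr G V₁ v) : ℝ) + #K - #(nb G (nbr G V₁ v) K)) :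
    #(nb G V₁ K) + 4 ≤ #K := by
  set Q := nbr G V₁ v with hQ
  have hQV : Q ⊆ V₁ := fun z hz => (mem_nbr.mp hz).1
  have h1 : nb G V₁ K ⊆ nb G Q K ∪ ((V₁ \ Q).erase u) := by
    intro z hz
    rw [mem_nb] at hz
    obtain ⟨hzU, x, hx, hxz⟩ := hz
    rw [Finset.mem_union]
    by_cases hzQ : z ∈ Q
    · left; rw [mem_nb]; exact ⟨hzQ, x, hx, hxz⟩
    · right
      rw [Finset.mem_erase, Finset.mem_sdiff]
      refine ⟨?_, hzU, hzQ⟩
      rintro rfl
      have := mem_nbr.mp (hK hx)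
      exact h.far.2.2.2.2 x (h.sub this.1) ⟨hxz.symm, this.2.symm⟩
  have h2 := (Finset.card_le_card h1).trans (Finset.card_union_le _ _)
  have hu : u ∈ V₁ \ Q := by
    rw [Finset.mem_sdiff, hQ, mem_nbr]
    exact ⟨h.uV, fun hh => h.far.2.2.2.1 hh.2.symm⟩
  have h3 : #((V₁ \ Q).erase u) = #V₁ - #Q - 1 := by
    rw [Finset.card_erase_of_mem hu, Finset.card_sdiff_of_subset hQV]
  have h4 := Finset.card_le_card hQV
  have h5 : 0 < #(V₁ \ Q) := Finset.card_pos.mpr ⟨u, hu⟩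
  rw [Finset.card_sdiff_of_subset hQV] at h5
  rw [h.ws_eq] at hc
  have hf := h.f0
  have hc' : (#V₁ : ℝ) + 2 + #(nb G Q K) < #Q + #K := by linarith
  have hc'' : #V₁ + 2 + #(nb G Q K) < #Q + #K := by exact_mod_cast hc'
  omega

open scoped Classical in
/-- second-level structure -/
theorem struct (h : Setup G U V₁ ω zs u v f) {K : Finset V}
    (hK : K ⊆ nbr G V₁ v) (hKi : Ind G K)
    (hc : ws ω U + 2 < (#(nbr G V₁ v) : ℝ) + #K - #(nb G (nbr G V₁ v) K)) :
    ∃ K' N' : Finset V, K' ∪ N' = V₁ ∧ Disjoint K' N' ∧ Ind G K' ∧ #N' + 4 ≤ #K' ∧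
      u ∈ K' ∧ v ∈ N' ∧
      (∃ φ : V → V, (∀ z ∈ N', φ z ∈ K' ∧ G.Adj z (φ z)) ∧ Set.InjOn φ (N' : Set V)) := by
  have hdefi := h.deficiency hK hc
  obtain ⟨K', hK'V, hK'i, ⟨φ, hφ, hφi⟩, ⟨σ, hσ, hσi⟩, hmax⟩ := exists_KNM G V₁
  set N' := nb G V₁ K' with hN'
  set M' := V₁ \ (K' ∪ N') with hM'
  have hQV : nbr G V₁ v ⊆ V₁ := fun z hz => (mem_nbr.mp hz).1
  have hNV : N' ⊆ V₁ := fun z hz => ((mem_nb G).mp hz).1
  have hKN : Disjoint K' N' := by
    rw [Finset.disjoint_left]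
    intro x hx hx'
    obtain ⟨_, y, hy, hyx⟩ := (mem_nb G).mp hx'
    exact hK'i y hy x hx hyx
  have hKNV : K' ∪ N' ⊆ V₁ := Finset.union_subset hK'V hNV
  have hMV : M' ⊆ V₁ := Finset.sdiff_subset
  have hj : #N' + 4 ≤ #K' := by
    have := hmax K (hK.trans hQV) hKi
    omega
  have hcardV : #V₁ = #K' + #N' + #M' := by
    have e1 : #M' = #V₁ - #(K' ∪ N') := Finset.card_sdiff_of_subset hKNV
    have e2 : #(K' ∪ N') = #K' + #N' := Finset.card_union_of_disjoint hKN
    have e3 := Finset.card_le_card hKNV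
    omega
  have hcardV' : (#V₁ : ℝ) = #K' + #N' + #M' := by exact_mod_cast hcardV
  have hj' : (#N' : ℝ) + 4 ≤ #K' := by exact_mod_cast hj
  set W := ws ω U with hW
  set d := wd G ω U with hd
  have hWn : W = #V₁ + f := h.ws_eq
  have hf0 := h.f0
  have hf1 := h.f1
  have h3 : (3 : ℝ) ≤ #V₁ := by exact_mod_cast h.ge_three
  have hWpos : 0 < W := by linarith
  have hKpos : 0 < #K' := by omega
  -- neighbours of `K'`
  have hKnb : ∀ x ∈ K', ∀ y ∈ V₁, G.Adj x y → y ∈ N' := by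
    intro x hx y hy hxy
    rw [hN', mem_nb]
    exact ⟨hy, x, hx, hxy⟩
  have hKdeg : ∀ x ∈ K', wgd G ω U x ≤ #N' + f := by
    intro x hx
    rw [h.wgd_eq]
    have e1 : gd G V₁ x = gd G N' x := by
      unfold gd
      symm
      apply Finset.sum_subset hNV
      intro y hy hyN
      exact ad_of_not G fun hxy => hyN (hKnb x hx y hy hxy)
    rw [e1]
    have e2 := gd_le_card G N' x
    have e3 := ad_le_one G x zs
    nlinarith
  -- `d < 2 (m' + f)`
  have hd2 : d < 2 * ((#N' : ℝ) + f) := by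
    obtain ⟨x, hx⟩ := Finset.card_pos.mp hKpos
    have e1 := h.deg_pos (hK'V hx)
    have e2 := hKdeg x hx
    linarith
  -- matching
  have hsumV : ∑ z ∈ V₁, wb G ω U z = ∑ z ∈ M', wb G ω U z +
      (∑ z ∈ N', wb G ω U z + ∑ z ∈ K', wb G ω U z) := by
    rw [← Finset.sum_sdiff hKNV, Finset.sum_union hKN]; ring
  have hedge : ∀ z ∈ V₁, ∀ w ∈ V₁, G.Adj z w → wb G ω U z + wb G ω U w < W / 2 := by
    intro z hz w hw hzw
    exact h.sol.edge_unit (h.sub hz) (h.sub hw) hzw (h.one z hz) (h.one w hw) (by linarith)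
  have hm1 := sum_perm_le hσ hσi (wb G ω U) (B := W / 2)
    (fun z hz w hw hzw => (hedge z (hMV hz) w (hMV hw) hzw).le)
  have hm2 := sum_match_lt hφ hφi (by omega) (wb G ω U) (B := W / 2)
    (fun z hz => h.sol.single_unit (h.sub (hK'V hz)) (h.one z (hK'V hz)) (by linarith))
    (fun z hz w hw hzw => (hedge z (hNV hz) w (hK'V hw) hzw).le)
  have hzs : wb G ω U zs ≤ W / 2 * f := by
    have := h.sol.single h.zsU (by rw [h.wz]; exact h.f0) (by rw [h.wz]; linarith)
    rwa [h.wz] at this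
  have htot := sum_wb_self (G := G) (ω := ω) (U := U) hWpos
  rw [h.sum_wb_eq, hsumV] at htot
  have hd1 : (#N' : ℝ) + #M' / 2 < d := by
    have e : W * (W - d) < W * (#K' + #M' / 2 + f) := by nlinarith [hm1, hm2, hzs, htot]
    have := lt_of_mul_lt_mul_left e hWpos.le
    linarith
  -- `M'` is empty
  have hMe : M' = ∅ := by
    by_contra hMne
    have hMne' : M'.Nonempty := Finset.nonempty_iff_ne_empty.mpr hMne
    have hμ : (0 : ℝ) < #M' := by exact_mod_cast Finset.card_pos.mpr hMne'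
    have hwsM : ws ω M' = #M' := by
      unfold ws
      rw [Finset.sum_congr rfl fun z hz => h.one z (hMV hz)]; simp
    have hT := h.sol.test (hMV.trans h.sub) (by rw [hwsM]; exact hμ)
      (by rw [hwsM]; linarith)
    have hwee : wee G ω M' M' = ee G M' M' := by
      unfold wee
      rw [ee_eq_sum_gd]
      refine Finset.sum_congr rfl fun z hz => ?_
      rw [h.one z (hMV hz), one_mul]
      unfold wgd gd
      exact Finset.sum_congr rfl fun y hy => by rw [h.one y (hMV hy), mul_one]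
    have hvol : wee G ω M' U ≤ ee G M' M' + #M' * (#N' + f) := by
      have e1 : ∀ z ∈ M', ω z * wgd G ω U z ≤ gd G M' z + (#N' + f) := by
        intro z hz
        rw [h.one z (hMV hz), one_mul, h.wgd_eq]
        have a1 : V₁ = M' ∪ (K' ∪ N') := by
          rw [hM']; exact (Finset.sdiff_union_of_subset hKNV).symm
        have a2 : Disjoint M' (K' ∪ N') := Finset.sdiff_disjoint
        have a3 : gd G K' z = 0 := by
          unfold gd
          apply Finset.sum_eq_zero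
          intro y hy
          apply ad_of_not
          intro hzy
          have : z ∈ N' := hKnb y hy z (hMV hz) hzy.symm
          rw [hM', Finset.mem_sdiff, Finset.mem_union] at hz
          exact hz.2 (Or.inr this)
        have a4 : gd G V₁ z = gd G M' z + gd G N' z := by
          rw [a1, gd_union G a2, gd_union G hKN, a3]; ring
        have a5 := gd_le_card G N' z
        have a6 := ad_le_one G z zs
        rw [a4]
        nlinarith
      calc wee G ω M' U = ∑ z ∈ M', ω z * wgd G ω U z := rfl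
        _ ≤ ∑ z ∈ M', (gd G M' z + (#N' + f)) := Finset.sum_le_sum e1
        _ = ee G M' M' + #M' * (#N' + f) := by
            rw [Finset.sum_add_distrib, ← ee_eq_sum_gd, Finset.sum_const, nsmul_eq_mul]
    rw [hwsM, hwee, sum_wb, hwsM] at hT
    rw [sum_wb, hwsM] at hm1
    have hm0 : (0 : ℝ) ≤ #N' := by positivity
    apply mkill (W := W) (d := d) (m := (#N' : ℝ)) (μ := (#M' : ℝ)) (f := f)
      (E := ee G M' M') (vol := wee G ω M' U) hμ hm0 hf0 hf1 _ hd1 hd2 _ _ hvol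
    · rw [hWn, hcardV']; linarith
    · linarith [hT]
    · linarith [hm1]
  have hVKN : K' ∪ N' = V₁ := by
    apply Finset.Subset.antisymm hKNV
    rw [← Finset.sdiff_eq_empty_iff_subset]
    exact hMe
  have hM0 : (#M' : ℝ) = 0 := by
    have : #M' = 0 := Finset.card_eq_zero.mpr hMe
    rw [this, Nat.cast_zero]
  have hmd : (#N' : ℝ) < d := by rw [hM0] at hd1; linarith
  have hVc : (#V₁ : ℝ) = #K' + #N' := by rw [hcardV', hM0]; ring
  -- `v ∈ N'`
  have hv : v ∈ N' := by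
    have hv0 : v ∈ K' ∨ v ∈ N' := by
      have := h.vV; rw [← hVKN, Finset.mem_union] at this; exact this
    rcases hv0 with hv0 | hv0
    · exfalso
      have e1 : nbr G V₁ v ⊆ N' := by
        intro z hz
        rw [mem_nbr] at hz
        exact hKnb v hv0 z hz.1 hz.2
      have e2 : (#(nbr G V₁ v) : ℝ) ≤ #N' := by exact_mod_cast Finset.card_le_card e1
      have e3 : (#K : ℝ) ≤ #(nbr G V₁ v) := by exact_mod_cast Finset.card_le_card hK
      have e4 : (0 : ℝ) ≤ #(nb G (nbr G V₁ v) K) := Nat.cast_nonneg _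
      linarith
    · exact hv0
  have hNdeg : ∀ z ∈ N', W / 2 - f < wgd G ω U z := by
    intro z hz
    have e1 := hedge z (hNV hz) (φ z) (hK'V (hφ z hz).1) (hφ z hz).2
    have e2 := hKdeg _ (hφ z hz).1
    rw [h.wb_eq (hNV hz), h.wb_eq (hK'V (hφ z hz).1)] at e1
    linarith
  have hu : u ∈ K' := by
    have hu0 : u ∈ K' ∨ u ∈ N' := by
      have := h.uV; rw [← hVKN, Finset.mem_union] at this; exact this
    rcases hu0 with hu0 | hu0
    · exact hu0
    · exfalso
      have e1 := hNdeg u hu0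
      have e2 := hNdeg v hv
      rw [h.wgd_eq] at e1 e2
      rw [ad_of_not G h.vz] at e2
      have e3 := (h.far.mono h.sub h.uV h.vV).deg_add_le'
      have e4 := ad_le_one G u zs
      have e5 : f * ad G u zs ≤ f := by nlinarith
      linarith
  exact ⟨K', N', hVKN, hKN, hK'i, hj, hu, hv, φ, hφ, hφi⟩

end Setup

end TwoClub
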