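import Pool.Agent.TwoClub.Level1b

/-!
Level-1 structure theorem, third part: choice of the kept reservoir vertices and the final
statement: `U = K ∪ I ∪ O`, `K`, `I` independent, `v ∈ K`, `u ∈ I`, `|K| ≥ |I| + |O| + 3`,
`|I| ≥ |O| + 5`.
-/

namespace TwoClub

open Finset

variable {V : Type*} {G : SimpleGraph V}

open scoped Classical in
theorem level1_finish {U K N : Finset V} {u v : V} (hs : Solid G 0 U) (h : Far G U u v)
    (hKN : K ∪ N = U) (hd : Disjoint K N) (hKi : Ind G K) (hv : v ∈ K) (hu : u ∈ N)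
    {r n1 : ℕ} (hr : 0 < r) (hn1 : n1 = #U / r) {A B : Finset V} {zs : V} (hA : A ⊆ K)
    (hAv : v ∉ A) (hAu : ∀ x ∈ A, ¬ G.Adj u x)
    (hB : B ⊆ K) (hBu : ∀ x ∈ B, G.Adj u x) (hzs : zs ∈ K)
    (hzv : zs ≠ v) (hzA : zs ∉ A) (hzB : zs ∉ B) (hcard : #N + 1 + #A + #B = n1)
    (hA2 : 2 * #A + #N + 1 ≤ n1) {P₁ : Finset V} (hP₁ : P₁ ⊆ N) (hP₁u : ∀ w ∈ P₁, G.Adj u w)
    {φ : V → V} (hφ : ∀ w ∈ P₁, φ w ∈ B ∧ G.Adj w (φ w)) (hinj : Set.InjOn φ (P₁ : Set V))
    (hχ : 2 * ((#(nbr G N u) : ℝ) + #B - #P₁ + ad G u zs) < (#U : ℝ) / r + 2)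
    (hmd : (#N : ℝ) < dd G U) :
    ∃ I ⊆ N, ∃ K₁ ⊆ K, Ind G I ∧ u ∈ I ∧ v ∈ K₁ ∧ #N + #K₁ = n1 ∧
      #(N \ I) + #K₁ + 4 ≤ #I ∧
      ∃ f' : V → V, (∀ z ∈ (N \ I) ∪ K₁, f' z ∈ I ∧ G.Adj z (f' z)) ∧
        Set.InjOn f' ((N \ I) ∪ K₁ : Finset V) := by
  have hKU : K ⊆ U := by rw [← hKN]; exact Finset.subset_union_left
  have hNU : N ⊆ U := by rw [← hKN]; exact Finset.subset_union_right
  have hdis : ∀ x, x ∈ K → x ∈ N → False := fun x h1 h2 => Finset.disjoint_left.mp hd h1 h2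
  have hBv : v ∉ B := fun hh => h.2.2.2.1 (hBu v hh)
  have hAB : Disjoint A B := by
    rw [Finset.disjoint_left]
    intro x h1 h2
    exact hAu x h1 (hBu x h2)
  set V₁ : Finset V := N ∪ insert v (A ∪ B) with hV₁
  have hins : insert v (A ∪ B) ⊆ K := by
    intro x hx
    rcases Finset.mem_insert.mp hx with rfl | hx
    · exact hv
    · rcases Finset.mem_union.mp hx with hx | hx
      · exact hA hx
      · exact hB hx
  have hcV : #V₁ = n1 := by
    rw [hV₁, Finset.card_union_of_disjoint, Finset.card_insert_of_notMem,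
      Finset.card_union_of_disjoint hAB]
    · omega
    · rw [Finset.mem_union]; rintro (hh | hh)
      · exact hAv hh
      · exact hBv hh
    · rw [Finset.disjoint_left]
      intro x h1 h2
      exact hdis x (hins h2) h1
  have hzV : zs ∉ V₁ := by
    rw [hV₁, Finset.mem_union, Finset.mem_insert, Finset.mem_union]
    rintro (hh | hh | hh | hh)
    · exact hdis zs hzs hh
    · exact hzv hh
    · exact hzA hh
    · exact hzB hh
  have hV₁U : V₁ ⊆ U := Finset.union_subset hNU (hins.trans hKU)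
  set ρ : ℕ := #U % r with hρ
  set f : ℝ := (ρ : ℝ) / r with hf
  have hr' : (0 : ℝ) < r := by exact_mod_cast hr
  have hf0 : 0 ≤ f := by positivity
  have hρr : ρ < r := Nat.mod_lt _ hr
  have hf1 : f < 1 := by
    rw [hf, div_lt_one hr']; exact_mod_cast hρr
  have hdm : r * n1 + ρ = #U := by rw [hn1]; exact Nat.div_add_mod _ _
  set ω : V → ℝ := fun z => if z ∈ V₁ then 1 else if z = zs then f else 0 with hω
  set c : V → ℕ := fun z => if z ∈ V₁ then r else if z = zs then ρ else 0 with hc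
  have hω1 : ∀ z ∈ V₁, ω z = 1 := fun z hz => by simp only [hω, if_pos hz]
  have hωz : ω zs = f := by simp only [hω, if_neg hzV, if_true]
  have hω0 : ∀ z ∈ U, z ∉ V₁ → z ≠ zs → ω z = 0 := fun z _ h1 h2 => by
    simp only [hω, if_neg h1, if_neg h2]
  have hzU : zs ∈ U := hKU hzs
  have hws : ws ω U = #V₁ + f := by
    have h1 : insert zs V₁ ⊆ U := by
      intro x hx
      rcases Finset.mem_insert.mp hx with rfl | hx
      · exact hzU
      · exact hV₁U hx
    unfold ws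
    rw [← Finset.sum_subset h1]
    · rw [Finset.sum_insert hzV, hωz, Finset.sum_congr rfl hω1]
      simp [add_comm]
    · intro x hx hx'
      rw [Finset.mem_insert, not_or] at hx'
      exact hω0 x hx hx'.2 hx'.1
  have hsol : WSol G ω U := by
    refine hs.lift0 (R := K) (c := c) (r := r) hKi hKU ?_ ?_ hr ?_ ?_
    · intro z hz
      rw [Finset.mem_sdiff, ← hKN, Finset.mem_union] at hz
      apply hω1
      rw [hV₁, Finset.mem_union]
      exact Or.inl (hz.1.resolve_left hz.2)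
    · intro z _
      simp only [hω]
      split_ifs
      · norm_num
      · exact ⟨hf0, hf1.le⟩
      · norm_num
    · intro z _
      simp only [hω, hc]
      split_ifs
      · simp
      · rw [hf]; field_simp
      · simp
    · rw [hws, hcV, hf]
      have : (r : ℝ) * (n1 + ρ / r) = ((r * n1 + ρ : ℕ) : ℝ) := by
        push_cast; field_simp
      rw [this, hdm]
  have hset : Setup G U V₁ ω zs u v f :=
    { sol := hsol
      sub := hV₁U
      zsU := hzU
      zsV := hzV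
      one := hω1
      wz := hωz
      f0 := hf0
      f1 := hf1
      zero := hω0
      far := h
      uV := by rw [hV₁, Finset.mem_union]; exact Or.inl hu
      vV := by rw [hV₁, Finset.mem_union, Finset.mem_insert]; exact Or.inr (Or.inl rfl)
      vz := hKi v hv zs hzs }
  -- the neighbourhood of `u` in `V₁`
  have hnbr : nbr G V₁ u = nbr G N u ∪ B := by
    ext x
    rw [mem_nbr, hV₁]
    simp only [Finset.mem_union, Finset.mem_insert, mem_nbr]
    constructor
    · rintro ⟨h1 | h1 | h1 | h1, h2⟩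
      · exact Or.inl ⟨h1, h2⟩
      · exact absurd (h1 ▸ h2) h.2.2.2.1
      · exact absurd h2 (hAu x h1)
      · exact Or.inr h1
    · rintro (h1 | h1)
      · exact ⟨Or.inl h1.1, h1.2⟩
      · exact ⟨Or.inr (Or.inr (Or.inr h1)), hBu x h1⟩
  have hcnbr : (#(nbr G V₁ u) : ℝ) = #(nbr G N u) + #B := by
    rw [hnbr, Finset.card_union_of_disjoint]
    · push_cast; ring
    · rw [Finset.disjoint_left]
      intro x h1 h2
      exact hdis x (hB h2) (mem_nbr.mp h1).1
  obtain ⟨KQ, hKQ, hKQi, hKQc⟩ := hset.thmA (P₁ := P₁) (φ := φ) (by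
      intro x hx
      rw [hnbr, Finset.mem_union]
      exact Or.inl (mem_nbr.mpr ⟨hP₁ hx, hP₁u x hx⟩)) (by
      intro x hx
      refine ⟨?_, (hφ x hx).2⟩
      rw [Finset.mem_sdiff, hnbr, Finset.mem_union]
      exact ⟨Or.inr (hφ x hx).1, fun hh => hdis _ (hB (hφ x hx).1) (hP₁ hh)⟩) hinj (by
      rw [hcnbr, hws]
      have e : (#U : ℝ) / r = #V₁ + f := by
        rw [hcV, hf, ← hdm]; push_cast; field_simp
      rw [← e]; exact hχ)
  obtain ⟨K', N', hKN', hd', hK'i, hj, huK, hvN, f', hf', hf'i⟩ :=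
    hset.struct hKQ hKQi hKQc
  -- first the weak bound
  have hweak : #N + 5 ≤ 2 * #(K' ∩ N) := by
    have h1 : K' \ (K' ∩ N) ⊆ A := by
      intro x hx
      rw [Finset.mem_sdiff, Finset.mem_inter] at hx
      have hxV : x ∈ V₁ := by rw [← hKN']; exact Finset.mem_union_left _ hx.1
      rw [hV₁, Finset.mem_union, Finset.mem_insert, Finset.mem_union] at hxV
      rcases hxV with h2 | h2 | h2 | h2
      · exact absurd ⟨hx.1, h2⟩ hx.2
      · rw [h2] at hx
        exact absurd hvN (Finset.disjoint_left.mp hd' hx.1)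
      · exact h2
      · exact absurd (hBu x h2) (hK'i u huK x hx.1)
    have h2 := Finset.card_le_card h1
    rw [Finset.card_sdiff_of_subset Finset.inter_subset_left] at h2
    have h3 : #V₁ = #K' + #N' := by rw [← hKN', Finset.card_union_of_disjoint hd']
    have h4 : #(K' ∩ N) ≤ #K' := Finset.card_le_card Finset.inter_subset_left
    omega
  -- `K' ⊆ N`
  have hK'N : K' ⊆ N := by
    intro z hz
    by_contra hzN
    have hzV1 : z ∈ V₁ := by rw [← hKN']; exact Finset.mem_union_left _ hz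
    have hzK : z ∈ K := by
      rw [hV₁, Finset.mem_union] at hzV1
      exact hins (hzV1.resolve_left hzN)
    have hdeg := hs.single_deg (hKU hzK) h.two_le
    have hgz : gd G U z ≤ #(N \ (K' ∩ N)) := by
      have e1 : gd G U z = gd G (N \ (K' ∩ N)) z := by
        unfold gd
        symm
        apply Finset.sum_subset (Finset.sdiff_subset.trans hNU)
        intro y hy hyN
        apply ad_of_not
        intro hzy
        rw [← hKN, Finset.mem_union] at hy
        rcases hy with hy | hy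
        · exact hKi z hzK y hy hzy
        · rw [Finset.mem_sdiff, not_and, not_not] at hyN
          exact hK'i z hz y (Finset.mem_inter.mp (hyN hy)).1 hzy
      rw [e1]; exact gd_le_card G _ z
    have e2 : #(N \ (K' ∩ N)) = #N - #(K' ∩ N) :=
      Finset.card_sdiff_of_subset Finset.inter_subset_right
    have e3 : 2 * #(N \ (K' ∩ N)) ≤ #N := by omega
    have e4 : 2 * (#(N \ (K' ∩ N)) : ℝ) ≤ #N := by exact_mod_cast e3
    linarith
  have hN' : N' = (N \ K') ∪ insert v (A ∪ B) := by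
    ext x
    have hx1 : x ∈ V₁ ↔ x ∈ K' ∨ x ∈ N' := by rw [← hKN', Finset.mem_union]
    have hx2 : x ∈ V₁ ↔ x ∈ N ∨ x ∈ insert v (A ∪ B) := by rw [hV₁, Finset.mem_union]
    have hx3 : x ∈ K' → x ∉ N' := fun a b => Finset.disjoint_left.mp hd' a b
    have hx4 : x ∈ insert v (A ∪ B) → x ∉ K' := fun a b => hdis x (hins a) (hK'N b)
    rw [Finset.mem_union, Finset.mem_sdiff]
    constructor
    · intro hx
      rcases hx2.mp (hx1.mpr (Or.inr hx)) with h5 | h5
      · exact Or.inl ⟨h5, fun h6 => hx3 h6 hx⟩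
      · exact Or.inr h5
    · rintro (⟨h5, h6⟩ | h5)
      · exact (hx1.mp (hx2.mpr (Or.inl h5))).resolve_left h6
      · exact (hx1.mp (hx2.mpr (Or.inr h5))).resolve_left (hx4 h5)
  have hcK1 : #(insert v (A ∪ B)) = 1 + #A + #B := by
    rw [Finset.card_insert_of_notMem, Finset.card_union_of_disjoint hAB]
    · omega
    · rw [Finset.mem_union]; rintro (hh | hh)
      · exact hAv hh
      · exact hBv hh
  have hcN' : #N' = #(N \ K') + #(insert v (A ∪ B)) := by
    rw [hN', Finset.card_union_of_disjoint]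
    rw [Finset.disjoint_left]
    intro x h5 h6
    exact hdis x (hins h6) (Finset.sdiff_subset h5)
  refine ⟨K', hK'N, insert v (A ∪ B), hins, hK'i, huK, Finset.mem_insert_self _ _, by omega,
    by omega, f', ?_, ?_⟩
  · rw [← hN']; exact hf'
  · rw [← hN']; exact hf'i

open scoped Classical in
theorem level1_aux {U K N : Finset V} {u v : V} (hs : Solid G 0 U) (h : Far G U u v)
    (hKN : K ∪ N = U) (hd : Disjoint K N) (hKi : Ind G K) (hcard : #N + 3 ≤ #K)
    (hmd : (#N : ℝ) < dd G U) {φ : V → V} (hφ : ∀ z ∈ N, φ z ∈ K ∧ G.Adj z (φ z))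
    (hinj : Set.InjOn φ (N : Set V)) (hdeg : ∀ z ∈ N, (#U : ℝ) / 2 < gd G U z)
    (hv : v ∈ K) (hu : u ∈ N) :
    ∃ I ⊆ N, ∃ K₁ ⊆ K, Ind G I ∧ u ∈ I ∧ v ∈ K₁ ∧ #N + #K₁ = #U / (#U / (#N + 1)) ∧
      #(N \ I) + #K₁ + 4 ≤ #I ∧
      ∃ f' : V → V, (∀ z ∈ (N \ I) ∪ K₁, f' z ∈ I ∧ G.Adj z (f' z)) ∧
        Set.InjOn f' ((N \ I) ∪ K₁ : Finset V) := by
  have hKU : K ⊆ U := by rw [← hKN]; exact Finset.subset_union_left
  have hNU : N ⊆ U := by rw [← hKN]; exact Finset.subset_union_right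
  have hdis : ∀ x, x ∈ K → x ∈ N → False := fun x h1 h2 => Finset.disjoint_left.mp hd h1 h2
  have hUc : #U = #K + #N := by rw [← hKN, Finset.card_union_of_disjoint hd]
  -- the neighbours of `v` lie in `N`
  set PN := nbr G N u with hPN
  set Nu := nbr G K u with hNu
  set Kn := (K.erase v).filter fun x => ¬ G.Adj u x with hKn
  have hvNu : v ∉ Nu := fun hh => h.2.2.2.1 (mem_nbr.mp hh).2
  have hNuKn : #Nu + #Kn + 1 = #K := by
    have e1 : Nu = (K.erase v).filter fun x => G.Adj u x := by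
      ext x
      rw [hNu, mem_nbr, Finset.mem_filter, Finset.mem_erase]
      constructor
      · rintro ⟨h1, h2⟩
        exact ⟨⟨fun e => h.2.2.2.1 (e ▸ h2), h1⟩, h2⟩
      · rintro ⟨h1, h2⟩
        exact ⟨h1.2, h2⟩
    rw [e1, hKn, Finset.card_filter_add_card_filter_not, Finset.card_erase_of_mem hv]
    have := Finset.card_pos.mpr ⟨v, hv⟩
    omega
  have hQ : 2 * #(nbr G N v) ≥ #N + 1 := by
    have e1 := hs.single_deg (hKU hv) h.two_le
    have e2 : gd G U v = #(nbr G N v) := by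
      rw [← card_nbr]
      congr 2
      ext x
      rw [mem_nbr, mem_nbr, ← hKN, Finset.mem_union]
      constructor
      · rintro ⟨h1 | h1, h2⟩
        · exact absurd h2 (hKi v hv x h1)
        · exact ⟨h1, h2⟩
      · rintro ⟨h1, h2⟩
        exact ⟨Or.inr h1, h2⟩
    have e3 : (#N : ℝ) < 2 * #(nbr G N v) := by rw [← e2]; linarith
    have e4 : #N < 2 * #(nbr G N v) := by exact_mod_cast e3
    omega
  have hPQ : #PN + #(nbr G N v) + 1 ≤ #N := by
    have e1 : Disjoint PN (nbr G N v) := by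
      rw [Finset.disjoint_left]
      intro x h1 h2
      rw [hPN, mem_nbr] at h1
      rw [mem_nbr] at h2
      exact h.2.2.2.2 x (hNU h1.1) ⟨h1.2, h2.2.symm⟩
    have e2 : PN ∪ nbr G N v ⊆ N.erase u := by
      intro x hx
      rw [Finset.mem_erase]
      rw [Finset.mem_union, hPN, mem_nbr, mem_nbr] at hx
      rcases hx with hx | hx
      · exact ⟨hx.2.ne.symm, hx.1⟩
      · exact ⟨fun e => h.2.2.2.1 (e ▸ hx.2).symm, hx.1⟩
    have e3 := Finset.card_le_card e2
    rw [Finset.card_union_of_disjoint e1, Finset.card_erase_of_mem hu] at e3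
    have := Finset.card_pos.mpr ⟨u, hu⟩
    omega
  have hPN3 : 2 * #PN + 3 ≤ #N := by omega
  have hNu4 : #K + 4 ≤ 2 * #Nu := by
    have e1 := hdeg u hu
    have e2 : gd G U u = #Nu + #PN := by
      rw [← card_nbr]
      have : nbr G U u = Nu ∪ PN := by
        ext x
        rw [Finset.mem_union, hNu, hPN, mem_nbr, mem_nbr, mem_nbr, ← hKN, Finset.mem_union]
        tauto
      rw [this, Finset.card_union_of_disjoint]
      · push_cast; ring
      · rw [Finset.disjoint_left]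
        intro x h1 h2
        exact hdis x (mem_nbr.mp h1).1 (mem_nbr.mp h2).1
    rw [e2] at e1
    have e3 : (#U : ℝ) < 2 * #Nu + 2 * #PN := by linarith
    have e4 : #U < 2 * #Nu + 2 * #PN := by exact_mod_cast e3
    omega
  -- the numbers
  set r := #U / (#N + 1) with hr
  have hr2 : 2 ≤ r := by
    rw [hr, Nat.le_div_iff_mul_le (by omega)]; omega
  have hrpos : 0 < r := by omega
  set n1 := #U / r with hn1
  have hrM : r * (#N + 1) ≤ #U := by
    rw [hr]; exact Nat.div_mul_le_self _ _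
  have hn1M : #N + 1 ≤ n1 := by
    rw [hn1, Nat.le_div_iff_mul_le hrpos, Nat.mul_comm]; exact hrM
  have hlt : #U < (r + 1) * (#N + 1) := by
    have e1 : (#N + 1) * r + #U % (#N + 1) = #U := Nat.div_add_mod _ _
    have e2 : #U % (#N + 1) < #N + 1 := Nat.mod_lt _ (by omega)
    have e3 : (r + 1) * (#N + 1) = (#N + 1) * r + (#N + 1) := by ring
    omega
  have h2n1 : 2 * n1 ≤ 3 * #N + 2 := by
    have e1 : n1 * r ≤ #U := Nat.div_mul_le_self _ _
    by_contra hcon
    push Not at hcon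
    have e2 : (3 * #N + 3) * r ≤ 2 * n1 * r := Nat.mul_le_mul_right r (by omega)
    nlinarith
  have hWm : (#N : ℝ) + 1 ≤ (#U : ℝ) / r := by
    rw [le_div_iff₀ (by exact_mod_cast hrpos)]
    have : ((r * (#N + 1) : ℕ) : ℝ) ≤ #U := by exact_mod_cast hrM
    push_cast at this
    linarith
  have hWn1 : (n1 : ℝ) ≤ (#U : ℝ) / r := by
    rw [le_div_iff₀ (by exact_mod_cast hrpos)]
    have : ((n1 * r : ℕ) : ℝ) ≤ #U := by exact_mod_cast Nat.div_mul_le_self _ _
    push_cast at this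
    linarith
  set k1 := n1 - #N with hk1
  have hk1' : #N + k1 = n1 := by omega
  have hk1m : 2 * k1 ≤ #N + 2 := by omega
  have hk10 : 1 ≤ k1 := by omega
  have hNuK : Nu ⊆ K := fun x hx => (mem_nbr.mp hx).1
  have hKnK : Kn ⊆ K := fun x hx =>
    Finset.mem_of_mem_erase (Finset.mem_of_mem_filter x hx)
  have hKnu : ∀ x ∈ Kn, ¬ G.Adj u x := fun x hx => (Finset.mem_filter.mp hx).2
  have hKnv : v ∉ Kn := fun hh => by
    have := (Finset.mem_filter.mp hh).1
    simp at this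
  have hNuu : ∀ x ∈ Nu, G.Adj u x := fun x hx => (mem_nbr.mp hx).2
  by_cases hcase : (k1 - 1) / 2 < #Kn
  · -- case A
    obtain ⟨A', hA', hA'c⟩ := Finset.exists_subset_card_eq (s := Kn) (n := (k1 - 1) / 2 + 1)
      (by omega)
    obtain ⟨zs, hzs⟩ : A'.Nonempty := by rw [← Finset.card_pos]; omega
    obtain ⟨B, hB, hBc⟩ := Finset.exists_subset_card_eq (s := Nu)
      (n := k1 - 1 - (k1 - 1) / 2) (by omega)
    have hAc : #(A'.erase zs) = (k1 - 1) / 2 := by rw [Finset.card_erase_of_mem hzs]; omega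
    have hAsub : A'.erase zs ⊆ Kn := (Finset.erase_subset _ _).trans hA'
    have hzB : zs ∉ B := fun hh => hKnu zs (hA' hzs) (hNuu zs (hB hh))
    refine level1_finish hs h hKN hd hKi hv hu hrpos rfl (A := A'.erase zs) (B := B) (zs := zs)
      (hAsub.trans hKnK) (fun hh => hKnv (hAsub hh)) (fun x hx => hKnu x (hAsub hx))
      (hB.trans hNuK) (fun x hx => hNuu x (hB hx)) (hKnK (hA' hzs))
      (fun e => hKnv (e ▸ hA' hzs)) (Finset.notMem_erase _ _) hzB (by rw [hAc, hBc]; omega)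
      (by rw [hAc]; omega) (P₁ := ∅) (Finset.empty_subset _) (by simp) (φ := φ) (by simp)
      (by simp) ?_ hmd
    rw [ad_of_not G (hKnu zs (hA' hzs)), hBc, ← hPN]
    have e1 : 2 * (#PN + (k1 - 1 - (k1 - 1) / 2)) ≤ n1 := by omega
    have e2 : 2 * ((#PN : ℝ) + ((k1 - 1 - (k1 - 1) / 2 : ℕ) : ℝ)) ≤ n1 := by
      exact_mod_cast e1
    simp only [Finset.card_empty, Nat.cast_zero]
    linarith
  · -- case B
    push Not at hcase
    set Φ := (PN.image φ).filter (fun x => G.Adj u x) with hΦ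
    have hφv : ∀ w ∈ PN, φ w ≠ v := by
      intro w hw e
      rw [hPN, mem_nbr] at hw
      have := (hφ w hw.1).2
      rw [e] at this
      exact h.2.2.2.2 w (hNU hw.1) ⟨hw.2, this⟩
    have hΦNu : Φ ⊆ Nu := by
      intro x hx
      rw [hΦ, Finset.mem_filter, Finset.mem_image] at hx
      obtain ⟨⟨w, hw, rfl⟩, hux⟩ := hx
      rw [hNu, mem_nbr]
      exact ⟨(hφ w (mem_nbr.mp hw).1).1, hux⟩
    have hinjP : Set.InjOn φ (PN : Set V) := hinj.mono (by
      intro x hx; exact (mem_nbr.mp (Finset.mem_coe.mp hx)).1)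
    have hΦc : #PN ≤ #Φ + #Kn := by
      have e1 : #(PN.image φ) = #PN := Finset.card_image_of_injOn hinjP
      have e2 : PN.image φ ⊆ Φ ∪ Kn := by
        intro x hx
        rw [Finset.mem_union]
        by_cases hux : G.Adj u x
        · left; rw [hΦ, Finset.mem_filter]; exact ⟨hx, hux⟩
        · right
          obtain ⟨w, hw, rfl⟩ := Finset.mem_image.mp hx
          rw [hKn, Finset.mem_filter, Finset.mem_erase]
          exact ⟨⟨hφv w hw, (hφ w (mem_nbr.mp hw).1).1⟩, hux⟩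
      have e3 := (Finset.card_le_card e2).trans (Finset.card_union_le _ _)
      omega
    set b := k1 - 1 - #Kn with hb
    have hbNu : b < #Nu := by omega
    -- a set `B ⊆ Nu` of size `b` comparable with `Φ`
    have hBex : ∃ B ⊆ Nu, #B = b ∧ (Φ ⊆ B ∨ B ⊆ Φ) := by
      rcases le_total (#Φ) b with hle | hle
      · obtain ⟨B, h1, h2, h3⟩ := Finset.exists_subsuperset_card_eq hΦNu hle hbNu.le
        exact ⟨B, h2, h3, Or.inl h1⟩
      · obtain ⟨B, h1, h2⟩ := Finset.exists_subset_card_eq hle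
        exact ⟨B, h1.trans hΦNu, h2, Or.inr h1⟩
    obtain ⟨B, hB, hBc, hBΦ⟩ := hBex
    obtain ⟨zs, hzs, hzB⟩ : ∃ zs ∈ Nu, zs ∉ B := by
      by_contra hcon
      push Not at hcon
      have := Finset.card_le_card (show Nu ⊆ B from hcon)
      omega
    set P₁ := PN.filter (fun w => φ w ∈ B) with hP₁
    have hP₁PN : P₁ ⊆ PN := Finset.filter_subset _ _
    have hP₁c : #P₁ = #(Φ ∩ B) := by
      have e1 : P₁.image φ = Φ ∩ B := by
        ext x
        rw [Finset.mem_image, Finset.mem_inter, hΦ, Finset.mem_filter, Finset.mem_image]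
        constructor
        · rintro ⟨w, hw, rfl⟩
          rw [hP₁, Finset.mem_filter] at hw
          exact ⟨⟨⟨w, hw.1, rfl⟩, hNuu _ (hB hw.2)⟩, hw.2⟩
        · rintro ⟨⟨⟨w, hw, rfl⟩, _⟩, h3⟩
          exact ⟨w, by rw [hP₁, Finset.mem_filter]; exact ⟨hw, h3⟩, rfl⟩
      rw [← e1, Finset.card_image_of_injOn (hinjP.mono (by exact_mod_cast hP₁PN))]
    have hχ0 : #PN + b + 1 ≤ #P₁ + k1 ∨ #PN + b + 1 ≤ #P₁ + (#PN + 1) := by
      rcases hBΦ with h1 | h1
      · left
        rw [hP₁c, Finset.inter_eq_left.mpr h1]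
        omega
      · right
        rw [hP₁c, Finset.inter_eq_right.mpr h1, hBc]
        omega
    refine level1_finish hs h hKN hd hKi hv hu hrpos rfl (A := Kn) (B := B) (zs := zs)
      hKnK hKnv hKnu (hB.trans hNuK) (fun x hx => hNuu x (hB hx)) (hNuK hzs)
      (fun e => hvNu (e ▸ hzs)) (fun hh => hKnu zs hh (hNuu zs hzs)) hzB (by rw [hBc]; omega)
      (by omega) (P₁ := P₁) (fun x hx => (mem_nbr.mp (hP₁PN hx)).1)
      (fun x hx => (mem_nbr.mp (hP₁PN hx)).2) (φ := φ) (fun w hw => ?_)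
      (hinjP.mono (by exact_mod_cast hP₁PN)) ?_ hmd
    · have hw' := Finset.mem_filter.mp hw
      exact ⟨hw'.2, (hφ w (mem_nbr.mp hw'.1).1).2⟩
    · rw [ad_of_adj G (hNuu zs hzs), hBc, ← hPN]
      have e1 : 2 * (#PN + b + 1) ≤ 2 * #P₁ + (#N + 2) := by omega
      have e2 : 2 * ((#PN : ℝ) + (b : ℝ) + 1) ≤ 2 * (#P₁ : ℝ) + ((#N : ℝ) + 2) := by
        exact_mod_cast e1
      linarith

open scoped Classical in
/-- LEVEL-1 STRUCTURE THEOREM.  `U = K ∪ I ∪ O`, `O = N \ I`; `K`, `I` independent, `y ∈ K`,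
`x ∈ I`; `N` is injected into `K` and `O ∪ K₁` into `I` along edges, where `y ∈ K₁ ⊆ K`. -/
theorem Solid.level1 {U : Finset V} {u v : V} (hs : Solid G 0 U)
    (h : Far G U u v) :
    ∃ (K N I K₁ : Finset V) (x y : V), K ∪ N = U ∧ Disjoint K N ∧ Ind G K ∧ #N + 3 ≤ #K ∧
      (#N : ℝ) < dd G U ∧ dd G U < 2 * #N ∧
      (∃ f : V → V, (∀ z ∈ N, f z ∈ K ∧ G.Adj z (f z)) ∧ Set.InjOn f (N : Set V)) ∧
      (∀ z ∈ N, (#U : ℝ) / 2 < gd G U z) ∧
      ((x = u ∧ y = v) ∨ (x = v ∧ y = u)) ∧ Far G U x y ∧ x ∈ I ∧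
      I ⊆ N ∧ Ind G I ∧ K₁ ⊆ K ∧ y ∈ K₁ ∧ #N + #K₁ = #U / (#U / (#N + 1)) ∧
      #(N \ I) + #K₁ + 4 ≤ #I ∧
      (∃ f' : V → V, (∀ z ∈ (N \ I) ∪ K₁, f' z ∈ I ∧ G.Adj z (f' z)) ∧
        Set.InjOn f' ((N \ I) ∪ K₁ : Finset V)) := by
  obtain ⟨K, N, hKN, hd, hKi, hcard, hmd, hd2, ⟨f, hf, hfi⟩, hdeg, hpos⟩ := hs.struct h
  rcases hpos with ⟨hv, hu⟩ | ⟨hu, hv⟩
  · obtain ⟨I, hI, K₁, hK₁, hIi, huI, hvK, hn, hIc, hf'⟩ :=
      level1_aux hs h hKN hd hKi hcard hmd hf hfi hdeg hv hu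
    exact ⟨K, N, I, K₁, u, v, hKN, hd, hKi, hcard, hmd, hd2, ⟨f, hf, hfi⟩, hdeg,
      Or.inl ⟨rfl, rfl⟩, h, huI, hI, hIi, hK₁, hvK, hn, hIc, hf'⟩
  · obtain ⟨I, hI, K₁, hK₁, hIi, huI, hvK, hn, hIc, hf'⟩ :=
      level1_aux hs h.symm hKN hd hKi hcard hmd hf hfi hdeg hu hv
    exact ⟨K, N, I, K₁, v, u, hKN, hd, hKi, hcard, hmd, hd2, ⟨f, hf, hfi⟩, hdeg,
      Or.inr ⟨rfl, rfl⟩, h.symm, huI, hI, hIi, hK₁, hvK, hn, hIc, hf'⟩

end TwoClub
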