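import Pool.Agent.TwoClub.Tests

/-!
Fractional-weight lift.  Weights `ω` on a finite vertex set `U`; with `p = ω(S) / ω(U)` and
`y = 1_S - p` put `WQ ω U S = ∑_{i,j ∈ U} A_ij ω_i ω_j y_i y_j`.  If `G[U]` is solid,
`U = A ∪ {z} ∪ R`, `{z} ∪ R` independent, weights `1` on `A` and `f ∈ [0,1]` on `z` with
`r (|A| + f) = |U|` for a natural number `r`, then `WQ < 0` on all proper nonempty subsets.
-/

namespace TwoClub

open Finset

variable {V : Type*} (G : SimpleGraph V)

/-- the quadratic form of the adjacency matrix of `G[U]` -/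
noncomputable def BB (U : Finset V) (a : V → ℝ) : ℝ := ∑ i ∈ U, ∑ j ∈ U, ad G i j * a i * a j

/-- total weight -/
noncomputable def wt (om : V → ℝ) (S : Finset V) : ℝ := ∑ x ∈ S, om x

open scoped Classical in
/-- `1_S - p` -/
noncomputable def yy (S : Finset V) (p : ℝ) (i : V) : ℝ := (if i ∈ S then 1 else 0) - p

/-- weighted `Q` -/
noncomputable def WQ (om : V → ℝ) (U S : Finset V) : ℝ :=
  BB G U (fun i => om i * yy S (wt om S / wt om U) i)

/-- weighted solidity -/
def WSolid (om : V → ℝ) (U : Finset V) : Prop :=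
  ∀ S ⊆ U, S.Nonempty → S ≠ U → WQ G om U S < 0

theorem BB_congr {U : Finset V} {a b : V → ℝ} (h : ∀ i ∈ U, a i = b i) : BB G U a = BB G U b := by
  unfold BB
  refine Finset.sum_congr rfl fun i hi => Finset.sum_congr rfl fun j hj => ?_
  rw [h i hi, h j hj]

/-- `Q_U(S)` as the value of the quadratic form at `1_S - p` -/
theorem QQ_eq_BB {U S : Finset V} (hS : S ⊆ U) :
    QQ G U S = BB G U (yy S ((#S : ℝ) / #U)) := by
  classical
  set p : ℝ := (#S : ℝ) / #U with hp
  have key : ∀ (F : V → V → ℝ), ∑ i ∈ U, ∑ j ∈ U, F i j * (if i ∈ S then (1 : ℝ) else 0)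
      = ∑ i ∈ S, ∑ j ∈ U, F i j := by
    intro F
    have : ∀ i ∈ U, ∑ j ∈ U, F i j * (if i ∈ S then (1 : ℝ) else 0)
        = if i ∈ S then ∑ j ∈ U, F i j else 0 := by
      intro i _
      split_ifs <;> simp
    rw [Finset.sum_congr rfl this, ← Finset.sum_filter, Finset.filter_mem_eq_inter,
      Finset.inter_eq_right.mpr hS]
  have key2 : ∑ i ∈ U, ∑ j ∈ U, ad G i j * (if i ∈ S then (1 : ℝ) else 0) *
      (if j ∈ S then (1 : ℝ) else 0) = ee G S S := by
    have h1 : ∑ i ∈ U, ∑ j ∈ U, ad G i j * (if i ∈ S then (1 : ℝ) else 0) *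
      (if j ∈ S then (1 : ℝ) else 0) = ∑ i ∈ U, ∑ j ∈ U,
        (ad G i j * (if j ∈ S then (1 : ℝ) else 0)) * (if i ∈ S then (1 : ℝ) else 0) := by
      refine Finset.sum_congr rfl fun i _ => Finset.sum_congr rfl fun j _ => by ring
    rw [h1, key]
    unfold ee
    refine Finset.sum_congr rfl fun i _ => ?_
    have : ∀ j ∈ U, ad G i j * (if j ∈ S then (1 : ℝ) else 0) = if j ∈ S then ad G i j else 0 := by
      intro j _
      split_ifs <;> simp
    rw [Finset.sum_congr rfl this, ← Finset.sum_filter, Finset.filter_mem_eq_inter,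
      Finset.inter_eq_right.mpr hS]
  have key3 : ∑ i ∈ U, ∑ j ∈ U, ad G i j * (if i ∈ S then (1 : ℝ) else 0) = ee G S U := by
    rw [key]; rfl
  have key4 : ∑ i ∈ U, ∑ j ∈ U, ad G i j * (if j ∈ S then (1 : ℝ) else 0) = ee G S U := by
    rw [Finset.sum_comm, ← key3]
    refine Finset.sum_congr rfl fun i _ => Finset.sum_congr rfl fun j _ => ?_
    rw [ad_comm G j i]
  have hexp : BB G U (yy S p) = ∑ i ∈ U, ∑ j ∈ U, (ad G i j * (if i ∈ S then (1 : ℝ) else 0) *
      (if j ∈ S then (1 : ℝ) else 0) - p * (ad G i j * (if i ∈ S then (1 : ℝ) else 0))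
      - p * (ad G i j * (if j ∈ S then (1 : ℝ) else 0)) + p ^ 2 * ad G i j) := by
    unfold BB yy
    refine Finset.sum_congr rfl fun i _ => Finset.sum_congr rfl fun j _ => by ring
  rw [hexp]
  simp only [Finset.sum_add_distrib, Finset.sum_sub_distrib, ← Finset.mul_sum]
  rw [key2, key3, key4]
  unfold QQ ee
  rw [← hp]
  ring

/-- splitting off an independent part -/
theorem BB_split [DecidableEq V] {B R : Finset V} (hd : Disjoint B R)
    (hR : ∀ x ∈ R, ∀ y ∈ R, ¬ G.Adj x y) (a : V → ℝ) :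
    BB G (B ∪ R) a = BB G B a + 2 * ∑ x ∈ R, a x * ∑ j ∈ B, ad G x j * a j := by
  unfold BB
  rw [Finset.sum_union hd]
  have h1 : ∀ i, ∑ j ∈ B ∪ R, ad G i j * a i * a j
      = ∑ j ∈ B, ad G i j * a i * a j + ∑ j ∈ R, ad G i j * a i * a j := by
    intro i; rw [Finset.sum_union hd]
  simp only [h1, Finset.sum_add_distrib]
  have h2 : ∑ i ∈ R, ∑ j ∈ R, ad G i j * a i * a j = 0 := by
    refine Finset.sum_eq_zero fun i hi => Finset.sum_eq_zero fun j hj => ?_
    rw [ad_of_not G (hR i hi j hj)]; ring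
  have h3 : ∑ i ∈ B, ∑ j ∈ R, ad G i j * a i * a j = ∑ x ∈ R, a x * ∑ j ∈ B, ad G x j * a j := by
    rw [Finset.sum_comm]
    refine Finset.sum_congr rfl fun x _ => ?_
    rw [Finset.mul_sum]
    refine Finset.sum_congr rfl fun j _ => ?_
    rw [ad_comm G j x]; ring
  have h4 : ∑ i ∈ R, ∑ j ∈ B, ad G i j * a i * a j = ∑ x ∈ R, a x * ∑ j ∈ B, ad G x j * a j := by
    refine Finset.sum_congr rfl fun x _ => ?_
    rw [Finset.mul_sum]
    refine Finset.sum_congr rfl fun j _ => by ring
  rw [h2, h3, h4]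
  ring

/-- a subset of given size with at least average sum -/
theorem exists_subset_avg (R : Finset V) (b : V → ℝ) (h : ℕ) (hh : h ≤ #R) :
    ∃ X ⊆ R, #X = h ∧ (h : ℝ) * ∑ x ∈ R, b x ≤ #R * ∑ x ∈ X, b x := by
  classical
  induction hd : #R - h generalizing h with
  | zero =>
    have : h = #R := by omega
    subst this
    exact ⟨R, subset_rfl, rfl, le_rfl⟩
  | succ n ih =>
    obtain ⟨X, hXR, hXc, hX⟩ := ih (h + 1) (by omega) (by omega)
    have hne : X.Nonempty := by
      rw [← Finset.card_pos, hXc]; omega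
    obtain ⟨x0, hx0, hmin⟩ := Finset.exists_min_image X b hne
    refine ⟨X.erase x0, (Finset.erase_subset _ _).trans hXR, ?_, ?_⟩
    · rw [Finset.card_erase_of_mem hx0, hXc]; rfl
    · have h1 : ∑ x ∈ X.erase x0, b x = ∑ x ∈ X, b x - b x0 := by
        rw [← Finset.add_sum_erase X b hx0]; ring
      have h2 : ((h : ℝ) + 1) * b x0 ≤ ∑ x ∈ X, b x := by
        have := Finset.card_nsmul_le_sum X b (b x0) hmin
        rw [hXc, nsmul_eq_mul] at this
        push_cast at this
        exact this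
      rw [h1]
      push_cast at hX
      have hR0 : (0 : ℝ) ≤ #R := Nat.cast_nonneg _
      have hh0 : (0 : ℝ) ≤ h := Nat.cast_nonneg _
      -- (h+1) Σ_R ≤ ρ Σ_X, (h+1) b0 ≤ Σ_X
      have h3 : ((h : ℝ) + 1) * ((h : ℝ) * ∑ x ∈ R, b x) ≤
          ((h : ℝ) + 1) * (#R * (∑ x ∈ X, b x - b x0)) := by
        have e1 : (h : ℝ) * (((h : ℝ) + 1) * ∑ x ∈ R, b x) ≤ h * (#R * ∑ x ∈ X, b x) :=
          mul_le_mul_of_nonneg_left hX hh0
        have e2 : (#R : ℝ) * (((h : ℝ) + 1) * b x0) ≤ #R * ∑ x ∈ X, b x :=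
          mul_le_mul_of_nonneg_left h2 hR0
        nlinarith [e1, e2]
      exact le_of_mul_le_mul_left h3 (by positivity)

/-- value of the form on `1_{T ∪ X} - p`, `T ⊆ A`, `X ⊆ R'` -/
theorem BB_union [DecidableEq V] {A R' T X : Finset V} (hd : Disjoint A R')
    (hR : ∀ x ∈ R', ∀ y ∈ R', ¬ G.Adj x y) (hX : X ⊆ R') (hT : T ⊆ A) (p : ℝ) :
    BB G (A ∪ R') (yy (T ∪ X) p) = BB G A (yy T p)
      + 2 * ∑ x ∈ X, ∑ j ∈ A, ad G x j * yy T p j
      - 2 * p * ∑ x ∈ R', ∑ j ∈ A, ad G x j * yy T p j := by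
  classical
  rw [BB_split G hd hR]
  have hA : ∀ j ∈ A, yy (T ∪ X) p j = yy T p j := by
    intro j hj
    have hjX : j ∉ X := fun h => (Finset.disjoint_left.mp hd) hj (hX h)
    unfold yy
    congr 1
    simp [hjX]
  have hRR : ∀ x ∈ R', yy (T ∪ X) p x = (if x ∈ X then 1 else 0) - p := by
    intro x hx
    have hxT : x ∉ T := fun h => (Finset.disjoint_left.mp hd) (hT h) hx
    unfold yy
    congr 1
    simp [hxT]
  rw [BB_congr G hA]
  have h2 : ∑ x ∈ R', yy (T ∪ X) p x * ∑ j ∈ A, ad G x j * yy (T ∪ X) p j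
      = ∑ x ∈ R', ((if x ∈ X then ∑ j ∈ A, ad G x j * yy T p j else 0)
        - p * ∑ j ∈ A, ad G x j * yy T p j) := by
    refine Finset.sum_congr rfl fun x hx => ?_
    rw [hRR x hx, Finset.sum_congr rfl fun j hj => by rw [hA j hj]]
    split_ifs <;> ring
  rw [h2, Finset.sum_sub_distrib, ← Finset.sum_filter, Finset.filter_mem_eq_inter,
    Finset.inter_eq_right.mpr hX, ← Finset.mul_sum]
  ring

open scoped Classical in
/-- weight `1` everywhere except `f` at `z` -/
noncomputable def omz (z : V) (f : ℝ) (x : V) : ℝ := if x = z then f else 1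

theorem omz_self (z : V) (f : ℝ) : omz z f z = f := by simp [omz]

theorem omz_ne {z x : V} (f : ℝ) (h : x ≠ z) : omz z f x = 1 := by simp [omz, h]

theorem wt_omz_of_not_mem {z : V} {f : ℝ} {S : Finset V} (h : z ∉ S) :
    wt (omz z f) S = #S := by
  have h1 : ∀ x ∈ S, omz z f x = 1 := by
    intro x hx
    refine omz_ne f ?_
    rintro rfl
    exact h hx
  unfold wt
  rw [Finset.sum_congr rfl h1]
  simp

theorem wt_omz_insert [DecidableEq V] {z : V} {f : ℝ} {S : Finset V} (h : z ∉ S) :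
    wt (omz z f) (insert z S) = #S + f := by
  have := wt_omz_of_not_mem (f := f) h
  unfold wt at *
  rw [Finset.sum_insert h, this, omz_self]
  ring

/-- **Fractional-weight lift.** -/
theorem lift_aux [DecidableEq V] {U A R : Finset V} {z : V} (hs : Solid G 0 U)
    (hU : U = A ∪ insert z R) (hzA : z ∉ A) (hzR : z ∉ R) (hAR : Disjoint A R)
    (hind : ∀ x ∈ insert z R, ∀ y ∈ insert z R, ¬ G.Adj x y)
    {f : ℝ} (hf0 : 0 ≤ f) (hf1 : f ≤ 1) {r : ℕ} (hr : (r : ℝ) * (#A + f) = #U)
    {T : Finset V} (hT : T ⊆ A) {ζ : ℕ} (hζ : ζ = 0 ∨ ζ = 1)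
    {p : ℝ} (hp : p * (#A + f) = #T + f * ζ) (hp0 : 0 < p) (hp1 : p < 1) :
    BB G A (yy T p) + 2 * (f * (ζ - p)) * ∑ j ∈ A, ad G z j * yy T p j < 0 := by
  have hd : Disjoint A (insert z R) := by
    rw [Finset.disjoint_insert_right]; exact ⟨hzA, hAR⟩
  have hcU : #U = #A + (#R + 1) := by
    rw [hU, Finset.card_union_of_disjoint hd, Finset.card_insert_of_notMem hzR]
  have hcUR : (#U : ℝ) = #A + (#R + 1) := by exact_mod_cast hcU
  set c : ℝ := f * ζ + (1 - f) * p with hc
  have hζ' : (ζ : ℝ) = 0 ∨ (ζ : ℝ) = 1 := by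
    rcases hζ with h | h <;> simp [h]
  have hc0 : 0 ≤ c := by
    have : (0 : ℝ) ≤ ζ := Nat.cast_nonneg _
    have h1 := mul_nonneg hf0 this
    have h2 := mul_nonneg (by linarith : (0 : ℝ) ≤ 1 - f) hp0.le
    linarith
  have hc1 : c ≤ 1 := by
    have : (ζ : ℝ) ≤ 1 := by rcases hζ' with h | h <;> rw [h] <;> norm_num
    have h1 := mul_le_mul_of_nonneg_left this hf0
    have h2 := mul_le_mul_of_nonneg_left hp1.le (by linarith : (0 : ℝ) ≤ 1 - f)
    linarith
  -- the integer `h`
  obtain ⟨hz, hhz⟩ : ∃ hz : ℤ, (hz : ℝ) = p * #R + c := by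
    refine ⟨r * #T + ζ * (#U - r * #A) - #T, ?_⟩
    push_cast
    have e1 : (r : ℝ) * f = #U - r * #A := by linarith
    have e2 : p * #U = r * (#T + f * ζ) := by
      rw [← hp, ← hr]; ring
    have e3 : p * (#R + 1) = p * #U - p * #A := by rw [hcUR]; ring
    have e4 : p * #A = #T + f * ζ - p * f := by linarith
    rw [← e1, hc]
    linear_combination (-1 : ℝ) * e2 - e3 + e4
  have hR0 : (0 : ℝ) ≤ #R := Nat.cast_nonneg _
  have hz0 : 0 ≤ hz := by
    have : (0 : ℝ) ≤ hz := by rw [hhz]; positivity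
    exact_mod_cast this
  obtain ⟨h, rfl⟩ := Int.eq_ofNat_of_zero_le hz0
  have hh : (h : ℝ) = p * #R + c := by exact_mod_cast hhz
  clear hhz hz0
  set bz : ℝ := ∑ j ∈ A, ad G z j * yy T p j with hbz
  set b : V → ℝ := fun x => ∑ j ∈ A, ad G x j * yy T p j with hb
  set β : ℝ := ∑ x ∈ R, b x with hβ
  set C : ℝ := BB G A (yy T p) with hC
  have hpU : p * #U = #T + h := by
    rw [hcUR, hh, hc]
    linear_combination hp
  have hUne : (0 : ℝ) < #U := by rw [hcUR]; positivity
  -- value on admissible sets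
  have val : ∀ X ⊆ insert z R, #X = h → C + 2 * ∑ x ∈ X, b x - 2 * p * (bz + β) < 0 := by
    intro X hX hXc
    have hTX : Disjoint T X := hd.mono hT hX
    have hcard : #(T ∪ X) = #T + h := by rw [Finset.card_union_of_disjoint hTX, hXc]
    have hpe : ((#(T ∪ X) : ℕ) : ℝ) / #U = p := by
      rw [hcard, div_eq_iff hUne.ne', hpU]; push_cast; ring
    have hsub : T ∪ X ⊆ U := by
      rw [hU]; exact Finset.union_subset_union hT hX
    have hne : (T ∪ X).Nonempty := by
      rw [← Finset.card_pos]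
      have : (0 : ℝ) < ((#(T ∪ X) : ℕ) : ℝ) := by
        have := mul_pos hp0 hUne
        rw [hpU] at this
        rw [hcard]; push_cast; exact this
      exact_mod_cast this
    have hneU : T ∪ X ≠ U := by
      intro e
      rw [e, div_self hUne.ne'] at hpe
      linarith
    have := hs (T ∪ X) hsub hne hneU
    rw [QQ_eq_BB G hsub, hpe] at this
    rw [hU, BB_union G hd hind hX hT] at this
    rw [Finset.sum_insert hzR] at this
    simp only [zero_mul] at this
    exact this
  have hfc : f * ((ζ : ℝ) - p) = c - p := by rw [hc]; ring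
  rw [hfc]
  -- averaging
  have avg : ∀ k : ℕ, k ≤ #R → ∃ X ⊆ R, #X = k ∧ (k : ℝ) * β ≤ #R * ∑ x ∈ X, b x :=
    fun k hk => exists_subset_avg R b k hk
  have hβ0 : #R = 0 → β = 0 := by
    intro h0
    rw [Finset.card_eq_zero] at h0
    rw [hβ, h0]; simp
  rcases eq_or_lt_of_le hc0 with hc00 | hcpos
  · -- c = 0
    have hle : h ≤ #R := by
      have : (h : ℝ) ≤ #R := by rw [hh, ← hc00]; nlinarith
      exact_mod_cast this
    obtain ⟨X, hXR, hXc, hX⟩ := avg h hle
    have v := val X (hXR.trans (Finset.subset_insert _ _)) hXc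
    have hge : p * β ≤ ∑ x ∈ X, b x := by
      rcases Nat.eq_zero_or_pos #R with h0 | h0
      · have hX0 : X = ∅ := by
          rw [← Finset.card_eq_zero]
          have := Finset.card_le_card hXR
          omega
        rw [hβ0 h0, hX0]; simp
      · have h0' : (0 : ℝ) < #R := by exact_mod_cast h0
        rw [hh, ← hc00] at hX
        have : (#R : ℝ) * (p * β) ≤ #R * ∑ x ∈ X, b x := by linarith
        exact le_of_mul_le_mul_left this h0'
    rw [← hc00]
    linarith
  · rcases eq_or_lt_of_le hc1 with hc11 | hclt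
    · -- c = 1
      have hpos : 1 ≤ h := by
        have : (1 : ℝ) ≤ h := by rw [hh, hc11]; nlinarith
        exact_mod_cast this
      have hle : h - 1 ≤ #R := by
        have : (h : ℝ) ≤ #R + 1 := by rw [hh, hc11]; nlinarith
        have : h ≤ #R + 1 := by exact_mod_cast this
        omega
      obtain ⟨X, hXR, hXc, hX⟩ := avg (h - 1) hle
      have hzX : z ∉ X := fun h' => hzR (hXR h')
      have v := val (insert z X) (Finset.insert_subset_insert _ hXR)
        (by rw [Finset.card_insert_of_notMem hzX]; omega)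
      rw [Finset.sum_insert hzX] at v
      have hcast : ((h - 1 : ℕ) : ℝ) = p * #R := by
        rw [Nat.cast_sub hpos, hh, hc11]; push_cast; ring
      have hge : p * β ≤ ∑ x ∈ X, b x := by
        rcases Nat.eq_zero_or_pos #R with h0 | h0
        · have hX0 : X = ∅ := by
            rw [← Finset.card_eq_zero]
            have := Finset.card_le_card hXR
            omega
          rw [hβ0 h0, hX0]; simp
        · have h0' : (0 : ℝ) < #R := by exact_mod_cast h0
          rw [hcast] at hX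
          have : (#R : ℝ) * (p * β) ≤ #R * ∑ x ∈ X, b x := by linarith
          exact le_of_mul_le_mul_left this h0'
      rw [hc11]
      have : b z = bz := rfl
      rw [this] at v
      linarith
    · -- 0 < c < 1
      have hRpos : 0 < #R := by
        by_contra h0
        have h0' : #R = 0 := by omega
        rw [h0'] at hh
        simp only [Nat.cast_zero, mul_zero, zero_add] at hh
        have h1 : (0 : ℝ) < h := by rw [hh]; exact hcpos
        have h2 : (h : ℝ) < 1 := by rw [hh]; exact hclt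
        have h1' : 0 < h := by exact_mod_cast h1
        have h2' : h < 1 := by exact_mod_cast h2
        omega
      have hRpos' : (0 : ℝ) < #R := by exact_mod_cast hRpos
      have hpos : 1 ≤ h := by
        have : (0 : ℝ) < h := by rw [hh]; positivity
        exact_mod_cast this
      have hle : h ≤ #R := by
        have : (h : ℝ) < #R + 1 := by rw [hh]; nlinarith
        have : h < #R + 1 := by exact_mod_cast this
        omega
      obtain ⟨X0, hX0R, hX0c, hX0⟩ := avg h hle
      obtain ⟨X1, hX1R, hX1c, hX1⟩ := avg (h - 1) (by omega)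
      have hzX : z ∉ X1 := fun h' => hzR (hX1R h')
      have v0 := val X0 (hX0R.trans (Finset.subset_insert _ _)) hX0c
      have v1 := val (insert z X1) (Finset.insert_subset_insert _ hX1R)
        (by rw [Finset.card_insert_of_notMem hzX]; omega)
      rw [Finset.sum_insert hzX] at v1
      have hbb : b z = bz := rfl
      rw [hbb] at v1
      have hcast : ((h - 1 : ℕ) : ℝ) = h - 1 := by
        rw [Nat.cast_sub hpos]; push_cast; ring
      rw [hcast] at hX1
      have hge : p * β ≤ (1 - c) * ∑ x ∈ X0, b x + c * ∑ x ∈ X1, b x := by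
        have e0 := mul_le_mul_of_nonneg_left hX0 (by linarith : (0 : ℝ) ≤ 1 - c)
        have e1 := mul_le_mul_of_nonneg_left hX1 hc0
        have : (#R : ℝ) * (p * β) ≤ #R * ((1 - c) * ∑ x ∈ X0, b x + c * ∑ x ∈ X1, b x) := by
          have : (#R : ℝ) * (p * β) = (1 - c) * (h * β) + c * ((h - 1) * β) := by
            rw [hh]; ring
          linarith
        exact le_of_mul_le_mul_left this hRpos'
      have w0 := mul_neg_of_pos_of_neg (by linarith : (0 : ℝ) < 1 - c) v0
      have w1 := mul_neg_of_pos_of_neg hcpos v1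
      nlinarith

/-- **Fractional-weight lift**, main form: weights `1` on `A`, `f ∈ [0,1]` on `z`. -/
theorem Solid.lift [DecidableEq V] {U A R : Finset V} {z : V} (hs : Solid G 0 U)
    (hU : U = A ∪ insert z R) (hzA : z ∉ A) (hzR : z ∉ R) (hAR : Disjoint A R)
    (hind : ∀ x ∈ insert z R, ∀ y ∈ insert z R, ¬ G.Adj x y)
    {f : ℝ} (hf0 : 0 ≤ f) (hf1 : f ≤ 1) {r : ℕ} (hr : (r : ℝ) * (#A + f) = #U)
    {S : Finset V} (hS : S ⊆ insert z A) (h0 : 0 < wt (omz z f) S)
    (h1 : wt (omz z f) S < wt (omz z f) (insert z A)) :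
    WQ G (omz z f) (insert z A) S < 0 := by
  classical
  have hW : wt (omz z f) (insert z A) = #A + f := wt_omz_insert hzA
  have hW0 : (0 : ℝ) < #A + f := by
    rw [← hW]; exact h0.trans h1
  set T := S.erase z with hTdef
  have hTA : T ⊆ A := by
    intro x hx
    have := hS (Finset.mem_of_mem_erase hx)
    rcases Finset.mem_insert.mp this with h | h
    · exact absurd h (Finset.ne_of_mem_erase hx)
    · exact h
  have hzT : z ∉ T := Finset.notMem_erase z S
  obtain ⟨ζ, hζ, hζS⟩ : ∃ ζ : ℕ, (ζ = 0 ∨ ζ = 1) ∧ ((if z ∈ S then (1 : ℝ) else 0) = ζ) := by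
    by_cases h : z ∈ S
    · exact ⟨1, Or.inr rfl, by simp [h]⟩
    · exact ⟨0, Or.inl rfl, by simp [h]⟩
  have hwS : wt (omz z f) S = #T + f * ζ := by
    by_cases h : z ∈ S
    · have e : S = insert z T := (Finset.insert_erase h).symm
      rw [e, wt_omz_insert hzT]
      rw [if_pos h] at hζS
      rw [← hζS]; ring
    · have e : T = S := Finset.erase_eq_of_notMem h
      rw [wt_omz_of_not_mem h, e]
      rw [if_neg h] at hζS
      rw [← hζS]; ring
  set p : ℝ := wt (omz z f) S / wt (omz z f) (insert z A) with hp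
  have hpW : p * (#A + f) = #T + f * ζ := by
    rw [hp, hW, div_mul_cancel₀ _ hW0.ne', hwS]
  have hp0 : 0 < p := by rw [hp]; exact div_pos h0 (h0.trans h1)
  have hp1 : p < 1 := by rw [hp]; exact (div_lt_one (h0.trans h1)).mpr h1
  have key := lift_aux G hs hU hzA hzR hAR hind hf0 hf1 hr hTA hζ hpW hp0 hp1
  have hins : insert z A = A ∪ {z} := by
    ext x; simp
  unfold WQ
  rw [← hp, hins, BB_split G (by simpa using hzA) (by
    intro x hx y hy
    rw [Finset.mem_singleton] at hx hy
    subst hx; subst hy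
    exact G.irrefl)]
  have hA : ∀ j ∈ A, omz z f j * yy S p j = yy T p j := by
    intro j hj
    have hjz : j ≠ z := by rintro rfl; exact hzA hj
    rw [omz_ne f hjz, one_mul]
    unfold yy
    congr 1
    simp [hTdef, hjz]
  rw [BB_congr G hA, Finset.sum_singleton, omz_self]
  have hz : yy S p z = ζ - p := by
    unfold yy
    rw [← hζS]
    by_cases h : z ∈ S <;> simp [h]
  rw [hz, Finset.sum_congr rfl fun j hj => by rw [hA j hj]]
  linarith

/-- for `0 < f` the weighted graph is solid -/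
theorem Solid.lift_wsolid [DecidableEq V] {U A R : Finset V} {z : V} (hs : Solid G 0 U)
    (hU : U = A ∪ insert z R) (hzA : z ∉ A) (hzR : z ∉ R) (hAR : Disjoint A R)
    (hind : ∀ x ∈ insert z R, ∀ y ∈ insert z R, ¬ G.Adj x y)
    {f : ℝ} (hf0 : 0 < f) (hf1 : f ≤ 1) {r : ℕ} (hr : (r : ℝ) * (#A + f) = #U) :
    WSolid G (omz z f) (insert z A) := by
  classical
  intro S hS hne hneq
  have hpos : ∀ x, 0 < omz z f x := by
    intro x
    by_cases h : x = z
    · rw [h, omz_self]; exact hf0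
    · rw [omz_ne f h]; norm_num
  refine hs.lift G hU hzA hzR hAR hind hf0.le hf1 hr hS ?_ ?_
  · exact Finset.sum_pos (fun x _ => hpos x) hne
  · obtain ⟨x, hx, hxS⟩ : ∃ x ∈ insert z A, x ∉ S := by
      by_contra hcon
      push Not at hcon
      exact hneq (Finset.Subset.antisymm hS hcon)
    exact Finset.sum_lt_sum_of_subset hS hx hxS (hpos x) fun y _ _ => (hpos y).le

/-- `f = 0`: `G[A]` itself is solid when `|A|` divides `|U|` -/
theorem Solid.lift_zero [DecidableEq V] {U A R : Finset V} {z : V} (hs : Solid G 0 U)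
    (hU : U = A ∪ insert z R) (hzA : z ∉ A) (hzR : z ∉ R) (hAR : Disjoint A R)
    (hind : ∀ x ∈ insert z R, ∀ y ∈ insert z R, ¬ G.Adj x y)
    {r : ℕ} (hr : r * #A = #U) : Solid G 0 A := by
  classical
  intro S hS hne hneq
  have hzS : z ∉ S := fun h => hzA (hS h)
  have hltc : #S < #A := Finset.card_lt_card (Finset.ssubset_iff_subset_ne.mpr ⟨hS, hneq⟩)
  have e1 : wt (omz z 0) S = #S := wt_omz_of_not_mem hzS
  have e2 : wt (omz z 0) (insert z A) = #A := by rw [wt_omz_insert hzA]; ring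
  have hrr : (r : ℝ) * (#A + (0 : ℝ)) = #U := by rw [add_zero]; exact_mod_cast hr
  have := hs.lift G hU hzA hzR hAR hind le_rfl zero_le_one hrr
    (hS.trans (Finset.subset_insert z A))
    (by rw [e1]; exact_mod_cast Finset.card_pos.mpr hne)
    (by rw [e1, e2]; exact_mod_cast hltc)
  unfold WQ at this
  rw [e1, e2] at this
  have hins : insert z A = A ∪ {z} := by
    ext x; simp
  rw [hins, BB_split G (by simpa using hzA) (by
    intro x hx y hy
    rw [Finset.mem_singleton] at hx hy
    subst hx; subst hy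
    exact G.irrefl), Finset.sum_singleton, omz_self, zero_mul, zero_mul, mul_zero, add_zero] at this
  have hA : ∀ j ∈ A, omz z 0 j * yy S ((#S : ℝ) / #A) j = yy S ((#S : ℝ) / #A) j := by
    intro j hj
    have hjz : j ≠ z := by rintro rfl; exact hzA hj
    rw [omz_ne 0 hjz, one_mul]
  rw [BB_congr G hA, ← QQ_eq_BB G hS] at this
  simpa using this

end TwoClub
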