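import Pool.Agent.TwoClub.Neutral

/-!
The form of the complement (`nd x y = 1 - ad x y`, diagonal included) as a bilinear form, and its
values on indicator functions.
-/

namespace TwoClub

open Finset

variable {V : Type*} (G : SimpleGraph V)

/-- non-adjacency indicator, `nd x x = 1` -/
noncomputable def nd (x y : V) : ℝ := 1 - ad G x y

/-- complement form -/
noncomputable def NF (U : Finset V) : (V → ℝ) →ₗ[ℝ] (V → ℝ) →ₗ[ℝ] ℝ :=
  LinearMap.mk₂ ℝ (fun f g => ∑ x ∈ U, ∑ y ∈ U, nd G x y * f x * g y)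
    (fun f f' g => by
      simp only [Pi.add_apply, ← Finset.sum_add_distrib]
      exact Finset.sum_congr rfl fun x _ => Finset.sum_congr rfl fun y _ => by ring)
    (fun c f g => by
      simp only [Pi.smul_apply, smul_eq_mul, Finset.mul_sum]
      exact Finset.sum_congr rfl fun x _ => Finset.sum_congr rfl fun y _ => by ring)
    (fun f g g' => by
      simp only [Pi.add_apply, ← Finset.sum_add_distrib]
      exact Finset.sum_congr rfl fun x _ => Finset.sum_congr rfl fun y _ => by ring)
    (fun c f g => by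
      simp only [Pi.smul_apply, smul_eq_mul, Finset.mul_sum]
      exact Finset.sum_congr rfl fun x _ => Finset.sum_congr rfl fun y _ => by ring)

/-- ordered non-adjacent pairs -/
noncomputable def nn (S T : Finset V) : ℝ := ∑ x ∈ S, ∑ y ∈ T, nd G x y

variable {G}

theorem NF_apply (U : Finset V) (f g : V → ℝ) :
    NF G U f g = ∑ x ∈ U, ∑ y ∈ U, nd G x y * f x * g y := rfl

theorem nd_comm (x y : V) : nd G x y = nd G y x := by
  unfold nd; rw [ad_comm G x y]

theorem nd_self (x : V) : nd G x x = 1 := by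
  unfold nd; rw [ad_self]; ring

theorem nd_of_adj {x y : V} (h : G.Adj x y) : nd G x y = 0 := by
  unfold nd ad; rw [if_pos h]; ring

theorem nd_of_not {x y : V} (h : ¬ G.Adj x y) : nd G x y = 1 := by
  unfold nd; rw [ad_of_not G h]; ring

theorem nd_nonneg (x y : V) : 0 ≤ nd G x y := by
  by_cases h : G.Adj x y
  · rw [nd_of_adj h]
  · rw [nd_of_not h]; norm_num

theorem nd_le_one (x y : V) : nd G x y ≤ 1 := by
  by_cases h : G.Adj x y
  · rw [nd_of_adj h]; norm_num
  · rw [nd_of_not h]

theorem NF_comm (U : Finset V) (f g : V → ℝ) : NF G U f g = NF G U g f := by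
  rw [NF_apply, NF_apply, Finset.sum_comm]
  refine Finset.sum_congr rfl fun x _ => Finset.sum_congr rfl fun y _ => ?_
  rw [nd_comm y x]; ring

theorem NF_congr {U : Finset V} {f g f' g' : V → ℝ} (hf : ∀ x ∈ U, f x = f' x)
    (hg : ∀ x ∈ U, g x = g' x) : NF G U f g = NF G U f' g' := by
  rw [NF_apply, NF_apply]
  refine Finset.sum_congr rfl fun x hx => Finset.sum_congr rfl fun y hy => ?_
  rw [hf x hx, hg y hy]

theorem BF_eq_NF (U : Finset V) (f g : V → ℝ) :
    BF G U f g = (∑ x ∈ U, f x) * (∑ x ∈ U, g x) - NF G U f g := by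
  rw [NF_apply, Finset.sum_mul_sum]
  unfold BF nd
  rw [← Finset.sum_sub_distrib]
  refine Finset.sum_congr rfl fun x _ => ?_
  rw [← Finset.sum_sub_distrib]
  refine Finset.sum_congr rfl fun y _ => ?_
  ring

theorem BF_eq_neg_NF {U : Finset V} {f : V → ℝ} (h : ∑ x ∈ U, f x = 0) :
    BF G U f f = - NF G U f f := by
  rw [BF_eq_NF, h]; ring

/-- indicator function -/
noncomputable def ind [DecidableEq V] (S : Finset V) : V → ℝ := fun x => if x ∈ S then 1 else 0

theorem sum_indf [DecidableEq V] {U S : Finset V} (hS : S ⊆ U) : ∑ x ∈ U, ind S x = #S := by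
  unfold ind
  rw [← Finset.sum_filter]
  have : U.filter (fun x => x ∈ S) = S := by
    ext x
    rw [Finset.mem_filter]
    exact ⟨fun h => h.2, fun h => ⟨hS h, h⟩⟩
  rw [this]; simp

theorem NF_ind [DecidableEq V] {U S T : Finset V} (hS : S ⊆ U) (hT : T ⊆ U) :
    NF G U (ind S) (ind T) = nn G S T := by
  rw [NF_apply]
  unfold nn ind
  have h1 : ∀ x ∈ U, (∑ y ∈ U, nd G x y * (if x ∈ S then 1 else 0) * (if y ∈ T then 1 else 0)) =
      if x ∈ S then ∑ y ∈ T, nd G x y else 0 := by
    intro x _
    split_ifs with hx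
    · rw [← Finset.sum_subset hT]
      · refine Finset.sum_congr rfl fun y hy => ?_
        rw [if_pos hy]; ring
      · intro y _ hy
        rw [if_neg hy]; ring
    · simp
  rw [Finset.sum_congr rfl h1, ← Finset.sum_filter]
  congr 1
  ext x
  rw [Finset.mem_filter]
  exact ⟨fun h => h.2, fun h => ⟨hS h, h⟩⟩

theorem ind_union [DecidableEq V] {S T : Finset V} (h : Disjoint S T) :
    ind (S ∪ T) = ind S + ind T := by
  funext x
  simp only [ind, Pi.add_apply, Finset.mem_union]
  by_cases h1 : x ∈ S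
  · have h2 : x ∉ T := fun h2 => Finset.disjoint_left.1 h h1 h2
    simp [h1, h2]
  · by_cases h2 : x ∈ T <;> simp [h1, h2]

theorem ind_biUnion_singleton [DecidableEq V] (S : Finset V) :
    ind S = ∑ x ∈ S, ind {x} := by
  funext z
  simp only [ind, Finset.sum_apply, Finset.mem_singleton, Finset.sum_ite_eq]

theorem ind_image [DecidableEq V] (S : Finset V) {f : V → V} (hf : Set.InjOn f (S : Set V)) :
    ind (S.image f) = ∑ x ∈ S, ind {f x} := by
  rw [ind_biUnion_singleton, Finset.sum_image hf]

theorem nn_nonneg (S T : Finset V) : 0 ≤ nn G S T :=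
  Finset.sum_nonneg fun x _ => Finset.sum_nonneg fun y _ => nd_nonneg x y

theorem nn_le (S T : Finset V) : nn G S T ≤ #S * #T := by
  unfold nn
  calc (∑ x ∈ S, ∑ y ∈ T, nd G x y) ≤ ∑ x ∈ S, ∑ y ∈ T, (1 : ℝ) :=
        Finset.sum_le_sum fun x _ => Finset.sum_le_sum fun y _ => nd_le_one x y
    _ = #S * #T := by simp

theorem nn_comm (S T : Finset V) : nn G S T = nn G T S := by
  unfold nn
  rw [Finset.sum_comm]
  exact Finset.sum_congr rfl fun x _ => Finset.sum_congr rfl fun y _ => nd_comm y x

theorem nn_full {S T : Finset V} (h : ∀ x ∈ S, ∀ y ∈ T, ¬ G.Adj x y) : nn G S T = #S * #T := by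
  unfold nn
  rw [Finset.sum_congr rfl fun x hx => Finset.sum_congr rfl fun y hy => nd_of_not (h x hx y hy)]
  simp

theorem nn_union_right [DecidableEq V] (S : Finset V) {T T' : Finset V} (h : Disjoint T T') :
    nn G S (T ∪ T') = nn G S T + nn G S T' := by
  unfold nn
  rw [← Finset.sum_add_distrib]
  exact Finset.sum_congr rfl fun x _ => Finset.sum_union h

theorem nn_union_left [DecidableEq V] (S : Finset V) {T T' : Finset V} (h : Disjoint T T') :
    nn G (T ∪ T') S = nn G T S + nn G T' S := by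
  rw [nn_comm, nn_union_right S h, nn_comm S T, nn_comm S T']

theorem nn_single (x y : V) : nn G {x} {y} = nd G x y := by
  unfold nn; simp

/-- the diagonal -/
theorem nn_self_ge (S : Finset V) : (#S : ℝ) ≤ nn G S S := by
  classical
  unfold nn
  calc (#S : ℝ) = ∑ x ∈ S, (1 : ℝ) := by simp
    _ ≤ ∑ x ∈ S, ∑ y ∈ S, nd G x y := Finset.sum_le_sum fun x hx => by
        rw [← nd_self (G := G) x]
        exact Finset.single_le_sum (f := fun y => nd G x y) (fun y _ => nd_nonneg x y) hx

end TwoClub
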