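import Pool.Agent.TwoClub.Frac

/-!
Rounding of fractional tests: two independent random directions.
-/

namespace TwoClub

open Finset

variable {V : Type*} {G : SimpleGraph V}

theorem BF_add_smul (U : Finset V) (f g : V → ℝ) (p : ℝ) :
    BF G U (fun x => f x + p * g x) (fun x => f x + p * g x) =
      BF G U f f + 2 * p * BF G U f g + p ^ 2 * BF G U g g := by
  have h := BF_sub_smul (G := G) U f g (-p)
  have e : BF G U (fun x => f x + p * g x) (fun x => f x + p * g x) =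
      BF G U (fun x => f x - -p * g x) (fun x => f x - -p * g x) := by
    apply BF_congr <;> intro x _ <;> ring
  rw [e, h]; ring

theorem BF_add_left (U : Finset V) (f f' g : V → ℝ) :
    BF G U (fun x => f x + f' x) g = BF G U f g + BF G U f' g := by
  unfold BF
  simp only [← Finset.sum_add_distrib]
  refine Finset.sum_congr rfl fun x _ => Finset.sum_congr rfl fun y _ => ?_
  ring

/-- averages over two independent centred two point random variables -/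
theorem four_point (U : Finset V) (y φ ψ : V → ℝ) {r s : ℝ} (hr0 : 0 ≤ r) (hr1 : r < 1)
    (hs0 : 0 ≤ s) (hs1 : s < 1)
    (h : ∀ e₁ e₂ : ℝ, (e₁ = -r ∨ (e₁ = 1 - r ∧ 0 < r)) → (e₂ = -s ∨ (e₂ = 1 - s ∧ 0 < s)) →
      BF G U (fun x => y x + e₁ * φ x + e₂ * ψ x) (fun x => y x + e₁ * φ x + e₂ * ψ x) < 0) :
    BF G U y y + r * (1 - r) * BF G U φ φ + s * (1 - s) * BF G U ψ ψ < 0 := by
  have ex : ∀ e₁ e₂ : ℝ,
      BF G U (fun x => y x + e₁ * φ x + e₂ * ψ x) (fun x => y x + e₁ * φ x + e₂ * ψ x) =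
      BF G U y y + e₁ ^ 2 * BF G U φ φ + e₂ ^ 2 * BF G U ψ ψ + 2 * e₁ * BF G U y φ +
        2 * e₂ * BF G U y ψ + 2 * e₁ * e₂ * BF G U φ ψ := by
    intro e₁ e₂
    rw [BF_add_smul U (fun x => y x + e₁ * φ x) ψ e₂, BF_add_smul U y φ e₁,
      BF_add_left U y (fun x => e₁ * φ x) ψ, BF_smul_left U e₁ φ ψ]
    ring
  have h00 := h (-r) (-s) (Or.inl rfl) (Or.inl rfl)
  rw [ex] at h00
  have w00 : 0 < (1 - r) * (1 - s) := mul_pos (by linarith) (by linarith)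
  have t00 := mul_neg_of_pos_of_neg w00 h00
  have t10 : r * (1 - s) * (BF G U y y + (1 - r) ^ 2 * BF G U φ φ + (-s) ^ 2 * BF G U ψ ψ +
      2 * (1 - r) * BF G U y φ + 2 * (-s) * BF G U y ψ + 2 * (1 - r) * (-s) * BF G U φ ψ) ≤ 0 := by
    rcases hr0.eq_or_lt with h0 | h0
    · rw [← h0]; simp
    · have h1 := h (1 - r) (-s) (Or.inr ⟨rfl, h0⟩) (Or.inl rfl)
      rw [ex] at h1
      exact (mul_neg_of_pos_of_neg (mul_pos h0 (by linarith)) h1).le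
  have t01 : (1 - r) * s * (BF G U y y + (-r) ^ 2 * BF G U φ φ + (1 - s) ^ 2 * BF G U ψ ψ +
      2 * (-r) * BF G U y φ + 2 * (1 - s) * BF G U y ψ + 2 * (-r) * (1 - s) * BF G U φ ψ) ≤ 0 := by
    rcases hs0.eq_or_lt with h0 | h0
    · rw [← h0]; simp
    · have h1 := h (-r) (1 - s) (Or.inl rfl) (Or.inr ⟨rfl, h0⟩)
      rw [ex] at h1
      exact (mul_neg_of_pos_of_neg (mul_pos (by linarith) h0) h1).le
  have t11 : r * s * (BF G U y y + (1 - r) ^ 2 * BF G U φ φ + (1 - s) ^ 2 * BF G U ψ ψ +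
      2 * (1 - r) * BF G U y φ + 2 * (1 - s) * BF G U y ψ +
      2 * (1 - r) * (1 - s) * BF G U φ ψ) ≤ 0 := by
    rcases hr0.eq_or_lt with h0 | h0
    · rw [← h0]; simp
    rcases hs0.eq_or_lt with h0' | h0'
    · rw [← h0']; simp
    · have h1 := h (1 - r) (1 - s) (Or.inr ⟨rfl, h0⟩) (Or.inr ⟨rfl, h0'⟩)
      rw [ex] at h1
      exact (mul_neg_of_pos_of_neg (mul_pos h0 h0') h1).le
  nlinarith [t00, t10, t01, t11]

/-- rounding of a fractional test with two directions `g₁`, `g₂` supported on `K ∪ I` -/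
theorem Solid.round [DecidableEq V] {U K I : Finset V} (hs : Solid G 0 U) (hKU : K ⊆ U)
    (hIU : I ⊆ U) (hd : Disjoint K I) (hK : Ind G K) (hI : Ind G I) {f g₁ g₂ : V → ℝ}
    (hoff : ∀ z ∈ U, z ∉ K → z ∉ I → (f z = 0 ∨ f z = 1) ∧ g₁ z = 0 ∧ g₂ z = 0)
    {r s : ℝ} (hr0 : 0 ≤ r) (hr1 : r < 1) (hs0 : 0 ≤ s) (hs1 : s < 1)
    (hfeas : ∀ e₁ e₂ : ℝ, (e₁ = -r ∨ (e₁ = 1 - r ∧ 0 < r)) → (e₂ = -s ∨ (e₂ = 1 - s ∧ 0 < s)) →
      (∀ z ∈ U, 0 ≤ f z + e₁ * g₁ z + e₂ * g₂ z ∧ f z + e₁ * g₁ z + e₂ * g₂ z ≤ 1) ∧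
      (∃ m : ℤ, ∑ z ∈ K, (f z + e₁ * g₁ z + e₂ * g₂ z) = m) ∧
      (∃ m : ℤ, ∑ z ∈ I, (f z + e₁ * g₁ z + e₂ * g₂ z) = m))
    {a b : V} (ha : a ∈ U) (hb : b ∈ U) (hfa : 0 < f a) (hga : g₁ a = 0 ∧ g₂ a = 0)
    (hfb : f b < 1) (hgb : g₁ b = 0 ∧ g₂ b = 0) :
    BF G U (fun x => f x - (∑ z ∈ U, f z) / #U) (fun x => f x - (∑ z ∈ U, f z) / #U) +
      r * (1 - r) * BF G U (fun x => g₁ x - (∑ z ∈ U, g₁ z) / #U)
        (fun x => g₁ x - (∑ z ∈ U, g₁ z) / #U) +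
      s * (1 - s) * BF G U (fun x => g₂ x - (∑ z ∈ U, g₂ z) / #U)
        (fun x => g₂ x - (∑ z ∈ U, g₂ z) / #U) < 0 := by
  apply four_point U _ _ _ hr0 hr1 hs0 hs1
  intro e₁ e₂ h1 h2
  obtain ⟨hb1, hK1, hI1⟩ := hfeas e₁ e₂ h1 h2
  have hsum : ∑ z ∈ U, (f z + e₁ * g₁ z + e₂ * g₂ z) =
      ∑ z ∈ U, f z + e₁ * ∑ z ∈ U, g₁ z + e₂ * ∑ z ∈ U, g₂ z := by
    rw [Finset.sum_add_distrib, Finset.sum_add_distrib, Finset.mul_sum, Finset.mul_sum]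
  have key := hs.frac hKU hIU hd hK hI (f := fun z => f z + e₁ * g₁ z + e₂ * g₂ z)
    (p := (∑ z ∈ U, (f z + e₁ * g₁ z + e₂ * g₂ z)) / #U) hb1
    (fun z hz hzK hzI => by
      obtain ⟨h3, h4, h5⟩ := hoff z hz hzK hzI
      simp only [h4, h5, mul_zero, add_zero]
      exact h3) hK1 hI1
    (by
      have h3 := Finset.single_le_sum (f := fun z => f z + e₁ * g₁ z + e₂ * g₂ z)
        (fun z hz => (hb1 z hz).1) ha
      simp only [hga.1, hga.2, mul_zero, add_zero] at h3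
      linarith)
    (by
      have h3 : ∑ z ∈ U, (1 - (f z + e₁ * g₁ z + e₂ * g₂ z)) =
          #U - ∑ z ∈ U, (f z + e₁ * g₁ z + e₂ * g₂ z) := by
        rw [Finset.sum_sub_distrib]; simp
      have h4 := Finset.single_le_sum (f := fun z => 1 - (f z + e₁ * g₁ z + e₂ * g₂ z))
        (fun z hz => by linarith [(hb1 z hz).2]) hb
      simp only [hgb.1, hgb.2, mul_zero, add_zero] at h4
      rw [h3] at h4
      linarith) rfl
  have e : BF G U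
      (fun x => f x - (∑ z ∈ U, f z) / #U + e₁ * (g₁ x - (∑ z ∈ U, g₁ z) / #U) +
        e₂ * (g₂ x - (∑ z ∈ U, g₂ z) / #U))
      (fun x => f x - (∑ z ∈ U, f z) / #U + e₁ * (g₁ x - (∑ z ∈ U, g₁ z) / #U) +
        e₂ * (g₂ x - (∑ z ∈ U, g₂ z) / #U)) =
      BF G U (fun x => f x + e₁ * g₁ x + e₂ * g₂ x -
        (∑ z ∈ U, (f z + e₁ * g₁ z + e₂ * g₂ z)) / #U)
      (fun x => f x + e₁ * g₁ x + e₂ * g₂ x -
        (∑ z ∈ U, (f z + e₁ * g₁ z + e₂ * g₂ z)) / #U) := by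
    rw [hsum]
    apply BF_congr <;> intro x _ <;> ring
  rw [e]
  exact key

end TwoClub
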