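import Pool.Agent.TwoClub.NForm

/-!
The four kinds of neutral tests for the structure `U = K ∪ I ∪ A ∪ B` with partners
(helper37's certificate): values of the complement form on the classes, and the resulting
inequalities, for arbitrary levels of `u`, `v`, `f u`, `g v`.
-/

namespace TwoClub

open Finset

variable {V : Type*} {G : SimpleGraph V}

/-- `O = A ∪ B`, `v` is not adjacent to `A`, `u` is not adjacent to `B`, partners `f : A → K`,
`g : B → I`, `fu ∈ K` is a neighbour of `u`, `gv ∈ I` is a neighbour of `v` -/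
structure Cfg [DecidableEq V] (G : SimpleGraph V) (U K I A B : Finset V) (u v fu gv : V)
    (f g : V → V) : Prop where
  hU : K ∪ I ∪ (A ∪ B) = U
  KI : Disjoint K I
  KO : Disjoint (K ∪ I) (A ∪ B)
  AB : Disjoint A B
  indK : Ind G K
  indI : Ind G I
  hu : u ∈ I
  hv : v ∈ K
  hfu : fu ∈ K
  hgv : gv ∈ I
  fv : fu ≠ v
  gu : gv ≠ u
  uv : ¬ G.Adj u v
  ufu : G.Adj u fu
  vgv : G.Adj v gv
  uB : ∀ w ∈ B, ¬ G.Adj u w
  vA : ∀ w ∈ A, ¬ G.Adj v w
  fK : ∀ w ∈ A, f w ∈ K ∧ G.Adj w (f w) ∧ f w ≠ v ∧ f w ≠ fu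
  finj : Set.InjOn f (A : Set V)
  gI : ∀ w ∈ B, g w ∈ I ∧ G.Adj w (g w) ∧ g w ≠ u ∧ g w ≠ gv
  ginj : Set.InjOn g (B : Set V)

/-- the neutral part of `K` -/
def Kg [DecidableEq V] (K A : Finset V) (v fu : V) (f : V → V) : Finset V :=
  K \ (insert v (insert fu (A.image f)))

theorem ind_K [DecidableEq V] {K A : Finset V} {v fu : V} {f : V → V} (hv : v ∈ K) (hfu : fu ∈ K)
    (fv : fu ≠ v) (fK : ∀ w ∈ A, f w ∈ K ∧ f w ≠ v ∧ f w ≠ fu) :
    ind K = ind {v} + ind {fu} + ind (A.image f) + ind (Kg K A v fu f) := by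
  have h1 : v ∉ A.image f := by
    intro h
    obtain ⟨w, hw, h⟩ := Finset.mem_image.1 h
    exact (fK w hw).2.1 h
  have h2 : fu ∉ A.image f := by
    intro h
    obtain ⟨w, hw, h⟩ := Finset.mem_image.1 h
    exact (fK w hw).2.2 h
  funext x
  simp only [ind, Pi.add_apply, Kg, Finset.mem_sdiff, Finset.mem_insert, Finset.mem_singleton]
  by_cases hxv : x = v
  · subst hxv; simp [hv, h1, fv.symm]
  by_cases hxf : x = fu
  · subst hxf; simp [hfu, h2, fv]
  by_cases hxF : x ∈ A.image f
  · have hxK : x ∈ K := by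
      obtain ⟨w, hw, rfl⟩ := Finset.mem_image.1 hxF
      exact (fK w hw).1
    simp [hxv, hxf, hxF, hxK]
  by_cases hxK : x ∈ K
  · simp [hxv, hxf, hxF, hxK]
  · simp [hxv, hxf, hxF, hxK]

theorem card_Kg [DecidableEq V] {K A : Finset V} {v fu : V} {f : V → V} (hv : v ∈ K)
    (hfu : fu ∈ K) (fv : fu ≠ v) (fK : ∀ w ∈ A, f w ∈ K ∧ f w ≠ v ∧ f w ≠ fu)
    (finj : Set.InjOn f (A : Set V)) : (#(Kg K A v fu f) : ℝ) = #K - 2 - #A := by
  have h := ind_K hv hfu fv fK
  have h0 : ∑ x ∈ K, ind K x = #K := sum_indf (Finset.Subset.refl K)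
  rw [h] at h0
  simp only [Pi.add_apply, Finset.sum_add_distrib] at h0
  rw [sum_indf (Finset.singleton_subset_iff.2 hv), sum_indf (Finset.singleton_subset_iff.2 hfu),
    sum_indf (S := A.image f), sum_indf (S := Kg K A v fu f) Finset.sdiff_subset,
    Finset.card_image_of_injOn finj] at h0
  · simp only [Finset.card_singleton, Nat.cast_one] at h0
    linarith
  · intro x hx
    obtain ⟨w, hw, rfl⟩ := Finset.mem_image.1 hx
    exact (fK w hw).1

/-- table of values of a symmetric bilinear form -/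
structure Tab (Bf : (V → ℝ) →ₗ[ℝ] (V → ℝ) →ₗ[ℝ] ℝ) (eu ev ef eg α β γ η : V → ℝ)
    (a b ka io hu hv h0 hfA hfB hgA hgB haa hab hbb hK hI hKI : ℝ) : Prop where
  comm : ∀ x y, Bf x y = Bf y x
  uu : Bf eu eu = 1
  vv : Bf ev ev = 1
  ff : Bf ef ef = 1
  gg : Bf eg eg = 1
  uv : Bf eu ev = 1
  uf : Bf eu ef = 0
  ug : Bf eu eg = 1
  vf : Bf ev ef = 1
  vg : Bf ev eg = 0
  fg : Bf ef eg = h0
  uα : Bf eu α = hu
  uβ : Bf eu β = 2 * b
  vα : Bf ev α = 2 * a
  vβ : Bf ev β = hv
  fα : Bf ef α = a + hfA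
  fβ : Bf ef β = hfB
  gα : Bf eg α = hgA
  gβ : Bf eg β = b + hgB
  αα : Bf α α = a ^ 2 + a + haa
  αβ : Bf α β = hab
  ββ : Bf β β = b ^ 2 + b + hbb
  γγ : Bf γ γ = ka ^ 2
  ηη : Bf η η = io ^ 2
  γη : Bf γ η = hKI
  γω : Bf γ (eu + ev + ef + eg + α + β) = ka * (2 + a) + hK
  ηω : Bf η (eu + ev + ef + eg + α + β) = io * (2 + b) + hI

theorem nn_image_right [DecidableEq V] (S A : Finset V) {f : V → V}
    (hf : Set.InjOn f (A : Set V)) : nn G S (A.image f) = ∑ x ∈ S, ∑ w ∈ A, nd G x (f w) := by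
  unfold nn
  exact Finset.sum_congr rfl fun x _ => Finset.sum_image hf

/-- the table for a configuration -/
theorem Cfg.tab [DecidableEq V] {U K I A B : Finset V} {u v fu gv : V} {f g : V → V}
    (c : Cfg G U K I A B u v fu gv f g) :
    ∃ hu hv h0 hfA hfB hgA hgB haa hab hbb hK hI hKI : ℝ,
      (0 ≤ hu ∧ 0 ≤ hv ∧ 0 ≤ h0 ∧ 0 ≤ hfA ∧ 0 ≤ hfB ∧ 0 ≤ hgA ∧ 0 ≤ hgB) ∧
      (0 ≤ haa ∧ 0 ≤ hab ∧ 0 ≤ hbb ∧ 0 ≤ hK ∧ 0 ≤ hI ∧ 0 ≤ hKI) ∧
      Tab (NF G U) (ind {u}) (ind {v}) (ind {fu}) (ind {gv}) (ind A + ind (A.image f))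
        (ind B + ind (B.image g)) (ind (Kg K A v fu f)) (ind (Kg I B u gv g))
        #A #B #(Kg K A v fu f) #(Kg I B u gv g)
        hu hv h0 hfA hfB hgA hgB haa hab hbb hK hI hKI := by
  have hKU : K ⊆ U := by
    rw [← c.hU]; exact fun x hx => Finset.mem_union_left _ (Finset.mem_union_left _ hx)
  have hIU : I ⊆ U := by
    rw [← c.hU]; exact fun x hx => Finset.mem_union_left _ (Finset.mem_union_right _ hx)
  have hAU : A ⊆ U := by
    rw [← c.hU]; exact fun x hx => Finset.mem_union_right _ (Finset.mem_union_left _ hx)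
  have hBU : B ⊆ U := by
    rw [← c.hU]; exact fun x hx => Finset.mem_union_right _ (Finset.mem_union_right _ hx)
  have hFK : A.image f ⊆ K := fun x hx => by
    obtain ⟨w, hw, rfl⟩ := Finset.mem_image.1 hx
    exact (c.fK w hw).1
  have hGI : B.image g ⊆ I := fun x hx => by
    obtain ⟨w, hw, rfl⟩ := Finset.mem_image.1 hx
    exact (c.gI w hw).1
  have hγK : Kg K A v fu f ⊆ K := Finset.sdiff_subset
  have hηI : Kg I B u gv g ⊆ I := Finset.sdiff_subset
  have su : ({u} : Finset V) ⊆ U := Finset.singleton_subset_iff.2 (hIU c.hu)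
  have sv : ({v} : Finset V) ⊆ U := Finset.singleton_subset_iff.2 (hKU c.hv)
  have sf : ({fu} : Finset V) ⊆ U := Finset.singleton_subset_iff.2 (hKU c.hfu)
  have sg : ({gv} : Finset V) ⊆ U := Finset.singleton_subset_iff.2 (hIU c.hgv)
  have hFU := hFK.trans hKU
  have hGU := hGI.trans hIU
  have hγU := hγK.trans hKU
  have hηU := hηI.trans hIU
  have cF : (#(A.image f) : ℝ) = #A := by rw [Finset.card_image_of_injOn c.finj]
  have cG : (#(B.image g) : ℝ) = #B := by rw [Finset.card_image_of_injOn c.ginj]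
  have full : ∀ {S T : Finset V}, (∀ x ∈ S, ∀ y ∈ T, ¬ G.Adj x y) → nn G S T = #S * #T :=
    fun h => nn_full h
  have KK : ∀ {S T : Finset V}, S ⊆ K → T ⊆ K → nn G S T = #S * #T := fun hS hT =>
    full fun x hx y hy => c.indK x (hS hx) y (hT hy)
  have II : ∀ {S T : Finset V}, S ⊆ I → T ⊆ I → nn G S T = #S * #T := fun hS hT =>
    full fun x hx y hy => c.indI x (hS hx) y (hT hy)
  have uI : ({u} : Finset V) ⊆ I := Finset.singleton_subset_iff.2 c.hu
  have vK : ({v} : Finset V) ⊆ K := Finset.singleton_subset_iff.2 c.hv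
  have fuK : ({fu} : Finset V) ⊆ K := Finset.singleton_subset_iff.2 c.hfu
  have gvI : ({gv} : Finset V) ⊆ I := Finset.singleton_subset_iff.2 c.hgv
  have n0 : ∀ S T : Finset V, 0 ≤ nn G S T := fun S T => nn_nonneg S T
  refine ⟨nn G {u} A + nn G {u} (A.image f), nn G {v} B + nn G {v} (B.image g), nd G fu gv,
    nn G {fu} A, nn G {fu} B + nn G {fu} (B.image g), nn G {gv} A + nn G {gv} (A.image f),
    nn G {gv} B, (nn G A A - #A) + 2 * nn G A (A.image f),
    nn G A B + nn G A (B.image g) + nn G (A.image f) B + nn G (A.image f) (B.image g),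
    (nn G B B - #B) + 2 * nn G B (B.image g),
    nn G (Kg K A v fu f) {u} + nn G (Kg K A v fu f) {gv} + nn G (Kg K A v fu f) A +
      nn G (Kg K A v fu f) B + nn G (Kg K A v fu f) (B.image g),
    nn G (Kg I B u gv g) {v} + nn G (Kg I B u gv g) {fu} + nn G (Kg I B u gv g) B +
      nn G (Kg I B u gv g) A + nn G (Kg I B u gv g) (A.image f),
    nn G (Kg K A v fu f) (Kg I B u gv g), ?_, ?_, ?_⟩
  · refine ⟨add_nonneg (n0 _ _) (n0 _ _), add_nonneg (n0 _ _) (n0 _ _), nd_nonneg _ _, n0 _ _,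
      add_nonneg (n0 _ _) (n0 _ _), add_nonneg (n0 _ _) (n0 _ _), n0 _ _⟩
  · refine ⟨?_, ?_, ?_, ?_, ?_, n0 _ _⟩
    · have := nn_self_ge (G := G) A
      have := n0 A (A.image f)
      linarith
    · have := n0 A B
      have := n0 A (B.image g)
      have := n0 (A.image f) B
      have := n0 (A.image f) (B.image g)
      linarith
    · have := nn_self_ge (G := G) B
      have := n0 B (B.image g)
      linarith
    · have h1 := n0 (Kg K A v fu f) {u}
      have h2 := n0 (Kg K A v fu f) {gv}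
      have h3 := n0 (Kg K A v fu f) A
      have h4 := n0 (Kg K A v fu f) B
      have h5 := n0 (Kg K A v fu f) (B.image g)
      linarith
    · have h1 := n0 (Kg I B u gv g) {v}
      have h2 := n0 (Kg I B u gv g) {fu}
      have h3 := n0 (Kg I B u gv g) B
      have h4 := n0 (Kg I B u gv g) A
      have h5 := n0 (Kg I B u gv g) (A.image f)
      linarith
  · refine
      { comm := fun x y => NF_comm U x y
        uu := by rw [NF_ind su su, nn_single, nd_self]
        vv := by rw [NF_ind sv sv, nn_single, nd_self]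
        ff := by rw [NF_ind sf sf, nn_single, nd_self]
        gg := by rw [NF_ind sg sg, nn_single, nd_self]
        uv := by rw [NF_ind su sv, nn_single, nd_of_not c.uv]
        uf := by rw [NF_ind su sf, nn_single, nd_of_adj c.ufu]
        ug := by rw [NF_ind su sg, nn_single, nd_of_not (c.indI u c.hu gv c.hgv)]
        vf := by rw [NF_ind sv sf, nn_single, nd_of_not (c.indK v c.hv fu c.hfu)]
        vg := by rw [NF_ind sv sg, nn_single, nd_of_adj c.vgv]
        fg := by rw [NF_ind sf sg, nn_single]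
        uα := by rw [map_add, NF_ind su hAU, NF_ind su hFU]
        uβ := by
          rw [map_add, NF_ind su hBU, NF_ind su hGU, II uI hGI, cG, full]
          · simp only [Finset.card_singleton, Nat.cast_one]; ring
          · intro x hx y hy
            rw [Finset.mem_singleton.1 hx]; exact c.uB y hy
        vα := by
          rw [map_add, NF_ind sv hAU, NF_ind sv hFU, KK vK hFK, cF, full]
          · simp only [Finset.card_singleton, Nat.cast_one]; ring
          · intro x hx y hy
            rw [Finset.mem_singleton.1 hx]; exact c.vA y hy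
        vβ := by rw [map_add, NF_ind sv hBU, NF_ind sv hGU]
        fα := by
          rw [map_add, NF_ind sf hAU, NF_ind sf hFU, KK fuK hFK, cF]
          simp only [Finset.card_singleton, Nat.cast_one]; ring
        fβ := by rw [map_add, NF_ind sf hBU, NF_ind sf hGU]
        gα := by rw [map_add, NF_ind sg hAU, NF_ind sg hFU]
        gβ := by
          rw [map_add, NF_ind sg hBU, NF_ind sg hGU, II gvI hGI, cG]
          simp only [Finset.card_singleton, Nat.cast_one]; ring
        αα := by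
          simp only [map_add, LinearMap.add_apply]
          rw [NF_ind hAU hAU, NF_ind hAU hFU, NF_ind hFU hAU, NF_ind hFU hFU, KK hFK hFK, cF,
            nn_comm (A.image f) A]
          ring
        αβ := by
          simp only [map_add, LinearMap.add_apply]
          rw [NF_ind hAU hBU, NF_ind hAU hGU, NF_ind hFU hBU, NF_ind hFU hGU]
          ring
        ββ := by
          simp only [map_add, LinearMap.add_apply]
          rw [NF_ind hBU hBU, NF_ind hBU hGU, NF_ind hGU hBU, NF_ind hGU hGU, II hGI hGI, cG,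
            nn_comm (B.image g) B]
          ring
        γγ := by rw [NF_ind hγU hγU, KK hγK hγK]; ring
        ηη := by rw [NF_ind hηU hηU, II hηI hηI]; ring
        γη := by rw [NF_ind hγU hηU]
        γω := by
          simp only [map_add]
          rw [NF_ind hγU su, NF_ind hγU sv, NF_ind hγU sf, NF_ind hγU sg, NF_ind hγU hAU,
            NF_ind hγU hFU, NF_ind hγU hBU, NF_ind hγU hGU, KK hγK vK, KK hγK fuK, KK hγK hFK, cF]
          simp only [Finset.card_singleton, Nat.cast_one]
          ring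
        ηω := by
          simp only [map_add]
          rw [NF_ind hηU su, NF_ind hηU sv, NF_ind hηU sf, NF_ind hηU sg, NF_ind hηU hAU,
            NF_ind hηU hFU, NF_ind hηU hBU, NF_ind hηU hGU, II hηI uI, II hηI gvI, II hηI hGI, cG]
          simp only [Finset.card_singleton, Nat.cast_one]
          ring }

end TwoClub
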