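import Pool.Agent.TwoClub.Orbit

/-!
The values of the tests in terms of the table.
-/

namespace TwoClub

open Finset

variable {V : Type*} {G : SimpleGraph V}

/-- sizes and unknown numbers of non-adjacent pairs -/
structure Par where
  (a b ka io hu hv h0 hfA hfB hgA hgB haa hab hbb hK hI hKI : ℝ)

namespace Par

variable (t : Par)

/-- number of non-neighbours of `u` in `W`, `u` included, and so on -/
noncomputable def Ru : ℝ := 3 + 2 * t.b + t.hu
noncomputable def Rv : ℝ := 3 + 2 * t.a + t.hv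
noncomputable def Rf : ℝ := 2 + t.a + t.hfA + t.hfB + t.h0
noncomputable def Rg : ℝ := 2 + t.b + t.hgA + t.hgB + t.h0
noncomputable def Ra : ℝ := t.a ^ 2 + 4 * t.a + t.haa + t.hab + t.hu + t.hfA + t.hgA
noncomputable def Rb : ℝ := t.b ^ 2 + 4 * t.b + t.hbb + t.hab + t.hv + t.hfB + t.hgB
noncomputable def Om : ℝ := t.Ru + t.Rv + t.Rf + t.Rg + t.Ra + t.Rb

/-- null test, levels `lu, lv, lf, lg` -/
noncomputable def nul (lu lv lf lg p : ℝ) : ℝ :=
  lu ^ 2 + lv ^ 2 + lf ^ 2 + lg ^ 2 + 2 * lu * lv + 2 * lu * lg + 2 * lv * lf +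
    2 * lf * lg * t.h0 - 2 * p * (lu * t.Ru + lv * t.Rv + lf * t.Rf + lg * t.Rg) + p ^ 2 * t.Om

/-- sum of the `A`-tests over `w ∈ A` -/
noncomputable def sA (lu lv lf lg p : ℝ) : ℝ :=
  t.a * t.nul lu lv lf lg p + 2 * t.a +
    2 * (lu * t.hu + lv * (2 * t.a) + lf * (t.a + t.hfA) + lg * t.hgA) - 2 * p * t.Ra

/-- sum of the `B`-tests over `w ∈ B` -/
noncomputable def sB (lu lv lf lg p : ℝ) : ℝ :=
  t.b * t.nul lu lv lf lg p + 2 * t.b +
    2 * (lu * (2 * t.b) + lv * t.hv + lf * t.hfB + lg * (t.b + t.hgB)) - 2 * p * t.Rb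

/-- non-adjacent pairs with one end in `Kg`, in `Ig`, all -/
noncomputable def Rk : ℝ := t.ka * (2 + t.a) + t.hK + t.ka ^ 2 + t.hKI
noncomputable def Ri : ℝ := t.io * (2 + t.b) + t.hI + t.io ^ 2 + t.hKI
noncomputable def R1 : ℝ := t.Om + 2 * (t.ka * (2 + t.a) + t.hK) + 2 * (t.io * (2 + t.b) + t.hI) +
  t.ka ^ 2 + t.io ^ 2 + 2 * t.hKI

/-- rounding terms, `n` the number of vertices -/
noncomputable def F1 (n : ℝ) : ℝ := 1 - 2 * t.Rk / (n * t.ka) + t.R1 / n ^ 2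
noncomputable def F2 (n c : ℝ) : ℝ :=
  1 + c ^ 2 + 2 * c * t.hKI / (t.io * t.ka) -
    2 * (c + 1) / n * (t.Ri / t.io + c * t.Rk / t.ka) + (c + 1) ^ 2 * t.R1 / n ^ 2

end Par

/-- the table with a bundled parameter -/
def TabP (Bf : (V → ℝ) →ₗ[ℝ] (V → ℝ) →ₗ[ℝ] ℝ) (eu ev ef eg α β γ η : V → ℝ) (t : Par) : Prop :=
  Tab Bf eu ev ef eg α β γ η t.a t.b t.ka t.io t.hu t.hv t.h0 t.hfA t.hfB t.hgA t.hgB
    t.haa t.hab t.hbb t.hK t.hI t.hKI

theorem quad_add {Bf : (V → ℝ) →ₗ[ℝ] (V → ℝ) →ₗ[ℝ] ℝ} (c : ∀ x y, Bf x y = Bf y x) (x y : V → ℝ) :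
    Bf (x + y) (x + y) = Bf x x + 2 * Bf x y + Bf y y := by
  simp only [map_add, LinearMap.add_apply]
  rw [c y x]; ring

section

variable {Bf : (V → ℝ) →ₗ[ℝ] (V → ℝ) →ₗ[ℝ] ℝ} {eu ev ef eg α β γ η : V → ℝ} {t : Par}

/-- row sums -/
theorem TabP.rows (h : TabP Bf eu ev ef eg α β γ η t) {ω : V → ℝ}
    (hω : ω = eu + ev + ef + eg + α + β) :
    Bf ω eu = t.Ru ∧ Bf ω ev = t.Rv ∧ Bf ω ef = t.Rf ∧ Bf ω eg = t.Rg ∧ Bf ω α = t.Ra ∧
      Bf ω β = t.Rb ∧ Bf ω ω = t.Om := by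
  have c := h.comm
  have hu' : Bf ω eu = t.Ru := by
    rw [c, hω]; simp only [map_add]
    rw [h.uu, h.uv, h.uf, h.ug, h.uα, h.uβ]; unfold Par.Ru; ring
  have hv' : Bf ω ev = t.Rv := by
    rw [c, hω]; simp only [map_add]
    rw [c ev eu, h.vv, h.uv, h.vf, h.vg, h.vα, h.vβ]; unfold Par.Rv; ring
  have hf' : Bf ω ef = t.Rf := by
    rw [c, hω]; simp only [map_add]
    rw [c ef eu, c ef ev, h.uf, h.vf, h.ff, h.fg, h.fα, h.fβ]; unfold Par.Rf; ring
  have hg' : Bf ω eg = t.Rg := by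
    rw [c, hω]; simp only [map_add]
    rw [c eg eu, c eg ev, c eg ef, h.ug, h.vg, h.fg, h.gg, h.gα, h.gβ]; unfold Par.Rg; ring
  have hα' : Bf ω α = t.Ra := by
    rw [c, hω]; simp only [map_add]
    rw [c α eu, c α ev, c α ef, c α eg, h.uα, h.vα, h.fα, h.gα, h.αα, h.αβ]; unfold Par.Ra; ring
  have hβ' : Bf ω β = t.Rb := by
    rw [c, hω]; simp only [map_add]
    rw [c β eu, c β ev, c β ef, c β eg, c β α, h.uβ, h.vβ, h.fβ, h.gβ, h.αβ, h.ββ]
    unfold Par.Rb; ring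
  refine ⟨hu', hv', hf', hg', hα', hβ', ?_⟩
  have : Bf ω ω = Bf ω (eu + ev + ef + eg + α + β) := by rw [← hω]
  rw [this]
  simp only [map_add]
  rw [hu', hv', hf', hg', hα', hβ']
  unfold Par.Om
  rfl

theorem TabP.nul (h : TabP Bf eu ev ef eg α β γ η t) {ω lam : V → ℝ} {lu lv lf lg p : ℝ}
    (hω : ω = eu + ev + ef + eg + α + β)
    (hlam : lam = lu • eu + lv • ev + lf • ef + lg • eg) :
    Bf (lam - p • ω) (lam - p • ω) = t.nul lu lv lf lg p := by
  obtain ⟨r1, r2, r3, r4, r5, r6, r7⟩ := h.rows hω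
  have c := h.comm
  have e1 : Bf lam lam = lu ^ 2 + lv ^ 2 + lf ^ 2 + lg ^ 2 + 2 * lu * lv + 2 * lu * lg +
      2 * lv * lf + 2 * lf * lg * t.h0 := by
    rw [hlam]
    simp only [map_add, map_smul, LinearMap.add_apply, LinearMap.smul_apply, smul_eq_mul]
    rw [c ev eu, c ef eu, c ef ev, c eg eu, c eg ev, c eg ef, h.uu, h.vv, h.ff, h.gg, h.uv, h.uf,
      h.ug, h.vf, h.vg, h.fg]
    ring
  have e2 : Bf ω lam = lu * t.Ru + lv * t.Rv + lf * t.Rf + lg * t.Rg := by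
    rw [hlam]
    simp only [map_add, map_smul, smul_eq_mul]
    rw [r1, r2, r3, r4]
  simp only [map_sub, map_smul, LinearMap.sub_apply, LinearMap.smul_apply, smul_eq_mul]
  rw [c lam ω, e1, e2, r7]
  unfold Par.nul
  ring

/-- the sum over `w ∈ A` -/
theorem TabP.sA (h : TabP Bf eu ev ef eg α β γ η t) {ω lam : V → ℝ} {lu lv lf lg p : ℝ}
    (hω : ω = eu + ev + ef + eg + α + β)
    (hlam : lam = lu • eu + lv • ev + lf • ef + lg • eg) {A : Finset V} {d : V → V → ℝ}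
    (hA : (#A : ℝ) = t.a) (hd : ∑ w ∈ A, d w = α) (hdd : ∀ w ∈ A, Bf (d w) (d w) = 2) :
    ∑ w ∈ A, Bf (lam + d w - p • ω) (lam + d w - p • ω) = t.sA lu lv lf lg p := by
  obtain ⟨r1, r2, r3, r4, r5, r6, r7⟩ := h.rows hω
  have c := h.comm
  have e0 : ∀ w ∈ A, Bf (lam + d w - p • ω) (lam + d w - p • ω) =
      Bf (lam - p • ω) (lam - p • ω) + 2 * Bf (lam - p • ω) (d w) + 2 := by
    intro w hw
    have : lam + d w - p • ω = (lam - p • ω) + d w := by abel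
    rw [this, quad_add c, hdd w hw]
  have e4 : ∑ w ∈ A, Bf (lam - p • ω) (d w) = Bf (lam - p • ω) α := by rw [← map_sum, hd]
  rw [Finset.sum_congr rfl e0, Finset.sum_add_distrib, Finset.sum_add_distrib, ← Finset.mul_sum,
    e4, h.nul hω hlam]
  have e3 : Bf lam α = lu * t.hu + lv * (2 * t.a) + lf * (t.a + t.hfA) + lg * t.hgA := by
    rw [hlam]
    simp only [map_add, map_smul, LinearMap.add_apply, LinearMap.smul_apply, smul_eq_mul]
    rw [h.uα, h.vα, h.fα, h.gα]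
  simp only [map_sub, map_smul, LinearMap.sub_apply, LinearMap.smul_apply, smul_eq_mul,
    Finset.sum_const, nsmul_eq_mul]
  rw [e3, r5, hA]
  unfold Par.sA
  ring

theorem TabP.sB (h : TabP Bf eu ev ef eg α β γ η t) {ω lam : V → ℝ} {lu lv lf lg p : ℝ}
    (hω : ω = eu + ev + ef + eg + α + β)
    (hlam : lam = lu • eu + lv • ev + lf • ef + lg • eg) {B : Finset V} {d : V → V → ℝ}
    (hB : (#B : ℝ) = t.b) (hd : ∑ w ∈ B, d w = β) (hdd : ∀ w ∈ B, Bf (d w) (d w) = 2) :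
    ∑ w ∈ B, Bf (lam + d w - p • ω) (lam + d w - p • ω) = t.sB lu lv lf lg p := by
  obtain ⟨r1, r2, r3, r4, r5, r6, r7⟩ := h.rows hω
  have c := h.comm
  have e0 : ∀ w ∈ B, Bf (lam + d w - p • ω) (lam + d w - p • ω) =
      Bf (lam - p • ω) (lam - p • ω) + 2 * Bf (lam - p • ω) (d w) + 2 := by
    intro w hw
    have : lam + d w - p • ω = (lam - p • ω) + d w := by abel
    rw [this, quad_add c, hdd w hw]
  have e4 : ∑ w ∈ B, Bf (lam - p • ω) (d w) = Bf (lam - p • ω) β := by rw [← map_sum, hd]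
  rw [Finset.sum_congr rfl e0, Finset.sum_add_distrib, Finset.sum_add_distrib, ← Finset.mul_sum,
    e4, h.nul hω hlam]
  have e3 : Bf lam β = lu * (2 * t.b) + lv * t.hv + lf * t.hfB + lg * (t.b + t.hgB) := by
    rw [hlam]
    simp only [map_add, map_smul, LinearMap.add_apply, LinearMap.smul_apply, smul_eq_mul]
    rw [h.uβ, h.vβ, h.fβ, h.gβ]
  simp only [map_sub, map_smul, LinearMap.sub_apply, LinearMap.smul_apply, smul_eq_mul,
    Finset.sum_const, nsmul_eq_mul]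
  rw [e3, r6, hB]
  unfold Par.sB
  ring

/-- the rounding terms -/
theorem TabP.F1 (h : TabP Bf eu ev ef eg α β γ η t) {one : V → ℝ} {n : ℝ}
    (hone : one = (eu + ev + ef + eg + α + β) + γ + η) (hka : t.ka ≠ 0) :
    Bf ((1 / t.ka) • γ - (1 / n) • one) ((1 / t.ka) • γ - (1 / n) • one) = t.F1 n := by
  obtain ⟨r1, r2, r3, r4, r5, r6, r7⟩ := h.rows rfl
  have c := h.comm
  have e1 : Bf γ one = t.Rk := by
    rw [hone, map_add, map_add, h.γω, h.γγ, h.γη]; unfold Par.Rk; ring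
  have e2 : Bf η one = t.Ri := by
    rw [hone, map_add, map_add, h.ηω, h.ηη, c η γ, h.γη]; unfold Par.Ri; ring
  have e3 : Bf one one = t.R1 := by
    have e4 : Bf (eu + ev + ef + eg + α + β + γ) η =
        Bf η (eu + ev + ef + eg + α + β) + Bf η γ := by rw [c, map_add]
    rw [hone, quad_add c, quad_add c, e4, r7, c (eu + ev + ef + eg + α + β) γ, c η γ, h.γω, h.ηω,
      h.γγ, h.ηη, h.γη]
    unfold Par.R1; ring
  simp only [map_sub, map_smul, LinearMap.sub_apply, LinearMap.smul_apply, smul_eq_mul]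
  rw [c one γ, e1, e3, h.γγ]
  unfold Par.F1
  by_cases hn : n = 0
  · subst hn; simp; field_simp
  field_simp
  ring

theorem TabP.F2 (h : TabP Bf eu ev ef eg α β γ η t) {one : V → ℝ} {n cc : ℝ}
    (hone : one = (eu + ev + ef + eg + α + β) + γ + η) (hka : t.ka ≠ 0) (hio : t.io ≠ 0) :
    Bf ((1 / t.io) • η + (cc / t.ka) • γ - ((cc + 1) / n) • one)
      ((1 / t.io) • η + (cc / t.ka) • γ - ((cc + 1) / n) • one) = t.F2 n cc := by
  obtain ⟨r1, r2, r3, r4, r5, r6, r7⟩ := h.rows rfl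
  have c := h.comm
  have e1 : Bf γ one = t.Rk := by
    rw [hone, map_add, map_add, h.γω, h.γγ, h.γη]; unfold Par.Rk; ring
  have e2 : Bf η one = t.Ri := by
    rw [hone, map_add, map_add, h.ηω, h.ηη, c η γ, h.γη]; unfold Par.Ri; ring
  have e3 : Bf one one = t.R1 := by
    have e4 : Bf (eu + ev + ef + eg + α + β + γ) η =
        Bf η (eu + ev + ef + eg + α + β) + Bf η γ := by rw [c, map_add]
    rw [hone, quad_add c, quad_add c, e4, r7, c (eu + ev + ef + eg + α + β) γ, c η γ, h.γω, h.ηω,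
      h.γγ, h.ηη, h.γη]
    unfold Par.R1; ring
  simp only [map_sub, map_add, map_smul, LinearMap.sub_apply, LinearMap.add_apply,
    LinearMap.smul_apply, smul_eq_mul]
  rw [c one γ, c one η, c η γ, e1, e2, e3, h.γγ, h.ηη, h.γη]
  unfold Par.F2
  by_cases hn : n = 0
  · subst hn; simp; field_simp; ring
  field_simp
  ring

end

end TwoClub
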