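import Pool.Agent.TwoClub.Orbit2

/-!
The test inequalities for a configuration.
-/

namespace TwoClub

open Finset

variable {V : Type*} {G : SimpleGraph V}

section

variable [DecidableEq V] {U K I A B : Finset V} {u v fu gv : V} {f g : V → V}

/-- indicator of `W` -/
noncomputable def omf (A B : Finset V) (u v fu gv : V) (f g : V → V) : V → ℝ :=
  ind {u} + ind {v} + ind {fu} + ind {gv} + (ind A + ind (A.image f)) + (ind B + ind (B.image g))

theorem Cfg.ind_U (c : Cfg G U K I A B u v fu gv f g) :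
    ind U = omf A B u v fu gv f g + ind (Kg K A v fu f) + ind (Kg I B u gv g) := by
  rw [← c.hU, ind_union c.KO, ind_union c.KI, ind_union c.AB,
    ind_K c.hv c.hfu c.fv (fun w hw => ⟨(c.fK w hw).1, (c.fK w hw).2.2⟩),
    ind_K c.hu c.hgv c.gu (fun w hw => ⟨(c.gI w hw).1, (c.gI w hw).2.2⟩)]
  unfold omf
  abel

theorem ind_mem {S : Finset V} {z : V} (h : z ∈ S) : ind S z = 1 := if_pos h

theorem ind_not_mem {S : Finset V} {z : V} (h : z ∉ S) : ind S z = 0 := if_neg h

/-- general neutral test -/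
theorem Cfg.core (c : Cfg G U K I A B u v fu gv f g) (hs : Solid G 0 U) {d : V → ℝ}
    {p wK wI : ℝ} (cc : ℕ)
    (hd01 : ∀ z ∈ U, 0 ≤ d z ∧ d z ≤ 1)
    (hdγ : ∀ z ∈ Kg K A v fu f, d z = 0) (hdη : ∀ z ∈ Kg I B u gv g, d z = 0)
    (hdO : ∀ z ∈ A ∪ B, d z = 0 ∨ d z = 1)
    (hK : ∑ z ∈ K, d z = wK) (hI : ∑ z ∈ I, d z = wI)
    (hp : p * (#U - #(Kg K A v fu f) - #(Kg I B u gv g)) = ∑ z ∈ U, d z) (hp0 : 0 ≤ p)
    {r s : ℝ} (hs' : s = Int.fract (wI + p * #(Kg I B u gv g)))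
    (hr' : r = Int.fract (wK + p * #(Kg K A v fu f) - cc * (wI + p * #(Kg I B u gv g))))
    (f1 : s ≤ p * #(Kg I B u gv g)) (f2 : p * #(Kg I B u gv g) + 1 ≤ #(Kg I B u gv g))
    (f3 : r + cc * s ≤ p * #(Kg K A v fu f))
    (f4 : p * #(Kg K A v fu f) + 1 + cc ≤ #(Kg K A v fu f))
    {a₀ b₀ : V} (ha : a₀ ∈ U) (hb : b₀ ∈ U) (haK : a₀ ∉ Kg K A v fu f) (haI : a₀ ∉ Kg I B u gv g)
    (hbK : b₀ ∉ Kg K A v fu f) (hbI : b₀ ∉ Kg I B u gv g) (hda : 0 < d a₀) (hdb : d b₀ < 1) :
    0 < NF G U (d - p • omf A B u v fu gv f g) (d - p • omf A B u v fu gv f g) +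
      r * (1 - r) * NF G U ((1 / (#(Kg K A v fu f) : ℝ)) • ind (Kg K A v fu f) -
          (1 / (#U : ℝ)) • ind U)
        ((1 / (#(Kg K A v fu f) : ℝ)) • ind (Kg K A v fu f) - (1 / (#U : ℝ)) • ind U) +
      s * (1 - s) * NF G U ((1 / (#(Kg I B u gv g) : ℝ)) • ind (Kg I B u gv g) +
          (cc / (#(Kg K A v fu f) : ℝ)) • ind (Kg K A v fu f) - ((cc + 1) / (#U : ℝ)) • ind U)
        ((1 / (#(Kg I B u gv g) : ℝ)) • ind (Kg I B u gv g) +
          (cc / (#(Kg K A v fu f) : ℝ)) • ind (Kg K A v fu f) - ((cc + 1) / (#U : ℝ)) • ind U) := by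
  have hU1 := c.ind_U
  obtain ⟨P, hP⟩ : ∃ P : Finset V, P = Kg K A v fu f := ⟨_, rfl⟩
  obtain ⟨Q, hQ⟩ : ∃ Q : Finset V, Q = Kg I B u gv g := ⟨_, rfl⟩
  rw [← hP, ← hQ] at hU1
  rw [← hP] at hdγ hp hr' f3 f4 haK hbK ⊢
  rw [← hQ] at hdη hp hs' hr' f1 f2 haI hbI ⊢
  have hPK : P ⊆ K := by rw [hP]; exact Finset.sdiff_subset
  have hQI : Q ⊆ I := by rw [hQ]; exact Finset.sdiff_subset
  have hKU : K ⊆ U := by
    rw [← c.hU]; exact fun x hx => Finset.mem_union_left _ (Finset.mem_union_left _ hx)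
  have hIU : I ⊆ U := by
    rw [← c.hU]; exact fun x hx => Finset.mem_union_left _ (Finset.mem_union_right _ hx)
  have hPU := hPK.trans hKU
  have hQU := hQI.trans hIU
  have hKI : ∀ z, z ∈ K → z ∉ I := fun z h1 h2 => Finset.disjoint_left.1 c.KI h1 h2
  obtain ⟨ka, hka⟩ : ∃ ka : ℝ, ka = #P := ⟨_, rfl⟩
  obtain ⟨io, hio⟩ : ∃ io : ℝ, io = #Q := ⟨_, rfl⟩
  obtain ⟨n, hn⟩ : ∃ n : ℝ, n = #U := ⟨_, rfl⟩
  rw [← hka] at hp hr' f3 f4 ⊢
  rw [← hio] at hp hs' hr' f1 f2 ⊢
  rw [← hn] at hp ⊢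
  have hcc : (0 : ℝ) ≤ cc := Nat.cast_nonneg _
  have hka0 : 0 < ka := by
    have : 0 ≤ ka := by rw [hka]; exact Nat.cast_nonneg _
    nlinarith [mul_nonneg hp0 this]
  have hio0 : 0 < io := by
    have : 0 ≤ io := by rw [hio]; exact Nat.cast_nonneg _
    nlinarith [mul_nonneg hp0 this]
  have hn0 : 0 < n := by
    rw [hn]; exact_mod_cast Finset.card_pos.2 ⟨a₀, ha⟩
  have hs0 : 0 ≤ s := by rw [hs']; exact Int.fract_nonneg _
  have hs1 : s < 1 := by rw [hs']; exact Int.fract_lt_one _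
  have hr0 : 0 ≤ r := by rw [hr']; exact Int.fract_nonneg _
  have hr1 : r < 1 := by rw [hr']; exact Int.fract_lt_one _
  -- sums of indicators
  have sPK : ∑ z ∈ K, ind P z = ka := by rw [sum_indf hPK, hka]
  have sQI : ∑ z ∈ I, ind Q z = io := by rw [sum_indf hQI, hio]
  have sPU : ∑ z ∈ U, ind P z = ka := by rw [sum_indf hPU, hka]
  have sQU : ∑ z ∈ U, ind Q z = io := by rw [sum_indf hQU, hio]
  have sUU : ∑ z ∈ U, ind U z = n := by rw [sum_indf (Finset.Subset.refl U), hn]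
  have sQK : ∑ z ∈ K, ind Q z = 0 := Finset.sum_eq_zero fun z hz =>
    ind_not_mem fun h => hKI z hz (hQI h)
  have sPI : ∑ z ∈ I, ind P z = 0 := Finset.sum_eq_zero fun z hz =>
    ind_not_mem fun h => hKI z (hPK h) hz
  -- the functions
  obtain ⟨F, hF⟩ : ∃ F : V → ℝ, F = fun z => d z + p * ind P z + p * ind Q z := ⟨_, rfl⟩
  obtain ⟨g₁, hg₁⟩ : ∃ g₁ : V → ℝ, g₁ = fun z => 1 / ka * ind P z := ⟨_, rfl⟩
  obtain ⟨g₂, hg₂⟩ : ∃ g₂ : V → ℝ, g₂ = fun z => 1 / io * ind Q z + cc / ka * ind P z := ⟨_, rfl⟩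
  have tF : ∑ z ∈ U, F z = p * n := by
    simp only [hF, Finset.sum_add_distrib, ← Finset.mul_sum]
    rw [sPU, sQU, ← hp]; ring
  have tg₁ : ∑ z ∈ U, g₁ z = 1 := by
    simp only [hg₁, ← Finset.mul_sum]
    rw [sPU]; field_simp
  have tg₂ : ∑ z ∈ U, g₂ z = 1 + cc := by
    simp only [hg₂, Finset.sum_add_distrib, ← Finset.mul_sum]
    rw [sPU, sQU]; field_simp
  have key := hs.round hKU hIU c.KI c.indK c.indI (f := F) (g₁ := g₁) (g₂ := g₂)
    (by
      intro z hz hzK hzI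
      have hzP : z ∉ P := fun h => hzK (hPK h)
      have hzQ : z ∉ Q := fun h => hzI (hQI h)
      have hzO : z ∈ A ∪ B := by
        rw [← c.hU, Finset.mem_union, Finset.mem_union] at hz
        rcases hz with (h | h) | h
        · exact absurd h hzK
        · exact absurd h hzI
        · exact h
      simp only [hF, hg₁, hg₂, ind_not_mem hzP, ind_not_mem hzQ, mul_zero, add_zero, and_true]
      exact hdO z hzO)
    hr0 hr1 hs0 hs1
    (by
      intro e₁ e₂ h1 h2
      have e1b : -r ≤ e₁ ∧ e₁ ≤ 1 := by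
        rcases h1 with h | ⟨h, _⟩ <;> rw [h] <;> constructor <;> linarith
      have e2b : -s ≤ e₂ ∧ e₂ ≤ 1 := by
        rcases h2 with h | ⟨h, _⟩ <;> rw [h] <;> constructor <;> linarith
      have hc1 : -(cc * s) ≤ cc * e₂ := by nlinarith [e2b.1]
      have hc2 : cc * e₂ ≤ cc := by nlinarith [e2b.2]
      refine ⟨?_, ?_, ?_⟩
      · intro z hz
        by_cases hzP : z ∈ P
        · have hzQ : z ∉ Q := fun h => hKI z (hPK hzP) (hQI h)
          simp only [hF, hg₁, hg₂, ind_mem hzP, ind_not_mem hzQ, hdγ z hzP, mul_zero, mul_one,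
            add_zero, zero_add]
          have e : p + e₁ * (1 / ka) + e₂ * (cc / ka) = (p * ka + e₁ + cc * e₂) / ka := by
            field_simp
          rw [e]
          constructor
          · apply div_nonneg _ hka0.le
            linarith [e1b.1]
          · rw [div_le_one hka0]
            linarith [e1b.2]
        · by_cases hzQ : z ∈ Q
          · simp only [hF, hg₁, hg₂, ind_mem hzQ, ind_not_mem hzP, hdη z hzQ, mul_zero, mul_one,
              add_zero, zero_add]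
            have e : p + e₂ * (1 / io) = (p * io + e₂) / io := by field_simp
            rw [e]
            constructor
            · apply div_nonneg _ hio0.le
              linarith [e2b.1]
            · rw [div_le_one hio0]
              linarith [e2b.2]
          · simp only [hF, hg₁, hg₂, ind_not_mem hzQ, ind_not_mem hzP, mul_zero, add_zero]
            exact hd01 z hz
      · have e : ∑ z ∈ K, (F z + e₁ * g₁ z + e₂ * g₂ z) = wK + p * ka + e₁ + e₂ * cc := by
          simp only [hF, hg₁, hg₂, Finset.sum_add_distrib, ← Finset.mul_sum]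
          rw [hK, sPK, sQK]; field_simp; ring
        rw [e]
        obtain ⟨m1, hm1⟩ : ∃ m : ℤ, wI + p * io + e₂ = m := by
          rcases h2 with h | ⟨h, _⟩
          · refine ⟨⌊wI + p * io⌋, ?_⟩
            rw [h, hs', ← Int.self_sub_fract]; ring
          · refine ⟨⌊wI + p * io⌋ + 1, ?_⟩
            push_cast
            rw [h, hs', ← Int.self_sub_fract]; ring
        obtain ⟨m2, hm2⟩ : ∃ m : ℤ, wK + p * ka - cc * (wI + p * io) + e₁ = m := by
          rcases h1 with h | ⟨h, _⟩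
          · refine ⟨⌊wK + p * ka - cc * (wI + p * io)⌋, ?_⟩
            rw [h, hr', ← Int.self_sub_fract]; ring
          · refine ⟨⌊wK + p * ka - cc * (wI + p * io)⌋ + 1, ?_⟩
            push_cast
            rw [h, hr', ← Int.self_sub_fract]; ring
        refine ⟨m2 + cc * m1, ?_⟩
        push_cast
        rw [← hm1, ← hm2]; ring
      · have e : ∑ z ∈ I, (F z + e₁ * g₁ z + e₂ * g₂ z) = wI + p * io + e₂ := by
          simp only [hF, hg₁, hg₂, Finset.sum_add_distrib, ← Finset.mul_sum]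
          rw [hI, sPI, sQI]; field_simp; ring
        rw [e]
        rcases h2 with h | ⟨h, _⟩
        · refine ⟨⌊wI + p * io⌋, ?_⟩
          rw [h, hs', ← Int.self_sub_fract]; ring
        · refine ⟨⌊wI + p * io⌋ + 1, ?_⟩
          push_cast
          rw [h, hs', ← Int.self_sub_fract]; ring)
    ha hb
    (by simp only [hF, ind_not_mem haK, ind_not_mem haI, mul_zero, add_zero]; exact hda)
    (by simp only [hg₁, hg₂, ind_not_mem haK, ind_not_mem haI, mul_zero, add_zero, and_self])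
    (by simp only [hF, ind_not_mem hbK, ind_not_mem hbI, mul_zero, add_zero]; exact hdb)
    (by simp only [hg₁, hg₂, ind_not_mem hbK, ind_not_mem hbI, mul_zero, add_zero, and_self])
  rw [tF, tg₁, tg₂, ← hn] at key
  have hmean : ∀ (h : V → ℝ) (m : ℝ), ∑ z ∈ U, h z = m * n → ∑ z ∈ U, (h z - m) = 0 := by
    intro h m hm
    rw [Finset.sum_sub_distrib, hm, Finset.sum_const, nsmul_eq_mul, ← hn]; ring
  have hpn : p * n / n = p := by field_simp
  rw [hpn, BF_eq_neg_NF (hmean F p tF),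
    BF_eq_neg_NF (hmean g₁ (1 / n) (by rw [tg₁]; field_simp)),
    BF_eq_neg_NF (hmean g₂ ((1 + cc) / n) (by rw [tg₂]; field_simp))] at key
  have hone : ∀ z ∈ U, ind U z = 1 := fun z hz => ind_mem hz
  have hω : ∀ z ∈ U, omf A B u v fu gv f g z = 1 - ind P z - ind Q z := by
    intro z hz
    have := congrFun hU1 z
    rw [hone z hz] at this
    simp only [Pi.add_apply] at this
    linarith
  have c1 : NF G U (fun x => F x - p) (fun x => F x - p) =
      NF G U (d - p • omf A B u v fu gv f g) (d - p • omf A B u v fu gv f g) := by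
    apply NF_congr <;> intro z hz <;>
      simp only [hF, Pi.sub_apply, Pi.smul_apply, smul_eq_mul, hω z hz] <;> ring
  have c2 : NF G U (fun x => g₁ x - 1 / n) (fun x => g₁ x - 1 / n) =
      NF G U ((1 / ka) • ind P - (1 / n) • ind U) ((1 / ka) • ind P - (1 / n) • ind U) := by
    apply NF_congr <;> intro z hz <;>
      simp only [hg₁, Pi.sub_apply, Pi.smul_apply, smul_eq_mul, hone z hz] <;> ring
  have c3 : NF G U (fun x => g₂ x - (1 + cc) / n) (fun x => g₂ x - (1 + cc) / n) =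
      NF G U ((1 / io) • ind Q + (cc / ka) • ind P - ((cc + 1) / n) • ind U)
        ((1 / io) • ind Q + (cc / ka) • ind P - ((cc + 1) / n) • ind U) := by
    apply NF_congr <;> intro z hz <;>
      simp only [hg₂, Pi.sub_apply, Pi.add_apply, Pi.smul_apply, smul_eq_mul, hone z hz] <;> ring
  rw [c1, c2, c3] at key
  linarith

end

end TwoClub
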