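import Pool.Agent.TwoClub.Orbit3

/-!
The three test inequalities (null tests, `A`-tests, `B`-tests) in terms of the parameters.
-/

namespace TwoClub

open Finset

variable {V : Type*} {G : SimpleGraph V}

/-- the unknown numbers are nonnegative -/
structure Par.Nonneg (t : Par) : Prop where
  hu : 0 ≤ t.hu
  hv : 0 ≤ t.hv
  h0 : 0 ≤ t.h0
  hfA : 0 ≤ t.hfA
  hfB : 0 ≤ t.hfB
  hgA : 0 ≤ t.hgA
  hgB : 0 ≤ t.hgB
  haa : 0 ≤ t.haa
  hab : 0 ≤ t.hab
  hbb : 0 ≤ t.hbb
  hK : 0 ≤ t.hK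
  hI : 0 ≤ t.hI
  hKI : 0 ≤ t.hKI

section

variable [DecidableEq V] {U K I A B : Finset V} {u v fu gv : V} {f g : V → V}

/-- `t` describes the configuration -/
structure Cfg.Desc (_c : Cfg G U K I A B u v fu gv f g) (t : Par) : Prop where
  ha : t.a = #A
  hb : t.b = #B
  hka : t.ka = #(Kg K A v fu f)
  hio : t.io = #(Kg I B u gv g)
  nonneg : t.Nonneg
  tab : TabP (NF G U) (ind {u}) (ind {v}) (ind {fu}) (ind {gv}) (ind A + ind (A.image f))
    (ind B + ind (B.image g)) (ind (Kg K A v fu f)) (ind (Kg I B u gv g)) t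

theorem Cfg.exists_desc (c : Cfg G U K I A B u v fu gv f g) : ∃ t : Par, c.Desc t := by
  obtain ⟨hu, hv, h0, hfA, hfB, hgA, hgB, haa, hab, hbb, hK, hI, hKI, ⟨p1, p2, p3, p4, p5, p6, p7⟩,
    ⟨p8, p9, p10, p11, p12, p13⟩, ht⟩ := c.tab
  exact ⟨⟨#A, #B, #(Kg K A v fu f), #(Kg I B u gv g), hu, hv, h0, hfA, hfB, hgA, hgB, haa, hab,
    hbb, hK, hI, hKI⟩, rfl, rfl, rfl, rfl, ⟨p1, p2, p3, p4, p5, p6, p7, p8, p9, p10, p11, p12, p13⟩,
    ht⟩

/-- sizes -/
theorem Cfg.card_K (c : Cfg G U K I A B u v fu gv f g) :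
    (#(Kg K A v fu f) : ℝ) = #K - 2 - #A :=
  card_Kg c.hv c.hfu c.fv (fun w hw => ⟨(c.fK w hw).1, (c.fK w hw).2.2⟩) c.finj

theorem Cfg.card_I (c : Cfg G U K I A B u v fu gv f g) :
    (#(Kg I B u gv g) : ℝ) = #I - 2 - #B :=
  card_Kg c.hu c.hgv c.gu (fun w hw => ⟨(c.gI w hw).1, (c.gI w hw).2.2⟩) c.ginj

theorem Cfg.card_U (c : Cfg G U K I A B u v fu gv f g) :
    (#U : ℝ) = #K + #I + (#A + #B) := by
  rw [← c.hU, Finset.card_union_of_disjoint c.KO, Finset.card_union_of_disjoint c.KI,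
    Finset.card_union_of_disjoint c.AB]
  push_cast; ring

theorem Cfg.card_W (c : Cfg G U K I A B u v fu gv f g) :
    (#U : ℝ) - #(Kg K A v fu f) - #(Kg I B u gv g) = 4 + 2 * #A + 2 * #B := by
  rw [c.card_U, c.card_K, c.card_I]; ring

/-- the levels -/
noncomputable def lamf (u v fu gv : V) (lu lv lf lg : ℝ) : V → ℝ :=
  lu • ind {u} + lv • ind {v} + lf • ind {fu} + lg • ind {gv}

theorem lamf_apply (u v fu gv : V) (lu lv lf lg : ℝ) (z : V) :
    lamf u v fu gv lu lv lf lg z = lu * (if z = u then 1 else 0) + lv * (if z = v then 1 else 0) +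
      lf * (if z = fu then 1 else 0) + lg * (if z = gv then 1 else 0) := by
  simp only [lamf, Pi.add_apply, Pi.smul_apply, smul_eq_mul, ind, Finset.mem_singleton]

/-- distinctness of the four special vertices -/
theorem Cfg.distinct (c : Cfg G U K I A B u v fu gv f g) :
    u ≠ v ∧ u ≠ fu ∧ gv ≠ v ∧ gv ≠ fu := by
  have h : ∀ x ∈ K, ∀ y ∈ I, y ≠ x := fun x hx y hy h =>
    Finset.disjoint_left.1 c.KI hx (h ▸ hy)
  exact ⟨h v c.hv u c.hu, h fu c.hfu u c.hu, h v c.hv gv c.hgv, h fu c.hfu gv c.hgv⟩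

theorem Cfg.lam_u (c : Cfg G U K I A B u v fu gv f g) (lu lv lf lg : ℝ) :
    lamf u v fu gv lu lv lf lg u = lu := by
  obtain ⟨h1, h2, _, _⟩ := c.distinct
  rw [lamf_apply, if_pos rfl, if_neg h1, if_neg h2, if_neg c.gu.symm]; ring

theorem Cfg.lam_v (c : Cfg G U K I A B u v fu gv f g) (lu lv lf lg : ℝ) :
    lamf u v fu gv lu lv lf lg v = lv := by
  obtain ⟨h1, _, h3, _⟩ := c.distinct
  rw [lamf_apply, if_pos rfl, if_neg h1.symm, if_neg c.fv.symm, if_neg h3.symm]; ring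

theorem Cfg.lam_f (c : Cfg G U K I A B u v fu gv f g) (lu lv lf lg : ℝ) :
    lamf u v fu gv lu lv lf lg fu = lf := by
  obtain ⟨_, h2, _, h4⟩ := c.distinct
  rw [lamf_apply, if_pos rfl, if_neg h2.symm, if_neg c.fv, if_neg h4.symm]; ring

theorem Cfg.lam_g (c : Cfg G U K I A B u v fu gv f g) (lu lv lf lg : ℝ) :
    lamf u v fu gv lu lv lf lg gv = lg := by
  obtain ⟨_, _, h3, h4⟩ := c.distinct
  rw [lamf_apply, if_pos rfl, if_neg c.gu, if_neg h3, if_neg h4]; ring

theorem lam_o {u v fu gv : V} (lu lv lf lg : ℝ) {z : V} (h1 : z ≠ u) (h2 : z ≠ v) (h3 : z ≠ fu)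
    (h4 : z ≠ gv) : lamf u v fu gv lu lv lf lg z = 0 := by
  rw [lamf_apply, if_neg h1, if_neg h2, if_neg h3, if_neg h4]; ring

theorem Cfg.lam01 (c : Cfg G U K I A B u v fu gv f g) {lu lv lf lg : ℝ} (h1 : 0 ≤ lu ∧ lu ≤ 1)
    (h2 : 0 ≤ lv ∧ lv ≤ 1) (h3 : 0 ≤ lf ∧ lf ≤ 1) (h4 : 0 ≤ lg ∧ lg ≤ 1) (z : V) :
    0 ≤ lamf u v fu gv lu lv lf lg z ∧ lamf u v fu gv lu lv lf lg z ≤ 1 := by
  by_cases e1 : z = u
  · rw [e1, c.lam_u]; exact h1
  by_cases e2 : z = v
  · rw [e2, c.lam_v]; exact h2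
  by_cases e3 : z = fu
  · rw [e3, c.lam_f]; exact h3
  by_cases e4 : z = gv
  · rw [e4, c.lam_g]; exact h4
  rw [lam_o lu lv lf lg e1 e2 e3 e4]
  constructor <;> norm_num

theorem sum_ind_one {S : Finset V} {x : V} (h : x ∈ S) : ∑ z ∈ S, ind {x} z = 1 := by
  rw [sum_indf (Finset.singleton_subset_iff.2 h)]; simp

theorem sum_ind_zero {S : Finset V} {x : V} (h : x ∉ S) : ∑ z ∈ S, ind {x} z = 0 :=
  Finset.sum_eq_zero fun z hz => ind_not_mem fun h' => h (Finset.mem_singleton.1 h' ▸ hz)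

theorem Cfg.sub (c : Cfg G U K I A B u v fu gv f g) : K ⊆ U ∧ I ⊆ U ∧ A ⊆ U ∧ B ⊆ U := by
  rw [← c.hU]
  exact ⟨fun x hx => Finset.mem_union_left _ (Finset.mem_union_left _ hx),
    fun x hx => Finset.mem_union_left _ (Finset.mem_union_right _ hx),
    fun x hx => Finset.mem_union_right _ (Finset.mem_union_left _ hx),
    fun x hx => Finset.mem_union_right _ (Finset.mem_union_right _ hx)⟩

/-- sums of the levels -/
theorem Cfg.lam_sum (c : Cfg G U K I A B u v fu gv f g) (lu lv lf lg : ℝ) :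
    ∑ z ∈ K, lamf u v fu gv lu lv lf lg z = lv + lf ∧
    ∑ z ∈ I, lamf u v fu gv lu lv lf lg z = lu + lg ∧
    ∑ z ∈ U, lamf u v fu gv lu lv lf lg z = lu + lv + lf + lg := by
  obtain ⟨hKU, hIU, _, _⟩ := c.sub
  have hKI : ∀ z, z ∈ K → z ∉ I := fun z h1 h2 => Finset.disjoint_left.1 c.KI h1 h2
  have hIK : ∀ z, z ∈ I → z ∉ K := fun z h1 h2 => Finset.disjoint_left.1 c.KI h2 h1
  unfold lamf
  simp only [Pi.add_apply, Pi.smul_apply, smul_eq_mul, Finset.sum_add_distrib, ← Finset.mul_sum]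
  rw [sum_ind_zero (hIK u c.hu), sum_ind_one c.hv, sum_ind_one c.hfu, sum_ind_zero (hIK gv c.hgv),
    sum_ind_one c.hu, sum_ind_zero (hKI v c.hv), sum_ind_zero (hKI fu c.hfu), sum_ind_one c.hgv,
    sum_ind_one (hIU c.hu), sum_ind_one (hKU c.hv), sum_ind_one (hKU c.hfu),
    sum_ind_one (hIU c.hgv)]
  refine ⟨by ring, by ring, by ring⟩

/-- special vertices are not neutral -/
theorem Cfg.not_neutral (c : Cfg G U K I A B u v fu gv f g) {z : V}
    (h : z = u ∨ z = v ∨ z = fu ∨ z = gv ∨ z ∈ A ∪ B ∨ z ∈ A.image f ∨ z ∈ B.image g) :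
    z ∉ Kg K A v fu f ∧ z ∉ Kg I B u gv g := by
  have hKI : ∀ z, z ∈ K → z ∉ I := fun z h1 h2 => Finset.disjoint_left.1 c.KI h1 h2
  have hIK : ∀ z, z ∈ I → z ∉ K := fun z h1 h2 => Finset.disjoint_left.1 c.KI h2 h1
  have hO : ∀ z, z ∈ A ∪ B → z ∉ K ∧ z ∉ I := fun z h1 =>
    ⟨fun h2 => Finset.disjoint_left.1 c.KO (Finset.mem_union_left _ h2) h1,
      fun h2 => Finset.disjoint_left.1 c.KO (Finset.mem_union_right _ h2) h1⟩
  unfold Kg
  simp only [Finset.mem_sdiff, Finset.mem_insert, not_and, not_not]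
  rcases h with rfl | rfl | rfl | rfl | h | h | h
  · exact ⟨fun h => absurd h (hIK _ c.hu), fun _ => Or.inl rfl⟩
  · exact ⟨fun _ => Or.inl rfl, fun h => absurd h (hKI _ c.hv)⟩
  · exact ⟨fun _ => Or.inr (Or.inl rfl), fun h => absurd h (hKI _ c.hfu)⟩
  · exact ⟨fun h => absurd h (hIK _ c.hgv), fun _ => Or.inr (Or.inl rfl)⟩
  · exact ⟨fun h1 => absurd h1 (hO z h).1, fun h1 => absurd h1 (hO z h).2⟩
  · refine ⟨fun _ => Or.inr (Or.inr h), fun h1 => ?_⟩
    obtain ⟨w, hw, rfl⟩ := Finset.mem_image.1 h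
    exact absurd h1 (hKI _ (c.fK w hw).1)
  · refine ⟨fun h1 => ?_, fun _ => Or.inr (Or.inr h)⟩
    obtain ⟨w, hw, rfl⟩ := Finset.mem_image.1 h
    exact absurd h1 (hIK _ (c.gI w hw).1)

theorem Cfg.ne_special (c : Cfg G U K I A B u v fu gv f g) {z : V}
    (h : z ∈ Kg K A v fu f ∨ z ∈ Kg I B u gv g ∨ z ∈ A ∪ B ∨ z ∈ A.image f ∨ z ∈ B.image g) :
    z ≠ u ∧ z ≠ v ∧ z ≠ fu ∧ z ≠ gv := by
  have hKI : ∀ z, z ∈ K → z ∉ I := fun z h1 h2 => Finset.disjoint_left.1 c.KI h1 h2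
  have hO : ∀ z, z ∈ A ∪ B → z ∉ K ∧ z ∉ I := fun z h1 =>
    ⟨fun h2 => Finset.disjoint_left.1 c.KO (Finset.mem_union_left _ h2) h1,
      fun h2 => Finset.disjoint_left.1 c.KO (Finset.mem_union_right _ h2) h1⟩
  have n1 := c.not_neutral (z := u) (Or.inl rfl)
  have n2 := c.not_neutral (z := v) (Or.inr (Or.inl rfl))
  have n3 := c.not_neutral (z := fu) (Or.inr (Or.inr (Or.inl rfl)))
  have n4 := c.not_neutral (z := gv) (Or.inr (Or.inr (Or.inr (Or.inl rfl))))
  rcases h with h | h | h | h | h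
  · exact ⟨fun e => n1.1 (e ▸ h), fun e => n2.1 (e ▸ h), fun e => n3.1 (e ▸ h),
      fun e => n4.1 (e ▸ h)⟩
  · exact ⟨fun e => n1.2 (e ▸ h), fun e => n2.2 (e ▸ h), fun e => n3.2 (e ▸ h),
      fun e => n4.2 (e ▸ h)⟩
  · exact ⟨fun e => (hO z h).2 (e ▸ c.hu), fun e => (hO z h).1 (e ▸ c.hv),
      fun e => (hO z h).1 (e ▸ c.hfu), fun e => (hO z h).2 (e ▸ c.hgv)⟩
  · obtain ⟨w, hw, rfl⟩ := Finset.mem_image.1 h
    exact ⟨fun e => hKI _ (c.fK w hw).1 (e ▸ c.hu), (c.fK w hw).2.2.1, (c.fK w hw).2.2.2,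
      fun e => hKI _ (c.fK w hw).1 (e ▸ c.hgv)⟩
  · obtain ⟨w, hw, rfl⟩ := Finset.mem_image.1 h
    exact ⟨(c.gI w hw).2.2.1, fun e => hKI _ c.hv (e ▸ (c.gI w hw).1),
      fun e => hKI _ c.hfu (e ▸ (c.gI w hw).1), (c.gI w hw).2.2.2⟩

/-- one of the four levels is less than one, one is positive -/
theorem Cfg.exists_lt (c : Cfg G U K I A B u v fu gv f g) {lu lv lf lg : ℝ}
    (h : lu + lv + lf + lg < 4) :
    ∃ b₀, (b₀ = u ∨ b₀ = v ∨ b₀ = fu ∨ b₀ = gv) ∧ lamf u v fu gv lu lv lf lg b₀ < 1 := by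
  by_cases h1 : lu < 1
  · exact ⟨u, Or.inl rfl, by rw [c.lam_u]; exact h1⟩
  by_cases h2 : lv < 1
  · exact ⟨v, Or.inr (Or.inl rfl), by rw [c.lam_v]; exact h2⟩
  by_cases h3 : lf < 1
  · exact ⟨fu, Or.inr (Or.inr (Or.inl rfl)), by rw [c.lam_f]; exact h3⟩
  by_cases h4 : lg < 1
  · exact ⟨gv, Or.inr (Or.inr (Or.inr rfl)), by rw [c.lam_g]; exact h4⟩
  push Not at h1 h2 h3 h4
  linarith

theorem Cfg.exists_pos (c : Cfg G U K I A B u v fu gv f g) {lu lv lf lg : ℝ}
    (h : 0 < lu + lv + lf + lg) :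
    ∃ a₀, (a₀ = u ∨ a₀ = v ∨ a₀ = fu ∨ a₀ = gv) ∧ 0 < lamf u v fu gv lu lv lf lg a₀ := by
  by_cases h1 : 0 < lu
  · exact ⟨u, Or.inl rfl, by rw [c.lam_u]; exact h1⟩
  by_cases h2 : 0 < lv
  · exact ⟨v, Or.inr (Or.inl rfl), by rw [c.lam_v]; exact h2⟩
  by_cases h3 : 0 < lf
  · exact ⟨fu, Or.inr (Or.inr (Or.inl rfl)), by rw [c.lam_f]; exact h3⟩
  by_cases h4 : 0 < lg
  · exact ⟨gv, Or.inr (Or.inr (Or.inr rfl)), by rw [c.lam_g]; exact h4⟩
  push Not at h1 h2 h3 h4
  linarith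

theorem Cfg.special_mem (c : Cfg G U K I A B u v fu gv f g) {z : V}
    (h : z = u ∨ z = v ∨ z = fu ∨ z = gv) : z ∈ U := by
  obtain ⟨hKU, hIU, _, _⟩ := c.sub
  rcases h with rfl | rfl | rfl | rfl
  · exact hIU c.hu
  · exact hKU c.hv
  · exact hKU c.hfu
  · exact hIU c.hgv

/-- rounding conditions for a neutral test with `K`-part `wK` and `I`-part `wI` -/
structure Feas (t : Par) (cc : ℕ) (p wK wI r s : ℝ) : Prop where
  p0 : 0 ≤ p
  hs : s = Int.fract (wI + p * t.io)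
  hr : r = Int.fract (wK + p * t.ka - cc * (wI + p * t.io))
  f1 : s ≤ p * t.io
  f2 : p * t.io + 1 ≤ t.io
  f3 : r + cc * s ≤ p * t.ka
  f4 : p * t.ka + 1 + cc ≤ t.ka

theorem Cfg.Desc.rounding {c : Cfg G U K I A B u v fu gv f g} {t : Par} (D : c.Desc t)
    (hka : t.ka ≠ 0) (hio : t.io ≠ 0) (cc : ℕ) :
    NF G U ((1 / (#(Kg K A v fu f) : ℝ)) • ind (Kg K A v fu f) - (1 / (#U : ℝ)) • ind U)
        ((1 / (#(Kg K A v fu f) : ℝ)) • ind (Kg K A v fu f) - (1 / (#U : ℝ)) • ind U) =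
      t.F1 #U ∧
    NF G U ((1 / (#(Kg I B u gv g) : ℝ)) • ind (Kg I B u gv g) +
          (cc / (#(Kg K A v fu f) : ℝ)) • ind (Kg K A v fu f) - ((cc + 1) / (#U : ℝ)) • ind U)
        ((1 / (#(Kg I B u gv g) : ℝ)) • ind (Kg I B u gv g) +
          (cc / (#(Kg K A v fu f) : ℝ)) • ind (Kg K A v fu f) - ((cc + 1) / (#U : ℝ)) • ind U) =
      t.F2 #U cc := by
  have h1 := D.tab.F1 (n := (#U : ℝ)) c.ind_U hka
  have h2 := D.tab.F2 (n := (#U : ℝ)) (cc := (cc : ℝ)) c.ind_U hka hio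
  rw [D.hka] at h1
  rw [D.hka, D.hio] at h2
  exact ⟨h1, h2⟩

theorem Feas.pos {t : Par} {cc : ℕ} {p wK wI r s : ℝ} (F : Feas t cc p wK wI r s)
    (h1 : 0 ≤ t.ka) (h2 : 0 ≤ t.io) : 0 < t.ka ∧ 0 < t.io := by
  have hcc : (0 : ℝ) ≤ cc := Nat.cast_nonneg _
  constructor
  · nlinarith [mul_nonneg F.p0 h1, F.f4]
  · nlinarith [mul_nonneg F.p0 h2, F.f2]

/-- null test -/
theorem Cfg.null_test (c : Cfg G U K I A B u v fu gv f g) (hs : Solid G 0 U) {t : Par}
    (D : c.Desc t) {cc : ℕ} {lu lv lf lg p r s : ℝ} (h1 : 0 ≤ lu ∧ lu ≤ 1)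
    (h2 : 0 ≤ lv ∧ lv ≤ 1) (h3 : 0 ≤ lf ∧ lf ≤ 1) (h4 : 0 ≤ lg ∧ lg ≤ 1)
    (hpos : 0 < lu + lv + lf + lg) (hlt : lu + lv + lf + lg < 4)
    (hp : p * (4 + 2 * t.a + 2 * t.b) = lu + lv + lf + lg)
    (F : Feas t cc p (lv + lf) (lu + lg) r s) :
    0 < t.nul lu lv lf lg p + r * (1 - r) * t.F1 #U + s * (1 - s) * t.F2 #U cc := by
  obtain ⟨s1, s2, s3⟩ := c.lam_sum lu lv lf lg
  obtain ⟨a₀, ha₀, hda⟩ := c.exists_pos hpos
  obtain ⟨b₀, hb₀, hdb⟩ := c.exists_lt hlt
  obtain ⟨pka, pio⟩ := F.pos (by rw [D.hka]; exact Nat.cast_nonneg _)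
    (by rw [D.hio]; exact Nat.cast_nonneg _)
  obtain ⟨R1, R2⟩ := D.rounding pka.ne' pio.ne' cc
  have na := c.not_neutral (z := a₀) (by tauto)
  have nb := c.not_neutral (z := b₀) (by tauto)
  have key := c.core hs (d := lamf u v fu gv lu lv lf lg) (p := p) (wK := lv + lf)
    (wI := lu + lg) cc (fun z _ => c.lam01 h1 h2 h3 h4 z)
    (fun z hz => by
      obtain ⟨n1, n2, n3, n4⟩ := c.ne_special (Or.inl hz)
      exact lam_o lu lv lf lg n1 n2 n3 n4)
    (fun z hz => by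
      obtain ⟨n1, n2, n3, n4⟩ := c.ne_special (Or.inr (Or.inl hz))
      exact lam_o lu lv lf lg n1 n2 n3 n4)
    (fun z hz => by
      obtain ⟨n1, n2, n3, n4⟩ := c.ne_special (Or.inr (Or.inr (Or.inl hz)))
      exact Or.inl (lam_o lu lv lf lg n1 n2 n3 n4))
    s1 s2 (by rw [c.card_W, s3, ← D.ha, ← D.hb]; exact hp) F.p0
    (r := r) (s := s) (by rw [← D.hio]; exact F.hs) (by rw [← D.hio, ← D.hka]; exact F.hr)
    (by rw [← D.hio]; exact F.f1) (by rw [← D.hio]; exact F.f2) (by rw [← D.hka]; exact F.f3)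
    (by rw [← D.hka]; exact F.f4) (c.special_mem ha₀) (c.special_mem hb₀) na.1 na.2 nb.1 nb.2
    hda hdb
  have hn := D.tab.nul (lu := lu) (lv := lv) (lf := lf) (lg := lg) (p := p)
    (ω := omf A B u v fu gv f g) (lam := lamf u v fu gv lu lv lf lg) rfl rfl
  rw [R1, R2, hn] at key
  exact key

/-- the `A`-tests -/
theorem Cfg.A_test (c : Cfg G U K I A B u v fu gv f g) (hs : Solid G 0 U) {t : Par}
    (D : c.Desc t) {cc : ℕ} {lu lv lf lg p r s : ℝ} (h1 : 0 ≤ lu ∧ lu ≤ 1)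
    (h2 : 0 ≤ lv ∧ lv ≤ 1) (h3 : 0 ≤ lf ∧ lf ≤ 1) (h4 : 0 ≤ lg ∧ lg ≤ 1)
    (hA : A.Nonempty) (hlt : lu + lv + lf + lg < 4)
    (hp : p * (4 + 2 * t.a + 2 * t.b) = 2 + (lu + lv + lf + lg))
    (F : Feas t cc p (1 + (lv + lf)) (lu + lg) r s) :
    0 < t.sA lu lv lf lg p + t.a * (r * (1 - r) * t.F1 #U + s * (1 - s) * t.F2 #U cc) := by
  obtain ⟨s1, s2, s3⟩ := c.lam_sum lu lv lf lg
  obtain ⟨b₀, hb₀, hdb⟩ := c.exists_lt hlt
  obtain ⟨pka, pio⟩ := F.pos (by rw [D.hka]; exact Nat.cast_nonneg _)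
    (by rw [D.hio]; exact Nat.cast_nonneg _)
  obtain ⟨R1, R2⟩ := D.rounding pka.ne' pio.ne' cc
  obtain ⟨hKU, hIU, hAU, hBU⟩ := c.sub
  have hKI : ∀ z, z ∈ K → z ∉ I := fun z h1 h2 => Finset.disjoint_left.1 c.KI h1 h2
  have hO : ∀ z, z ∈ A ∪ B → z ∉ K ∧ z ∉ I := fun z h1 =>
    ⟨fun h2 => Finset.disjoint_left.1 c.KO (Finset.mem_union_left _ h2) h1,
      fun h2 => Finset.disjoint_left.1 c.KO (Finset.mem_union_right _ h2) h1⟩
  have nb := c.not_neutral (z := b₀) (by tauto)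
  have hsum := D.tab.sA (lu := lu) (lv := lv) (lf := lf) (lg := lg) (p := p)
    (ω := omf A B u v fu gv f g) (lam := lamf u v fu gv lu lv lf lg) rfl rfl (A := A)
    (d := fun w => ind {w} + ind {f w}) D.ha.symm
    (by rw [Finset.sum_add_distrib, ← ind_biUnion_singleton, ← ind_image A c.finj])
    (fun w hw => by
      have hwU := hAU hw
      have hfU := hKU (c.fK w hw).1
      have e1 := NF_ind (G := G) (Finset.singleton_subset_iff.2 hwU)
        (Finset.singleton_subset_iff.2 hwU)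
      have e2 := NF_ind (G := G) (Finset.singleton_subset_iff.2 hfU)
        (Finset.singleton_subset_iff.2 hfU)
      have e3 := NF_ind (G := G) (Finset.singleton_subset_iff.2 hwU)
        (Finset.singleton_subset_iff.2 hfU)
      rw [nn_single] at e1 e2 e3
      rw [quad_add (fun x y => NF_comm U x y), e1, e2, e3, nd_self, nd_self,
        nd_of_adj (c.fK w hw).2.1]
      norm_num)
  have key : ∀ w ∈ A, 0 < NF G U (lamf u v fu gv lu lv lf lg + (ind {w} + ind {f w}) -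
        p • omf A B u v fu gv f g)
      (lamf u v fu gv lu lv lf lg + (ind {w} + ind {f w}) - p • omf A B u v fu gv f g) +
      r * (1 - r) * t.F1 #U + s * (1 - s) * t.F2 #U cc := by
    intro w hw
    obtain ⟨wK, wI⟩ := hO w (Finset.mem_union_left _ hw)
    have fwK := (c.fK w hw).1
    have hwf : w ≠ f w := fun h => wK (h ▸ fwK)
    obtain ⟨m1, m2, m3, m4⟩ := c.ne_special (z := w) (Or.inr (Or.inr (Or.inl
      (Finset.mem_union_left _ hw))))
    obtain ⟨m5, m6, m7, m8⟩ := c.ne_special (z := f w) (Or.inr (Or.inr (Or.inr (Or.inl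
      (Finset.mem_image_of_mem f hw)))))
    have dval : ∀ z, (lamf u v fu gv lu lv lf lg + (ind {w} + ind {f w})) z =
        lamf u v fu gv lu lv lf lg z + (if z = w then 1 else 0) + (if z = f w then 1 else 0) := by
      intro z
      simp only [Pi.add_apply, ind, Finset.mem_singleton]; ring
    have key := c.core hs (d := lamf u v fu gv lu lv lf lg + (ind {w} + ind {f w})) (p := p)
      (wK := 1 + (lv + lf)) (wI := lu + lg) cc
      (fun z _ => by
        rw [dval]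
        by_cases e1 : z = w
        · rw [e1, if_pos rfl, if_neg hwf, lam_o lu lv lf lg m1 m2 m3 m4]
          constructor <;> norm_num
        by_cases e2 : z = f w
        · rw [e2, if_neg hwf.symm, if_pos rfl, lam_o lu lv lf lg m5 m6 m7 m8]
          constructor <;> norm_num
        rw [if_neg e1, if_neg e2, add_zero, add_zero]
        exact c.lam01 h1 h2 h3 h4 z)
      (fun z hz => by
        obtain ⟨n1, n2, n3, n4⟩ := c.ne_special (Or.inl hz)
        have e1 : z ≠ w := fun e => (c.not_neutral (z := w) (by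
          right; right; right; right; left; exact Finset.mem_union_left _ hw)).1 (e ▸ hz)
        have e2 : z ≠ f w := fun e => (c.not_neutral (z := f w) (by
          right; right; right; right; right; left; exact Finset.mem_image_of_mem f hw)).1 (e ▸ hz)
        rw [dval, if_neg e1, if_neg e2, lam_o lu lv lf lg n1 n2 n3 n4]; ring)
      (fun z hz => by
        obtain ⟨n1, n2, n3, n4⟩ := c.ne_special (Or.inr (Or.inl hz))
        have e1 : z ≠ w := fun e => (c.not_neutral (z := w) (by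
          right; right; right; right; left; exact Finset.mem_union_left _ hw)).2 (e ▸ hz)
        have e2 : z ≠ f w := fun e => (c.not_neutral (z := f w) (by
          right; right; right; right; right; left; exact Finset.mem_image_of_mem f hw)).2 (e ▸ hz)
        rw [dval, if_neg e1, if_neg e2, lam_o lu lv lf lg n1 n2 n3 n4]; ring)
      (fun z hz => by
        obtain ⟨n1, n2, n3, n4⟩ := c.ne_special (Or.inr (Or.inr (Or.inl hz)))
        have e2 : z ≠ f w := fun e => (hO z hz).1 (e ▸ fwK)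
        rw [dval, if_neg e2, lam_o lu lv lf lg n1 n2 n3 n4]
        by_cases e1 : z = w
        · rw [if_pos e1]; right; ring
        · rw [if_neg e1]; left; ring)
      (by
        simp only [Pi.add_apply, Finset.sum_add_distrib]
        rw [s1, sum_ind_zero wK, sum_ind_one fwK]; ring)
      (by
        simp only [Pi.add_apply, Finset.sum_add_distrib]
        rw [s2, sum_ind_zero wI, sum_ind_zero (hKI _ fwK)]; ring)
      (by
        simp only [Pi.add_apply, Finset.sum_add_distrib]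
        rw [c.card_W, s3, sum_ind_one (hAU hw), sum_ind_one (hKU fwK), ← D.ha, ← D.hb, hp]
        ring) F.p0
      (r := r) (s := s) (by rw [← D.hio]; exact F.hs) (by rw [← D.hio, ← D.hka]; exact F.hr)
      (by rw [← D.hio]; exact F.f1) (by rw [← D.hio]; exact F.f2) (by rw [← D.hka]; exact F.f3)
      (by rw [← D.hka]; exact F.f4) (hAU hw) (c.special_mem hb₀)
      (c.not_neutral (z := w) (by
        right; right; right; right; left; exact Finset.mem_union_left _ hw)).1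
      (c.not_neutral (z := w) (by
        right; right; right; right; left; exact Finset.mem_union_left _ hw)).2 nb.1 nb.2
      (by
        rw [dval, if_pos rfl, if_neg hwf, lam_o lu lv lf lg m1 m2 m3 m4]; norm_num)
      (by
        have e1 : b₀ ≠ w := by
          rintro rfl
          rcases hb₀ with h | h | h | h
          · exact m1 h
          · exact m2 h
          · exact m3 h
          · exact m4 h
        have e2 : b₀ ≠ f w := by
          intro e
          rw [e] at hb₀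
          rcases hb₀ with h | h | h | h
          · exact m5 h
          · exact m6 h
          · exact m7 h
          · exact m8 h
        rw [dval, if_neg e1, if_neg e2, add_zero, add_zero]; exact hdb)
    rw [R1, R2] at key
    exact key
  have h5 := Finset.sum_pos key hA
  rw [Finset.sum_add_distrib, Finset.sum_add_distrib, Finset.sum_const, Finset.sum_const,
    nsmul_eq_mul, nsmul_eq_mul, hsum, ← D.ha] at h5
  linarith

/-- the `B`-tests -/
theorem Cfg.B_test (c : Cfg G U K I A B u v fu gv f g) (hs : Solid G 0 U) {t : Par}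
    (D : c.Desc t) {cc : ℕ} {lu lv lf lg p r s : ℝ} (h1 : 0 ≤ lu ∧ lu ≤ 1)
    (h2 : 0 ≤ lv ∧ lv ≤ 1) (h3 : 0 ≤ lf ∧ lf ≤ 1) (h4 : 0 ≤ lg ∧ lg ≤ 1)
    (hB : B.Nonempty) (hlt : lu + lv + lf + lg < 4)
    (hp : p * (4 + 2 * t.a + 2 * t.b) = 2 + (lu + lv + lf + lg))
    (F : Feas t cc p (lv + lf) (1 + (lu + lg)) r s) :
    0 < t.sB lu lv lf lg p + t.b * (r * (1 - r) * t.F1 #U + s * (1 - s) * t.F2 #U cc) := by
  obtain ⟨s1, s2, s3⟩ := c.lam_sum lu lv lf lg
  obtain ⟨b₀, hb₀, hdb⟩ := c.exists_lt hlt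
  obtain ⟨pka, pio⟩ := F.pos (by rw [D.hka]; exact Nat.cast_nonneg _)
    (by rw [D.hio]; exact Nat.cast_nonneg _)
  obtain ⟨R1, R2⟩ := D.rounding pka.ne' pio.ne' cc
  obtain ⟨hKU, hIU, hAU, hBU⟩ := c.sub
  have hIK : ∀ z, z ∈ I → z ∉ K := fun z h1 h2 => Finset.disjoint_left.1 c.KI h2 h1
  have hO : ∀ z, z ∈ A ∪ B → z ∉ K ∧ z ∉ I := fun z h1 =>
    ⟨fun h2 => Finset.disjoint_left.1 c.KO (Finset.mem_union_left _ h2) h1,
      fun h2 => Finset.disjoint_left.1 c.KO (Finset.mem_union_right _ h2) h1⟩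
  have nb := c.not_neutral (z := b₀) (by tauto)
  have hsum := D.tab.sB (lu := lu) (lv := lv) (lf := lf) (lg := lg) (p := p)
    (ω := omf A B u v fu gv f g) (lam := lamf u v fu gv lu lv lf lg) rfl rfl (B := B)
    (d := fun w => ind {w} + ind {g w}) D.hb.symm
    (by rw [Finset.sum_add_distrib, ← ind_biUnion_singleton, ← ind_image B c.ginj])
    (fun w hw => by
      have hwU := hBU hw
      have hfU := hIU (c.gI w hw).1
      have e1 := NF_ind (G := G) (Finset.singleton_subset_iff.2 hwU)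
        (Finset.singleton_subset_iff.2 hwU)
      have e2 := NF_ind (G := G) (Finset.singleton_subset_iff.2 hfU)
        (Finset.singleton_subset_iff.2 hfU)
      have e3 := NF_ind (G := G) (Finset.singleton_subset_iff.2 hwU)
        (Finset.singleton_subset_iff.2 hfU)
      rw [nn_single] at e1 e2 e3
      rw [quad_add (fun x y => NF_comm U x y), e1, e2, e3, nd_self, nd_self,
        nd_of_adj (c.gI w hw).2.1]
      norm_num)
  have key : ∀ w ∈ B, 0 < NF G U (lamf u v fu gv lu lv lf lg + (ind {w} + ind {g w}) -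
        p • omf A B u v fu gv f g)
      (lamf u v fu gv lu lv lf lg + (ind {w} + ind {g w}) - p • omf A B u v fu gv f g) +
      r * (1 - r) * t.F1 #U + s * (1 - s) * t.F2 #U cc := by
    intro w hw
    obtain ⟨wK, wI⟩ := hO w (Finset.mem_union_right _ hw)
    have fwK := (c.gI w hw).1
    have hwf : w ≠ g w := fun h => wI (h ▸ fwK)
    obtain ⟨m1, m2, m3, m4⟩ := c.ne_special (z := w) (Or.inr (Or.inr (Or.inl
      (Finset.mem_union_right _ hw))))
    obtain ⟨m5, m6, m7, m8⟩ := c.ne_special (z := g w) (Or.inr (Or.inr (Or.inr (Or.inr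
      (Finset.mem_image_of_mem g hw)))))
    have dval : ∀ z, (lamf u v fu gv lu lv lf lg + (ind {w} + ind {g w})) z =
        lamf u v fu gv lu lv lf lg z + (if z = w then 1 else 0) + (if z = g w then 1 else 0) := by
      intro z
      simp only [Pi.add_apply, ind, Finset.mem_singleton]; ring
    have key := c.core hs (d := lamf u v fu gv lu lv lf lg + (ind {w} + ind {g w})) (p := p)
      (wK := lv + lf) (wI := 1 + (lu + lg)) cc
      (fun z _ => by
        rw [dval]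
        by_cases e1 : z = w
        · rw [e1, if_pos rfl, if_neg hwf, lam_o lu lv lf lg m1 m2 m3 m4]
          constructor <;> norm_num
        by_cases e2 : z = g w
        · rw [e2, if_neg hwf.symm, if_pos rfl, lam_o lu lv lf lg m5 m6 m7 m8]
          constructor <;> norm_num
        rw [if_neg e1, if_neg e2, add_zero, add_zero]
        exact c.lam01 h1 h2 h3 h4 z)
      (fun z hz => by
        obtain ⟨n1, n2, n3, n4⟩ := c.ne_special (Or.inl hz)
        have e1 : z ≠ w := fun e => (c.not_neutral (z := w) (by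
          right; right; right; right; left; exact Finset.mem_union_right _ hw)).1 (e ▸ hz)
        have e2 : z ≠ g w := fun e => (c.not_neutral (z := g w) (by
          right; right; right; right; right; right; exact Finset.mem_image_of_mem g hw)).1 (e ▸ hz)
        rw [dval, if_neg e1, if_neg e2, lam_o lu lv lf lg n1 n2 n3 n4]; ring)
      (fun z hz => by
        obtain ⟨n1, n2, n3, n4⟩ := c.ne_special (Or.inr (Or.inl hz))
        have e1 : z ≠ w := fun e => (c.not_neutral (z := w) (by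
          right; right; right; right; left; exact Finset.mem_union_right _ hw)).2 (e ▸ hz)
        have e2 : z ≠ g w := fun e => (c.not_neutral (z := g w) (by
          right; right; right; right; right; right; exact Finset.mem_image_of_mem g hw)).2 (e ▸ hz)
        rw [dval, if_neg e1, if_neg e2, lam_o lu lv lf lg n1 n2 n3 n4]; ring)
      (fun z hz => by
        obtain ⟨n1, n2, n3, n4⟩ := c.ne_special (Or.inr (Or.inr (Or.inl hz)))
        have e2 : z ≠ g w := fun e => (hO z hz).2 (e ▸ fwK)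
        rw [dval, if_neg e2, lam_o lu lv lf lg n1 n2 n3 n4]
        by_cases e1 : z = w
        · rw [if_pos e1]; right; ring
        · rw [if_neg e1]; left; ring)
      (by
        simp only [Pi.add_apply, Finset.sum_add_distrib]
        rw [s1, sum_ind_zero wK, sum_ind_zero (hIK _ fwK)]; ring)
      (by
        simp only [Pi.add_apply, Finset.sum_add_distrib]
        rw [s2, sum_ind_zero wI, sum_ind_one fwK]; ring)
      (by
        simp only [Pi.add_apply, Finset.sum_add_distrib]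
        rw [c.card_W, s3, sum_ind_one (hBU hw), sum_ind_one (hIU fwK), ← D.ha, ← D.hb, hp]
        ring) F.p0
      (r := r) (s := s) (by rw [← D.hio]; exact F.hs) (by rw [← D.hio, ← D.hka]; exact F.hr)
      (by rw [← D.hio]; exact F.f1) (by rw [← D.hio]; exact F.f2) (by rw [← D.hka]; exact F.f3)
      (by rw [← D.hka]; exact F.f4) (hBU hw) (c.special_mem hb₀)
      (c.not_neutral (z := w) (by
        right; right; right; right; left; exact Finset.mem_union_right _ hw)).1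
      (c.not_neutral (z := w) (by
        right; right; right; right; left; exact Finset.mem_union_right _ hw)).2 nb.1 nb.2
      (by
        rw [dval, if_pos rfl, if_neg hwf, lam_o lu lv lf lg m1 m2 m3 m4]; norm_num)
      (by
        have e1 : b₀ ≠ w := by
          rintro rfl
          rcases hb₀ with h | h | h | h
          · exact m1 h
          · exact m2 h
          · exact m3 h
          · exact m4 h
        have e2 : b₀ ≠ g w := by
          intro e
          rw [e] at hb₀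
          rcases hb₀ with h | h | h | h
          · exact m5 h
          · exact m6 h
          · exact m7 h
          · exact m8 h
        rw [dval, if_neg e1, if_neg e2, add_zero, add_zero]; exact hdb)
    rw [R1, R2] at key
    exact key
  have h5 := Finset.sum_pos key hB
  rw [Finset.sum_add_distrib, Finset.sum_add_distrib, Finset.sum_const, Finset.sum_const,
    nsmul_eq_mul, nsmul_eq_mul, hsum, ← D.hb] at h5
  linarith

end

end TwoClub
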