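import Pool.Agent.TwoClub.OrbitW
import Pool.Agent.TwoClub.Good

/-!
`Data` + the four kinds of test inequalities on `W` + `Good` constants give a contradiction.
-/

namespace TwoClub

open Finset

variable {V : Type*} {G : SimpleGraph V}

section

variable [DecidableEq V] {U K I A B : Finset V} {u v : V} {f g : V → V}

/-- the null test at `v` -/
noncomputable def tV (v : V) (g : V → V) (th : ℝ) : V → ℝ := ind {v} + th • ind {g v}

/-- the null test at `u` -/
noncomputable def tU (u : V) (f : V → V) : V → ℝ := ind {u} + ind {f u}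

/-- the test at `w ∈ A` -/
noncomputable def tA (u : V) (f : V → V) (mu : ℝ) (w : V) : V → ℝ :=
  ind {w} + ind {f w} + mu • ind {u}

/-- the test at `w ∈ B` -/
noncomputable def tB (v : V) (g : V → V) (w : V) : V → ℝ := ind {w} + ind {g w} + ind {v}

theorem sum_ind1 {S : Finset V} {x : V} (h : x ∈ S) : ∑ z ∈ S, ind {x} z = 1 := by
  rw [sum_indf (Finset.singleton_subset_iff.2 h)]; simp

theorem sum_ind0 {S : Finset V} {x : V} (h : x ∉ S) : ∑ z ∈ S, ind {x} z = 0 :=
  Finset.sum_eq_zero fun z hz => by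
    have hzx : z ≠ x := fun e => h (e ▸ hz)
    simp [ind, hzx]

theorem uW : u ∈ Wset A B u v f g :=
  Finset.mem_union_left _ (Finset.mem_union_left _ (Finset.mem_insert_self _ _))

theorem vW : v ∈ Wset A B u v f g :=
  Finset.mem_union_right _ (Finset.mem_union_left _ (Finset.mem_insert_self _ _))

theorem fuW : f u ∈ Wset A B u v f g :=
  Finset.mem_union_left _ (Finset.mem_union_right _ (Finset.mem_image_of_mem f
    (Finset.mem_insert_self _ _)))

theorem gvW : g v ∈ Wset A B u v f g :=
  Finset.mem_union_right _ (Finset.mem_union_right _ (Finset.mem_image_of_mem g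
    (Finset.mem_insert_self _ _)))

theorem aW {w : V} (h : w ∈ A) : w ∈ Wset A B u v f g :=
  Finset.mem_union_left _ (Finset.mem_union_left _ (Finset.mem_insert_of_mem h))

theorem faW {w : V} (h : w ∈ A) : f w ∈ Wset A B u v f g :=
  Finset.mem_union_left _ (Finset.mem_union_right _ (Finset.mem_image_of_mem f
    (Finset.mem_insert_of_mem h)))

theorem bW {w : V} (h : w ∈ B) : w ∈ Wset A B u v f g :=
  Finset.mem_union_right _ (Finset.mem_union_left _ (Finset.mem_insert_of_mem h))

theorem gbW {w : V} (h : w ∈ B) : g w ∈ Wset A B u v f g :=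
  Finset.mem_union_right _ (Finset.mem_union_right _ (Finset.mem_image_of_mem g
    (Finset.mem_insert_of_mem h)))

theorem Data.W_sub (D : Data G U K I A B u v f g) : Wset A B u v f g ⊆ U := by
  intro z hz
  unfold Wset at hz
  rw [Finset.mem_union, Finset.mem_union, Finset.mem_union] at hz
  rcases hz with (h | h) | (h | h)
  · rcases Finset.mem_insert.1 h with rfl | h
    · exact D.IU D.uI
    · exact D.AU h
  · obtain ⟨w, hw, rfl⟩ := Finset.mem_image.1 h
    exact D.KU (D.fK w hw).1
  · rcases Finset.mem_insert.1 h with rfl | h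
    · exact D.KU D.vK
    · exact D.BU h
  · obtain ⟨w, hw, rfl⟩ := Finset.mem_image.1 h
    exact D.IU (D.gI w hw).1

theorem Data.injA (D : Data G U K I A B u v f g) : Set.InjOn f (A : Set V) :=
  fun x hx y hy h => D.finj (Finset.mem_coe.2 (Finset.mem_insert_of_mem (Finset.mem_coe.1 hx)))
    (Finset.mem_coe.2 (Finset.mem_insert_of_mem (Finset.mem_coe.1 hy))) h

/-- number of elements of `W` -/
theorem Data.card_W (D : Data G U K I A B u v f g) :
    (#(Wset A B u v f g) : ℝ) = 2 * (#A + #B) + 4 := by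
  have h := D.ind_W
  have h0 : ∑ x ∈ Wset A B u v f g, ind (Wset A B u v f g) x = #(Wset A B u v f g) :=
    sum_indf (Finset.Subset.refl _)
  have hA : A ⊆ Wset A B u v f g := fun x hx => aW hx
  have hF : A.image f ⊆ Wset A B u v f g := fun x hx => by
    obtain ⟨w, hw, rfl⟩ := Finset.mem_image.1 hx
    exact faW hw
  have hB : B ⊆ Wset A B u v f g := fun x hx => bW hx
  have hG : B.image g ⊆ Wset A B u v f g := fun x hx => by
    obtain ⟨w, hw, rfl⟩ := Finset.mem_image.1 hx
    exact gbW hw
  rw [← h0]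
  conv_lhs => rw [h]
  simp only [Pi.add_apply, Finset.sum_add_distrib]
  rw [sum_ind1 uW, sum_ind1 vW, sum_ind1 fuW, sum_ind1 gvW, sum_indf hA, sum_indf hF, sum_indf hB,
    sum_indf hG, Finset.card_image_of_injOn D.injA, Finset.card_image_of_injOn D.swap.injA]
  ring

/-- sums of the test functions over `W` -/
theorem sum_tV (th : ℝ) : ∑ z ∈ Wset A B u v f g, tV v g th z = 1 + th := by
  simp only [tV, Pi.add_apply, Pi.smul_apply, smul_eq_mul, Finset.sum_add_distrib,
    ← Finset.mul_sum]
  rw [sum_ind1 vW, sum_ind1 gvW]; ring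

theorem sum_tU : ∑ z ∈ Wset A B u v f g, tU u f z = 2 := by
  simp only [tU, Pi.add_apply, Finset.sum_add_distrib]
  rw [sum_ind1 uW, sum_ind1 fuW]; norm_num

theorem sum_tA {w : V} (hw : w ∈ A) (mu : ℝ) :
    ∑ z ∈ Wset A B u v f g, tA u f mu w z = 2 + mu := by
  simp only [tA, Pi.add_apply, Pi.smul_apply, smul_eq_mul, Finset.sum_add_distrib,
    ← Finset.mul_sum]
  rw [sum_ind1 uW, sum_ind1 (aW hw), sum_ind1 (faW hw)]; ring

theorem sum_tB {w : V} (hw : w ∈ B) : ∑ z ∈ Wset A B u v f g, tB v g w z = 3 := by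
  simp only [tB, Pi.add_apply, Finset.sum_add_distrib]
  rw [sum_ind1 vW, sum_ind1 (bW hw), sum_ind1 (gbW hw)]; norm_num

/-- **the contradiction** -/
theorem Data.false_of_good (D : Data G U K I A B u v f g) {w th mu Ga XV XU XA XB R : ℝ}
    (H : Good #A #B w th mu Ga XV XU XA XB)
    (hR : R = 1 / 8 + 2 * Ga * (2 * (#A + #B) + 4) * (w + #A + #B))
    (hV : BF G (Wset A B u v f g)
        (fun x => tV v g th x - (∑ z ∈ Wset A B u v f g, tV v g th z) / #(Wset A B u v f g))
        (fun x => tV v g th x - (∑ z ∈ Wset A B u v f g, tV v g th z) / #(Wset A B u v f g)) +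
      Ga * ee G (Wset A B u v f g) (Wset A B u v f g) < R)
    (hU : BF G (Wset A B u v f g)
        (fun x => tU u f x - (∑ z ∈ Wset A B u v f g, tU u f z) / #(Wset A B u v f g))
        (fun x => tU u f x - (∑ z ∈ Wset A B u v f g, tU u f z) / #(Wset A B u v f g)) +
      Ga * ee G (Wset A B u v f g) (Wset A B u v f g) < R)
    (hA : ∀ w ∈ A, BF G (Wset A B u v f g)
        (fun x => tA u f mu w x -
          (∑ z ∈ Wset A B u v f g, tA u f mu w z) / #(Wset A B u v f g))
        (fun x => tA u f mu w x -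
          (∑ z ∈ Wset A B u v f g, tA u f mu w z) / #(Wset A B u v f g)) +
      Ga * ee G (Wset A B u v f g) (Wset A B u v f g) < R)
    (hB : ∀ w ∈ B, BF G (Wset A B u v f g)
        (fun x => tB v g w x - (∑ z ∈ Wset A B u v f g, tB v g w z) / #(Wset A B u v f g))
        (fun x => tB v g w x - (∑ z ∈ Wset A B u v f g, tB v g w z) / #(Wset A B u v f g)) +
      Ga * ee G (Wset A B u v f g) (Wset A B u v f g) < R) : False := by
  obtain ⟨a, ha⟩ : ∃ a : ℝ, a = #A := ⟨_, rfl⟩
  obtain ⟨b, hb⟩ : ∃ b : ℝ, b = #B := ⟨_, rfl⟩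
  obtain ⟨N, hN⟩ : ∃ N : ℝ, N = 2 * (a + b) + 4 := ⟨_, rfl⟩
  have ha0 : 0 ≤ a := by rw [ha]; exact Nat.cast_nonneg _
  have hb0 : 0 ≤ b := by rw [hb]; exact Nat.cast_nonneg _
  have hN0 : 0 < N := by rw [hN]; linarith
  have hW : (#(Wset A B u v f g) : ℝ) = N := by rw [D.card_W, hN, ha, hb]
  rw [← ha, ← hb] at H hR
  rw [← hN] at hR
  have Hc := H.hC
  have Hf := H.hf
  have Hg := H.hg
  have HuA := H.uA
  have HvB := H.vB
  have Hs := H.star
  rw [← hN] at Hc Hf Hg HuA HvB Hs
  rw [← AF_sub_ind, sum_tV, hW] at hV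
  rw [← AF_sub_ind, sum_tU, hW] at hU
  have hA' : ∀ w ∈ A, AF G (Wset A B u v f g)
        (ind {w} + ind {f w} + mu • ind {u} - ((2 + mu) / N) • ind (Wset A B u v f g))
        (ind {w} + ind {f w} + mu • ind {u} - ((2 + mu) / N) • ind (Wset A B u v f g)) +
      Ga * ee G (Wset A B u v f g) (Wset A B u v f g) < R := by
    intro w hw
    have h := hA w hw
    rw [← AF_sub_ind, sum_tA hw, hW] at h
    exact h
  have hB' : ∀ w ∈ B, AF G (Wset A B u v f g)
        (ind {w} + ind {g w} + ind {v} - (3 / N) • ind (Wset A B u v f g))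
        (ind {w} + ind {g w} + ind {v} - (3 / N) • ind (Wset A B u v f g)) +
      Ga * ee G (Wset A B u v f g) (Wset A B u v f g) < R := by
    intro w hw
    have h := hB w hw
    rw [← AF_sub_ind, sum_tB hw, hW] at h
    exact h
  have hXV : 0 < XV := by
    by_contra h
    push Not at h
    have h1 : XV = 0 := le_antisymm h H.nV
    rw [h1, mul_zero] at Hg
    linarith
  have key := D.orbit (θ := th) (μ := mu) (pV := (1 + th) / N) (pU := 2 / N)
    (pA := (2 + mu) / N) (pB := 3 / N) (Γ := Ga) (R := R) (XV := XV) (XU := XU) (al := XA)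
    (be := XB) (lam := 4 * XU / N) hXV H.nU.le H.nA H.nB hV (fun _ => hU) hA' hB'
    (by
      have : 2 * XA * ((2 + mu) / N) = 2 * (XA * (2 + mu)) / N := by ring
      rw [this, H.hA, div_eq_one_iff_eq hN0.ne', hN]; ring)
    (by
      have : 2 * XB * (3 / N) = 2 * (XB * 3) / N := by ring
      rw [this, H.hB, div_eq_one_iff_eq hN0.ne', hN]; ring)
    (by
      rw [← ha, ← hb]
      have e : XV * ((1 + th) / N) ^ 2 + XU * (2 / N) ^ 2 + a * (XA * ((2 + mu) / N) ^ 2) +
          b * (XB * (3 / N) ^ 2) + Ga * (XV + XU + a * XA + b * XB) =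
          (XV * (1 + th) ^ 2 + XU * 4 + a * (XA * (2 + mu) ^ 2) + b * (XB * 9) +
            Ga * N ^ 2 * (XV + XU + a * XA + b * XB)) / N ^ 2 := by
        field_simp
        ring
      rw [e, Hc, div_self (pow_ne_zero 2 hN0.ne')])
    (by ring)
    (by rw [le_div_iff₀ hN0]; linarith)
    (by
      have : 2 * th * (XV * ((1 + th) / N)) = 2 * th * (1 + th) * XV / N := by ring
      rw [this, le_div_iff₀ hN0]; linarith)
    (by
      rw [← ha]
      by_cases h : 0 < a
      · left
        have h1 := HuA h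
        have e : 1 - 4 * XU / N - mu * a + 2 * mu * XA =
            ((N + 2 * mu * XA * N) - (4 * XU + mu * a * N)) / N := by
          field_simp
          ring
        rw [e]
        exact div_nonpos_of_nonpos_of_nonneg (by linarith) hN0.le
      · right
        have h1 : a = 0 := le_antisymm (not_lt.1 h) ha0
        rw [ha] at h1
        exact Finset.card_eq_zero.1 (by exact_mod_cast h1))
    (by
      rw [← hb]
      by_cases h : 0 < b
      · left
        have h1 := HvB h
        have e : 1 - 2 * (XV * ((1 + th) / N)) - b + 2 * XB =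
            ((N + 2 * XB * N) - (2 * (1 + th) * XV + b * N)) / N := by
          field_simp
          ring
        rw [e]
        exact div_nonpos_of_nonpos_of_nonneg (by linarith) hN0.le
      · right
        have h1 : b = 0 := le_antisymm (not_lt.1 h) hb0
        rw [hb] at h1
        exact Finset.card_eq_zero.1 (by exact_mod_cast h1))
  rw [← ha, ← hb] at key
  rw [← hR] at Hs
  have e1 : 2 * (XV * ((1 + th) / N)) = 2 * (1 + th) * XV / N := by ring
  have e2 : 2 * th * (XV * ((1 + th) / N)) = 2 * th * (1 + th) * XV / N := by ring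
  rw [e1, e2] at key
  have e3 : (4 * XU / N + mu * a - 1) * (1 + 2 * a) = (4 * XU / N + mu * a - 1) * (2 * a + 1) := by
    ring
  have e4 : (2 * (1 + th) * XV / N + b - 1) * (1 + 2 * b) =
      (2 * (1 + th) * XV / N + b - 1) * (2 * b + 1) := by ring
  have e5 : (4 * XU / N - 1) * (b + 2 + (a + b)) = (4 * XU / N - 1) * (a + 2 * b + 2) := by ring
  have e6 : (2 * th * (1 + th) * XV / N - 1) * (a + 2 + (a + b)) =
      (2 * th * (1 + th) * XV / N - 1) * (2 * a + b + 2) := by ring
  rw [e3, e4, e5, e6] at key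
  linarith

end

end TwoClub
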