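import Pool.Agent.TwoClub.OrbitGood

/-!
Values and sums of the four kinds of test functions over `K`, `I`, `A ∪ B`, and the sizes of
`K ∩ W`, `I ∩ W`.
-/

namespace TwoClub

open Finset

variable {V : Type*} {G : SimpleGraph V}

section

variable [DecidableEq V] {U K I A B : Finset V} {u v : V} {f g : V → V}

namespace Data

theorem hKI (D : Data G U K I A B u v f g) {z : V} (h : z ∈ K) : z ∉ I :=
  fun h2 => Finset.disjoint_left.1 D.dKI h h2
theorem hIK (D : Data G U K I A B u v f g) {z : V} (h : z ∈ I) : z ∉ K :=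
  fun h2 => Finset.disjoint_left.1 D.dKI h2 h
theorem hAK (D : Data G U K I A B u v f g) {z : V} (h : z ∈ A) : z ∉ K :=
  fun h2 => Finset.disjoint_left.1 D.dKA h2 h
theorem hBK (D : Data G U K I A B u v f g) {z : V} (h : z ∈ B) : z ∉ K :=
  fun h2 => Finset.disjoint_left.1 D.dKB h2 h
theorem hAI (D : Data G U K I A B u v f g) {z : V} (h : z ∈ A) : z ∉ I :=
  fun h2 => Finset.disjoint_left.1 D.dIA h2 h
theorem hBI (D : Data G U K I A B u v f g) {z : V} (h : z ∈ B) : z ∉ I :=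
  fun h2 => Finset.disjoint_left.1 D.dIB h2 h
theorem fuK (D : Data G U K I A B u v f g) : f u ∈ K := (D.fK u (Finset.mem_insert_self u A)).1
theorem gvI (D : Data G U K I A B u v f g) : g v ∈ I := (D.gI v (Finset.mem_insert_self v B)).1
theorem faK (D : Data G U K I A B u v f g) {w : V} (h : w ∈ A) : f w ∈ K :=
  (D.fK w (Finset.mem_insert_of_mem h)).1
theorem gbI (D : Data G U K I A B u v f g) {w : V} (h : w ∈ B) : g w ∈ I :=
  (D.gI w (Finset.mem_insert_of_mem h)).1

/-- sums over `K` and `I` -/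
theorem sums_V (D : Data G U K I A B u v f g) (th : ℝ) :
    ∑ z ∈ K, tV v g th z = 1 ∧ ∑ z ∈ I, tV v g th z = th := by
  simp only [tV, Pi.add_apply, Pi.smul_apply, smul_eq_mul, Finset.sum_add_distrib,
    ← Finset.mul_sum]
  rw [sum_ind1 D.vK, sum_ind0 (D.hIK D.gvI), sum_ind0 (D.hKI D.vK), sum_ind1 D.gvI]
  constructor <;> ring

theorem sums_U (D : Data G U K I A B u v f g) :
    ∑ z ∈ K, tU u f z = 1 ∧ ∑ z ∈ I, tU u f z = 1 := by
  simp only [tU, Pi.add_apply, Finset.sum_add_distrib]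
  rw [sum_ind0 (D.hIK D.uI), sum_ind1 D.fuK, sum_ind1 D.uI, sum_ind0 (D.hKI D.fuK)]
  constructor <;> ring

theorem sums_A (D : Data G U K I A B u v f g) (mu : ℝ) {w : V} (hw : w ∈ A) :
    ∑ z ∈ K, tA u f mu w z = 1 ∧ ∑ z ∈ I, tA u f mu w z = mu := by
  simp only [tA, Pi.add_apply, Pi.smul_apply, smul_eq_mul, Finset.sum_add_distrib,
    ← Finset.mul_sum]
  rw [sum_ind0 (D.hAK hw), sum_ind1 (D.faK hw), sum_ind0 (D.hIK D.uI), sum_ind0 (D.hAI hw),
    sum_ind0 (D.hKI (D.faK hw)), sum_ind1 D.uI]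
  constructor <;> ring

theorem sums_B (D : Data G U K I A B u v f g) {w : V} (hw : w ∈ B) :
    ∑ z ∈ K, tB v g w z = 1 ∧ ∑ z ∈ I, tB v g w z = 1 := by
  simp only [tB, Pi.add_apply, Finset.sum_add_distrib]
  rw [sum_ind0 (D.hBK hw), sum_ind0 (D.hIK (D.gbI hw)), sum_ind1 D.vK, sum_ind0 (D.hBI hw),
    sum_ind1 (D.gbI hw), sum_ind0 (D.hKI D.vK)]
  constructor <;> ring

end Data

theorem ind_eq (x z : V) : ind {x} z = if z = x then 1 else 0 := by
  simp [ind]

/-- two different vertices with levels in `[0,1]` -/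
theorem lev2 {x y : V} (hxy : x ≠ y) {s t : ℝ} (hs : 0 ≤ s ∧ s ≤ 1) (ht : 0 ≤ t ∧ t ≤ 1)
    (z : V) : 0 ≤ s * ind {x} z + t * ind {y} z ∧ s * ind {x} z + t * ind {y} z ≤ 1 := by
  rw [ind_eq, ind_eq]
  by_cases h1 : z = x
  · rw [if_pos h1, if_neg (fun h => hxy (h1.symm.trans h)), mul_one, mul_zero, add_zero]; exact hs
  · by_cases h2 : z = y
    · rw [if_neg h1, if_pos h2, mul_one, mul_zero, zero_add]; exact ht
    · rw [if_neg h1, if_neg h2]
      constructor <;> norm_num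

theorem lev3 {x y w : V} (hxy : x ≠ y) (hxw : x ≠ w) (hyw : y ≠ w) {s t r : ℝ}
    (hs : 0 ≤ s ∧ s ≤ 1) (ht : 0 ≤ t ∧ t ≤ 1) (hr : 0 ≤ r ∧ r ≤ 1) (z : V) :
    0 ≤ s * ind {x} z + t * ind {y} z + r * ind {w} z ∧
      s * ind {x} z + t * ind {y} z + r * ind {w} z ≤ 1 := by
  rw [ind_eq, ind_eq, ind_eq]
  by_cases h1 : z = x
  · rw [if_pos h1, if_neg (fun h => hxy (h1.symm.trans h)),
      if_neg (fun h => hxw (h1.symm.trans h)), mul_one, mul_zero, mul_zero, add_zero, add_zero]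
    exact hs
  · by_cases h2 : z = y
    · rw [if_neg h1, if_pos h2, if_neg (fun h => hyw (h2.symm.trans h)), mul_one, mul_zero,
        mul_zero, add_zero, zero_add]
      exact ht
    · by_cases h3 : z = w
      · rw [if_neg h1, if_neg h2, if_pos h3, mul_one, mul_zero, mul_zero, add_zero, zero_add]
        exact hr
      · rw [if_neg h1, if_neg h2, if_neg h3]
        constructor <;> norm_num

namespace Data

/-- all values are in `[0,1]` -/
theorem rng_V (D : Data G U K I A B u v f g) {th : ℝ} (h : 0 ≤ th ∧ th ≤ 1) (z : V) :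
    0 ≤ tV v g th z ∧ tV v g th z ≤ 1 := by
  have hne : v ≠ g v := fun e => D.hKI D.vK (e ▸ D.gvI)
  have := lev2 hne (s := 1) (t := th) ⟨zero_le_one, le_refl 1⟩ h z
  simpa [tV] using this

theorem rng_U (D : Data G U K I A B u v f g) (z : V) : 0 ≤ tU u f z ∧ tU u f z ≤ 1 := by
  have hne : u ≠ f u := fun e => D.hIK D.uI (e ▸ D.fuK)
  have := lev2 hne (s := 1) (t := 1) ⟨zero_le_one, le_refl 1⟩ ⟨zero_le_one, le_refl 1⟩ z
  simpa [tU] using this

theorem rng_A (D : Data G U K I A B u v f g) {mu : ℝ} (h : 0 ≤ mu ∧ mu ≤ 1) {w : V}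
    (hw : w ∈ A) (z : V) : 0 ≤ tA u f mu w z ∧ tA u f mu w z ≤ 1 := by
  have h1 : w ≠ f w := fun e => D.hAK hw (e ▸ D.faK hw)
  have h2 : w ≠ u := fun e => D.hAI hw (e ▸ D.uI)
  have h3 : f w ≠ u := fun e => D.hKI (D.faK hw) (e ▸ D.uI)
  have := lev3 h1 h2 h3 (s := 1) (t := 1) (r := mu) ⟨zero_le_one, le_refl 1⟩
    ⟨zero_le_one, le_refl 1⟩ h z
  simpa [tA] using this

theorem rng_B (D : Data G U K I A B u v f g) {w : V} (hw : w ∈ B) (z : V) :
    0 ≤ tB v g w z ∧ tB v g w z ≤ 1 := by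
  have h1 : w ≠ g w := fun e => D.hBI hw (e ▸ D.gbI hw)
  have h2 : w ≠ v := fun e => D.hBK hw (e ▸ D.vK)
  have h3 : g w ≠ v := fun e => D.hIK (D.gbI hw) (e ▸ D.vK)
  have := lev3 h1 h2 h3 (s := 1) (t := 1) (r := 1) ⟨zero_le_one, le_refl 1⟩
    ⟨zero_le_one, le_refl 1⟩ ⟨zero_le_one, le_refl 1⟩ z
  simpa [tB] using this

/-- the values on `O = A ∪ B` are integral -/
theorem int_V (D : Data G U K I A B u v f g) (th : ℝ) {z : V} (hz : z ∈ A ∪ B) :
    tV v g th z = 0 ∨ tV v g th z = 1 := by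
  left
  have h1 : z ≠ v := by
    rintro rfl
    rcases Finset.mem_union.1 hz with h | h
    · exact D.hAK h D.vK
    · exact D.hBK h D.vK
  have h2 : z ≠ g v := by
    rintro rfl
    rcases Finset.mem_union.1 hz with h | h
    · exact D.hAI h D.gvI
    · exact D.hBI h D.gvI
  simp [tV, ind, h1, h2]

theorem int_U (D : Data G U K I A B u v f g) {z : V} (hz : z ∈ A ∪ B) :
    tU u f z = 0 ∨ tU u f z = 1 := by
  left
  have h1 : z ≠ u := by
    rintro rfl
    rcases Finset.mem_union.1 hz with h | h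
    · exact D.hAI h D.uI
    · exact D.hBI h D.uI
  have h2 : z ≠ f u := by
    rintro rfl
    rcases Finset.mem_union.1 hz with h | h
    · exact D.hAK h D.fuK
    · exact D.hBK h D.fuK
  simp [tU, ind, h1, h2]

theorem int_A (D : Data G U K I A B u v f g) (mu : ℝ) {w : V} (hw : w ∈ A) {z : V}
    (hz : z ∈ A ∪ B) : tA u f mu w z = 0 ∨ tA u f mu w z = 1 := by
  have h1 : z ≠ u := by
    rintro rfl
    rcases Finset.mem_union.1 hz with h | h
    · exact D.hAI h D.uI
    · exact D.hBI h D.uI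
  have h2 : z ≠ f w := by
    rintro rfl
    rcases Finset.mem_union.1 hz with h | h
    · exact D.hAK h (D.faK hw)
    · exact D.hBK h (D.faK hw)
  by_cases h3 : z = w
  · right
    have h4 : w ≠ u := h3 ▸ h1
    have h5 : w ≠ f w := h3 ▸ h2
    rw [h3]
    simp [tA, ind, h4, h5]
  · left
    simp [tA, ind, h1, h2, h3]

theorem int_B (D : Data G U K I A B u v f g) {w : V} (hw : w ∈ B) {z : V}
    (hz : z ∈ A ∪ B) : tB v g w z = 0 ∨ tB v g w z = 1 := by
  have h1 : z ≠ v := by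
    rintro rfl
    rcases Finset.mem_union.1 hz with h | h
    · exact D.hAK h D.vK
    · exact D.hBK h D.vK
  have h2 : z ≠ g w := by
    rintro rfl
    rcases Finset.mem_union.1 hz with h | h
    · exact D.hAI h (D.gbI hw)
    · exact D.hBI h (D.gbI hw)
  by_cases h3 : z = w
  · right
    have h4 : w ≠ v := h3 ▸ h1
    have h5 : w ≠ g w := h3 ▸ h2
    rw [h3]
    simp [tB, ind, h4, h5]
  · left
    simp [tB, ind, h1, h2, h3]

/-- the test functions vanish outside `W` -/
theorem out_V (th : ℝ) {z : V} (hz : z ∉ Wset A B u v f g) : tV v g th z = 0 := by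
  have h1 : z ≠ v := fun e => hz (e ▸ vW)
  have h2 : z ≠ g v := fun e => hz (e ▸ gvW)
  simp [tV, ind, h1, h2]

theorem out_U {z : V} (hz : z ∉ Wset A B u v f g) : tU u f z = 0 := by
  have h1 : z ≠ u := fun e => hz (e ▸ uW)
  have h2 : z ≠ f u := fun e => hz (e ▸ fuW)
  simp [tU, ind, h1, h2]

theorem out_A (mu : ℝ) {w : V} (hw : w ∈ A) {z : V} (hz : z ∉ Wset A B u v f g) :
    tA u f mu w z = 0 := by
  have h1 : z ≠ u := fun e => hz (e ▸ uW)
  have h2 : z ≠ f w := fun e => hz (e ▸ faW hw)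
  have h3 : z ≠ w := fun e => hz (e ▸ aW hw)
  simp [tA, ind, h1, h2, h3]

theorem out_B {w : V} (hw : w ∈ B) {z : V} (hz : z ∉ Wset A B u v f g) :
    tB v g w z = 0 := by
  have h1 : z ≠ v := fun e => hz (e ▸ vW)
  have h2 : z ≠ g w := fun e => hz (e ▸ gbW hw)
  have h3 : z ≠ w := fun e => hz (e ▸ bW hw)
  simp [tB, ind, h1, h2, h3]

/-- size of `K ∩ W` -/
theorem card_KW (D : Data G U K I A B u v f g) : (#(K ∩ Wset A B u v f g) : ℝ) = #A + 2 := by
  have h : ind (K ∩ Wset A B u v f g) = ind {v} + ind {f u} + ind (A.image f) := by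
    have hW := D.ind_W
    funext z
    have hz := congrFun hW z
    simp only [Pi.add_apply] at hz ⊢
    by_cases hzK : z ∈ K
    · have e1 : ind (K ∩ Wset A B u v f g) z = ind (Wset A B u v f g) z := by
        simp [ind, Finset.mem_inter, hzK]
      have n1 : z ≠ u := fun e => D.hKI hzK (e ▸ D.uI)
      have n2 : z ≠ g v := fun e => D.hKI hzK (e ▸ D.gvI)
      have n3 : z ∉ A := fun h => D.hAK h hzK
      have n4 : z ∉ B := fun h => D.hBK h hzK
      have n5 : z ∉ B.image g := fun h => by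
        obtain ⟨w, hw, rfl⟩ := Finset.mem_image.1 h
        exact D.hIK (D.gbI hw) hzK
      have z1 : ind {u} z = 0 := by simp [ind, n1]
      have z2 : ind {g v} z = 0 := by simp [ind, n2]
      have z3 : ind A z = 0 := if_neg n3
      have z4 : ind B z = 0 := if_neg n4
      have z5 : ind (B.image g) z = 0 := if_neg n5
      rw [e1, hz, z1, z2, z3, z4, z5]; ring
    · have e1 : ind (K ∩ Wset A B u v f g) z = 0 := by
        simp [ind, Finset.mem_inter, hzK]
      have n1 : z ≠ v := fun e => hzK (e ▸ D.vK)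
      have n2 : z ≠ f u := fun e => hzK (e ▸ D.fuK)
      have n5 : z ∉ A.image f := fun h => by
        obtain ⟨w, hw, rfl⟩ := Finset.mem_image.1 h
        exact hzK (D.faK hw)
      have z1 : ind {v} z = 0 := by simp [ind, n1]
      have z2 : ind {f u} z = 0 := by simp [ind, n2]
      have z5 : ind (A.image f) z = 0 := if_neg n5
      rw [e1, z1, z2, z5]; ring
  have h0 : ∑ x ∈ K, ind (K ∩ Wset A B u v f g) x = #(K ∩ Wset A B u v f g) :=
    sum_indf Finset.inter_subset_left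
  have hF : A.image f ⊆ K := fun x hx => by
    obtain ⟨w, hw, rfl⟩ := Finset.mem_image.1 hx
    exact D.faK hw
  rw [← h0]
  conv_lhs => rw [h]
  simp only [Pi.add_apply, Finset.sum_add_distrib]
  rw [sum_ind1 D.vK, sum_ind1 D.fuK, sum_indf hF, Finset.card_image_of_injOn D.injA]
  ring

/-- size of `I ∩ W` -/
theorem card_IW (D : Data G U K I A B u v f g) : (#(I ∩ Wset A B u v f g) : ℝ) = #B + 2 := by
  have h := D.swap.card_KW
  rw [Wset_swap] at h
  exact h

theorem O_sub_W : A ∪ B ⊆ Wset A B u v f g := fun z hz => by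
  rcases Finset.mem_union.1 hz with h | h
  · exact aW h
  · exact bW h

end Data

end

end TwoClub
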