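import Pool.Agent.TwoClub.NForm
import Pool.Agent.TwoClub.Data

/-!
Orbit sums of helper37's certificate on `W` (rounding already removed): from the four kinds of
inequalities `BF W (f - p) (f - p) + Γ ee W W < R` to one real inequality.
-/

namespace TwoClub

open Finset

variable {V : Type*} (G : SimpleGraph V)

/-- `BF` as a bilinear map -/
noncomputable def AF (U : Finset V) : (V → ℝ) →ₗ[ℝ] (V → ℝ) →ₗ[ℝ] ℝ :=
  LinearMap.mk₂ ℝ (BF G U)
    (fun f f' g => by
      unfold BF
      simp only [Pi.add_apply, ← Finset.sum_add_distrib]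
      exact Finset.sum_congr rfl fun x _ => Finset.sum_congr rfl fun y _ => by ring)
    (fun c f g => by
      unfold BF
      simp only [Pi.smul_apply, smul_eq_mul, Finset.mul_sum]
      exact Finset.sum_congr rfl fun x _ => Finset.sum_congr rfl fun y _ => by ring)
    (fun f g g' => by
      unfold BF
      simp only [Pi.add_apply, ← Finset.sum_add_distrib]
      exact Finset.sum_congr rfl fun x _ => Finset.sum_congr rfl fun y _ => by ring)
    (fun c f g => by
      unfold BF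
      simp only [Pi.smul_apply, smul_eq_mul, Finset.mul_sum]
      exact Finset.sum_congr rfl fun x _ => Finset.sum_congr rfl fun y _ => by ring)

variable {G}

theorem AF_apply (U : Finset V) (f g : V → ℝ) : AF G U f g = BF G U f g := rfl

theorem AF_comm (U : Finset V) (f g : V → ℝ) : AF G U f g = AF G U g f := BF_comm U f g

theorem AF_ind [DecidableEq V] {U S T : Finset V} (hS : S ⊆ U) (hT : T ⊆ U) :
    AF G U (ind S) (ind T) = ee G S T := by
  have h : ∀ x y : V, ad G x y = 1 - nd G x y := fun x y => by unfold nd; ring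
  have h1 := BF_eq_NF (G := G) U (ind S) (ind T)
  rw [AF_apply, h1, NF_ind hS hT, sum_indf hS, sum_indf hT]
  unfold nn ee
  simp only [h, Finset.sum_sub_distrib, Finset.sum_const, nsmul_eq_mul, mul_one]

theorem ee_le_mul (S T : Finset V) : ee G S T ≤ #S * #T := by
  unfold ee
  calc (∑ x ∈ S, ∑ y ∈ T, ad G x y) ≤ ∑ x ∈ S, ∑ y ∈ T, (1 : ℝ) :=
        Finset.sum_le_sum fun x _ => Finset.sum_le_sum fun y _ => ad_le_one G x y
    _ = #S * #T := by simp

theorem ee_single (x y : V) : ee G {x} {y} = ad G x y := by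
  unfold ee; simp

theorem quad_add' {Bf : (V → ℝ) →ₗ[ℝ] (V → ℝ) →ₗ[ℝ] ℝ} (c : ∀ x y, Bf x y = Bf y x)
    (x y : V → ℝ) : Bf (x + y) (x + y) = Bf x x + 2 * Bf x y + Bf y y := by
  simp only [map_add, LinearMap.add_apply]
  rw [c y x]; ring

theorem quad_sub' {Bf : (V → ℝ) →ₗ[ℝ] (V → ℝ) →ₗ[ℝ] ℝ} (c : ∀ x y, Bf x y = Bf y x)
    (x y : V → ℝ) (p : ℝ) :
    Bf (x - p • y) (x - p • y) = Bf x x - 2 * p * Bf y x + p ^ 2 * Bf y y := by
  simp only [map_sub, map_smul, LinearMap.sub_apply, LinearMap.smul_apply, smul_eq_mul]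
  rw [c x y]; ring

theorem ind_biUnion_singleton' [DecidableEq V] (S : Finset V) :
    ind S = ∑ x ∈ S, ind {x} := ind_biUnion_singleton S

/-- change of notation for the tests -/
theorem AF_sub_ind [DecidableEq V] (W : Finset V) (f : V → ℝ) (p : ℝ) :
    AF G W (f - p • ind W) (f - p • ind W) = BF G W (fun x => f x - p) (fun x => f x - p) := by
  rw [AF_apply]
  apply BF_congr <;> intro x hx <;>
    simp only [Pi.sub_apply, Pi.smul_apply, smul_eq_mul, ind, if_pos hx, mul_one]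

/-- the vertex set of the certificate -/
def Wset [DecidableEq V] (A B : Finset V) (u v : V) (f g : V → V) : Finset V :=
  (insert u A ∪ (insert u A).image f) ∪ (insert v B ∪ (insert v B).image g)

section

variable [DecidableEq V] {U K I A B : Finset V} {u v : V} {f g : V → V}

theorem Wset_swap : Wset B A v u g f = Wset A B u v f g := by
  unfold Wset
  rw [Finset.union_comm]

theorem Data.ind_W (D : Data G U K I A B u v f g) :
    ind (Wset A B u v f g) = ind {u} + ind {v} + ind {f u} + ind {g v} +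
      (ind A + ind (A.image f)) + (ind B + ind (B.image g)) := by
  have hKI : ∀ z, z ∈ K → z ∈ I → False := fun z h1 h2 => Finset.disjoint_left.1 D.dKI h1 h2
  have hKA : ∀ z, z ∈ K → z ∈ A → False := fun z h1 h2 => Finset.disjoint_left.1 D.dKA h1 h2
  have hKB : ∀ z, z ∈ K → z ∈ B → False := fun z h1 h2 => Finset.disjoint_left.1 D.dKB h1 h2
  have hIA : ∀ z, z ∈ I → z ∈ A → False := fun z h1 h2 => Finset.disjoint_left.1 D.dIA h1 h2
  have hIB : ∀ z, z ∈ I → z ∈ B → False := fun z h1 h2 => Finset.disjoint_left.1 D.dIB h1 h2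
  have hAB : ∀ z, z ∈ A → z ∈ B → False := fun z h1 h2 => Finset.disjoint_left.1 D.dAB h1 h2
  have hfuK := (D.fK u (Finset.mem_insert_self u A)).1
  have hgvI := (D.gI v (Finset.mem_insert_self v B)).1
  have hF : ∀ z, z ∈ A.image f → z ∈ K := fun z hz => by
    obtain ⟨w, hw, rfl⟩ := Finset.mem_image.1 hz
    exact (D.fK w (Finset.mem_insert_of_mem hw)).1
  have hG : ∀ z, z ∈ B.image g → z ∈ I := fun z hz => by
    obtain ⟨w, hw, rfl⟩ := Finset.mem_image.1 hz
    exact (D.gI w (Finset.mem_insert_of_mem hw)).1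
  have n1 : v ∉ A.image f := by
    intro h
    obtain ⟨w, hw, h⟩ := Finset.mem_image.1 h
    exact D.f_ne_v hw h
  have n2 : u ∉ B.image g := by
    intro h
    obtain ⟨w, hw, h⟩ := Finset.mem_image.1 h
    exact D.g_ne_u hw h
  have n3 : f u ∉ A.image f := by
    intro h
    obtain ⟨w, hw, h⟩ := Finset.mem_image.1 h
    exact D.f_ne_fu hw h
  have n4 : g v ∉ B.image g := by
    intro h
    obtain ⟨w, hw, h⟩ := Finset.mem_image.1 h
    exact D.g_ne_gv hw h
  have uv : u ≠ v := fun h => hKI v D.vK (h ▸ D.uI)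
  have ufu : u ≠ f u := fun h => hKI u (h ▸ hfuK) D.uI
  have ugv : u ≠ g v := fun h => D.gv_ne_u h.symm
  have vfu : v ≠ f u := fun h => D.fu_ne_v h.symm
  have vgv : v ≠ g v := fun h => hKI v D.vK (h ▸ hgvI)
  have fg : f u ≠ g v := fun h => hKI _ hfuK (h ▸ hgvI)
  funext x
  simp only [ind, Pi.add_apply, Wset, Finset.mem_union, Finset.mem_insert, Finset.mem_singleton,
    Finset.image_insert]
  by_cases h1 : x = u
  · subst h1
    have m1 : x ∉ A := D.u_notMem_A
    have m2 : x ∉ B := fun h => hIB x D.uI h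
    have m3 : x ∉ A.image f := fun h => hKI x (hF x h) D.uI
    simp [m1, m2, m3, n2, uv, ufu, ugv]
  by_cases h2 : x = v
  · subst h2
    have m1 : x ∉ A := fun h => hKA x D.vK h
    have m2 : x ∉ B := D.v_notMem_B
    have m3 : x ∉ B.image g := fun h => hKI x D.vK (hG x h)
    simp [m1, m2, m3, n1, h1, vfu, vgv]
  by_cases h3 : x = f u
  · have m1 : x ∉ A := fun h => hKA x (h3 ▸ hfuK) h
    have m2 : x ∉ B := fun h => hKB x (h3 ▸ hfuK) h
    have m3 : x ∉ A.image f := h3 ▸ n3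
    have m4 : x ∉ B.image g := fun h => hKI x (h3 ▸ hfuK) (hG x h)
    have m5 : x ≠ g v := h3 ▸ fg
    simp [m1, m2, m3, m4, m5, h1, h2, h3.symm]
  by_cases h4 : x = g v
  · have m1 : x ∉ A := fun h => hIA x (h4 ▸ hgvI) h
    have m2 : x ∉ B := fun h => hIB x (h4 ▸ hgvI) h
    have m3 : x ∉ B.image g := h4 ▸ n4
    have m4 : x ∉ A.image f := fun h => hKI x (hF x h) (h4 ▸ hgvI)
    simp [m1, m2, m3, m4, h1, h2, h3, if_pos h4]
  by_cases h5 : x ∈ A
  · have m2 : x ∉ B := fun h => hAB x h5 h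
    have m3 : x ∉ A.image f := fun h => hKA x (hF x h) h5
    have m4 : x ∉ B.image g := fun h => hIA x (hG x h) h5
    simp [h1, h2, h3, h4, h5, m2, m3, m4]
  by_cases h6 : x ∈ A.image f
  · have m2 : x ∉ B := fun h => hKB x (hF x h6) h
    have m4 : x ∉ B.image g := fun h => hKI x (hF x h6) (hG x h)
    simp [h1, h2, h3, h4, h5, h6, m2, m4]
  by_cases h7 : x ∈ B
  · have m4 : x ∉ B.image g := fun h => hIB x (hG x h) h7
    simp [h1, h2, h3, h4, h5, h6, h7, m4]
  by_cases h8 : x ∈ B.image g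
  · simp [h1, h2, h3, h4, h5, h6, h7, h8]
  · simp [h1, h2, h3, h4, h5, h6, h7, h8]

/-- the orbit sum, with the two numbers `du` (neighbours of `u` in `A ∪ f A`) and `dv`
(neighbours of `v` in `B ∪ g B`) kept -/
theorem Data.orbit_gen (D : Data G U K I A B u v f g)
    {θ μ pV pU pA pB Γ R XV XU al be lam : ℝ} (hXV : 0 < XV) (hXU : 0 ≤ XU) (hal : 0 ≤ al)
    (hbe : 0 ≤ be)
    (hV : AF G (Wset A B u v f g) (ind {v} + θ • ind {g v} - pV • ind (Wset A B u v f g))
        (ind {v} + θ • ind {g v} - pV • ind (Wset A B u v f g)) +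
      Γ * ee G (Wset A B u v f g) (Wset A B u v f g) < R)
    (hU : 0 < XU → AF G (Wset A B u v f g) (ind {u} + ind {f u} - pU • ind (Wset A B u v f g))
        (ind {u} + ind {f u} - pU • ind (Wset A B u v f g)) +
      Γ * ee G (Wset A B u v f g) (Wset A B u v f g) < R)
    (hA : ∀ w ∈ A, AF G (Wset A B u v f g)
        (ind {w} + ind {f w} + μ • ind {u} - pA • ind (Wset A B u v f g))
        (ind {w} + ind {f w} + μ • ind {u} - pA • ind (Wset A B u v f g)) +
      Γ * ee G (Wset A B u v f g) (Wset A B u v f g) < R)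
    (hB : ∀ w ∈ B, AF G (Wset A B u v f g)
        (ind {w} + ind {g w} + ind {v} - pB • ind (Wset A B u v f g))
        (ind {w} + ind {g w} + ind {v} - pB • ind (Wset A B u v f g)) +
      Γ * ee G (Wset A B u v f g) (Wset A B u v f g) < R)
    (alA : 2 * al * pA = 1) (beB : 2 * be * pB = 1)
    (hC : XV * pV ^ 2 + XU * pU ^ 2 + #A * (al * pA ^ 2) + #B * (be * pB ^ 2) +
      Γ * (XV + XU + #A * al + #B * be) = 1)
    (hlam : lam = 2 * XU * pU) (hlam1 : 1 ≤ lam) (hg1 : 1 ≤ 2 * θ * (XV * pV)) :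
    ∃ du dv : ℝ, 0 ≤ du ∧ du ≤ 2 * #A ∧ 0 ≤ dv ∧ dv ≤ 2 * #B ∧
      2 * θ * XV + 2 * XU + 2 * #A * al + 2 * #B * be + 2 * μ * al * du + 2 * be * dv -
        (lam + μ * #A - 1) * (1 + du) - (2 * (XV * pV) + #B - 1) * (1 + dv) -
        (lam - 1) * (#B + 2 + (#A + #B)) - (2 * θ * (XV * pV) - 1) * (#A + 2 + (#A + #B)) <
      (XV + XU + #A * al + #B * be) * R := by
  obtain ⟨W, hW⟩ : ∃ W : Finset V, W = Wset A B u v f g := ⟨_, rfl⟩
  have hind := D.ind_W
  rw [← hW] at hV hU hA hB hind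
  obtain ⟨Bf, hBf⟩ : ∃ Bf : (V → ℝ) →ₗ[ℝ] (V → ℝ) →ₗ[ℝ] ℝ, Bf = AF G W := ⟨_, rfl⟩
  have hKI : ∀ z, z ∈ K → z ∈ I → False := fun z h1 h2 => Finset.disjoint_left.1 D.dKI h1 h2
  have hfuK := (D.fK u (Finset.mem_insert_self u A)).1
  have hgvI := (D.gI v (Finset.mem_insert_self v B)).1
  have hFK : A.image f ⊆ K := fun z hz => by
    obtain ⟨w, hw, rfl⟩ := Finset.mem_image.1 hz
    exact (D.fK w (Finset.mem_insert_of_mem hw)).1
  have hGI : B.image g ⊆ I := fun z hz => by
    obtain ⟨w, hw, rfl⟩ := Finset.mem_image.1 hz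
    exact (D.gI w (Finset.mem_insert_of_mem hw)).1
  have cF : (#(A.image f) : ℝ) = #A := by
    rw [Finset.card_image_of_injOn fun x hx y hy h => D.finj (Finset.mem_coe.2
      (Finset.mem_insert_of_mem (Finset.mem_coe.1 hx))) (Finset.mem_coe.2
      (Finset.mem_insert_of_mem (Finset.mem_coe.1 hy))) h]
  have cG : (#(B.image g) : ℝ) = #B := by
    rw [Finset.card_image_of_injOn fun x hx y hy h => D.ginj (Finset.mem_coe.2
      (Finset.mem_insert_of_mem (Finset.mem_coe.1 hx))) (Finset.mem_coe.2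
      (Finset.mem_insert_of_mem (Finset.mem_coe.1 hy))) h]
  -- subsets of `W`
  have sA : A ⊆ W := by
    rw [hW]; intro x hx
    exact Finset.mem_union_left _ (Finset.mem_union_left _ (Finset.mem_insert_of_mem hx))
  have sF : A.image f ⊆ W := by
    rw [hW]; intro x hx
    refine Finset.mem_union_left _ (Finset.mem_union_right _ ?_)
    rw [Finset.image_insert]; exact Finset.mem_insert_of_mem hx
  have sB : B ⊆ W := by
    rw [hW]; intro x hx
    exact Finset.mem_union_right _ (Finset.mem_union_left _ (Finset.mem_insert_of_mem hx))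
  have sG : B.image g ⊆ W := by
    rw [hW]; intro x hx
    refine Finset.mem_union_right _ (Finset.mem_union_right _ ?_)
    rw [Finset.image_insert]; exact Finset.mem_insert_of_mem hx
  have mu' : u ∈ W := by
    rw [hW]; exact Finset.mem_union_left _ (Finset.mem_union_left _ (Finset.mem_insert_self _ _))
  have mv : v ∈ W := by
    rw [hW]; exact Finset.mem_union_right _ (Finset.mem_union_left _ (Finset.mem_insert_self _ _))
  have mf : f u ∈ W := by
    rw [hW]; refine Finset.mem_union_left _ (Finset.mem_union_right _ ?_)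
    rw [Finset.image_insert]; exact Finset.mem_insert_self _ _
  have mg : g v ∈ W := by
    rw [hW]; refine Finset.mem_union_right _ (Finset.mem_union_right _ ?_)
    rw [Finset.image_insert]; exact Finset.mem_insert_self _ _
  have su := Finset.singleton_subset_iff.2 mu'
  have sv := Finset.singleton_subset_iff.2 mv
  have sf := Finset.singleton_subset_iff.2 mf
  have sg := Finset.singleton_subset_iff.2 mg
  have val : ∀ {S T : Finset V}, S ⊆ W → T ⊆ W → Bf (ind S) (ind T) = ee G S T := fun hS hT => by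
    rw [hBf]; exact AF_ind hS hT
  have c : ∀ x y, Bf x y = Bf y x := fun x y => by rw [hBf]; exact AF_comm W x y
  have ez : ∀ {S T : Finset V}, (∀ x ∈ S, ∀ y ∈ T, ¬ G.Adj x y) → ee G S T = 0 :=
    fun h => ee_eq_zero G h
  -- names
  obtain ⟨eu, heu⟩ : ∃ e : V → ℝ, e = ind {u} := ⟨_, rfl⟩
  obtain ⟨ev, hev⟩ : ∃ e : V → ℝ, e = ind {v} := ⟨_, rfl⟩
  obtain ⟨ef, hef⟩ : ∃ e : V → ℝ, e = ind {f u} := ⟨_, rfl⟩
  obtain ⟨eg, heg⟩ : ∃ e : V → ℝ, e = ind {g v} := ⟨_, rfl⟩
  obtain ⟨α, hα⟩ : ∃ e : V → ℝ, e = ind A + ind (A.image f) := ⟨_, rfl⟩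
  obtain ⟨β, hβ⟩ : ∃ e : V → ℝ, e = ind B + ind (B.image g) := ⟨_, rfl⟩
  obtain ⟨ω, hω⟩ : ∃ e : V → ℝ, e = ind W := ⟨_, rfl⟩
  rw [← heu, ← hev, ← hef, ← heg, ← hα, ← hβ, ← hω] at hind
  rw [← hω, ← hev, ← heg, ← hBf] at hV
  rw [← hω, ← heu, ← hef, ← hBf] at hU
  have uu : Bf eu eu = 0 := by rw [heu, val su su, ee_single, ad_self]
  have vv : Bf ev ev = 0 := by rw [hev, val sv sv, ee_single, ad_self]
  have ff : Bf ef ef = 0 := by rw [hef, val sf sf, ee_single, ad_self]
  have gg : Bf eg eg = 0 := by rw [heg, val sg sg, ee_single, ad_self]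
  have uv0 : Bf eu ev = 0 := by rw [heu, hev, val su sv, ee_single, ad_of_not G D.uv]
  have uf1 : Bf eu ef = 1 := by
    rw [heu, hef, val su sf, ee_single, ad_of_adj G (D.fK u (Finset.mem_insert_self u A)).2]
  have ug0 : Bf eu eg = 0 := by
    rw [heu, heg, val su sg, ee_single, ad_of_not G (D.indI u D.uI _ hgvI)]
  have vf0 : Bf ev ef = 0 := by
    rw [hev, hef, val sv sf, ee_single, ad_of_not G (D.indK v D.vK _ hfuK)]
  have vg1 : Bf ev eg = 1 := by
    rw [hev, heg, val sv sg, ee_single, ad_of_adj G (D.gI v (Finset.mem_insert_self v B)).2]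
  obtain ⟨du, hdu⟩ : ∃ x : ℝ, x = Bf eu α := ⟨_, rfl⟩
  obtain ⟨dv, hdv⟩ : ∃ x : ℝ, x = Bf ev β := ⟨_, rfl⟩
  have one : (#({u} : Finset V) : ℝ) = 1 := by simp
  have du0 : 0 ≤ du := by
    rw [hdu, heu, hα, map_add, val su sA, val su sF]
    exact add_nonneg (ee_nonneg G _ _) (ee_nonneg G _ _)
  have dv0 : 0 ≤ dv := by
    rw [hdv, hev, hβ, map_add, val sv sB, val sv sG]
    exact add_nonneg (ee_nonneg G _ _) (ee_nonneg G _ _)
  have du1 : du ≤ 2 * #A := by
    rw [hdu, heu, hα, map_add, val su sA, val su sF]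
    have h1 := ee_le_mul (G := G) {u} A
    have h2 := ee_le_mul (G := G) {u} (A.image f)
    rw [cF] at h2
    simp only [Finset.card_singleton, Nat.cast_one, one_mul] at h1 h2
    linarith
  have dv1 : dv ≤ 2 * #B := by
    rw [hdv, hev, hβ, map_add, val sv sB, val sv sG]
    have h1 := ee_le_mul (G := G) {v} B
    have h2 := ee_le_mul (G := G) {v} (B.image g)
    rw [cG] at h2
    simp only [Finset.card_singleton, Nat.cast_one, one_mul] at h1 h2
    linarith
  have uβ : Bf eu β = 0 := by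
    rw [heu, hβ, map_add, val su sB, val su sG, ez, ez]
    · ring
    · intro x hx y hy
      rw [Finset.mem_singleton.1 hx]
      exact D.indI u D.uI y (hGI hy)
    · intro x hx y hy
      rw [Finset.mem_singleton.1 hx]
      exact D.uB y hy
  have vα : Bf ev α = 0 := by
    rw [hev, hα, map_add, val sv sA, val sv sF, ez, ez]
    · ring
    · intro x hx y hy
      rw [Finset.mem_singleton.1 hx]
      exact D.indK v D.vK y (hFK hy)
    · intro x hx y hy
      rw [Finset.mem_singleton.1 hx]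
      exact D.vA y hy
  -- row sums
  have Du : Bf ω eu = 1 + du := by
    rw [c, hind]; simp only [map_add]
    rw [uu, uv0, uf1, ug0, ← hdu, uβ]; ring
  have Dv : Bf ω ev = 1 + dv := by
    rw [c, hind]; simp only [map_add]
    rw [c ev eu, uv0, vv, vf0, vg1, ← hdv, vα]; ring
  have fg : ad G (f u) (g v) ≤ 1 := ad_le_one G _ _
  have Df : Bf ω ef ≤ #B + 2 + (#A + #B) := by
    rw [c, hind]; simp only [map_add]
    have h1 : Bf ef α ≤ #A := by
      rw [hef, hα, map_add, val sf sA, val sf sF, ez (S := {f u}) (T := A.image f)]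
      · have h2 := ee_le_mul (G := G) {f u} A
        simp only [Finset.card_singleton, Nat.cast_one, one_mul] at h2
        linarith
      · intro x hx y hy
        rw [Finset.mem_singleton.1 hx]
        exact D.indK _ hfuK y (hFK hy)
    have h2 : Bf ef β ≤ 2 * #B := by
      rw [hef, hβ, map_add, val sf sB, val sf sG]
      have h1 := ee_le_mul (G := G) {f u} B
      have h2 := ee_le_mul (G := G) {f u} (B.image g)
      rw [cG] at h2
      simp only [Finset.card_singleton, Nat.cast_one, one_mul] at h1 h2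
      linarith
    have h3 : Bf ef eg ≤ 1 := by rw [hef, heg, val sf sg, ee_single]; exact fg
    rw [c ef eu, c ef ev, uf1, vf0, ff]
    linarith
  have Dg : Bf ω eg ≤ #A + 2 + (#A + #B) := by
    rw [c, hind]; simp only [map_add]
    have h1 : Bf eg β ≤ #B := by
      rw [heg, hβ, map_add, val sg sB, val sg sG, ez (S := {g v}) (T := B.image g)]
      · have h2 := ee_le_mul (G := G) {g v} B
        simp only [Finset.card_singleton, Nat.cast_one, one_mul] at h2
        linarith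
      · intro x hx y hy
        rw [Finset.mem_singleton.1 hx]
        exact D.indI _ hgvI y (hGI hy)
    have h2 : Bf eg α ≤ 2 * #A := by
      rw [heg, hα, map_add, val sg sA, val sg sF]
      have h1 := ee_le_mul (G := G) {g v} A
      have h2 := ee_le_mul (G := G) {g v} (A.image f)
      rw [cF] at h2
      simp only [Finset.card_singleton, Nat.cast_one, one_mul] at h1 h2
      linarith
    have h3 : Bf eg ef ≤ 1 := by rw [c, hef, heg, val sf sg, ee_single]; exact fg
    rw [c eg eu, c eg ev, ug0, vg1, gg]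
    linarith
  obtain ⟨Dα, hDα⟩ : ∃ x : ℝ, x = Bf ω α := ⟨_, rfl⟩
  obtain ⟨Dβ, hDβ⟩ : ∃ x : ℝ, x = Bf ω β := ⟨_, rfl⟩
  obtain ⟨xf, hxf⟩ : ∃ x : ℝ, x = Bf ω ef := ⟨_, rfl⟩
  obtain ⟨xg, hxg⟩ : ∃ x : ℝ, x = Bf ω eg := ⟨_, rfl⟩
  rw [← hxf] at Df
  rw [← hxg] at Dg
  obtain ⟨Ω, hΩ⟩ : ∃ x : ℝ, x = Bf ω ω := ⟨_, rfl⟩
  have hΩ' : Ω = (1 + du) + (1 + dv) + xf + xg + Dα + Dβ := by
    have : Bf ω ω = Bf ω (eu + ev + ef + eg + α + β) := by rw [← hind]
    rw [hΩ, this]
    simp only [map_add]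
    rw [Du, Dv, ← hxf, ← hxg, ← hDα, ← hDβ]
  have eeW : ee G W W = Ω := by
    rw [hΩ, hω, val (Finset.Subset.refl W) (Finset.Subset.refl W)]
  rw [eeW] at hV hU
  -- the `V` test
  have tV : 2 * θ - 2 * pV * ((1 + dv) + θ * xg) + pV ^ 2 * Ω + Γ * Ω < R := by
    have e1 : Bf (ev + θ • eg - pV • ω) (ev + θ • eg - pV • ω) =
        2 * θ - 2 * pV * ((1 + dv) + θ * xg) + pV ^ 2 * Ω := by
      rw [quad_sub' c, ← hΩ, quad_add' c]
      simp only [map_add, map_smul, LinearMap.smul_apply, smul_eq_mul]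
      rw [vv, vg1, gg, Dv, ← hxg]; ring
    rw [e1] at hV; exact hV
  have tU : XU * (2 - 2 * pU * ((1 + du) + xf) + pU ^ 2 * Ω + Γ * Ω) ≤ XU * R := by
    rcases hXU.eq_or_lt with h0 | h0
    · rw [← h0]; simp
    · have h1 := hU h0
      have e1 : Bf (eu + ef - pU • ω) (eu + ef - pU • ω) =
          2 - 2 * pU * ((1 + du) + xf) + pU ^ 2 * Ω := by
        rw [quad_sub' c, ← hΩ, quad_add' c, map_add, uu, uf1, ff, Du, ← hxf]; ring
      rw [e1] at h1
      exact (mul_lt_mul_of_pos_left h1 h0).le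
  have injA : Set.InjOn f (A : Set V) := fun x hx y hy h => D.finj (Finset.mem_coe.2
    (Finset.mem_insert_of_mem (Finset.mem_coe.1 hx))) (Finset.mem_coe.2
    (Finset.mem_insert_of_mem (Finset.mem_coe.1 hy))) h
  have injB : Set.InjOn g (B : Set V) := fun x hx y hy h => D.ginj (Finset.mem_coe.2
    (Finset.mem_insert_of_mem (Finset.mem_coe.1 hx))) (Finset.mem_coe.2
    (Finset.mem_insert_of_mem (Finset.mem_coe.1 hy))) h
  have tA : 2 * #A + 2 * μ * du - 2 * pA * (Dα + #A * (μ * (1 + du))) + #A * (pA ^ 2 * Ω) +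
      #A * (Γ * Ω) ≤ #A * R := by
    have hA' : ∀ w ∈ A, 2 + 2 * μ * Bf eu (ind {w} + ind {f w}) -
        2 * pA * (Bf ω (ind {w} + ind {f w}) + μ * (1 + du)) + pA ^ 2 * Ω + Γ * Ω ≤ R := by
      intro w hw
      have h1 := hA w hw
      rw [← hω, ← heu, ← hBf, eeW] at h1
      have hwW := Finset.singleton_subset_iff.2 (sA hw)
      have hfW := Finset.singleton_subset_iff.2 (sF (Finset.mem_image_of_mem f hw))
      have e2 : Bf (ind {w} + ind {f w}) (ind {w} + ind {f w}) = 2 := by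
        rw [quad_add' c, val hwW hwW, val hwW hfW, val hfW hfW, ee_single, ee_single, ee_single,
          ad_self, ad_self, ad_of_adj G (D.fK w (Finset.mem_insert_of_mem hw)).2]
        ring
      have e1 : Bf (ind {w} + ind {f w} + μ • eu - pA • ω)
          (ind {w} + ind {f w} + μ • eu - pA • ω) =
          2 + 2 * μ * Bf eu (ind {w} + ind {f w}) -
          2 * pA * (Bf ω (ind {w} + ind {f w}) + μ * (1 + du)) + pA ^ 2 * Ω := by
        rw [quad_sub' c, ← hΩ, quad_add' c, e2, map_smul, c (ind {w} + ind {f w}) eu]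
        simp only [map_smul, LinearMap.smul_apply, smul_eq_mul]
        rw [uu, map_add (Bf ω) (ind {w} + ind {f w}) (μ • eu), map_smul, smul_eq_mul, Du]
        ring
      rw [e1] at h1
      exact h1.le
    have h2 := Finset.sum_le_sum hA'
    have e3 : ∑ w ∈ A, Bf eu (ind {w} + ind {f w}) = du := by
      rw [← map_sum, Finset.sum_add_distrib, ← ind_biUnion_singleton, ← ind_image A injA, ← hα,
        ← hdu]
    have e4 : ∑ w ∈ A, Bf ω (ind {w} + ind {f w}) = Dα := by
      rw [← map_sum, Finset.sum_add_distrib, ← ind_biUnion_singleton, ← ind_image A injA, ← hα,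
        ← hDα]
    have e5 : ∑ w ∈ A, (2 + 2 * μ * Bf eu (ind {w} + ind {f w}) -
        2 * pA * (Bf ω (ind {w} + ind {f w}) + μ * (1 + du)) + pA ^ 2 * Ω + Γ * Ω) =
        2 * #A + 2 * μ * du - 2 * pA * (Dα + #A * (μ * (1 + du))) + #A * (pA ^ 2 * Ω) +
        #A * (Γ * Ω) := by
      rw [Finset.sum_add_distrib, Finset.sum_add_distrib, Finset.sum_sub_distrib,
        Finset.sum_add_distrib, ← Finset.mul_sum, ← Finset.mul_sum, Finset.sum_add_distrib, e3, e4]
      simp only [Finset.sum_const, nsmul_eq_mul]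
      ring
    rw [e5] at h2
    simpa using h2
  have tB : 2 * #B + 2 * dv - 2 * pB * (Dβ + #B * (1 + dv)) + #B * (pB ^ 2 * Ω) +
      #B * (Γ * Ω) ≤ #B * R := by
    have hB' : ∀ w ∈ B, 2 + 2 * Bf ev (ind {w} + ind {g w}) -
        2 * pB * (Bf ω (ind {w} + ind {g w}) + (1 + dv)) + pB ^ 2 * Ω + Γ * Ω ≤ R := by
      intro w hw
      have h1 := hB w hw
      rw [← hω, ← hev, ← hBf, eeW] at h1
      have hwW := Finset.singleton_subset_iff.2 (sB hw)
      have hfW := Finset.singleton_subset_iff.2 (sG (Finset.mem_image_of_mem g hw))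
      have e2 : Bf (ind {w} + ind {g w}) (ind {w} + ind {g w}) = 2 := by
        rw [quad_add' c, val hwW hwW, val hwW hfW, val hfW hfW, ee_single, ee_single, ee_single,
          ad_self, ad_self, ad_of_adj G (D.gI w (Finset.mem_insert_of_mem hw)).2]
        ring
      have e1 : Bf (ind {w} + ind {g w} + ev - pB • ω) (ind {w} + ind {g w} + ev - pB • ω) =
          2 + 2 * Bf ev (ind {w} + ind {g w}) -
          2 * pB * (Bf ω (ind {w} + ind {g w}) + (1 + dv)) + pB ^ 2 * Ω := by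
        rw [quad_sub' c, ← hΩ, quad_add' c, e2, c (ind {w} + ind {g w}) ev, vv,
          map_add (Bf ω) (ind {w} + ind {g w}) ev, Dv]
        ring
      rw [e1] at h1
      exact h1.le
    have h2 := Finset.sum_le_sum hB'
    have e3 : ∑ w ∈ B, Bf ev (ind {w} + ind {g w}) = dv := by
      rw [← map_sum, Finset.sum_add_distrib, ← ind_biUnion_singleton, ← ind_image B injB, ← hβ,
        ← hdv]
    have e4 : ∑ w ∈ B, Bf ω (ind {w} + ind {g w}) = Dβ := by
      rw [← map_sum, Finset.sum_add_distrib, ← ind_biUnion_singleton, ← ind_image B injB, ← hβ,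
        ← hDβ]
    have e5 : ∑ w ∈ B, (2 + 2 * Bf ev (ind {w} + ind {g w}) -
        2 * pB * (Bf ω (ind {w} + ind {g w}) + (1 + dv)) + pB ^ 2 * Ω + Γ * Ω) =
        2 * #B + 2 * dv - 2 * pB * (Dβ + #B * (1 + dv)) + #B * (pB ^ 2 * Ω) +
        #B * (Γ * Ω) := by
      rw [Finset.sum_add_distrib, Finset.sum_add_distrib, Finset.sum_sub_distrib,
        Finset.sum_add_distrib, ← Finset.mul_sum, ← Finset.mul_sum, Finset.sum_add_distrib, e3, e4]
      simp only [Finset.sum_const, nsmul_eq_mul]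
      ring
    rw [e5] at h2
    simpa using h2
  refine ⟨du, dv, du0, du1, dv0, dv1, ?_⟩
  -- weighted sum
  have wV := mul_lt_mul_of_pos_left tV hXV
  have wA := mul_le_mul_of_nonneg_left tA hal
  have wB := mul_le_mul_of_nonneg_left tB hbe
  have total : XV * (2 * θ - 2 * pV * ((1 + dv) + θ * xg) + pV ^ 2 * Ω + Γ * Ω) +
      XU * (2 - 2 * pU * ((1 + du) + xf) + pU ^ 2 * Ω + Γ * Ω) +
      al * (2 * #A + 2 * μ * du - 2 * pA * (Dα + #A * (μ * (1 + du))) + #A * (pA ^ 2 * Ω) +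
        #A * (Γ * Ω)) +
      be * (2 * #B + 2 * dv - 2 * pB * (Dβ + #B * (1 + dv)) + #B * (pB ^ 2 * Ω) +
        #B * (Γ * Ω)) =
      2 * θ * XV + 2 * XU + 2 * #A * al + 2 * #B * be + 2 * μ * al * du + 2 * be * dv -
        (lam + μ * #A - 1) * (1 + du) - (2 * (XV * pV) + #B - 1) * (1 + dv) -
        (lam - 1) * xf - (2 * θ * (XV * pV) - 1) * xg := by
    have e1 : (XV * pV ^ 2 + XU * pU ^ 2 + #A * (al * pA ^ 2) + #B * (be * pB ^ 2) +
      Γ * (XV + XU + #A * al + #B * be)) * Ω = Ω := by rw [hC]; ring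
    have e2 : XV * (2 * θ - 2 * pV * ((1 + dv) + θ * xg) + pV ^ 2 * Ω + Γ * Ω) +
      XU * (2 - 2 * pU * ((1 + du) + xf) + pU ^ 2 * Ω + Γ * Ω) +
      al * (2 * #A + 2 * μ * du - 2 * pA * (Dα + #A * (μ * (1 + du))) + #A * (pA ^ 2 * Ω) +
        #A * (Γ * Ω)) +
      be * (2 * #B + 2 * dv - 2 * pB * (Dβ + #B * (1 + dv)) + #B * (pB ^ 2 * Ω) +
        #B * (Γ * Ω)) =
      2 * θ * XV + 2 * XU + 2 * #A * al + 2 * #B * be + 2 * μ * al * du + 2 * be * dv -
        2 * (XV * pV) * (1 + dv) - 2 * θ * (XV * pV) * xg - (2 * XU * pU) * (1 + du) -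
        (2 * XU * pU) * xf - (2 * al * pA) * (Dα + #A * (μ * (1 + du))) -
        (2 * be * pB) * (Dβ + #B * (1 + dv)) +
        (XV * pV ^ 2 + XU * pU ^ 2 + #A * (al * pA ^ 2) + #B * (be * pB ^ 2) +
          Γ * (XV + XU + #A * al + #B * be)) * Ω := by ring
    rw [e2, e1, alA, beB, ← hlam, hΩ']
    ring
  have hxf' := mul_le_mul_of_nonneg_left Df (sub_nonneg.2 hlam1)
  have hxg' := mul_le_mul_of_nonneg_left Dg (sub_nonneg.2 hg1)
  linarith

/-- the orbit sum -/
theorem Data.orbit (D : Data G U K I A B u v f g)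
    {θ μ pV pU pA pB Γ R XV XU al be lam : ℝ} (hXV : 0 < XV) (hXU : 0 ≤ XU) (hal : 0 ≤ al)
    (hbe : 0 ≤ be)
    (hV : AF G (Wset A B u v f g) (ind {v} + θ • ind {g v} - pV • ind (Wset A B u v f g))
        (ind {v} + θ • ind {g v} - pV • ind (Wset A B u v f g)) +
      Γ * ee G (Wset A B u v f g) (Wset A B u v f g) < R)
    (hU : 0 < XU → AF G (Wset A B u v f g) (ind {u} + ind {f u} - pU • ind (Wset A B u v f g))
        (ind {u} + ind {f u} - pU • ind (Wset A B u v f g)) +
      Γ * ee G (Wset A B u v f g) (Wset A B u v f g) < R)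
    (hA : ∀ w ∈ A, AF G (Wset A B u v f g)
        (ind {w} + ind {f w} + μ • ind {u} - pA • ind (Wset A B u v f g))
        (ind {w} + ind {f w} + μ • ind {u} - pA • ind (Wset A B u v f g)) +
      Γ * ee G (Wset A B u v f g) (Wset A B u v f g) < R)
    (hB : ∀ w ∈ B, AF G (Wset A B u v f g)
        (ind {w} + ind {g w} + ind {v} - pB • ind (Wset A B u v f g))
        (ind {w} + ind {g w} + ind {v} - pB • ind (Wset A B u v f g)) +
      Γ * ee G (Wset A B u v f g) (Wset A B u v f g) < R)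
    (alA : 2 * al * pA = 1) (beB : 2 * be * pB = 1)
    (hC : XV * pV ^ 2 + XU * pU ^ 2 + #A * (al * pA ^ 2) + #B * (be * pB ^ 2) +
      Γ * (XV + XU + #A * al + #B * be) = 1)
    (hlam : lam = 2 * XU * pU) (hlam1 : 1 ≤ lam) (hg1 : 1 ≤ 2 * θ * (XV * pV))
    (cα : 1 - lam - μ * #A + 2 * μ * al ≤ 0 ∨ A = ∅)
    (cβ : 1 - 2 * (XV * pV) - #B + 2 * be ≤ 0 ∨ B = ∅) :
    2 * θ * XV + 2 * XU + 2 * #A * (1 + 2 * μ) * al + 6 * #B * be -
        (lam + μ * #A - 1) * (1 + 2 * #A) - (2 * (XV * pV) + #B - 1) * (1 + 2 * #B) -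
        (lam - 1) * (#B + 2 + (#A + #B)) - (2 * θ * (XV * pV) - 1) * (#A + 2 + (#A + #B)) <
      (XV + XU + #A * al + #B * be) * R := by
  obtain ⟨du, dv, h1, h2, h3, h4, h5⟩ := D.orbit_gen hXV hXU hal hbe hV hU hA hB alA beB hC hlam
    hlam1 hg1
  have e1 : (1 - lam - μ * #A + 2 * μ * al) * (2 * #A) ≤
      (1 - lam - μ * #A + 2 * μ * al) * du := by
    rcases cα with h | h
    · exact mul_le_mul_of_nonpos_left h2 h
    · have h0 : (#A : ℝ) = 0 := by rw [h]; simp
      have h6 : du = 0 := le_antisymm (by rw [h0] at h2; linarith) h1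
      rw [h6, h0]; simp
  have e2 : (1 - 2 * (XV * pV) - #B + 2 * be) * (2 * #B) ≤
      (1 - 2 * (XV * pV) - #B + 2 * be) * dv := by
    rcases cβ with h | h
    · exact mul_le_mul_of_nonpos_left h4 h
    · have h0 : (#B : ℝ) = 0 := by rw [h]; simp
      have h6 : dv = 0 := le_antisymm (by rw [h0] at h4; linarith) h3
      rw [h6, h0]; simp
  nlinarith [e1, e2, h5]

end

end TwoClub
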