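import Pool.Agent.TwoClub.Struct

/-!
Reduction: removing an independent reservoir `R`.  As `R` is independent, `Q_U(S' ∪ X)` is an
affine function of `X ⊆ R`, hence for every size `x` some `X` does at least as well as the
average over all `X` of size `x`.
-/

namespace TwoClub

open Finset

variable {V : Type*} {G : SimpleGraph V}

/-- some subset of size `x` has at least average weight -/
theorem exists_subset_sum_ge (R : Finset V) (w : V → ℝ) {x : ℕ} (hx : x ≤ #R) :
    ∃ X ⊆ R, #X = x ∧ (x : ℝ) / #R * ∑ r ∈ R, w r ≤ ∑ r ∈ X, w r := by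
  classical
  induction' hk : #R - x with k ih generalizing R
  · refine ⟨R, Finset.Subset.refl R, by omega, ?_⟩
    rcases Nat.eq_zero_or_pos (#R) with h0 | h0
    · rw [Finset.card_eq_zero.mp h0]; simp
    · have : (x : ℝ) / #R = 1 := by
        have e : x = #R := by omega
        rw [e]; exact div_self (by exact_mod_cast h0.ne')
      rw [this, one_mul]
  · -- remove a vertex of smallest weight
    have hR : R.Nonempty := by rw [← Finset.card_pos]; omega
    obtain ⟨a, ha, hmin⟩ := Finset.exists_min_image R w hR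
    have hc : #(R.erase a) = #R - 1 := Finset.card_erase_of_mem ha
    obtain ⟨X, hXR, hXc, hX⟩ := ih (R.erase a) (by omega) (by omega)
    refine ⟨X, hXR.trans (Finset.erase_subset a R), hXc, le_trans ?_ hX⟩
    have hsum : ∑ r ∈ R, w r = w a + ∑ r ∈ R.erase a, w r := (Finset.add_sum_erase R w ha).symm
    have hr1 : (#(R.erase a) : ℝ) = #R - 1 := by
      rw [hc, Nat.cast_sub (Finset.card_pos.mpr hR)]; simp
    have hle : (#R : ℝ) * w a ≤ ∑ r ∈ R, w r := by
      have := Finset.card_nsmul_le_sum R w (w a) (fun b hb => hmin b hb)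
      rwa [nsmul_eq_mul] at this
    have hRpos : (0 : ℝ) < #R := by exact_mod_cast Finset.card_pos.mpr hR
    rcases Nat.eq_zero_or_pos x with h0 | h0
    · simp [h0]
    have hR1 : (0 : ℝ) < (#R : ℝ) - 1 := by
      have : 2 ≤ #R := by omega
      have : (2 : ℝ) ≤ #R := by exact_mod_cast this
      linarith
    rw [hr1]
    have key : (1 : ℝ) / #R * ∑ r ∈ R, w r ≤ 1 / (#R - 1) * ∑ r ∈ R.erase a, w r := by
      rw [div_mul_eq_mul_div, div_mul_eq_mul_div, one_mul, one_mul, div_le_div_iff₀ hRpos hR1]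
      nlinarith [hle, hsum]
    have hx0 : (0 : ℝ) ≤ x := by positivity
    calc (x : ℝ) / #R * ∑ r ∈ R, w r = x * (1 / #R * ∑ r ∈ R, w r) := by ring
      _ ≤ x * (1 / (#R - 1) * ∑ r ∈ R.erase a, w r) := mul_le_mul_of_nonneg_left key hx0
      _ = (x : ℝ) / (#R - 1) * ∑ r ∈ R.erase a, w r := by ring

/-- REDUCTION (P1 and P2 in one formula).  `U = W ∪ R`, `R` independent, `S' ⊆ W`,
`p' = |S'| / |W|`, `p = (|S'| + x) / |U|`, `ρ = x / |R|`. -/
theorem reduce [DecidableEq V] {U W R : Finset V} (hWR : Disjoint W R) (hU : W ∪ R = U)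
    (hR : Ind G R) {S' : Finset V} (hS' : S' ⊆ W) {x : ℕ} (hx : x ≤ #R) :
    ∃ X ⊆ R, #X = x ∧
      QQ G W S' + 2 * ((x : ℝ) / #R - ((#S' : ℝ) + x) / #U) *
          (ee G R S' - ((#S' : ℝ) + x) / #U * ee G R W)
        - 2 * (((#S' : ℝ) + x) / #U - (#S' : ℝ) / #W) * ee G S' W
        + ((((#S' : ℝ) + x) / #U) ^ 2 - ((#S' : ℝ) / #W) ^ 2) * ee G W W
      ≤ QQ G U (S' ∪ X) := by
  classical
  set p : ℝ := ((#S' : ℝ) + x) / #U with hp
  obtain ⟨X, hXR, hXc, hX⟩ := exists_subset_sum_ge R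
    (fun r => 2 * gd G S' r - 2 * p * gd G W r) hx
  refine ⟨X, hXR, hXc, ?_⟩
  have hdj : Disjoint S' X := by
    rw [Finset.disjoint_left] at hWR ⊢
    exact fun a ha ha' => hWR (hS' ha) (hXR ha')
  have hRR : ∀ A ⊆ R, ∀ B ⊆ R, ee G A B = 0 := fun A hA B hB =>
    ee_eq_zero G fun x hx y hy => hR x (hA hx) y (hB hy)
  have hcard : (#(S' ∪ X) : ℝ) = (#S' : ℝ) + x := by
    rw [Finset.card_union_of_disjoint hdj, hXc]; push_cast; ring
  have e1 : ee G (S' ∪ X) (S' ∪ X) = ee G S' S' + 2 * ee G X S' := by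
    rw [ee_union_left G hdj, ee_union_right G hdj, ee_union_right G hdj, hRR X hXR X hXR,
      ee_comm G S' X]; ring
  have e2 : ee G (S' ∪ X) U = ee G S' W + ee G R S' + ee G X W := by
    rw [← hU, ee_union_left G hdj, ee_union_right G hWR, ee_union_right G hWR,
      hRR X hXR R (Finset.Subset.refl R), ee_comm G S' R]; ring
  have e3 : ee G U U = ee G W W + 2 * ee G R W := by
    rw [← hU, ee_union_left G hWR, ee_union_right G hWR, ee_union_right G hWR,
      hRR R (Finset.Subset.refl R) R (Finset.Subset.refl R), ee_comm G W R]; ring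
  have e4 : ∑ r ∈ R, (2 * gd G S' r - 2 * p * gd G W r) = 2 * ee G R S' - 2 * p * ee G R W := by
    rw [Finset.sum_sub_distrib, ← Finset.mul_sum, ← Finset.mul_sum, ee_eq_sum_gd, ee_eq_sum_gd]
  have e5 : ∑ r ∈ X, (2 * gd G S' r - 2 * p * gd G W r) = 2 * ee G X S' - 2 * p * ee G X W := by
    rw [Finset.sum_sub_distrib, ← Finset.mul_sum, ← Finset.mul_sum, ee_eq_sum_gd, ee_eq_sum_gd]
  rw [e4, e5] at hX
  unfold QQ
  rw [hcard, e1, e2, e3, ← hp]
  nlinarith [hX]

/-- P1: removing a reservoir with `|R| = t |W|` keeps `c`-solidity. -/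
theorem Solid.remove [DecidableEq V] {c : ℝ} {U W R : Finset V} (hs : Solid G c U)
    (hWR : Disjoint W R) (hU : W ∪ R = U) (hR : Ind G R) {t : ℕ} (ht : #R = t * #W) :
    Solid G c W := by
  intro S' hS' hne hS'W
  have hslt : #S' < #W := Finset.card_lt_card (Finset.ssubset_iff_subset_ne.mpr ⟨hS', hS'W⟩)
  have hspos : 0 < #S' := Finset.card_pos.mpr hne
  have hx : t * #S' ≤ #R := by rw [ht]; exact Nat.mul_le_mul_left t hslt.le
  obtain ⟨X, hXR, hXc, hX⟩ := reduce hWR hU hR hS' hx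
  have hUc : #U = #W + #R := by rw [← hU, Finset.card_union_of_disjoint hWR]
  have hW0 : (0 : ℝ) < #W := by exact_mod_cast (hspos.trans hslt)
  have hUc' : (#U : ℝ) = (t + 1) * #W := by rw [hUc, ht]; push_cast; ring
  have hdj : Disjoint S' X := by
    rw [Finset.disjoint_left] at hWR ⊢
    exact fun a ha ha' => hWR (hS' ha) (hXR ha')
  have hp : ((#S' : ℝ) + ((t * #S' : ℕ) : ℝ)) / #U = (#S' : ℝ) / #W := by
    rw [hUc']; push_cast
    have : (0 : ℝ) < (t : ℝ) + 1 := by positivity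
    field_simp
    ring
  have hcard : (#(S' ∪ X) : ℝ) = (#S' : ℝ) + ((t * #S' : ℕ) : ℝ) := by
    rw [Finset.card_union_of_disjoint hdj, hXc]; push_cast; ring
  have hlast : 2 * (((t * #S' : ℕ) : ℝ) / #R - (#S' : ℝ) / #W) *
      (ee G R S' - (#S' : ℝ) / #W * ee G R W) = 0 := by
    rcases Nat.eq_zero_or_pos t with h0 | h0
    · have hR0 : R = ∅ := by rw [← Finset.card_eq_zero, ht, h0, zero_mul]
      have a1 : ee G R S' = 0 := by rw [hR0]; simp [ee]
      have a2 : ee G R W = 0 := by rw [hR0]; simp [ee]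
      rw [a1, a2]; ring
    · have : (((t * #S' : ℕ) : ℝ) / #R - (#S' : ℝ) / #W) = 0 := by
        rw [ht]; push_cast
        have ht0 : (0 : ℝ) < t := by exact_mod_cast h0
        field_simp
        ring
      rw [this]; ring
  rw [hp, hlast] at hX
  have hsU : S' ∪ X ⊆ U := by
    rw [← hU]; exact Finset.union_subset_union hS' hXR
  have hne' : (S' ∪ X).Nonempty := hne.mono Finset.subset_union_left
  have hprop : S' ∪ X ≠ U := by
    intro e
    have e1 : #(S' ∪ X) = #U := by rw [e]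
    rw [Finset.card_union_of_disjoint hdj, hXc, hUc, ht] at e1
    have e2 : t * #S' ≤ t * #W := Nat.mul_le_mul_left t hslt.le
    omega
  have hq := hs (S' ∪ X) hsU hne' hprop
  rw [hcard, hp] at hq
  linarith

end TwoClub
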