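import Pool.Agent.TwoClub.Dual

/-!
The separated induction (helper77). `P(U)`: some `S ⊆ U` with `u ∈ S`, `v ∉ S` has `0 ≤ Q_U(S)`. A minimal
counterexample to `P` is solid, and every proper `W ⊆ U` which contains `u, v` has a separated good set.
-/

namespace TwoClub

open Finset

variable {V : Type*} {G : SimpleGraph V}

/-- the identity `q Q_U(S) + p Q_U(S ∪ R) = Q_W(S) + p q Q_U(R)`, `W = U \ R`, `p = |S| / |W|` -/
theorem QQ_identity [DecidableEq V] {U W R S : Finset V} (hWR : Disjoint W R) (hU : W ∪ R = U)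
    (hS : S ⊆ W) (hW : W.Nonempty) :
    (1 - (#S : ℝ) / #W) * QQ G U S + (#S : ℝ) / #W * QQ G U (S ∪ R) =
      QQ G W S + (#S : ℝ) / #W * (1 - (#S : ℝ) / #W) * QQ G U R := by
  have hWU : W ⊆ U := by rw [← hU]; exact Finset.subset_union_left
  have hRU : R ⊆ U := by rw [← hU]; exact Finset.subset_union_right
  have hSU : S ⊆ U := hS.trans hWU
  have hW0 : (0 : ℝ) < #W := by exact_mod_cast hW.card_pos
  have hcU : (#U : ℝ) = #W + #R := by
    rw [← hU, Finset.card_union_of_disjoint hWR]; push_cast; ring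
  have hU0 : (0 : ℝ) < #U := by
    have : (0 : ℝ) ≤ #R := Nat.cast_nonneg _
    linarith
  have hSR : Disjoint S R := Finset.disjoint_of_subset_left hS hWR
  have hcSR : (#(S ∪ R) : ℝ) = #S + #R := by
    rw [Finset.card_union_of_disjoint hSR]; push_cast; ring
  obtain ⟨p, hp⟩ : ∃ p : ℝ, p = (#S : ℝ) / #W := ⟨_, rfl⟩
  obtain ⟨ρ, hρ⟩ : ∃ ρ : ℝ, ρ = (#R : ℝ) / #U := ⟨_, rfl⟩
  have hpS : (#S : ℝ) = p * #W := by rw [hp, div_mul_cancel₀ _ hW0.ne']
  have hρR : (#R : ℝ) = ρ * #U := by rw [hρ, div_mul_cancel₀ _ hU0.ne']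
  have hWρ : (#W : ℝ) = (1 - ρ) * #U := by linarith
  have hSU' : (#S : ℝ) / #U = p * (1 - ρ) := by
    rw [div_eq_iff hU0.ne', hpS, hWρ]; ring
  have hSRU' : (#(S ∪ R) : ℝ) / #U = p * (1 - ρ) + ρ := by
    rw [div_eq_iff hU0.ne', hcSR, hpS, hWρ, hρR]; ring
  rw [← hp]
  let r : V → ℝ := fun z => (if z ∈ R then 1 else 0) - (#R : ℝ) / #U
  let a : V → ℝ := fun z => (if z ∈ S then 1 else 0) - (if z ∈ W then p else 0)
  have hr : ∀ z, r z = (if z ∈ R then 1 else 0) - ρ := fun z => by simp only [r, hρ]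
  have ha : ∀ z, a z = (if z ∈ S then 1 else 0) - (if z ∈ W then p else 0) := fun z => rfl
  have hmem : ∀ z ∈ U, z ∉ R → z ∈ W := by
    intro z hz hzR
    rw [← hU, Finset.mem_union] at hz
    exact hz.resolve_right hzR
  -- the three vectors
  have e1 : QQ G U S = BF G U (fun z => a z - p * r z) (fun z => a z - p * r z) := by
    rw [QQ_eq_BF hSU]
    have h1 : ∀ z ∈ U, (if z ∈ S then (1 : ℝ) else 0) - (#S : ℝ) / #U = a z - p * r z := by
      intro z hz
      rw [ha, hr, hSU']
      by_cases hzR : z ∈ R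
      · have hzW : z ∉ W := fun h => Finset.disjoint_left.1 hWR h hzR
        have hzS : z ∉ S := fun h => hzW (hS h)
        rw [if_neg hzS, if_neg hzW, if_pos hzR]
        ring
      · have hzW := hmem z hz hzR
        rw [if_pos hzW, if_neg hzR]
        ring
    exact BF_congr h1 h1
  have e2 : QQ G U (S ∪ R) = BF G U (fun z => a z - (p - 1) * r z) (fun z => a z - (p - 1) * r z) := by
    rw [QQ_eq_BF (Finset.union_subset hSU hRU)]
    have h1 : ∀ z ∈ U, (if z ∈ S ∪ R then (1 : ℝ) else 0) - (#(S ∪ R) : ℝ) / #U =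
        a z - (p - 1) * r z := by
      intro z hz
      rw [ha, hr, hSRU']
      by_cases hzR : z ∈ R
      · have hzW : z ∉ W := fun h => Finset.disjoint_left.1 hWR h hzR
        have hzS : z ∉ S := fun h => hzW (hS h)
        rw [if_pos (Finset.mem_union_right _ hzR), if_neg hzS, if_neg hzW, if_pos hzR]
        ring
      · have hzW := hmem z hz hzR
        have : (z ∈ S ∪ R) ↔ z ∈ S := by rw [Finset.mem_union]; simp [hzR]
        simp only [this]
        rw [if_pos hzW, if_neg hzR]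
        ring
    exact BF_congr h1 h1
  have e3 : QQ G U R = BF G U r r := QQ_eq_BF hRU
  have e4 : QQ G W S = BF G U a a := by
    rw [QQ_eq_BF hS]
    unfold BF
    rw [← Finset.sum_subset hWU]
    · refine Finset.sum_congr rfl fun x hx => ?_
      rw [← Finset.sum_subset hWU]
      · refine Finset.sum_congr rfl fun y hy => ?_
        rw [ha, ha, if_pos hx, if_pos hy, ← hp]
      · intro y _ hy
        have : a y = 0 := by
          rw [ha, if_neg hy, if_neg fun h => hy (hS h)]; ring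
        rw [this]; ring
    · intro x _ hx
      have : a x = 0 := by
        rw [ha, if_neg hx, if_neg fun h => hx (hS h)]; ring
      rw [this]
      simp
  rw [e1, e2, e3, e4, BF_sub_smul U a r p, BF_sub_smul U a r (p - 1)]
  ring

/-- a minimal counterexample to the separated statement -/
structure MinCex (G : SimpleGraph V) (U : Finset V) (u v : V) : Prop where
  far : Far G U u v
  neg : ∀ S ⊆ U, u ∈ S → v ∉ S → QQ G U S < 0
  solid : Solid G 0 U
  ih : ∀ W ⊆ U, u ∈ W → v ∈ W → W ≠ U → ∃ S ⊆ W, u ∈ S ∧ v ∉ S ∧ 0 ≤ QQ G W S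

theorem QQ_compl [DecidableEq V] {U S : Finset V} (hS : S ⊆ U) (hU : U.Nonempty) :
    QQ G U (U \ S) = QQ G U S := by
  have hU0 : (0 : ℝ) < #U := by exact_mod_cast hU.card_pos
  have hc : (#(U \ S) : ℝ) = #U - #S := by
    rw [Finset.card_sdiff_of_subset hS, Nat.cast_sub (Finset.card_le_card hS)]
  rw [QQ_eq_BF hS, QQ_eq_BF Finset.sdiff_subset]
  have h1 : ∀ z ∈ U, (if z ∈ U \ S then (1 : ℝ) else 0) - (#(U \ S) : ℝ) / #U =
      -((if z ∈ S then 1 else 0) - (#S : ℝ) / #U) := by
    intro z hz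
    rw [hc]
    by_cases hzS : z ∈ S
    · rw [if_neg (fun h => (Finset.mem_sdiff.1 h).2 hzS), if_pos hzS]
      field_simp; ring
    · rw [if_pos (Finset.mem_sdiff.2 ⟨hz, hzS⟩), if_neg hzS]
      field_simp; ring
  rw [BF_congr h1 h1]
  unfold BF
  refine Finset.sum_congr rfl fun x _ => Finset.sum_congr rfl fun y _ => ?_
  ring

/-- far pairs are inherited by subsets -/
theorem Far.subset {U W : Finset V} {u v : V} (h : Far G U u v) (hW : W ⊆ U) (hu : u ∈ W) (hv : v ∈ W) :
    Far G W u v :=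
  ⟨hu, hv, h.2.2.1, h.2.2.2.1, fun w hw => h.2.2.2.2 w (hW hw)⟩

/-- a minimal counterexample is solid -/
theorem exists_minCex [DecidableEq V] {U : Finset V} {u v : V} (h : Far G U u v)
    (hneg : ∀ S ⊆ U, u ∈ S → v ∉ S → QQ G U S < 0) : ∃ U' ⊆ U, MinCex G U' u v := by
  classical
  -- a counterexample of minimal size
  let C : Finset (Finset V) := U.powerset.filter fun W => u ∈ W ∧ v ∈ W ∧
    ∀ S ⊆ W, u ∈ S → v ∉ S → QQ G W S < 0
  have hC : C.Nonempty := ⟨U, by
    simp only [C, Finset.mem_filter, Finset.mem_powerset]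
    exact ⟨Finset.Subset.refl U, h.1, h.2.1, hneg⟩⟩
  obtain ⟨U', hU', hmin⟩ := Finset.exists_min_image C (fun W => #W) hC
  simp only [C, Finset.mem_filter, Finset.mem_powerset] at hU' hmin
  obtain ⟨hU'U, hu, hv, hneg'⟩ := hU'
  have hfar := h.subset hU'U hu hv
  have ih : ∀ W ⊆ U', u ∈ W → v ∈ W → W ≠ U' → ∃ S ⊆ W, u ∈ S ∧ v ∉ S ∧ 0 ≤ QQ G W S := by
    intro W hW huW hvW hne
    by_contra hno
    push Not at hno
    have h1 := hmin W ⟨hW.trans hU'U, huW, hvW, fun S hS h1 h2 => hno S hS h1 h2⟩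
    have h2 := Finset.card_lt_card (hW.ssubset_of_ne hne)
    omega
  have hne : U'.Nonempty := ⟨u, hu⟩
  -- sets which avoid `u` and `v`
  have hR : ∀ R ⊆ U', R.Nonempty → u ∉ R → v ∉ R → QQ G U' R < 0 := by
    intro R hRU hRne huR hvR
    have hWU : U' \ R ⊆ U' := Finset.sdiff_subset
    have huW : u ∈ U' \ R := Finset.mem_sdiff.2 ⟨hu, huR⟩
    have hvW : v ∈ U' \ R := Finset.mem_sdiff.2 ⟨hv, hvR⟩
    obtain ⟨S, hS, huS, hvS, hQ⟩ := ih (U' \ R) hWU huW hvW (by
      intro h1
      obtain ⟨z, hz⟩ := hRne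
      have h2 := hRU hz
      rw [← h1] at h2
      exact (Finset.mem_sdiff.1 h2).2 hz)
    have hWne : (U' \ R).Nonempty := ⟨u, huW⟩
    have key := QQ_identity (G := G) (U := U') (W := U' \ R) (R := R) (S := S)
      Finset.sdiff_disjoint (Finset.sdiff_union_of_subset hRU) hS hWne
    have hq1 := hneg' S (hS.trans hWU) huS hvS
    have hq2 := hneg' (S ∪ R) (Finset.union_subset (hS.trans hWU) hRU)
      (Finset.mem_union_left _ huS) (by
        rw [Finset.mem_union]
        rintro (h1 | h1)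
        · exact hvS h1
        · exact hvR h1)
    have hW0 : (0 : ℝ) < #(U' \ R) := by exact_mod_cast hWne.card_pos
    have hS0 : (0 : ℝ) < #S := by
      have : 0 < #S := Finset.card_pos.2 ⟨u, huS⟩
      exact_mod_cast this
    have hSW : (#S : ℝ) < #(U' \ R) := by
      have : #S < #(U' \ R) := Finset.card_lt_card
        ((Finset.ssubset_iff_of_subset hS).2 ⟨v, hvW, hvS⟩)
      exact_mod_cast this
    set p : ℝ := (#S : ℝ) / #(U' \ R) with hp
    have hp0 : 0 < p := div_pos hS0 hW0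
    have hp1 : p < 1 := by rw [hp, div_lt_one hW0]; exact hSW
    have hpq : 0 < p * (1 - p) := mul_pos hp0 (by linarith)
    have h3 : p * (1 - p) * QQ G U' R < 0 := by
      have a1 : (1 - p) * QQ G U' S < 0 := mul_neg_of_pos_of_neg (by linarith) hq1
      have a2 : p * QQ G U' (S ∪ R) < 0 := mul_neg_of_pos_of_neg hp0 hq2
      linarith
    by_contra hcon
    push Not at hcon
    exact absurd h3 (not_lt.2 (mul_nonneg hpq.le hcon))
  refine ⟨U', hU'U, hfar, hneg', ?_, ih⟩
  intro S hS hSne hSU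
  have goal : QQ G U' S < 0 := by
    by_cases huS : u ∈ S
    · by_cases hvS : v ∈ S
      · rw [← QQ_compl hS hne]
        refine hR _ Finset.sdiff_subset ?_ (fun h1 => (Finset.mem_sdiff.1 h1).2 huS)
          (fun h1 => (Finset.mem_sdiff.1 h1).2 hvS)
        rw [Finset.sdiff_nonempty]
        intro h1
        exact hSU (Finset.Subset.antisymm hS h1)
      · exact hneg' S hS huS hvS
    · by_cases hvS : v ∈ S
      · rw [← QQ_compl hS hne]
        exact hneg' _ Finset.sdiff_subset (Finset.mem_sdiff.2 ⟨hu, huS⟩)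
          (fun h1 => (Finset.mem_sdiff.1 h1).2 hvS)
      · exact hR S hS hSne huS hvS
  simpa using goal

/-- the separated statement gives the theorem on solid graphs -/
theorem not_far_of_solid [DecidableEq V] (hmain : ∀ (U : Finset V) (u v : V), MinCex G U u v → False)
    (U : Finset V) (u v : V) (hs : Solid G 0 U) : ¬ Far G U u v := by
  intro h
  obtain ⟨U', _, hm⟩ := exists_minCex h fun S hS hu hv => by
    have := hs S hS ⟨u, hu⟩ (fun h1 => hv (h1 ▸ h.2.1))
    simpa using this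
  exact hmain U' u v hm

end TwoClub
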