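import Pool.Agent.TwoClub.Hall

/-!
Theorem A and the structure theorem for a solid graph with a pair at distance at least `3`.
-/

namespace TwoClub

open Finset

variable {V : Type*} {G : SimpleGraph V}

theorem Far.symm {U : Finset V} {u v : V} (h : Far G U u v) : Far G U v u :=
  ⟨h.2.1, h.1, h.2.2.1.symm, fun h' => h.2.2.2.1 h'.symm,
    fun w hw h' => h.2.2.2.2 w hw ⟨h'.2.symm, h'.1.symm⟩⟩

theorem Far.mono {U W : Finset V} {u v : V} (h : Far G U u v) (hW : W ⊆ U) (hu : u ∈ W)
    (hv : v ∈ W) : Far G W u v :=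
  ⟨hu, hv, h.2.2.1, h.2.2.2.1, fun w hw => h.2.2.2.2 w (hW hw)⟩

/-- disjoint neighbourhoods -/
theorem Far.deg_add_le {U : Finset V} {u v : V} (h : Far G U u v) {W : Finset V} (hW : W ⊆ U) :
    gd G W u + gd G W v ≤ #W := by
  unfold gd
  rw [← Finset.sum_add_distrib]
  calc ∑ y ∈ W, (ad G u y + ad G v y) ≤ ∑ y ∈ W, (1 : ℝ) := by
        apply Finset.sum_le_sum
        intro y hy
        by_cases h1 : G.Adj u y
        · have h2 : ¬ G.Adj v y := fun h2 => h.2.2.2.2 y (hW hy) ⟨h1, h2.symm⟩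
          rw [ad_of_adj G h1, ad_of_not G h2]; norm_num
        · rw [ad_of_not G h1, zero_add]; exact ad_le_one G v y
    _ = #W := by simp

theorem Far.deg_add_le' {U : Finset V} {u v : V} (h : Far G U u v) :
    gd G U u + gd G U v ≤ #U - 2 := by
  classical
  have h1 : ({u, v} : Finset V) ⊆ U := by
    intro x hx
    simp only [Finset.mem_insert, Finset.mem_singleton] at hx
    rcases hx with rfl | rfl
    · exact h.1
    · exact h.2.1
  have h2 : U \ {u, v} ∪ {u, v} = U := Finset.sdiff_union_of_subset h1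
  have h3 : Disjoint (U \ {u, v}) {u, v} := Finset.sdiff_disjoint
  have h4 : gd G {u, v} u = 0 := by
    unfold gd
    rw [Finset.sum_pair h.2.2.1, ad_self, ad_of_not G h.2.2.2.1, add_zero]
  have h5 : gd G {u, v} v = 0 := by
    unfold gd
    rw [Finset.sum_pair h.2.2.1, ad_self, ad_of_not G h.symm.2.2.2.1, add_zero]
  have h6 := h.deg_add_le (W := U \ {u, v}) Finset.sdiff_subset
  have h7 : (#(U \ {u, v}) : ℝ) = #U - 2 := by
    have e1 := Finset.card_sdiff_of_subset h1
    have e2 := Finset.card_le_card h1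
    rw [Finset.card_pair h.2.2.1] at e1 e2
    rw [e1, Nat.cast_sub e2]; norm_num
  calc gd G U u + gd G U v = gd G (U \ {u, v} ∪ {u, v}) u + gd G (U \ {u, v} ∪ {u, v}) v := by
        rw [h2]
    _ = gd G (U \ {u, v}) u + gd G (U \ {u, v}) v := by
        rw [gd_union G h3, gd_union G h3, h4, h5]; ring
    _ ≤ #U - 2 := by rw [← h7]; exact h6

theorem gd_pos_exists {U : Finset V} {u : V} (h : 0 < gd G U u) : ∃ w ∈ U, G.Adj u w := by
  by_contra hcon
  push Not at hcon
  have : gd G U u = 0 := Finset.sum_eq_zero fun y hy => ad_of_not G (hcon y hy)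
  linarith

theorem dd_nonneg (G : SimpleGraph V) (U : Finset V) : 0 ≤ dd G U :=
  div_nonneg (ee_nonneg G U U) (by positivity)

theorem Far.two_le {U : Finset V} {u v : V} (h : Far G U u v) : 2 ≤ #U := by
  classical
  have h1 : ({u, v} : Finset V) ⊆ U := by
    intro x hx
    simp only [Finset.mem_insert, Finset.mem_singleton] at hx
    rcases hx with rfl | rfl
    · exact h.1
    · exact h.2.1
  have e2 := Finset.card_le_card h1
  rwa [Finset.card_pair h.2.2.1] at e2

theorem Solid.three_le {U : Finset V} {u v : V} (hs : Solid G 0 U) (h : Far G U u v) :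
    3 ≤ #U := by
  classical
  have h1 := hs.single_deg h.1 h.two_le
  have h2 := dd_nonneg G U
  obtain ⟨w, hw, huw⟩ := gd_pos_exists (G := G) (U := U) (u := u) (by linarith)
  have hwv : w ≠ v := fun e => h.2.2.2.1 (e ▸ huw)
  have h3 : ({w, u, v} : Finset V) ⊆ U := by
    intro x hx
    simp only [Finset.mem_insert, Finset.mem_singleton] at hx
    rcases hx with rfl | rfl | rfl
    · exact hw
    · exact h.1
    · exact h.2.1
  have e2 := Finset.card_le_card h3
  rwa [Finset.card_eq_three.mpr ⟨w, u, v, huw.ne.symm, hwv, h.2.2.1, rfl⟩] at e2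

/-- the neighbourhood `N_U(u)` -/
noncomputable abbrev nbr (G : SimpleGraph V) (U : Finset V) (u : V) : Finset V := nb G U {u}

theorem mem_nbr {U : Finset V} {u z : V} : z ∈ nbr G U u ↔ z ∈ U ∧ G.Adj u z := by
  unfold nbr; rw [mem_nb]; simp

theorem card_nbr (U : Finset V) (u : V) : (#(nbr G U u) : ℝ) = gd G U u := by
  classical
  rw [gd_eq_card]
  congr 2
  ext z
  rw [mem_nbr, Finset.mem_filter]

/-- one side of Theorem A: the weights on the neighbourhood of `u` -/
theorem Solid.side {U : Finset V} {u v : V} (hs : Solid G 0 U) (h : Far G U u v) :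
    ∃ K ⊆ nbr G U u, Ind G K ∧ #(nb G (nbr G U u) K) ≤ #K ∧ 
      Disjoint K (nb G (nbr G U u) K) ∧
      2 * ∑ z ∈ nbr G U u, aw G U z ≤
        (gd G U u - dd G U / 2) * ((#(nbr G U u) : ℝ) + #K - #(nb G (nbr G U u) K)) := by
  classical
  have h3 := hs.three_le h
  have hua : aw G U u = (#U : ℝ) / 2 - (gd G U u - dd G U / 2) := by unfold aw; ring
  apply cover
  · intro z hz
    rw [mem_nbr] at hz
    have := hs.edge h.1 hz.1 hz.2 h3
    rw [hua] at this
    linarith
  · intro z hz w hw hzw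
    rw [mem_nbr] at hz hw
    have hne : ({u, z, w} : Finset V) ≠ U := by
      intro e
      have hv : v ∈ ({u, z, w} : Finset V) := e ▸ h.2.1
      simp only [Finset.mem_insert, Finset.mem_singleton] at hv
      rcases hv with rfl | rfl | rfl
      · exact h.2.2.1 rfl
      · exact h.2.2.2.1 hz.2
      · exact h.2.2.2.1 hw.2
    have hcl := hs.clique (S := {u, z, w}) (by
      intro x hx
      simp only [Finset.mem_insert, Finset.mem_singleton] at hx
      rcases hx with rfl | rfl | rfl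
      · exact h.1
      · exact hz.1
      · exact hw.1) (by simp) hne (by
      intro x hx y hy hxy
      simp only [Finset.mem_insert, Finset.mem_singleton] at hx hy
      rcases hx with rfl | rfl | rfl <;> rcases hy with rfl | rfl | rfl
      · exact absurd rfl hxy
      · exact hz.2
      · exact hw.2
      · exact hz.2.symm
      · exact absurd rfl hxy
      · exact hzw
      · exact hw.2.symm
      · exact hzw.symm
      · exact absurd rfl hxy)
    have huz : u ≠ z := hz.2.ne
    have huw : u ≠ w := hw.2.ne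
    have hsum : ∑ x ∈ ({u, z, w} : Finset V), aw G U x = aw G U u + (aw G U z + aw G U w) := by
      rw [Finset.sum_insert (by simp [huz, huw]), Finset.sum_pair hzw.ne]
    rw [hsum, hua] at hcl
    linarith

/-- THEOREM A -/
theorem Solid.thmA {U : Finset V} {u v : V} (hs : Solid G 0 U) (h : Far G U u v) :
    (∃ K ⊆ nbr G U u, Ind G K ∧ #U + 2 + #(nb G (nbr G U u) K) ≤ #(nbr G U u) + #K) ∨
    (∃ K ⊆ nbr G U v, Ind G K ∧ #U + 2 + #(nb G (nbr G U v) K) ≤ #(nbr G U v) + #K) := by
  classical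
  obtain ⟨K1, hK1, hi1, _, _, hsum1⟩ := hs.side h
  obtain ⟨K2, hK2, hi2, _, _, hsum2⟩ := hs.side h.symm
  set P := nbr G U u with hP
  set Q := nbr G U v with hQ
  have hΓ := hs.single_deg h.1 h.two_le
  have hη := hs.single_deg h.2.1 h.two_le
  have hcP : (#P : ℝ) = gd G U u := card_nbr U u
  have hcQ : (#Q : ℝ) = gd G U v := card_nbr U v
  have hUne : U.Nonempty := ⟨u, h.1⟩
  -- the decomposition of `U`
  have hPU : P ⊆ U := fun z hz => (mem_nbr.mp hz).1
  have hQU : Q ⊆ U := fun z hz => (mem_nbr.mp hz).1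
  have hPQ : Disjoint P Q := by
    rw [Finset.disjoint_left]
    intro z hz hz'
    exact h.2.2.2.2 z (hPU hz) ⟨(mem_nbr.mp hz).2, (mem_nbr.mp hz').2.symm⟩
  have huvPQ : Disjoint ({u, v} : Finset V) (P ∪ Q) := by
    rw [Finset.disjoint_left]
    intro z hz hz'
    simp only [Finset.mem_insert, Finset.mem_singleton] at hz
    rw [Finset.mem_union] at hz'
    rcases hz with rfl | rfl <;> rcases hz' with hz' | hz'
    · exact (mem_nbr.mp hz').2.ne rfl
    · exact h.2.2.2.1 (mem_nbr.mp hz').2.symm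
    · exact h.2.2.2.1 (mem_nbr.mp hz').2
    · exact (mem_nbr.mp hz').2.ne rfl
  set W : Finset V := {u, v} ∪ (P ∪ Q) with hW
  have hWU : W ⊆ U := by
    intro z hz
    rw [hW, Finset.mem_union, Finset.mem_union] at hz
    rcases hz with hz | hz | hz
    · simp only [Finset.mem_insert, Finset.mem_singleton] at hz
      rcases hz with rfl | rfl
      · exact h.1
      · exact h.2.1
    · exact hPU hz
    · exact hQU hz
  have hsumU : ∑ z ∈ U, aw G U z = ∑ z ∈ U \ W, aw G U z +
      ((aw G U u + aw G U v) + (∑ z ∈ P, aw G U z + ∑ z ∈ Q, aw G U z)) := by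
    rw [← Finset.sum_sdiff hWU, hW, Finset.sum_union huvPQ, Finset.sum_pair h.2.2.1,
      Finset.sum_union hPQ]
  have hcW : (#(U \ W) : ℝ) = #U - (2 + (#P + #Q)) := by
    have e1 : #(U \ W) = #U - #W := Finset.card_sdiff_of_subset hWU
    have e2 : #W = 2 + (#P + #Q) := by
      rw [hW, Finset.card_union_of_disjoint huvPQ, Finset.card_pair h.2.2.1,
        Finset.card_union_of_disjoint hPQ]
    have e3 := Finset.card_le_card hWU
    rw [e1, Nat.cast_sub e3, e2]; push_cast; ring
  have hR : ∑ z ∈ U \ W, aw G U z ≤ (#U : ℝ) / 2 * #(U \ W) := by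
    calc ∑ z ∈ U \ W, aw G U z ≤ ∑ z ∈ U \ W, (#U : ℝ) / 2 := by
          apply Finset.sum_le_sum
          intro z hz
          have := hs.single (Finset.sdiff_subset hz) h.two_le
          linarith
      _ = (#U : ℝ) / 2 * #(U \ W) := by
          rw [Finset.sum_const, nsmul_eq_mul, mul_comm]
  rw [sum_aw_self G hUne] at hsumU
  have hua : aw G U u = (#U : ℝ) / 2 - (gd G U u - dd G U / 2) := by unfold aw; ring
  have hva : aw G U v = (#U : ℝ) / 2 - (gd G U v - dd G U / 2) := by unfold aw; ring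
  rw [hua, hva] at hsumU
  rw [hcW] at hR
  rw [← hcP] at hsum1 hsumU hΓ
  rw [← hcQ] at hsum2 hsumU hη
  set n : ℝ := (#U : ℝ)
  set d := dd G U
  set p : ℝ := (#P : ℝ)
  set q : ℝ := (#Q : ℝ)
  by_contra hcon
  push Not at hcon
  obtain ⟨hc1, hc2⟩ := hcon
  have hc1' := hc1 K1 hK1 hi1
  have hc2' := hc2 K2 hK2 hi2
  have hx1 : p + #K1 - #(nb G P K1) < n + 2 := by
    have : ((#P + #K1 : ℕ) : ℝ) < ((#U + 2 + #(nb G P K1) : ℕ) : ℝ) := by exact_mod_cast hc1'
    push_cast at this
    linarith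
  have hx2 : q + #K2 - #(nb G Q K2) < n + 2 := by
    have : ((#Q + #K2 : ℕ) : ℝ) < ((#U + 2 + #(nb G Q K2) : ℕ) : ℝ) := by exact_mod_cast hc2'
    push_cast at this
    linarith
  have hΓ' : 0 < p - d / 2 := by linarith
  have hη' : 0 < q - d / 2 := by linarith
  have m1 := mul_lt_mul_of_pos_left hx1 hΓ'
  have m2 := mul_lt_mul_of_pos_left hx2 hη'
  nlinarith [hR, hsumU, hsum1, hsum2, m1, m2]

/-- from one side of Theorem A to a large deficiency in `U` -/
theorem deficiency_of_side {U : Finset V} {u v : V} (h : Far G U u v) {K : Finset V}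
    (hK : K ⊆ nbr G U u) (hc : #U + 2 + #(nb G (nbr G U u) K) ≤ #(nbr G U u) + #K) :
    #(nb G U K) + 3 ≤ #K := by
  classical
  set P := nbr G U u with hP
  have hPU : P ⊆ U := fun z hz => (mem_nbr.mp hz).1
  have h1 : nb G U K ⊆ nb G P K ∪ ((U \ P).erase v) := by
    intro z hz
    rw [mem_nb] at hz
    obtain ⟨hzU, x, hx, hxz⟩ := hz
    rw [Finset.mem_union]
    by_cases hzP : z ∈ P
    · left; rw [mem_nb]; exact ⟨hzP, x, hx, hxz⟩
    · right
      rw [Finset.mem_erase, Finset.mem_sdiff]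
      refine ⟨?_, hzU, hzP⟩
      rintro rfl
      have := mem_nbr.mp (hK hx)
      exact h.2.2.2.2 x this.1 ⟨this.2, hxz⟩
  have h2 := (Finset.card_le_card h1).trans (Finset.card_union_le _ _)
  have hv : v ∈ U \ P := by
    rw [Finset.mem_sdiff, hP, mem_nbr]
    exact ⟨h.2.1, fun hh => h.2.2.2.1 hh.2⟩
  have h3 : #((U \ P).erase v) = #U - #P - 1 := by
    rw [Finset.card_erase_of_mem hv, Finset.card_sdiff_of_subset hPU]
  have h4 := Finset.card_le_card hPU
  have h5 : 0 < #(U \ P) := Finset.card_pos.mpr ⟨v, hv⟩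
  rw [Finset.card_sdiff_of_subset hPU] at h5
  omega

theorem sum_match_lt {K N : Finset V} {f : V → V} (hf : ∀ z ∈ N, f z ∈ K ∧ G.Adj z (f z))
    (hinj : Set.InjOn f (N : Set V)) (hlt : #N < #K) (a : V → ℝ) {B : ℝ}
    (h1 : ∀ z ∈ K, a z < B)
    (hB : ∀ z ∈ N, ∀ w ∈ K, G.Adj z w → a z + a w ≤ B) :
    ∑ z ∈ N, a z + ∑ z ∈ K, a z < B * #K := by
  classical
  have himg : N.image f ⊆ K := by
    intro x hx
    obtain ⟨z, hz, rfl⟩ := Finset.mem_image.mp hx
    exact (hf z hz).1
  have hcard : #(K \ N.image f) = #K - #N := by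
    rw [Finset.card_sdiff_of_subset himg, Finset.card_image_of_injOn hinj]
  have hne : (K \ N.image f).Nonempty := by
    rw [← Finset.card_pos, hcard]; omega
  have h2 : ∑ z ∈ K, a z = ∑ z ∈ K \ N.image f, a z + ∑ z ∈ N, a (f z) := by
    rw [← Finset.sum_sdiff himg, Finset.sum_image hinj]
  have h3 : ∑ z ∈ K \ N.image f, a z < B * (#K - #N) := by
    calc ∑ z ∈ K \ N.image f, a z < ∑ z ∈ K \ N.image f, B :=
          Finset.sum_lt_sum_of_nonempty hne fun z hz => h1 z (Finset.sdiff_subset hz)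
      _ = B * #(K \ N.image f) := by simp [mul_comm]
      _ = B * (#K - #N) := by
          rw [hcard, Nat.cast_sub hlt.le]
  have h4 : ∑ z ∈ N, a z + ∑ z ∈ N, a (f z) ≤ B * #N := by
    rw [← Finset.sum_add_distrib]
    calc ∑ z ∈ N, (a z + a (f z)) ≤ ∑ z ∈ N, B :=
          Finset.sum_le_sum fun z hz => hB z hz (f z) (hf z hz).1 (hf z hz).2
      _ = B * #N := by simp [mul_comm]
  rw [h2]
  nlinarith [h3, h4]

/-- STRUCTURE THEOREM -/
theorem Solid.struct [DecidableEq V] {U : Finset V} {u v : V} (hs : Solid G 0 U)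
    (h : Far G U u v) :
    ∃ K N : Finset V, K ∪ N = U ∧ Disjoint K N ∧ Ind G K ∧ #N + 3 ≤ #K ∧
      (#N : ℝ) < dd G U ∧ dd G U < 2 * #N ∧
      (∃ f : V → V, (∀ z ∈ N, f z ∈ K ∧ G.Adj z (f z)) ∧ Set.InjOn f (N : Set V)) ∧
      (∀ z ∈ N, (#U : ℝ) / 2 < gd G U z) ∧
      ((v ∈ K ∧ u ∈ N) ∨ (u ∈ K ∧ v ∈ N)) := by
  obtain ⟨K, hKU, hKi, ⟨f, hf, hfi⟩, ⟨σ, hσ, hσi⟩, hmax⟩ := exists_KNM G U
  set N := nb G U K with hN
  set M := U \ (K ∪ N) with hM
  have h3 := hs.three_le h
  have hUne : U.Nonempty := ⟨u, h.1⟩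
  have hNU : N ⊆ U := fun z hz => ((mem_nb G).mp hz).1
  have hKN : Disjoint K N := by
    rw [Finset.disjoint_left]
    intro x hx hx'
    obtain ⟨_, y, hy, hyx⟩ := (mem_nb G).mp hx'
    exact hKi y hy x hx hyx
  have hKNU : K ∪ N ⊆ U := Finset.union_subset hKU hNU
  have hMU : M ⊆ U := Finset.sdiff_subset
  -- deficiency
  have hdef : #N + 3 ≤ #K := by
    rcases hs.thmA h with ⟨K1, hK1, hi1, hc1⟩ | ⟨K1, hK1, hi1, hc1⟩
    · have e := deficiency_of_side h hK1 hc1
      have := hmax K1 (hK1.trans fun z hz => (mem_nbr.mp hz).1) hi1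
      omega
    · have e := deficiency_of_side h.symm hK1 hc1
      have := hmax K1 (hK1.trans fun z hz => (mem_nbr.mp hz).1) hi1
      omega
  have hcardU : #U = #K + #N + #M := by
    have e1 : #M = #U - #(K ∪ N) := Finset.card_sdiff_of_subset hKNU
    have e2 : #(K ∪ N) = #K + #N := Finset.card_union_of_disjoint hKN
    have e3 := Finset.card_le_card hKNU
    omega
  have hcardU' : (#U : ℝ) = #K + #N + #M := by exact_mod_cast hcardU
  have hdef' : (#N : ℝ) + 3 ≤ #K := by exact_mod_cast hdef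
  have hKpos : 0 < #K := by omega
  -- vertices of `K` have neighbours only in `N`
  have hKnb : ∀ x ∈ K, ∀ y ∈ U, G.Adj x y → y ∈ N := by
    intro x hx y hy hxy
    rw [hN, mem_nb]
    exact ⟨hy, x, hx, hxy⟩
  have hKdeg : ∀ x ∈ K, gd G U x = gd G N x := by
    intro x hx
    unfold gd
    symm
    apply Finset.sum_subset hNU
    intro y hy hyN
    exact ad_of_not G fun hxy => hyN (hKnb x hx y hy hxy)
  -- d < 2 m
  have hd2 : dd G U < 2 * #N := by
    obtain ⟨x, hx⟩ := Finset.card_pos.mp hKpos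
    have e1 := hs.single_deg (hKU hx) h.two_le
    have e2 := gd_le_card G N x
    rw [hKdeg x hx] at e1
    linarith
  -- matching
  have hsumU : ∑ z ∈ U, aw G U z = ∑ z ∈ M, aw G U z +
      (∑ z ∈ N, aw G U z + ∑ z ∈ K, aw G U z) := by
    rw [← Finset.sum_sdiff hKNU, Finset.sum_union hKN]; ring
  have hm1 := sum_perm_le hσ hσi (aw G U) (B := (#U : ℝ) / 2) (fun z hz w hw hzw => by
    have := hs.edge (hMU hz) (hMU hw) hzw h3
    linarith)
  have hm2 := sum_match_lt hf hfi (by omega) (aw G U) (B := (#U : ℝ) / 2) (fun z hz => by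
    have := hs.single (hKU hz) h.two_le
    linarith) (fun z hz w hw hzw => by
    have := hs.edge (hNU hz) (hKU hw) hzw h3
    linarith)
  rw [sum_aw_self G hUne] at hsumU
  have hnpos : (0 : ℝ) < #U := by exact_mod_cast Finset.card_pos.mpr hUne
  have hd1 : (#N : ℝ) + #M / 2 < dd G U := by
    have e : (#U : ℝ) * (#U - dd G U) / 2 < #U * (#U - (#N + #M / 2)) / 2 := by
      rw [hsumU]
      have : (#U : ℝ) - (#N + #M / 2) = #K + #M / 2 := by rw [hcardU']; ring
      rw [this]
      nlinarith [hm1, hm2]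
    have e' : (#U : ℝ) * (#U - dd G U) < #U * (#U - (#N + #M / 2)) := by linarith
    have := lt_of_mul_lt_mul_left e' hnpos.le
    linarith
  -- `M` is empty
  have hMe : M = ∅ := by
    by_contra hMne
    have hMne' : M.Nonempty := Finset.nonempty_iff_ne_empty.mpr hMne
    have hμ : (0 : ℝ) < #M := by exact_mod_cast Finset.card_pos.mpr hMne'
    have hMU' : M ≠ U := by
      intro e
      have : #M = #U := by rw [e]
      omega
    have hQ := hs M hMU hMne' hMU'
    have hvol : ee G M U = ee G M N + ee G M M := by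
      have e1 : U = M ∪ (K ∪ N) := by
        rw [hM]; exact (Finset.sdiff_union_of_subset hKNU).symm
      have e2 : Disjoint M (K ∪ N) := Finset.sdiff_disjoint
      have e3 : ee G M K = 0 := by
        apply ee_eq_zero
        intro x hx y hy hxy
        have : x ∈ N := hKnb y hy x (hMU hx) hxy.symm
        rw [hM, Finset.mem_sdiff, Finset.mem_union] at hx
        exact hx.2 (Or.inr this)
      have e4 : ee G M (M ∪ (K ∪ N)) = ee G M M + (ee G M K + ee G M N) := by
        rw [ee_union_right G e2, ee_union_right G hKN]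
      rw [← e1] at e4
      rw [e4, e3]; ring
    have hMN : ee G M N ≤ #M * #N := by
      rw [ee_eq_sum_gd]
      calc ∑ z ∈ M, gd G N z ≤ ∑ z ∈ M, (#N : ℝ) := Finset.sum_le_sum fun z _ => gd_le_card G N z
        _ = #M * #N := by simp
    rw [sum_aw] at hm1
    unfold QQ at hQ
    rw [ee_self_eq G hUne] at hQ
    have hn0 : (#U : ℝ) ≠ 0 := hnpos.ne'
    set n : ℝ := (#U : ℝ)
    set m : ℝ := (#N : ℝ)
    set k : ℝ := (#K : ℝ)
    set μ : ℝ := (#M : ℝ)
    set d := dd G U
    set E := ee G M M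
    set vol := ee G M U
    have hQ' : n * E - 2 * μ * vol + μ ^ 2 * d < 0 := by
      have e : n * E - 2 * μ * vol + μ ^ 2 * d =
          n * (E - 2 * (μ / n) * vol + (μ / n) ^ 2 * (n * d)) := by
        field_simp
      rw [e]
      have : E - 2 * (μ / n) * vol + (μ / n) ^ 2 * (n * d) < 0 := by
        refine hQ.trans_le ?_
        simp
      exact mul_neg_of_pos_of_neg hnpos this
    have hE1 : μ * (n / 4 + d / 2) ≤ vol := by nlinarith [hm1]
    have hE2 : vol ≤ μ * m + E := by rw [hvol]; linarith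
    have hk : 2 * m + 3 + μ ≤ n := by rw [hcardU']; linarith
    have hE3 : μ * (μ / 2 + 3 / 4) ≤ E := by
      have e1 : μ * (n / 4 + d / 2 - m) ≤ E := by nlinarith [hE1, hE2]
      have e2 : μ / 2 + 3 / 4 ≤ n / 4 + d / 2 - m := by linarith
      have e3 := mul_le_mul_of_nonneg_left e2 hμ.le
      linarith
    have hμm : μ < 2 * m := by linarith
    have hn2 : 2 * m + 3 - μ ≤ n - 2 * μ := by linarith
    have hcontra : (n - 2 * μ) * E < μ ^ 2 * (2 * m - d) := by
      nlinarith [hQ', mul_le_mul_of_nonneg_left hE2 hμ.le]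
    have hr : μ ^ 2 * (2 * m - d) ≤ μ ^ 2 * (m - μ / 2) := by
      apply mul_le_mul_of_nonneg_left _ (by positivity)
      linarith
    have hE0 : 0 ≤ μ * (μ / 2 + 3 / 4) := by positivity
    have hl : (2 * m + 3 - μ) * (μ * (μ / 2 + 3 / 4)) ≤ (n - 2 * μ) * E := by
      apply mul_le_mul hn2 hE3 hE0
      linarith
    have hfin : (2 * m + 3 - μ) * (μ * (μ / 2 + 3 / 4)) < μ ^ 2 * (m - μ / 2) := by linarith
    have : μ ^ 2 * (m - μ / 2) ≤ (2 * m + 3 - μ) * (μ * (μ / 2 + 3 / 4)) := by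
      have a1 : 0 < 2 * m - μ := by linarith
      nlinarith [mul_pos hμ a1, mul_pos hμ hμ]
    linarith
  have hUKN : K ∪ N = U := by
    apply Finset.Subset.antisymm hKNU
    rw [← Finset.sdiff_eq_empty_iff_subset]
    exact hMe
  have hM0 : (#M : ℝ) = 0 := by rw [hMe]; simp
  have hmd : (#N : ℝ) < dd G U := by rw [hM0] at hd1; linarith
  have hNdeg : ∀ z ∈ N, (#U : ℝ) / 2 < gd G U z := by
    intro z hz
    have e1 := hs.edge_deg (hNU hz) (hKU (hf z hz).1) (hf z hz).2 h3
    have e2 : gd G U (f z) ≤ #N := by rw [hKdeg _ (hf z hz).1]; exact gd_le_card G N _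
    linarith
  refine ⟨K, N, hUKN, hKN, hKi, hdef, hmd, hd2, ⟨f, hf, hfi⟩, hNdeg, ?_⟩
  have hu : u ∈ K ∨ u ∈ N := by
    have := h.1; rw [← hUKN, Finset.mem_union] at this; exact this
  have hv : v ∈ K ∨ v ∈ N := by
    have := h.2.1; rw [← hUKN, Finset.mem_union] at this; exact this
  rcases hu with hu | hu <;> rcases hv with hv | hv
  · exfalso
    have e1 := hs.single_deg (hKU hu) h.two_le
    have e2 := hs.single_deg (hKU hv) h.two_le
    rw [hKdeg u hu] at e1
    rw [hKdeg v hv] at e2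
    have e3 := h.deg_add_le (W := N) hNU
    linarith
  · exact Or.inr ⟨hu, hv⟩
  · exact Or.inl ⟨hv, hu⟩
  · exfalso
    have e1 := hNdeg u hu
    have e2 := hNdeg v hv
    have e3 := h.deg_add_le'
    linarith

end TwoClub
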