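import Pool.Agent.TwoClub.Defs

/-!
Clique tests for `c`-solid graphs.  With `n = |U|`, `d = ee U U / n` the average degree and
`aw z = (n + d) / 2 - g_z`, every clique `S` (proper, nonempty) of a `c`-solid graph satisfies
`∑_{z ∈ S} aw z < n / 2 + (c / 2) (1 - |S| / n)`.
-/

namespace TwoClub

open Finset

variable {V : Type*} (G : SimpleGraph V)

theorem ad_nonneg (x y : V) : 0 ≤ ad G x y := by
  unfold ad; split_ifs <;> norm_num

theorem ad_le_one (x y : V) : ad G x y ≤ 1 := by
  unfold ad; split_ifs <;> norm_num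

theorem ad_of_adj {x y : V} (h : G.Adj x y) : ad G x y = 1 := by
  unfold ad; rw [if_pos h]

theorem ad_of_not {x y : V} (h : ¬ G.Adj x y) : ad G x y = 0 := by
  unfold ad; rw [if_neg h]

theorem ad_comm (x y : V) : ad G x y = ad G y x := by
  by_cases h : G.Adj x y
  · rw [ad_of_adj G h, ad_of_adj G h.symm]
  · rw [ad_of_not G h, ad_of_not G (fun h' => h h'.symm)]

theorem ad_self (x : V) : ad G x x = 0 := ad_of_not G (fun h => h.ne rfl)

theorem ee_comm (S T : Finset V) : ee G S T = ee G T S := by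
  unfold ee
  rw [Finset.sum_comm]
  exact Finset.sum_congr rfl fun x _ => Finset.sum_congr rfl fun y _ => ad_comm G y x

theorem ee_eq_sum_gd (S U : Finset V) : ee G S U = ∑ z ∈ S, gd G U z := rfl

theorem ee_nonneg (S T : Finset V) : 0 ≤ ee G S T :=
  Finset.sum_nonneg fun x _ => Finset.sum_nonneg fun y _ => ad_nonneg G x y

theorem gd_nonneg (U : Finset V) (z : V) : 0 ≤ gd G U z :=
  Finset.sum_nonneg fun y _ => ad_nonneg G z y

theorem gd_mono {U W : Finset V} (h : U ⊆ W) (z : V) : gd G U z ≤ gd G W z :=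
  Finset.sum_le_sum_of_subset_of_nonneg h fun y _ _ => ad_nonneg G z y

theorem gd_le_card (U : Finset V) (z : V) : gd G U z ≤ #U := by
  unfold gd
  calc ∑ y ∈ U, ad G z y ≤ ∑ y ∈ U, (1 : ℝ) := Finset.sum_le_sum fun y _ => ad_le_one G z y
    _ = #U := by simp

open scoped Classical in
/-- the degree as a cardinality -/
theorem gd_eq_card (U : Finset V) (z : V) : gd G U z = #(U.filter fun y => G.Adj z y) := by
  unfold gd
  rw [Finset.card_filter]
  push_cast
  exact Finset.sum_congr rfl fun y _ => by unfold ad; rfl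

theorem gd_union [DecidableEq V] {A B : Finset V} (h : Disjoint A B) (z : V) :
    gd G (A ∪ B) z = gd G A z + gd G B z := by
  unfold gd; rw [Finset.sum_union h]

theorem ee_union_left [DecidableEq V] {A B : Finset V} (h : Disjoint A B) (T : Finset V) :
    ee G (A ∪ B) T = ee G A T + ee G B T := by
  unfold ee; rw [Finset.sum_union h]

theorem ee_union_right [DecidableEq V] {A B : Finset V} (h : Disjoint A B) (T : Finset V) :
    ee G T (A ∪ B) = ee G T A + ee G T B := by
  rw [ee_comm, ee_union_left G h, ee_comm G A, ee_comm G B]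

theorem ee_eq_zero {S T : Finset V} (h : ∀ x ∈ S, ∀ y ∈ T, ¬ G.Adj x y) : ee G S T = 0 := by
  unfold ee
  exact Finset.sum_eq_zero fun x hx => Finset.sum_eq_zero fun y hy => ad_of_not G (h x hx y hy)

theorem ee_clique {S : Finset V} (h : ∀ x ∈ S, ∀ y ∈ S, x ≠ y → G.Adj x y) :
    ee G S S = (#S : ℝ) * ((#S : ℝ) - 1) := by
  classical
  unfold ee
  have h1 : ∀ x ∈ S, ∑ y ∈ S, ad G x y = (#S : ℝ) - 1 := by
    intro x hx
    rw [← Finset.add_sum_erase S _ hx, ad_self, zero_add]
    have : ∀ y ∈ S.erase x, ad G x y = 1 := by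
      intro y hy
      exact ad_of_adj G (h x hx y (Finset.mem_of_mem_erase hy) (Finset.ne_of_mem_erase hy).symm)
    rw [Finset.sum_congr rfl this]
    simp only [Finset.sum_const, nsmul_eq_mul, mul_one]
    rw [Finset.card_erase_of_mem hx, Nat.cast_sub (Finset.card_pos.mpr ⟨x, hx⟩)]
    simp
  rw [Finset.sum_congr rfl h1]
  simp only [Finset.sum_const, nsmul_eq_mul]

/-- average degree of `G[U]` -/
noncomputable def dd (U : Finset V) : ℝ := ee G U U / #U

/-- the weight `(n + d) / 2 - g_z` -/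
noncomputable def aw (U : Finset V) (z : V) : ℝ := ((#U : ℝ) + dd G U) / 2 - gd G U z

theorem sum_aw (U S : Finset V) :
    ∑ z ∈ S, aw G U z = (#S : ℝ) * (((#U : ℝ) + dd G U) / 2) - ee G S U := by
  unfold aw
  rw [Finset.sum_sub_distrib, ee_eq_sum_gd]
  simp

theorem sum_aw_self {U : Finset V} (hU : U.Nonempty) :
    ∑ z ∈ U, aw G U z = (#U : ℝ) * ((#U : ℝ) - dd G U) / 2 := by
  have hn : (0 : ℝ) < #U := by exact_mod_cast Finset.card_pos.mpr hU
  rw [sum_aw]
  have : ee G U U = #U * dd G U := by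
    unfold dd; field_simp
  rw [this]; ring

theorem ee_self_eq {U : Finset V} (hU : U.Nonempty) : ee G U U = #U * dd G U := by
  have hn : (0 : ℝ) < #U := by exact_mod_cast Finset.card_pos.mpr hU
  unfold dd; field_simp

variable {G}

theorem Solid.mono {c c' : ℝ} {U : Finset V} (h : Solid G c U) (hc : c ≤ c') : Solid G c' U := by
  intro S hS hne hS'
  refine (h S hS hne hS').trans_le ?_
  have hs : (0 : ℝ) < #S := by exact_mod_cast Finset.card_pos.mpr hne
  have hn : (0 : ℝ) < #U := by
    exact_mod_cast Finset.card_pos.mpr (hne.mono hS)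
  have hle : (#S : ℝ) ≤ #U := by exact_mod_cast Finset.card_le_card hS
  have h1 : (0 : ℝ) ≤ (#S : ℝ) / #U := by positivity
  have h2 : (0 : ℝ) ≤ 1 - (#S : ℝ) / #U := by
    rw [sub_nonneg, div_le_one hn]; exact hle
  have h3 : c * ((#S : ℝ) / #U) ≤ c' * ((#S : ℝ) / #U) := mul_le_mul_of_nonneg_right hc h1
  exact mul_le_mul_of_nonneg_right h3 h2

/-- clique test -/
theorem Solid.clique {c : ℝ} {U : Finset V} (h : Solid G c U) {S : Finset V} (hS : S ⊆ U)
    (hne : S.Nonempty) (hS' : S ≠ U) (hcl : ∀ x ∈ S, ∀ y ∈ S, x ≠ y → G.Adj x y) :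
    ∑ z ∈ S, aw G U z < (#U : ℝ) / 2 + c / 2 * (1 - (#S : ℝ) / #U) := by
  have h0 := h S hS hne hS'
  have hs : (0 : ℝ) < #S := by exact_mod_cast Finset.card_pos.mpr hne
  have hn : (0 : ℝ) < #U := by
    exact_mod_cast Finset.card_pos.mpr (hne.mono hS)
  rw [sum_aw]
  unfold QQ at h0
  rw [ee_clique G hcl, ee_self_eq G (hne.mono hS)] at h0
  set n : ℝ := (#U : ℝ)
  set s : ℝ := (#S : ℝ)
  set d := dd G U
  set vol := ee G S U
  have h1 : s * (s - 1) - 2 * (s / n) * vol + (s / n) ^ 2 * (n * d)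
      = (2 * s / n) * (n * (s - 1) / 2 - vol + s * d / 2) := by
    field_simp
  have h2 : c * (s / n) * (1 - s / n) = (2 * s / n) * (c / 2 * (1 - s / n)) := by
    field_simp
  rw [h1, h2] at h0
  have h3 : (0 : ℝ) < 2 * s / n := by positivity
  have h4 := lt_of_mul_lt_mul_left h0 h3.le
  nlinarith [h4]

theorem Solid.single {c : ℝ} {U : Finset V} (h : Solid G c U) {z : V} (hz : z ∈ U)
    (hU : 2 ≤ #U) : aw G U z < (#U : ℝ) / 2 + c / 2 * (1 - 1 / #U) := by
  have := h.clique (S := {z}) (by simpa using hz) (by simp) (by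
    rintro rfl; simp at hU) (by
    intro x hx y hy hxy
    simp only [Finset.mem_singleton] at hx hy
    exact absurd (hx.trans hy.symm) hxy)
  simpa using this

theorem Solid.edge [DecidableEq V] {c : ℝ} {U : Finset V} (h : Solid G c U) {z w : V}
    (hz : z ∈ U) (hw : w ∈ U) (hzw : G.Adj z w) (hU : 3 ≤ #U) :
    aw G U z + aw G U w < (#U : ℝ) / 2 + c / 2 * (1 - 2 / #U) := by
  have hne : z ≠ w := hzw.ne
  have := h.clique (S := {z, w}) (by
      intro x hx; simp only [Finset.mem_insert, Finset.mem_singleton] at hx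
      rcases hx with rfl | rfl <;> assumption) (by simp) (by
    rintro rfl; rw [Finset.card_pair hne] at hU; omega) (by
    intro x hx y hy hxy
    simp only [Finset.mem_insert, Finset.mem_singleton] at hx hy
    rcases hx with rfl | rfl <;> rcases hy with rfl | rfl
    · exact absurd rfl hxy
    · exact hzw
    · exact hzw.symm
    · exact absurd rfl hxy)
  rw [Finset.sum_pair hne, Finset.card_pair hne] at this
  push_cast at this
  exact this

/-- degree form of the single test -/
theorem Solid.single_deg {c : ℝ} {U : Finset V} (h : Solid G c U) {z : V} (hz : z ∈ U)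
    (hU : 2 ≤ #U) : dd G U / 2 - c / 2 * (1 - 1 / #U) < gd G U z := by
  have := h.single hz hU
  unfold aw at this
  linarith

/-- degree form of the edge test -/
theorem Solid.edge_deg [DecidableEq V] {c : ℝ} {U : Finset V} (h : Solid G c U) {z w : V}
    (hz : z ∈ U) (hw : w ∈ U) (hzw : G.Adj z w) (hU : 3 ≤ #U) :
    (#U : ℝ) / 2 + dd G U - c / 2 * (1 - 2 / #U) < gd G U z + gd G U w := by
  have := h.edge hz hw hzw hU
  unfold aw at this
  linarith

end TwoClub
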