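import Pool.Agent.TwoClub.Weighted

/-!
Level-1 structure theorem (weighted form).  Part 1: lift with zero weights and weighted tests.
-/

namespace TwoClub

open Finset

variable {V : Type*} {G : SimpleGraph V}

/-- weighted solidity with zero weights allowed -/
def WSol (G : SimpleGraph V) (ω : V → ℝ) (U : Finset V) : Prop :=
  ∀ S ⊆ U, 0 < ws ω S → ws ω S < ws ω U → QW G ω U S < 0

/-- FRACTIONAL-WEIGHT LIFT, zero weights allowed -/
theorem Solid.lift0 [DecidableEq V] {U R : Finset V} (hs : Solid G 0 U) (hR : Ind G R)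
    (hRU : R ⊆ U) {ω : V → ℝ} {c : V → ℕ} {r : ℕ}
    (hω1 : ∀ z ∈ U \ R, ω z = 1) (hω01 : ∀ z ∈ U, 0 ≤ ω z ∧ ω z ≤ 1) (hr : 0 < r)
    (hc : ∀ z ∈ U, (r : ℝ) * ω z = c z) (hsum : (r : ℝ) * ws ω U = #U) :
    WSol G ω U := by
  classical
  intro S' hS'U hwsS hwsS'
  have hr' : (0 : ℝ) < r := by exact_mod_cast hr
  have hS' : S' ⊆ U := hS'U
  have hWpos : 0 < ws ω U := hwsS.trans hwsS'
  have hn : (0 : ℝ) < #U := by rw [← hsum]; positivity
  set p : ℝ := ws ω S' / ws ω U with hp
  have hp0 : 0 < p := div_pos hwsS hWpos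
  have hp1 : p < 1 := (div_lt_one hWpos).mpr hwsS'
  set T := S' \ R with hT
  set I := S' ∩ R with hI
  have hTI : ws ω S' = #T + ws ω I := by
    have e1 : ws ω S' = ws ω T + ws ω I := by
      unfold ws
      rw [hT, hI, add_comm, Finset.sum_inter_add_sum_sdiff]
    have e2 : ws ω T = #T := by
      unfold ws
      rw [Finset.sum_congr rfl (g := fun _ => (1 : ℝ))]
      · simp
      · intro x hx
        rw [hT, Finset.mem_sdiff] at hx
        exact hω1 x (Finset.mem_sdiff.mpr ⟨hS'U hx.1, hx.2⟩)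
    rw [e1, e2]
  have hWU : ws ω U = #(U \ R) + ws ω R := by
    have e1 : ws ω U = ws ω (U \ R) + ws ω R := by
      unfold ws
      rw [Finset.sum_sdiff hRU]
    have e2 : ws ω (U \ R) = #(U \ R) := by
      unfold ws
      rw [Finset.sum_congr rfl (g := fun _ => (1 : ℝ))]
      · simp
      · intro x hx
        exact hω1 x hx
    rw [e1, e2]
  have hcardUR : (#(U \ R) : ℝ) = #U - #R := by
    rw [Finset.card_sdiff_of_subset hRU, Nat.cast_sub (Finset.card_le_card hRU)]
  -- the marginals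
  set π : V → ℝ := fun i => ω i * (if i ∈ S' then 1 else 0) + (1 - ω i) * p with hπ
  have hπ01 : ∀ i ∈ R, 0 ≤ π i ∧ π i ≤ 1 := by
    intro i hi
    obtain ⟨a1, a2⟩ := hω01 i (hRU hi)
    simp only [hπ]
    split_ifs
    · constructor
      · nlinarith
      · nlinarith
    · constructor
      · nlinarith
      · nlinarith
  have hcS : (r : ℝ) * ws ω S' = ((∑ i ∈ S', c i : ℕ) : ℝ) := by
    unfold ws
    rw [Finset.mul_sum]
    push_cast
    exact Finset.sum_congr rfl fun i hi => hc i (hS'U hi)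
  have hcT : #T ≤ ∑ i ∈ S', c i := by
    have h1 : ∀ i ∈ T, 1 ≤ c i := by
      intro i hi
      rw [hT, Finset.mem_sdiff] at hi
      have e1 := hc i (hS'U hi.1)
      rw [hω1 i (Finset.mem_sdiff.mpr ⟨hS'U hi.1, hi.2⟩), mul_one] at e1
      have : r = c i := by exact_mod_cast e1
      omega
    calc #T = ∑ i ∈ T, 1 := by simp
      _ ≤ ∑ i ∈ T, c i := Finset.sum_le_sum h1
      _ ≤ ∑ i ∈ S', c i := Finset.sum_le_sum_of_subset Finset.sdiff_subset
  set h : ℕ := (∑ i ∈ S', c i) - #T with hh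
  have hhR : (h : ℝ) = (r : ℝ) * ws ω S' - #T := by
    rw [hh, Nat.cast_sub hcT, hcS]
  have hπsum : ∑ i ∈ R, π i = h := by
    have e1 : ∑ i ∈ R, π i = ws ω I + p * (#R - ws ω R) := by
      simp only [hπ]
      rw [Finset.sum_add_distrib]
      have b1 : ∑ i ∈ R, ω i * (if i ∈ S' then (1 : ℝ) else 0) = ws ω I := by
        unfold ws
        rw [hI, Finset.inter_comm, ← Finset.filter_mem_eq_inter, Finset.sum_filter]
        exact Finset.sum_congr rfl fun i _ => by split_ifs <;> ring
      have b2 : ∑ i ∈ R, (1 - ω i) * p = p * (#R - ws ω R) := by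
        rw [← Finset.sum_mul, Finset.sum_sub_distrib]
        unfold ws
        simp [mul_comm]
      rw [b1, b2]
    rw [e1, hhR]
    have hW0 : ws ω U ≠ 0 := hWpos.ne'
    have e2 : p * ws ω U = ws ω S' := by rw [hp]; field_simp
    have e3 : p * #U = r * ws ω S' := by rw [← hsum, ← e2]; ring
    have e4 : (#R : ℝ) - ws ω R = #U - ws ω U := by rw [hWU, hcardUR]; ring
    rw [e4]
    have e5 : p * ((#U : ℝ) - ws ω U) = r * ws ω S' - ws ω S' := by
      rw [mul_sub, e3, e2]
    rw [e5]
    linarith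
  set W := U \ R with hW
  have hWR : Disjoint W R := Finset.sdiff_disjoint
  have hWRU : W ∪ R = U := Finset.sdiff_union_of_subset hRU
  obtain ⟨X, hXR, hXc, hX⟩ := exists_subset_ge_frac R
    (fun x => ∑ z ∈ W, ad G x z * ((if z ∈ S' then 1 else 0) - p)) π hπ01 hπsum
  have hdj : Disjoint T X := by
    rw [Finset.disjoint_left]
    intro x hx hx'
    rw [hT, Finset.mem_sdiff] at hx
    exact hx.2 (hXR hx')
  have hTU : T ⊆ U := Finset.sdiff_subset.trans hS'U
  have hSU : T ∪ X ⊆ U := Finset.union_subset hTU (hXR.trans hRU)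
  have hScard : (#(T ∪ X) : ℝ) = r * ws ω S' := by
    rw [Finset.card_union_of_disjoint hdj, hXc]
    push_cast
    rw [hhR]; ring
  have hpS : (#(T ∪ X) : ℝ) / #U = p := by
    rw [hScard, ← hsum, hp]
    field_simp
  have hSne : (T ∪ X).Nonempty := by
    rw [← Finset.card_pos]
    have : (0 : ℝ) < #(T ∪ X) := by rw [hScard]; positivity
    exact_mod_cast this
  have hSneU : T ∪ X ≠ U := by
    intro e
    rw [e, div_self hn.ne'] at hpS
    linarith
  have hQ := hs (T ∪ X) hSU hSne hSneU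
  rw [QQ_eq_BF hSU, hpS] at hQ
  simp only [zero_mul] at hQ
  -- the weighted form
  have hQW : QW G ω U S' = BF G U (fun x => ω x * ((if x ∈ S' then 1 else 0) - p))
      (fun x => ω x * ((if x ∈ S' then 1 else 0) - p)) := by
    rw [QW_eq_BF ω hS', ← hp]
  rw [hQW, BF_split hWR hWRU hR]
  rw [BF_split hWR hWRU hR] at hQ
  have hmem : ∀ z ∈ W, (z ∈ T ∪ X ↔ z ∈ S') := by
    intro z hz
    rw [hW, Finset.mem_sdiff] at hz
    rw [Finset.mem_union, hT, Finset.mem_sdiff]
    constructor
    · rintro (hh' | hh')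
      · exact hh'.1
      · exact absurd (hXR hh') hz.2
    · intro hh'
      exact Or.inl ⟨hh', hz.2⟩
  have hyW : ∀ z ∈ W, ((if z ∈ T ∪ X then (1 : ℝ) else 0) - p)
      = ω z * ((if z ∈ S' then 1 else 0) - p) := by
    intro z hz
    rw [hω1 z hz, one_mul]
    simp only [hmem z hz]
  have hyW' : ∀ z ∈ W, ((if z ∈ T ∪ X then (1 : ℝ) else 0) - p)
      = (if z ∈ S' then 1 else 0) - p := by
    intro z hz
    simp only [hmem z hz]
  have hBW : BF G W (fun x => (if x ∈ T ∪ X then (1 : ℝ) else 0) - p)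
      (fun x => (if x ∈ T ∪ X then (1 : ℝ) else 0) - p) =
      BF G W (fun x => ω x * ((if x ∈ S' then 1 else 0) - p))
      (fun x => ω x * ((if x ∈ S' then 1 else 0) - p)) := BF_congr hyW hyW
  have hin1 : ∀ x, ∑ z ∈ W, ad G x z * ((if z ∈ T ∪ X then (1 : ℝ) else 0) - p) =
      ∑ z ∈ W, ad G x z * ((if z ∈ S' then 1 else 0) - p) := by
    intro x
    exact Finset.sum_congr rfl fun z hz => by rw [hyW' z hz]
  have hin2 : ∀ x, ∑ z ∈ W, ad G x z * (ω z * ((if z ∈ S' then (1 : ℝ) else 0) - p)) =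
      ∑ z ∈ W, ad G x z * ((if z ∈ S' then 1 else 0) - p) := by
    intro x
    exact Finset.sum_congr rfl fun z hz => by rw [hω1 z hz, one_mul]
  rw [hBW] at hQ
  simp only [hin1] at hQ
  simp only [hin2]
  set w : V → ℝ := fun x => ∑ z ∈ W, ad G x z * ((if z ∈ S' then 1 else 0) - p) with hw
  have hfin1 : ∑ x ∈ R, ((if x ∈ T ∪ X then (1 : ℝ) else 0) - p) * w x =
      ∑ x ∈ X, w x - p * ∑ x ∈ R, w x := by
    have b0 : ∀ x ∈ R, (x ∈ T ∪ X ↔ x ∈ X) := by
      intro x hx
      rw [Finset.mem_union, hT, Finset.mem_sdiff]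
      constructor
      · rintro (hh' | hh')
        · exact absurd hx hh'.2
        · exact hh'
      · exact Or.inr
    have b1 : ∑ x ∈ R, (if x ∈ X then (1 : ℝ) else 0) * w x = ∑ x ∈ X, w x := by
      rw [← Finset.sum_subset hXR]
      · exact Finset.sum_congr rfl fun x hx => by rw [if_pos hx, one_mul]
      · intro x _ hx
        rw [if_neg hx, zero_mul]
    rw [← b1, Finset.mul_sum, ← Finset.sum_sub_distrib]
    refine Finset.sum_congr rfl fun x hx => ?_
    simp only [b0 x hx]
    ring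
  have hfin2 : ∑ x ∈ R, (ω x * ((if x ∈ S' then (1 : ℝ) else 0) - p)) * w x =
      ∑ x ∈ R, π x * w x - p * ∑ x ∈ R, w x := by
    rw [Finset.mul_sum, ← Finset.sum_sub_distrib]
    refine Finset.sum_congr rfl fun x _ => ?_
    simp only [hπ]
    ring
  rw [hfin1] at hQ
  rw [hfin2]
  linarith


/-! ### weighted tests -/

/-- weighted average degree -/
noncomputable def wd (G : SimpleGraph V) (ω : V → ℝ) (U : Finset V) : ℝ :=
  wee G ω U U / ws ω U

/-- weighted test value `ω_z ((W + d)/2 - g_z)` -/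
noncomputable def wb (G : SimpleGraph V) (ω : V → ℝ) (U : Finset V) (z : V) : ℝ :=
  ω z * ((ws ω U + wd G ω U) / 2 - wgd G ω U z)

theorem sum_wb (ω : V → ℝ) (U S : Finset V) :
    ∑ z ∈ S, wb G ω U z = ws ω S * ((ws ω U + wd G ω U) / 2) - wee G ω S U := by
  unfold wb wee
  simp only [mul_sub]
  rw [Finset.sum_sub_distrib, ← Finset.sum_mul]
  rfl

theorem wee_self_eq {ω : V → ℝ} {U : Finset V} (hW : 0 < ws ω U) :
    wee G ω U U = ws ω U * wd G ω U := by
  unfold wd; field_simp

theorem sum_wb_self {ω : V → ℝ} {U : Finset V} (hW : 0 < ws ω U) :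
    ∑ z ∈ U, wb G ω U z = ws ω U * (ws ω U - wd G ω U) / 2 := by
  rw [sum_wb, wee_self_eq hW]; ring

theorem wee_clique (ω : V → ℝ) {S : Finset V} (h : ∀ x ∈ S, ∀ y ∈ S, x ≠ y → G.Adj x y) :
    wee G ω S S = ws ω S ^ 2 - ∑ x ∈ S, ω x ^ 2 := by
  classical
  have h1 : ∀ x ∈ S, wgd G ω S x = ws ω S - ω x := by
    intro x hx
    unfold wgd ws
    rw [← Finset.add_sum_erase S _ hx, ← Finset.add_sum_erase S ω hx, ad_self]
    have : ∑ y ∈ S.erase x, ad G x y * ω y = ∑ y ∈ S.erase x, ω y := by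
      refine Finset.sum_congr rfl fun y hy => ?_
      rw [ad_of_adj G (h x hx y (Finset.mem_of_mem_erase hy) (Finset.ne_of_mem_erase hy).symm),
        one_mul]
    rw [this]; ring
  unfold wee
  rw [Finset.sum_congr rfl fun x hx => by rw [h1 x hx]]
  simp only [mul_sub]
  rw [Finset.sum_sub_distrib, ← Finset.sum_mul]
  unfold ws
  congr 1
  · ring
  · exact Finset.sum_congr rfl fun x _ => by ring

/-- the basic inequality: `2 ω(S) b(S) < W (ω(S)^2 - wee S S)` -/
theorem WSol.test {ω : V → ℝ} {U : Finset V} (h : WSol G ω U) {S : Finset V} (hS : S ⊆ U)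
    (h0 : 0 < ws ω S) (h1 : ws ω S < ws ω U) :
    2 * ws ω S * ∑ z ∈ S, wb G ω U z < ws ω U * (ws ω S ^ 2 - wee G ω S S) := by
  have hW : 0 < ws ω U := h0.trans h1
  have hQ := h S hS h0 h1
  rw [sum_wb]
  unfold QW at hQ
  rw [wee_self_eq hW] at hQ
  set W := ws ω U
  set w := ws ω S
  set d := wd G ω U
  set E := wee G ω S S
  set g := wee G ω S U
  have e : W * (E - 2 * (w / W) * g + (w / W) ^ 2 * (W * d)) = W * E - 2 * w * g + w ^ 2 * d := by
    field_simp
  have h2 := mul_neg_of_pos_of_neg hW hQ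
  rw [e] at h2
  nlinarith [h2]

/-- weighted clique test -/
theorem WSol.clique {ω : V → ℝ} {U : Finset V} (h : WSol G ω U) {S : Finset V} (hS : S ⊆ U)
    (h0 : 0 < ws ω S) (h1 : ws ω S < ws ω U)
    (hcl : ∀ x ∈ S, ∀ y ∈ S, x ≠ y → G.Adj x y) :
    2 * ws ω S * ∑ z ∈ S, wb G ω U z < ws ω U * ∑ z ∈ S, ω z ^ 2 := by
  have := h.test hS h0 h1
  rw [wee_clique ω hcl] at this
  linarith

/-- clique of unit weights -/
theorem WSol.clique_unit {ω : V → ℝ} {U : Finset V} (h : WSol G ω U) {S : Finset V} (hS : S ⊆ U)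
    (hne : S.Nonempty) (hω : ∀ z ∈ S, ω z = 1) (h1 : (#S : ℝ) < ws ω U)
    (hcl : ∀ x ∈ S, ∀ y ∈ S, x ≠ y → G.Adj x y) :
    ∑ z ∈ S, wb G ω U z < ws ω U / 2 := by
  have hs : (0 : ℝ) < #S := by exact_mod_cast Finset.card_pos.mpr hne
  have hw : ws ω S = #S := by
    unfold ws
    rw [Finset.sum_congr rfl hω]; simp
  have hw2 : ∑ z ∈ S, ω z ^ 2 = #S := by
    rw [Finset.sum_congr rfl fun z hz => by rw [hω z hz]]; simp
  have := h.clique hS (by rw [hw]; exact hs) (by rw [hw]; exact h1) hcl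
  rw [hw, hw2] at this
  have e : (#S : ℝ) * (2 * ∑ z ∈ S, wb G ω U z) < #S * ws ω U := by linarith
  have := lt_of_mul_lt_mul_left e hs.le
  linarith

theorem WSol.single {ω : V → ℝ} {U : Finset V} (h : WSol G ω U) {z : V} (hz : z ∈ U)
    (h0 : 0 ≤ ω z) (h1 : ω z < ws ω U) : wb G ω U z ≤ ws ω U / 2 * ω z := by
  rcases eq_or_lt_of_le h0 with h0 | h0
  · unfold wb; rw [← h0]; simp
  · have := h.clique (S := {z}) (by simpa using hz) (by simpa [ws] using h0)
      (by simpa [ws] using h1) (by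
      intro x hx y hy hxy
      simp only [Finset.mem_singleton] at hx hy
      exact absurd (hx.trans hy.symm) hxy)
    simp only [ws, Finset.sum_singleton] at this
    have e : ω z * (2 * wb G ω U z) < ω z * (ws ω U * ω z) := by
      unfold ws; nlinarith [this]
    have := lt_of_mul_lt_mul_left e h0.le
    linarith

theorem WSol.single_unit {ω : V → ℝ} {U : Finset V} (h : WSol G ω U) {z : V} (hz : z ∈ U)
    (h0 : ω z = 1) (h1 : 1 < ws ω U) : wb G ω U z < ws ω U / 2 := by
  have := h.clique_unit (S := {z}) (by simpa using hz) (by simp) (by simpa using h0)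
    (by simpa using h1) (by
      intro x hx y hy hxy
      simp only [Finset.mem_singleton] at hx hy
      exact absurd (hx.trans hy.symm) hxy)
  simpa using this

theorem WSol.deg_unit {ω : V → ℝ} {U : Finset V} (h : WSol G ω U) {z : V} (hz : z ∈ U)
    (h0 : ω z = 1) (h1 : 1 < ws ω U) : wd G ω U / 2 < wgd G ω U z := by
  have := h.single_unit hz h0 h1
  unfold wb at this
  rw [h0] at this
  linarith

theorem WSol.edge_unit [DecidableEq V] {ω : V → ℝ} {U : Finset V} (h : WSol G ω U) {z w : V}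
    (hz : z ∈ U) (hw : w ∈ U) (hzw : G.Adj z w) (hz1 : ω z = 1) (hw1 : ω w = 1)
    (h1 : 2 < ws ω U) : wb G ω U z + wb G ω U w < ws ω U / 2 := by
  have hne : z ≠ w := hzw.ne
  have := h.clique_unit (S := {z, w}) (by
      intro x hx; simp only [Finset.mem_insert, Finset.mem_singleton] at hx
      rcases hx with rfl | rfl <;> assumption) (by simp) (by
      intro x hx; simp only [Finset.mem_insert, Finset.mem_singleton] at hx
      rcases hx with rfl | rfl <;> assumption) (by
      rw [Finset.card_pair hne]; exact_mod_cast h1) (by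
    intro x hx y hy hxy
    simp only [Finset.mem_insert, Finset.mem_singleton] at hx hy
    rcases hx with rfl | rfl <;> rcases hy with rfl | rfl
    · exact absurd rfl hxy
    · exact hzw
    · exact hzw.symm
    · exact absurd rfl hxy)
  rwa [Finset.sum_pair hne] at this

/-- an edge between a unit vertex and a vertex of weight `f ≤ 1` -/
theorem WSol.edge_frac [DecidableEq V] {ω : V → ℝ} {U : Finset V} (h : WSol G ω U) {z w : V}
    (hz : z ∈ U) (hw : w ∈ U) (hzw : G.Adj z w) (hz1 : ω z = 1) (hw0 : 0 ≤ ω w)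
    (hw1 : ω w ≤ 1) (h1 : 2 < ws ω U) : wb G ω U z + wb G ω U w < ws ω U / 2 := by
  have hne : z ≠ w := hzw.ne
  have hws : ws ω {z, w} = 1 + ω w := by
    unfold ws; rw [Finset.sum_pair hne, hz1]
  have := h.clique (S := {z, w}) (by
      intro x hx; simp only [Finset.mem_insert, Finset.mem_singleton] at hx
      rcases hx with rfl | rfl <;> assumption) (by rw [hws]; linarith) (by
      rw [hws]; linarith) (by
    intro x hx y hy hxy
    simp only [Finset.mem_insert, Finset.mem_singleton] at hx hy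
    rcases hx with rfl | rfl <;> rcases hy with rfl | rfl
    · exact absurd rfl hxy
    · exact hzw
    · exact hzw.symm
    · exact absurd rfl hxy)
  rw [Finset.sum_pair hne, Finset.sum_pair hne, hws, hz1] at this
  have hW : 0 < ws ω U := by linarith
  have h2 : ws ω U * (1 ^ 2 + ω w ^ 2) ≤ ws ω U * (1 + ω w) := by
    apply mul_le_mul_of_nonneg_left _ hW.le
    nlinarith
  have e : (1 + ω w) * (2 * (wb G ω U z + wb G ω U w)) < (1 + ω w) * ws ω U := by linarith
  have := lt_of_mul_lt_mul_left e (by linarith)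
  linarith

/-- triangle of unit weights -/
theorem WSol.tri_unit [DecidableEq V] {ω : V → ℝ} {U : Finset V} (h : WSol G ω U) {u z w : V}
    (hu : u ∈ U) (hz : z ∈ U) (hw : w ∈ U) (huz : G.Adj u z) (huw : G.Adj u w)
    (hzw : G.Adj z w) (hu1 : ω u = 1) (hz1 : ω z = 1) (hw1 : ω w = 1)
    (h1 : 3 < ws ω U) : wb G ω U u + (wb G ω U z + wb G ω U w) < ws ω U / 2 := by
  have hcard : #({u, z, w} : Finset V) = 3 :=
    Finset.card_eq_three.mpr ⟨u, z, w, huz.ne, huw.ne, hzw.ne, rfl⟩
  have := h.clique_unit (S := {u, z, w}) (by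
      intro x hx; simp only [Finset.mem_insert, Finset.mem_singleton] at hx
      rcases hx with rfl | rfl | rfl <;> assumption) (by simp) (by
      intro x hx; simp only [Finset.mem_insert, Finset.mem_singleton] at hx
      rcases hx with rfl | rfl | rfl <;> assumption) (by
      rw [hcard]; exact_mod_cast h1) (by
    intro x hx y hy hxy
    simp only [Finset.mem_insert, Finset.mem_singleton] at hx hy
    rcases hx with rfl | rfl | rfl <;> rcases hy with rfl | rfl | rfl
    · exact absurd rfl hxy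
    · exact huz
    · exact huw
    · exact huz.symm
    · exact absurd rfl hxy
    · exact hzw
    · exact huw.symm
    · exact hzw.symm
    · exact absurd rfl hxy)
  rwa [Finset.sum_insert (by simp [huz.ne, huw.ne]), Finset.sum_pair hzw.ne] at this

end TwoClub
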